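import Mathlib

/-!
Small points in `Q(mu_inf, a^{1/n} : n S-smooth)`: basic facts on the algebraic closure of `ℚ_p`.
-/

namespace MS

open IntermediateField

variable {p : ℕ} [hp : Fact p.Prime]

/-- the Galois group of the algebraic closure of `ℚ_p`. -/
abbrev Gp (p : ℕ) [Fact p.Prime] := PadicAlgCl p ≃ₐ[ℚ_[p]] PadicAlgCl p

theorem norm_gal (g : Gp p) (x : PadicAlgCl p) : ‖g x‖ = ‖x‖ := by
  rw [← PadicAlgCl.spectralNorm_eq, ← PadicAlgCl.spectralNorm_eq]
  exact (spectralNorm_eq_of_equiv g x).symm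

theorem mem_iff_fixed (F : IntermediateField ℚ_[p] (PadicAlgCl p)) (x : PadicAlgCl p) :
    x ∈ F ↔ ∀ g : Gp p, (∀ y ∈ F, g y = y) → g x = x := by
  constructor
  · intro hx g hg
    exact hg x hx
  · intro h
    have := InfiniteGalois.fixedField_fixingSubgroup (k := ℚ_[p]) (K := PadicAlgCl p) F
    rw [← this, IntermediateField.mem_fixedField_iff]
    intro g hg
    exact h g (fun y hy => (IntermediateField.mem_fixingSubgroup_iff _ _).1 hg y hy)

theorem norm_add_le_max' (x y : PadicAlgCl p) : ‖x + y‖ ≤ max ‖x‖ ‖y‖ :=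
  PadicAlgCl.isNonarchimedean p x y

theorem norm_sub_le_max' (x y : PadicAlgCl p) : ‖x - y‖ ≤ max ‖x‖ ‖y‖ := by
  rw [sub_eq_add_neg]
  simpa using norm_add_le_max' x (-y)

theorem norm_natCast_le_one (n : ℕ) : ‖(n : PadicAlgCl p)‖ ≤ 1 := by
  rw [← map_natCast (algebraMap ℚ_[p] (PadicAlgCl p)), norm_algebraMap']
  exact_mod_cast Padic.norm_int_le_one (p := p) (n : ℤ)

theorem norm_intCast_le_one (n : ℤ) : ‖(n : PadicAlgCl p)‖ ≤ 1 := by
  rw [← map_intCast (algebraMap ℚ_[p] (PadicAlgCl p)), norm_algebraMap']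
  exact Padic.norm_int_le_one (p := p) n

variable (p) in
theorem norm_p : ‖(p : PadicAlgCl p)‖ = (p : ℝ)⁻¹ := by
  rw [← map_natCast (algebraMap ℚ_[p] (PadicAlgCl p)), norm_algebraMap']
  exact Padic.norm_p

theorem norm_natCast_eq_one {n : ℕ} (h : n.Coprime p) : ‖(n : PadicAlgCl p)‖ = 1 := by
  rw [← map_natCast (algebraMap ℚ_[p] (PadicAlgCl p)), norm_algebraMap']
  exact Padic.norm_natCast_eq_one_iff.2 h.symm

/-- the ultrametric inequality for finite sums -/
theorem norm_sum_le' {ι : Type*} (s : Finset ι) (f : ι → PadicAlgCl p) {C : ℝ} (hC : 0 ≤ C)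
    (h : ∀ i ∈ s, ‖f i‖ ≤ C) : ‖∑ i ∈ s, f i‖ ≤ C :=
  IsUltrametricDist.norm_sum_le_of_forall_le_of_nonneg hC h

theorem norm_pow_sub_one_le {x : PadicAlgCl p} (hx : ‖x‖ ≤ 1) (n : ℕ) : ‖x ^ n - 1‖ ≤ ‖x - 1‖ := by
  rw [← mul_geom_sum x n, norm_mul]
  have : ‖∑ i ∈ Finset.range n, x ^ i‖ ≤ 1 := by
    apply norm_sum_le' _ _ zero_le_one
    intro i _
    rw [norm_pow]
    exact pow_le_one₀ (norm_nonneg _) hx
  nlinarith [norm_nonneg (x - 1)]

theorem norm_root_of_unity {x : PadicAlgCl p} {n : ℕ} (hn : n ≠ 0) (hx : x ^ n = 1) : ‖x‖ = 1 := by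
  have h1 : ‖x‖ ^ n = 1 := by rw [← norm_pow, hx, norm_one]
  exact (pow_eq_one_iff_of_nonneg (norm_nonneg _) hn).1 h1

/-- If `x` and `y` are powers of each other then `‖x - 1‖ = ‖y - 1‖`. -/
theorem norm_sub_one_eq_of_pow {x y : PadicAlgCl p} {m n : ℕ} (hx : ‖x‖ ≤ 1) (hy : ‖y‖ ≤ 1)
    (h1 : x ^ m = y) (h2 : y ^ n = x) : ‖x - 1‖ = ‖y - 1‖ := by
  apply le_antisymm
  · rw [← h2]; exact norm_pow_sub_one_le hy n
  · rw [← h1]; exact norm_pow_sub_one_le hx m

/-- the valuation (natural logarithm scale) of `ζ_p - 1`. -/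
noncomputable def pi0 (p : ℕ) : ℝ := Real.log p / (p - 1)

theorem log_p_pos (p : ℕ) [hp : Fact p.Prime] : 0 < Real.log p :=
  Real.log_pos (by exact_mod_cast hp.out.one_lt)

theorem p_sub_one_pos (p : ℕ) [hp : Fact p.Prime] : (0 : ℝ) < (p : ℝ) - 1 := by
  have : (1 : ℝ) < p := by exact_mod_cast hp.out.one_lt
  linarith

theorem pi0_pos (p : ℕ) [hp : Fact p.Prime] : 0 < pi0 p := div_pos (log_p_pos p) (p_sub_one_pos p)

theorem p_sub_one_mul_pi0 (p : ℕ) [hp : Fact p.Prime] : ((p : ℝ) - 1) * pi0 p = Real.log p := by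
  unfold pi0
  have := p_sub_one_pos p
  field_simp

theorem norm_p_eq_exp : ‖(p : PadicAlgCl p)‖ = Real.exp (-Real.log p) := by
  rw [norm_p, Real.exp_neg, Real.exp_log]
  exact_mod_cast hp.out.pos

theorem norm_zeta_sub_one {x : PadicAlgCl p} (hx : x ^ p = 1) (hx1 : x ≠ 1) :
    ‖x - 1‖ = Real.exp (-pi0 p) := by
  have hprim : IsPrimitiveRoot x p := by
    have h1 : orderOf x ∣ p := orderOf_dvd_of_pow_eq_one hx
    have h2 : orderOf x = p := by
      rcases (Nat.dvd_prime hp.out).1 h1 with h | h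
      · exact absurd (orderOf_eq_one_iff.1 h) hx1
      · exact h
    have h3 := IsPrimitiveRoot.orderOf x
    rwa [h2] at h3
  have hev := Polynomial.eval_one_cyclotomic_prime (R := PadicAlgCl p) (p := p)
  rw [Polynomial.cyclotomic_eq_prod_X_sub_primitiveRoots hprim, Polynomial.eval_prod] at hev
  have hnorm := congrArg norm hev
  rw [norm_prod] at hnorm
  have hall : ∀ y ∈ primitiveRoots p (PadicAlgCl p),
      ‖Polynomial.eval 1 (Polynomial.X - Polynomial.C y)‖ = ‖x - 1‖ := by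
    intro y hy
    have hy' := isPrimitiveRoot_of_mem_primitiveRoots hy
    simp only [Polynomial.eval_sub, Polynomial.eval_X, Polynomial.eval_C]
    rw [norm_sub_rev]
    obtain ⟨i, _, hi⟩ := hprim.eq_pow_of_pow_eq_one hy'.pow_eq_one
    obtain ⟨j, _, hj⟩ := hy'.eq_pow_of_pow_eq_one hprim.pow_eq_one
    have hxn := norm_root_of_unity hp.out.ne_zero hx
    have hyn := norm_root_of_unity hp.out.ne_zero hy'.pow_eq_one
    exact (norm_sub_one_eq_of_pow hxn.le hyn.le hi hj).symm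
  rw [Finset.prod_congr rfl hall, Finset.prod_const, hprim.card_primitiveRoots,
    Nat.totient_prime hp.out, norm_p_eq_exp] at hnorm
  have hp1 : p - 1 ≠ 0 := by have := hp.out.two_le; omega
  have h3 : Real.exp (-pi0 p) ^ (p - 1) = Real.exp (-Real.log p) := by
    rw [← Real.exp_nat_mul]
    congr 1
    rw [Nat.cast_sub hp.out.one_lt.le, Nat.cast_one]
    have := p_sub_one_mul_pi0 p
    linarith
  rw [← h3] at hnorm
  exact (pow_left_inj₀ (norm_nonneg _) (Real.exp_pos _).le hp1).1 hnorm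

end MS
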