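import Pool.Agent.Lib_helper24.MS.Depth

/-!
Iterated norms down a tower and the non-approximation lemma.
-/

namespace MS

open Finset

variable {p : ℕ} [hp : Fact p.Prime]

/-- `z` is not well approximated by elements of `F`. -/
def NonApprox (F : IntermediateField ℚ_[p] (PadicAlgCl p)) (z : PadicAlgCl p) (d : ℝ) : Prop :=
  ∀ c ∈ F, Real.exp (-(pi0 p - d)) * ‖z‖ ≤ ‖z - c‖

theorem NonApprox.mono {F F' : IntermediateField ℚ_[p] (PadicAlgCl p)} {z : PadicAlgCl p}
    {d d' : ℝ} (h : NonApprox F z d) (hd : d' ≤ d) (hF : F' ≤ F) : NonApprox F' z d' := by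
  intro c hc
  refine le_trans ?_ (h c (hF hc))
  gcongr

/-- the iterated norm. -/
noncomputable def Nn (g : Gp p) : ℕ → PadicAlgCl p → PadicAlgCl p
  | 0, y => y
  | (n + 1), y => Nn g n (∏ l ∈ range p, ((g ^ (p ^ n)) ^ l) y)

theorem Nn_ratio (g : Gp p) (n : ℕ) (v : PadicAlgCl p) (hv : v ≠ 0) :
    Nn g n (v / g v) = v / (g ^ (p ^ n)) v := by
  induction n generalizing v with
  | zero => simp [Nn]
  | succ n ih =>
    unfold Nn
    set h := g ^ (p ^ n) with hh
    set A := ∏ l ∈ range p, (h ^ l) v with hA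
    have hA0 : A ≠ 0 := by
      rw [hA, Finset.prod_ne_zero_iff]
      intro l _
      exact (map_ne_zero (h ^ l)).2 hv
    have h1 : ∏ l ∈ range p, (h ^ l) (v / g v) = A / g A := by
      rw [hA, map_prod, ← Finset.prod_div_distrib]
      apply Finset.prod_congr rfl
      intro l _
      rw [map_div₀]
      congr 1
      have hc : h ^ l * g = g * h ^ l := by
        rw [hh]
        exact ((Commute.refl g).pow_left (p ^ n)).pow_left l
      exact congrArg (fun f : Gp p => f v) hc
    rw [h1, ih A hA0]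
    have h2 : h A = ∏ l ∈ range p, (h ^ (l + 1)) v := by
      rw [hA, map_prod]
      apply Finset.prod_congr rfl
      intro l _
      rw [pow_succ']
      rfl
    have h3 : A * (h ^ p) v = v * h A := by
      rw [h2, hA, ← Finset.prod_range_succ, Finset.prod_range_succ', mul_comm]
      simp
    have h4 : g ^ (p ^ (n + 1)) = h ^ p := by rw [hh, ← pow_mul, pow_succ]
    have h5 : (h ^ p) v ≠ 0 := (map_ne_zero (h ^ p)).2 hv
    have h6 : h A ≠ 0 := by simpa using hA0
    rw [h4, div_eq_div_iff h6 h5, h3]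

theorem Nn_bound {g : Gp p} {G : ℕ → IntermediateField ℚ_[p] (PadicAlgCl p)} {d : ℕ → ℝ} (n : ℕ)
    (ha : ∀ i < n, ∀ x ∈ G (i + 1), g x ∈ G (i + 1))
    (hb : ∀ i < n, ∀ x ∈ G (i + 1), (g ^ (p ^ (i + 1))) x = x)
    (hc : ∀ i < n, ∀ x ∈ G (i + 1), (g ^ (p ^ i)) x = x → x ∈ G i)
    (hd : ∀ i < n, Depth (g ^ (p ^ i)) (G (i + 1)) (d i))
    (hd0 : ∀ i < n, 0 ≤ d i) (hd1 : ∀ i < n, d i ≤ pi0 p)
    {y : PadicAlgCl p} (hy : y ∈ G n) {r : ℝ} (hr : ‖y - 1‖ ≤ r) (hr1 : r ≤ 1) :
    ‖Nn g n y - 1‖ ≤ max (r ^ p) (Real.exp (-((p - 1) * ∑ i ∈ range n, d i)) * r) := by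
  induction n generalizing y r with
  | zero =>
    simp only [Nn, Finset.range_zero, Finset.sum_empty, mul_zero, neg_zero, Real.exp_zero, one_mul]
    exact le_max_of_le_right hr
  | succ n ih =>
    unfold Nn
    set h := g ^ (p ^ n) with hh
    set w := y - 1 with hw
    have hyw : y = 1 + w := by rw [hw]; ring
    have hwG : w ∈ G (n + 1) := (G (n + 1)).sub_mem hy (G (n + 1)).one_mem
    have hw1 : ‖w‖ ≤ 1 := hr.trans hr1
    have hr0 : 0 ≤ r := (norm_nonneg _).trans hr
    have hhG : ∀ x ∈ G (n + 1), h x ∈ G (n + 1) := by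
      intro x hx
      have : ∀ m : ℕ, (g ^ m) x ∈ G (n + 1) := by
        intro m
        induction m with
        | zero => simpa using hx
        | succ m ihm =>
          rw [pow_succ', AlgEquiv.mul_apply]
          exact ha n (Nat.lt_succ_self n) _ ihm
      exact this _
    have hprod : ∏ l ∈ range p, (h ^ l) y = ∏ l ∈ range p, (1 + (h ^ l) w) := by
      apply Finset.prod_congr rfl
      intro l _
      rw [hyw, map_add, map_one]
    set y' := ∏ l ∈ range p, (h ^ l) y with hy'
    have hy'G : y' ∈ G n := by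
      apply hc n (Nat.lt_succ_self n)
      · rw [hy']
        apply prod_mem
        intro l _
        have : ∀ m : ℕ, (h ^ m) y ∈ G (n + 1) := by
          intro m
          induction m with
          | zero => simpa using hy
          | succ m ihm =>
            rw [pow_succ', AlgEquiv.mul_apply]
            exact hhG _ ihm
        exact this l
      · rw [← hh, hy', map_prod]
        have h2 : ∏ l ∈ range p, h ((h ^ l) y) = ∏ l ∈ range p, (h ^ (l + 1)) y := by
          apply Finset.prod_congr rfl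
          intro l _
          rw [pow_succ']
          rfl
        rw [h2]
        have hy0 : (h ^ p) y = y := by
          have := hb n (Nat.lt_succ_self n) y hy
          rwa [pow_succ p n, pow_mul, ← hh] at this
        by_cases hyz : y = 0
        · simp [hyz]
        · have h3 : y * ∏ l ∈ range p, (h ^ (l + 1)) y = y * ∏ l ∈ range p, (h ^ l) y := by
            have e1 := Finset.prod_range_succ' (fun l => (h ^ l) y) p
            rw [Finset.prod_range_succ] at e1
            simp only [pow_zero, AlgEquiv.one_apply] at e1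
            rw [hy0] at e1
            rw [mul_comm y, ← e1, mul_comm]
          exact mul_left_cancel₀ hyz h3
    have hbound := norm_prod_sub_le hhG (hd n (Nat.lt_succ_self n)) (hd0 n (Nat.lt_succ_self n))
      (hd1 n (Nat.lt_succ_self n)) hwG hw1
    have hNw := norm_prod_gal h w
    have hy'1 : ‖y' - 1‖ ≤ max (r ^ p) (Real.exp (-((p - 1) * d n)) * r) := by
      have : y' - 1 = (∏ l ∈ range p, (1 + (h ^ l) w) - 1 - ∏ l ∈ range p, (h ^ l) w)
          + ∏ l ∈ range p, (h ^ l) w := by rw [hprod]; ring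
      rw [this]
      refine (norm_add_le_max' _ _).trans (max_le ?_ ?_)
      · apply le_max_of_le_right
        refine hbound.trans ?_
        gcongr
      · apply le_max_of_le_left
        rw [hNw]
        gcongr
    have hr'1 : max (r ^ p) (Real.exp (-((p - 1) * d n)) * r) ≤ r := by
      apply max_le
      · calc r ^ p ≤ r ^ 1 := pow_le_pow_of_le_one hr0 hr1 hp.out.one_lt.le
          _ = r := pow_one r
      · have : Real.exp (-((p - 1) * d n)) ≤ 1 := by
          rw [Real.exp_le_one_iff]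
          have := p_sub_one_pos p
          have := hd0 n (Nat.lt_succ_self n)
          nlinarith
        nlinarith
    have key := ih (fun i hi => ha i (Nat.lt_succ_of_lt hi)) (fun i hi => hb i (Nat.lt_succ_of_lt hi))
      (fun i hi => hc i (Nat.lt_succ_of_lt hi)) (fun i hi => hd i (Nat.lt_succ_of_lt hi))
      (fun i hi => hd0 i (Nat.lt_succ_of_lt hi)) (fun i hi => hd1 i (Nat.lt_succ_of_lt hi))
      hy'G hy'1 (hr'1.trans hr1)
    refine key.trans (max_le ?_ ?_)
    · apply le_max_of_le_left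
      gcongr
    · have hS0 : 0 ≤ ∑ i ∈ range n, d i :=
        Finset.sum_nonneg (fun i hi => hd0 i (Nat.lt_succ_of_lt (Finset.mem_range.1 hi)))
      have hexp1 : Real.exp (-((p - 1) * ∑ i ∈ range n, d i)) ≤ 1 := by
        rw [Real.exp_le_one_iff]
        have := p_sub_one_pos p
        nlinarith
      rw [mul_max_of_nonneg _ _ (Real.exp_pos _).le]
      apply max_le_max
      · have : 0 ≤ r ^ p := by positivity
        nlinarith
      · rw [← mul_assoc, ← Real.exp_add, Finset.sum_range_succ]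
        gcongr
        linarith

theorem pi0_sub (p : ℕ) [hp : Fact p.Prime] : pi0 p - Real.log p / p = pi0 p / p := by
  have h := p_sub_one_mul_pi0 p
  have hp0 : (p : ℝ) ≠ 0 := by exact_mod_cast hp.out.ne_zero
  rw [← h]
  field_simp
  ring

theorem log_div_le_pi0 (p : ℕ) [hp : Fact p.Prime] : Real.log p / p ≤ pi0 p := by
  have h := pi0_sub p
  have h2 := pi0_pos p
  have : 0 < pi0 p / p := div_pos h2 (by exact_mod_cast hp.out.pos)
  linarith

/-- The main non-approximation lemma. -/
theorem nonApprox_of_tower {g : Gp p} {G : ℕ → IntermediateField ℚ_[p] (PadicAlgCl p)}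
    {d : ℕ → ℝ} (n : ℕ)
    (ha : ∀ i < n, ∀ x ∈ G (i + 1), g x ∈ G (i + 1))
    (hb : ∀ i < n, ∀ x ∈ G (i + 1), (g ^ (p ^ (i + 1))) x = x)
    (hc : ∀ i < n, ∀ x ∈ G (i + 1), (g ^ (p ^ i)) x = x → x ∈ G i)
    (hd : ∀ i < n, Depth (g ^ (p ^ i)) (G (i + 1)) (d i))
    (hd0 : ∀ i < n, 0 ≤ d i) (hd1 : ∀ i < n, d i ≤ pi0 p)
    (hgn : ∀ x ∈ G n, g x ∈ G n) (hgn' : ∀ x ∈ G n, (g ^ (p ^ n)) x = x)
    {z ξ : PadicAlgCl p} (hz : z ≠ 0) (hθ : g z / z ∈ G n) (hξ : (g ^ (p ^ n)) z = ξ * z)
    (hξp : ξ ^ p = 1) (hξ1 : ξ ≠ 1) :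
    NonApprox (G n) z (min (Real.log p / p) ((p - 1) * ∑ i ∈ range n, d i)) := by
  intro c hcG
  set D := min (Real.log p / p) ((p - 1) * ∑ i ∈ range n, d i) with hD
  by_contra hcon
  rw [not_le] at hcon
  have hDpi : D ≤ pi0 p := (min_le_left _ _).trans (log_div_le_pi0 p)
  have hzn : 0 < ‖z‖ := norm_pos_iff.2 hz
  have hexp : Real.exp (-(pi0 p - D)) ≤ 1 := by
    rw [Real.exp_le_one_iff]; linarith
  have hlt : ‖z - c‖ < ‖z‖ := by nlinarith
  have hcn : ‖c‖ = ‖z‖ := by
    have h1 : ‖z + -(z - c)‖ = max ‖z‖ ‖-(z - c)‖ :=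
      IsUltrametricDist.norm_add_eq_max_of_norm_ne_norm (by rw [norm_neg]; exact hlt.ne')
    have h2 : z + -(z - c) = c := by ring
    rw [h2, norm_neg, max_eq_left hlt.le] at h1
    exact h1
  have hc0 : c ≠ 0 := by rw [← norm_pos_iff, hcn]; exact hzn
  set v := z / c with hv
  have hv0 : v ≠ 0 := div_ne_zero hz hc0
  set r := ‖z - c‖ / ‖z‖ with hr
  have hr1 : r < Real.exp (-(pi0 p - D)) := by
    rw [hr, div_lt_iff₀ hzn]; exact hcon
  have hr0 : 0 ≤ r := by positivity
  have hvn : ‖v‖ = 1 := by rw [hv, norm_div, hcn, div_self hzn.ne']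
  have hv1 : ‖v - 1‖ = r := by
    have : v - 1 = (z - c) / c := by rw [hv]; field_simp
    rw [this, norm_div, hcn]
  have hgv0 : g v ≠ 0 := by simpa using hv0
  set y := v / g v with hy
  have hyG : y ∈ G n := by
    have : y = (g z / z)⁻¹ * (g c / c) := by
      rw [hy, hv, map_div₀]
      have : g z ≠ 0 := by simpa using hz
      have : g c ≠ 0 := by simpa using hc0
      field_simp
    rw [this]
    exact (G n).mul_mem ((G n).inv_mem hθ) ((G n).div_mem (hgn c hcG) hcG)
  have hy1 : ‖y - 1‖ ≤ r := by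
    have : y - 1 = ((v - 1) - g (v - 1)) / g v := by
      rw [hy, map_sub, map_one]; field_simp; ring
    rw [this, norm_div, norm_gal, hvn, div_one]
    refine (norm_sub_le_max' _ _).trans ?_
    rw [norm_gal, hv1, max_self]
  have hNn : Nn g n y = ξ⁻¹ := by
    rw [hy, Nn_ratio g n v hv0, hv, map_div₀, hgn' c hcG, hξ]
    have : ξ ≠ 0 := by
      rintro rfl
      rw [zero_pow hp.out.ne_zero] at hξp
      exact zero_ne_one hξp
    field_simp
  have hbd := Nn_bound n ha hb hc hd hd0 hd1 hyG hy1 (by linarith)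
  rw [hNn] at hbd
  have hξinv : ‖ξ⁻¹ - 1‖ = Real.exp (-pi0 p) :=
    norm_zeta_sub_one (by rw [inv_pow, hξp, inv_one]) (fun h => hξ1 (inv_eq_one.1 h))
  rw [hξinv] at hbd
  rcases le_max_iff.1 hbd with h | h
  · have h1 : r < Real.exp (-(pi0 p / p)) := by
      refine hr1.trans_le ?_
      rw [Real.exp_le_exp, ← pi0_sub]
      have : D ≤ Real.log p / p := min_le_left _ _
      linarith
    have h2 : r ^ p < Real.exp (-(pi0 p / p)) ^ p := pow_lt_pow_left₀ h1 hr0 hp.out.ne_zero
    rw [← Real.exp_nat_mul] at h2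
    have h3 : (p : ℝ) * -(pi0 p / p) = -pi0 p := by
      have : (p : ℝ) ≠ 0 := by exact_mod_cast hp.out.ne_zero
      field_simp
    rw [h3] at h2
    linarith
  · have h1 : Real.exp (-((p - 1) * ∑ i ∈ range n, d i)) * r <
        Real.exp (-((p - 1) * ∑ i ∈ range n, d i)) * Real.exp (-(pi0 p - D)) := by
      gcongr
    rw [← Real.exp_add] at h1
    have h2 : Real.exp (-((p - 1) * ∑ i ∈ range n, d i) + -(pi0 p - D)) ≤ Real.exp (-pi0 p) := by
      rw [Real.exp_le_exp]
      have : D ≤ (p - 1) * ∑ i ∈ range n, d i := min_le_right _ _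
      linarith
    linarith

end MS
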