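import Pool.Agent.Lib_helper24.MS.Unram

/-!
Discreteness, Teichmüller approximation, positivity of the non-approximation constant.
-/

namespace MS

open Finset IntermediateField

variable {p : ℕ} [hp : Fact p.Prime]

theorem norm_pow_natDegree (x : PadicAlgCl p) :
    ‖x‖ ^ (minpoly ℚ_[p] x).natDegree = ‖(minpoly ℚ_[p] x).coeff 0‖ := by
  have h := spectralNorm.spectralNorm_eq_norm_coeff_zero_rpow (K := ℚ_[p]) (L := PadicAlgCl p) x
  rw [PadicAlgCl.spectralNorm_eq] at h
  have hd : (minpoly ℚ_[p] x).natDegree ≠ 0 :=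
    (minpoly.natDegree_pos (Algebra.IsIntegral.isIntegral x)).ne'
  rw [h, ← Real.rpow_natCast, ← Real.rpow_mul (norm_nonneg _), one_div, inv_mul_cancel₀
    (by exact_mod_cast hd), Real.rpow_one]

/-- discreteness of the values of the norm -/
theorem exists_norm_discrete (F : IntermediateField ℚ_[p] (PadicAlgCl p))
    [FiniteDimensional ℚ_[p] F] : ∃ D : ℕ, 0 < D ∧ ∀ x ∈ F, x ≠ 0 → ∃ m : ℤ, ‖x‖ ^ D = (p : ℝ) ^ m := by
  refine ⟨Module.finrank ℚ_[p] F, Module.finrank_pos, ?_⟩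
  intro x hx hx0
  have h1 : (minpoly ℚ_[p] x).natDegree ∣ Module.finrank ℚ_[p] F := by
    have h2 := minpoly.degree_dvd (K := ℚ_[p]) (L := F) (x := ⟨x, hx⟩)
      (Algebra.IsIntegral.isIntegral _)
    have h3 : minpoly ℚ_[p] (⟨x, hx⟩ : F) = minpoly ℚ_[p] x :=
      (minpoly.algebraMap_eq (algebraMap F (PadicAlgCl p)).injective (⟨x, hx⟩ : F)).symm
    rwa [h3] at h2
  obtain ⟨e, he⟩ := h1
  have hc0 : (minpoly ℚ_[p] x).coeff 0 ≠ 0 :=
    minpoly.coeff_zero_ne_zero (Algebra.IsIntegral.isIntegral x) hx0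
  refine ⟨-(((minpoly ℚ_[p] x).coeff 0).valuation) * e, ?_⟩
  rw [he, pow_mul, norm_pow_natDegree, Padic.norm_eq_zpow_neg_valuation hc0, ← zpow_natCast,
    ← zpow_mul]

theorem discrete_le {r : ℝ} {D : ℕ} (h : ∃ m : ℤ, r ^ D = (p : ℝ) ^ m) (h1 : r ^ D < 1) :
    r ^ D ≤ (p : ℝ)⁻¹ := by
  obtain ⟨m, hm⟩ := h
  have hp1 : (1 : ℝ) < p := by exact_mod_cast hp.out.one_lt
  rw [hm] at h1 ⊢
  have h2 : m < 0 := by
    by_contra hcon
    rw [not_lt] at hcon
    have := one_le_zpow₀ hp1.le hcon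
    linarith
  rw [← zpow_neg_one]
  exact zpow_le_zpow_right₀ hp1.le (by omega)

theorem exists_unity_close {F : IntermediateField ℚ_[p] (PadicAlgCl p)}
    [FiniteDimensional ℚ_[p] F] {u : PadicAlgCl p} (hu : u ∈ F) (hu1 : ‖u‖ = 1) :
    ∃ n : ℕ, n.Coprime p ∧ 0 < n ∧ ‖u ^ n - 1‖ < 1 := by
  obtain ⟨f, hf, h⟩ := exists_pow_close F hu hu1.le
  have h2 : 2 ≤ p ^ f := by
    calc 2 ≤ p := hp.out.two_le
      _ = p ^ 1 := (pow_one p).symm
      _ ≤ p ^ f := Nat.pow_le_pow_right hp.out.pos (Nat.one_le_iff_ne_zero.2 hf)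
  refine ⟨p ^ f - 1, ?_, by omega, ?_⟩
  · have h3 : Nat.Coprime (p ^ f - 1) (p ^ f) := by
      have := Nat.coprime_self_sub_right (m := 1) (n := p ^ f) (by omega)
      rw [Nat.coprime_comm]
      exact this.2 (Nat.coprime_one_right _)
    exact Nat.Coprime.coprime_dvd_right (dvd_pow_self p hf) h3
  · have h3 : u ^ (p ^ f) - u = u * (u ^ (p ^ f - 1) - 1) := by
      rw [mul_sub, ← pow_succ', Nat.sub_add_cancel (by omega), mul_one]
    rw [h3, norm_mul, hu1, one_mul] at h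
    exact h

theorem exists_teich {u : PadicAlgCl p} (hu1 : ‖u‖ ≤ 1) :
    ∃ (n : ℕ) (η ω : PadicAlgCl p), n.Coprime p ∧ η ^ n = 1 ∧ (ω = 0 ∨ ω = η) ∧ ‖u - ω‖ < 1 := by
  rcases lt_or_eq_of_le hu1 with h | h
  · exact ⟨1, 1, 0, Nat.coprime_one_left p, one_pow _, Or.inl rfl, by simpa using h⟩
  · have hfin : FiniteDimensional ℚ_[p] (adj (⊥ : IntermediateField ℚ_[p] (PadicAlgCl p)) u) :=
      inferInstance
    obtain ⟨n, hn, hn0, hlt⟩ := exists_unity_close
      (mem_adj_self (⊥ : IntermediateField ℚ_[p] (PadicAlgCl p)) u) h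
    set P : Polynomial (PadicAlgCl p) := Polynomial.X ^ n - Polynomial.C 1 with hP
    have hPm : P.Monic := Polynomial.monic_X_pow_sub_C _ hn0.ne'
    have hsplit : P.Splits := IsAlgClosed.splits P
    have heval : P.eval u = u ^ n - 1 := by
      rw [hP]; simp
    have hprod : P.eval u = (P.roots.map (fun r => u - r)).prod := by
      have h2 := hsplit.eq_prod_roots_of_monic hPm
      conv_lhs => rw [h2]
      rw [Polynomial.eval_multiset_prod, Multiset.map_map]
      congr 1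
      apply Multiset.map_congr rfl
      intro r _
      simp
    have hex : ∃ r ∈ P.roots, ‖u - r‖ < 1 := by
      by_contra hcon
      push Not at hcon
      have h3 : 1 ≤ ‖P.eval u‖ := by
        rw [hprod]
        have h4 : ∀ s : Multiset (PadicAlgCl p), (∀ r ∈ s, 1 ≤ ‖u - r‖) →
            1 ≤ ‖(s.map (fun r => u - r)).prod‖ := by
          intro s
          induction s using Multiset.induction_on with
          | empty => intro _; simp
          | cons a s ih =>
            intro hs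
            rw [Multiset.map_cons, Multiset.prod_cons, norm_mul]
            have h5 := hs a (Multiset.mem_cons_self a s)
            have h6 := ih (fun r hr => hs r (Multiset.mem_cons_of_mem hr))
            nlinarith
        exact h4 _ hcon
      rw [heval] at h3
      linarith
    obtain ⟨r, hr, hrlt⟩ := hex
    refine ⟨n, r, r, hn, ?_, Or.inr rfl, hrlt⟩
    have h5 := (Polynomial.mem_roots'.1 hr).2
    rw [Polynomial.IsRoot, hP] at h5
    simp only [Polynomial.eval_sub, Polynomial.eval_pow, Polynomial.eval_X,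
      Polynomial.eval_C] at h5
    exact sub_eq_zero.1 h5

/-- positivity of the non-approximation constant -/
theorem nonApprox_pos {F : IntermediateField ℚ_[p] (PadicAlgCl p)} [FiniteDimensional ℚ_[p] F]
    (hμ : ∀ ξ : PadicAlgCl p, ξ ^ p = 1 → ξ ∈ F) {z : PadicAlgCl p} (hz : z ≠ 0)
    (hzp : z ^ p ∈ F)
    (h : ∀ (n : ℕ) (ω : PadicAlgCl p), n.Coprime p → ω ^ n = 1 → z ∉ adj F ω) :
    ∃ m : ℝ, 0 < m ∧ NonApprox F z m := by
  obtain ⟨c, hc, hmin⟩ := exists_nearest F z
  have hzn : 0 < ‖z‖ := norm_pos_iff.2 hz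
  have key : Real.exp (-pi0 p) * ‖z‖ < ‖z - c‖ := by
    by_contra hcon
    rw [not_lt] at hcon
    have hexp : Real.exp (-pi0 p) < 1 := by
      rw [Real.exp_lt_one_iff]
      have := pi0_pos p
      linarith
    have hlt : ‖z - c‖ < ‖z‖ := by nlinarith
    have hcn : ‖c‖ = ‖z‖ := by
      have h1 : ‖z + -(z - c)‖ = max ‖z‖ ‖-(z - c)‖ :=
        IsUltrametricDist.norm_add_eq_max_of_norm_ne_norm (by rw [norm_neg]; exact hlt.ne')
      have h2 : z + -(z - c) = c := by ring
      rw [h2, norm_neg, max_eq_left hlt.le] at h1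
      exact h1
    have hc0 : c ≠ 0 := by rw [← norm_pos_iff, hcn]; exact hzn
    -- a primitive `p`-th root of unity
    obtain ⟨ζ, hζ⟩ : ∃ ζ : PadicAlgCl p, IsPrimitiveRoot ζ p := by
      have : NeZero ((p : ℕ) : PadicAlgCl p) := ⟨by exact_mod_cast hp.out.ne_zero⟩
      exact HasEnoughRootsOfUnity.exists_primitiveRoot (PadicAlgCl p) p
    have hζ1 : ζ ≠ 1 := hζ.ne_one hp.out.one_lt
    have hζF : ζ ∈ F := hμ ζ hζ.pow_eq_one
    have hζn : ‖ζ - 1‖ = Real.exp (-pi0 p) := norm_zeta_sub_one hζ.pow_eq_one hζ1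
    have hζ0 : ζ - 1 ≠ 0 := sub_ne_zero.2 hζ1
    set v := z / c with hv
    have hvn : ‖v‖ = 1 := by rw [hv, norm_div, hcn, div_self hzn.ne']
    set u := (v - 1) / (ζ - 1) with hu
    have hu1 : ‖u‖ ≤ 1 := by
      have h1 : v - 1 = (z - c) / c := by rw [hv]; field_simp
      rw [hu, h1, norm_div, norm_div, hcn, hζn, div_le_one (Real.exp_pos _), div_le_iff₀ hzn]
      exact hcon
    obtain ⟨n, η, ω, hn, hη, hω, hlt2⟩ := exists_teich hu1
    obtain ⟨g, hg, hgz⟩ := exists_gal_ne (h n η hn hη)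
    have hgF : ∀ y ∈ F, g y = y := fun y hy => hg y (le_adj F η hy)
    obtain ⟨ξ, hξ, hgzξ⟩ := gal_zeta hz hzp hgF
    have hξ1 : ξ ≠ 1 := by
      rintro rfl
      rw [one_mul] at hgzξ
      exact hgz hgzξ
    have hgω : g ω = ω := by
      rcases hω with h1 | h1
      · rw [h1, map_zero]
      · rw [h1]; exact hg η (mem_adj_self F η)
    have e1 : g u - u = (ξ - 1) * v / (ζ - 1) := by
      rw [hu, map_div₀, map_sub, map_sub, map_one, hgF ζ hζF, hv, map_div₀, hgzξ, hgF c hc]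
      field_simp
      ring
    have e2 : ‖g u - u‖ = 1 := by
      rw [e1, norm_div, norm_mul, hvn, mul_one, hζn, norm_zeta_sub_one hξ hξ1,
        div_self (Real.exp_pos _).ne']
    have e3 : g u - u = g (u - ω) - (u - ω) := by rw [map_sub, hgω]; ring
    have e4 : ‖g u - u‖ < 1 := by
      rw [e3]
      refine (norm_sub_le_max' _ _).trans_lt ?_
      rw [norm_gal, max_self]
      exact hlt2
    linarith
  have hwpos : 0 < ‖z - c‖ := lt_trans (by positivity) key
  refine ⟨pi0 p + Real.log (‖z - c‖ / ‖z‖), ?_, ?_⟩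
  · have h1 : Real.exp (-pi0 p) < ‖z - c‖ / ‖z‖ := by rw [lt_div_iff₀ hzn]; exact key
    have h2 := Real.log_lt_log (Real.exp_pos _) h1
    rw [Real.log_exp] at h2
    linarith
  · intro f hf
    have h1 : -(pi0 p - (pi0 p + Real.log (‖z - c‖ / ‖z‖))) = Real.log (‖z - c‖ / ‖z‖) := by ring
    rw [h1, Real.exp_log (by positivity), div_mul_cancel₀ _ hzn.ne']
    exact hmin f hf

end MS
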