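import Pool.Agent.Lib_helper24.MS.Corner1

/-!
`z`-layers are non-degenerate far out in the tower.
-/

namespace MS

open Finset IntermediateField

variable {p : ℕ} [hp : Fact p.Prime]

theorem frob_cancel_iter {a b : PadicAlgCl p} (ha : ‖a‖ ≤ 1) (hb : ‖b‖ ≤ 1) (m : ℕ)
    (h : ‖a ^ (p ^ m) - b ^ (p ^ m)‖ < 1) : ‖a - b‖ < 1 := by
  induction m with
  | zero => simpa using h
  | succ m ih =>
    rw [pow_succ, pow_mul, pow_mul] at h
    apply ih
    exact frob_cancel (by rw [norm_pow]; exact pow_le_one₀ (norm_nonneg _) ha)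
      (by rw [norm_pow]; exact pow_le_one₀ (norm_nonneg _) hb) h

theorem norm_pow_p_sub_one_le {t : PadicAlgCl p} (ht : ‖t - 1‖ ≤ 1) :
    ‖t ^ p - 1‖ ≤ max (‖t - 1‖ ^ p) ((p : ℝ)⁻¹ * ‖t - 1‖) := by
  have h1 := norm_add_pow_sub_le (x := t - 1) (y := 1) (M := 1) ht (by simp)
  rw [sub_add_cancel, one_pow, one_pow, mul_one] at h1
  have h2 : t ^ p - 1 = (t - 1) ^ p + (t ^ p - (t - 1) ^ p - 1) := by ring
  rw [h2]
  refine (norm_add_le_max' _ _).trans (max_le_max ?_ h1)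
  rw [norm_pow]

theorem norm_pow_iter_sub_one_le {x : PadicAlgCl p} {ρ : ℝ} (hρ1 : ρ ≤ 1)
    (hx : ‖x - 1‖ ≤ ρ) (J : ℕ) : ‖x ^ (p ^ J) - 1‖ ≤ (max ρ (1 / 2)) ^ J * ρ := by
  have hρ0 : 0 ≤ ρ := (norm_nonneg _).trans hx
  have hm0 : 0 ≤ max ρ (1 / 2) := le_max_of_le_left hρ0
  have hm1 : max ρ (1 / 2) ≤ 1 := max_le hρ1 (by norm_num)
  induction J with
  | zero => simpa using hx
  | succ J ih =>
    have hle : ‖x ^ (p ^ J) - 1‖ ≤ ρ := by
      refine ih.trans ?_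
      have : (max ρ (1 / 2)) ^ J ≤ 1 := pow_le_one₀ hm0 hm1
      nlinarith
    have h1 := norm_pow_p_sub_one_le (hle.trans hρ1)
    rw [pow_succ p J, pow_mul]
    refine h1.trans (max_le ?_ ?_)
    · have hp1 : p = (p - 1) + 1 := by have := hp.out.two_le; omega
      calc ‖x ^ (p ^ J) - 1‖ ^ p = ‖x ^ (p ^ J) - 1‖ ^ (p - 1) * ‖x ^ (p ^ J) - 1‖ := by
            rw [← pow_succ, ← hp1]
        _ ≤ max ρ (1 / 2) * ((max ρ (1 / 2)) ^ J * ρ) := by
            gcongr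
            calc ‖x ^ (p ^ J) - 1‖ ^ (p - 1) ≤ ρ ^ (p - 1) := by gcongr
              _ ≤ ρ ^ 1 := pow_le_pow_of_le_one hρ0 hρ1 (by have := hp.out.two_le; omega)
              _ = ρ := pow_one _
              _ ≤ max ρ (1 / 2) := le_max_left _ _
        _ = _ := by rw [pow_succ]; ring
    · calc (p : ℝ)⁻¹ * ‖x ^ (p ^ J) - 1‖ ≤ max ρ (1 / 2) * ((max ρ (1 / 2)) ^ J * ρ) := by
            gcongr
            refine le_trans ?_ (le_max_right _ _)
            rw [one_div]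
            exact inv_anti₀ (by norm_num) (by exact_mod_cast hp.out.two_le)
        _ = _ := by rw [pow_succ]; ring

/-- An element which is infinitely `p`-divisible in a finite extension is a root of unity. -/
theorem divisible_bounded {E : IntermediateField ℚ_[p] (PadicAlgCl p)} [FiniteDimensional ℚ_[p] E]
    {b : PadicAlgCl p} (hb0 : b ≠ 0) (hb : ∀ n : ℕ, 0 < n → b ^ n ≠ 1) :
    ∃ J0 : ℕ, ∀ J ≥ J0, ∀ y ∈ E, y ^ (p ^ J) ≠ b := by
  by_contra hcon
  push Not at hcon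
  have hall : ∀ J : ℕ, ∃ y ∈ E, y ^ (p ^ J) = b := by
    intro J
    obtain ⟨J', hJ', y, hy, hyb⟩ := hcon J
    refine ⟨y ^ (p ^ (J' - J)), pow_mem hy _, ?_⟩
    rw [← pow_mul, ← pow_add, Nat.sub_add_cancel hJ']
    exact hyb
  obtain ⟨D, hD0, hD⟩ := exists_norm_discrete E
  have hbE : b ∈ E := by
    obtain ⟨y, hy, hyb⟩ := hall 0
    rw [pow_zero, pow_one] at hyb
    rwa [← hyb]
  have hp1 : (1 : ℝ) < p := by exact_mod_cast hp.out.one_lt
  have hpos : (0 : ℝ) < p := by linarith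
  -- the norm of b is one
  have hbn : ‖b‖ = 1 := by
    obtain ⟨m0, hm0⟩ := hD b hbE hb0
    have hm00 : m0 = 0 := by
      obtain ⟨y, hy, hyb⟩ := hall (m0.natAbs)
      have hy0 : y ≠ 0 := by
        rintro rfl
        rw [zero_pow (pow_ne_zero _ hp.out.ne_zero)] at hyb
        exact hb0 hyb.symm
      obtain ⟨m, hm⟩ := hD y hy hy0
      have h1 : (p : ℝ) ^ m0 = (p : ℝ) ^ (m * (p ^ m0.natAbs : ℕ)) := by
        rw [← hm0, ← hyb, norm_pow, ← pow_mul, mul_comm, pow_mul, hm, zpow_mul, zpow_natCast]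
      have h2 : m0 = m * (p ^ m0.natAbs : ℕ) := zpow_right_injective₀ hpos hp1.ne' h1
      by_contra hne
      have hm : m ≠ 0 := by
        rintro rfl
        rw [zero_mul] at h2
        exact hne h2
      have h3 : m0.natAbs = m.natAbs * p ^ m0.natAbs := by
        conv_lhs => rw [h2]
        rw [Int.natAbs_mul, Int.natAbs_natCast]
      have h4 : m0.natAbs < p ^ m0.natAbs := Nat.lt_pow_self hp.out.one_lt
      have h5 : 1 ≤ m.natAbs := Nat.one_le_iff_ne_zero.2 (Int.natAbs_ne_zero.2 hm)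
      have h6 : p ^ m0.natAbs ≤ m.natAbs * p ^ m0.natAbs := Nat.le_mul_of_pos_left _ h5
      omega
    rw [hm00, zpow_zero] at hm0
    exact (pow_eq_one_iff_of_nonneg (norm_nonneg _) hD0.ne').1 hm0
  obtain ⟨q, hq, hq0, hbq⟩ := exists_unity_close hbE hbn
  set ρ : ℝ := ((p : ℝ)⁻¹) ^ (1 / (D : ℝ)) with hρ
  have hpinv : (p : ℝ)⁻¹ < 1 := inv_lt_one_of_one_lt₀ hp1
  have hpinv0 : 0 < (p : ℝ)⁻¹ := inv_pos.2 hpos
  have hρ1 : ρ < 1 := by
    apply Real.rpow_lt_one hpinv0.le hpinv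
    positivity
  have hρ0 : 0 < ρ := Real.rpow_pos_of_pos hpinv0 _
  have hρD : ρ ^ D = (p : ℝ)⁻¹ := by
    rw [hρ, ← Real.rpow_natCast, ← Real.rpow_mul hpinv0.le, one_div, inv_mul_cancel₀
      (by exact_mod_cast hD0.ne'), Real.rpow_one]
  have hbound : ∀ J : ℕ, ‖b ^ q - 1‖ ≤ (max ρ (1 / 2)) ^ J := by
    intro J
    obtain ⟨y, hy, hyb⟩ := hall J
    have hyn : ‖y‖ = 1 := by
      have h1 : ‖y‖ ^ (p ^ J) = 1 := by rw [← norm_pow, hyb, hbn]
      exact (pow_eq_one_iff_of_nonneg (norm_nonneg _) (pow_ne_zero _ hp.out.ne_zero)).1 h1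
    set x := y ^ q with hx
    have hxn : ‖x‖ = 1 := by rw [hx, norm_pow, hyn, one_pow]
    have hxp : x ^ (p ^ J) = b ^ q := by rw [hx, ← pow_mul, mul_comm, pow_mul, hyb]
    have hx1 : ‖x - 1‖ < 1 := by
      apply frob_cancel_iter hxn.le (by simp) J
      rw [hxp, one_pow]
      exact hbq
    have hxρ : ‖x - 1‖ ≤ ρ := by
      by_cases h0 : x - 1 = 0
      · rw [h0, norm_zero]; exact hρ0.le
      · have h1 := hD (x - 1) (E.sub_mem (pow_mem hy _) E.one_mem) h0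
        have h2 := discrete_le h1 (pow_lt_one₀ (norm_nonneg _) hx1 hD0.ne')
        rw [← hρD] at h2
        exact le_of_pow_le_pow_left₀ hD0.ne' hρ0.le h2
    have h3 := norm_pow_iter_sub_one_le hρ1.le hxρ J
    rw [hxp] at h3
    refine h3.trans ?_
    have : 0 ≤ (max ρ (1 / 2)) ^ J := by positivity
    nlinarith
  have hzero : ‖b ^ q - 1‖ ≤ 0 := by
    have hlim : Filter.Tendsto (fun J : ℕ => (max ρ (1 / 2)) ^ J) Filter.atTop (nhds 0) := by
      apply tendsto_pow_atTop_nhds_zero_of_lt_one (by positivity)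
      exact max_lt hρ1 (by norm_num)
    exact ge_of_tendsto' hlim hbound
  have h0 : b ^ q - 1 = 0 := norm_le_zero_iff.1 hzero
  exact hb q hq0 (sub_eq_zero.1 h0)

/-- the norm of `ζ_{p^k} - 1` tends to one. -/
theorem zeta_norm_lower {ζ : ℕ → PadicAlgCl p} (hζ1 : ζ 1 ≠ 1) (hζp : ζ 1 ^ p = 1)
    (hζs : ∀ k, ζ (k + 1) ^ p = ζ k) (k : ℕ) :
    ‖ζ (k + 1) - 1‖ < 1 ∧ Real.exp (-pi0 p) ≤ ‖ζ (k + 1) - 1‖ ^ (p ^ k) := by
  have hp1 : (1 : ℝ) < p := by exact_mod_cast hp.out.one_lt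
  have hpow : ∀ k, ζ (k + 1) ^ (p ^ (k + 1)) = 1 := by
    intro k
    induction k with
    | zero => simpa using hζp
    | succ k ih => rw [pow_succ', pow_mul, hζs, ih]
  have hn : ∀ k, ‖ζ (k + 1)‖ = 1 := fun k =>
    norm_root_of_unity (pow_ne_zero _ hp.out.ne_zero) (hpow k)
  have hlt : ∀ k, ‖ζ (k + 1) - 1‖ < 1 := by
    intro k
    apply frob_cancel_iter (hn k).le (by simp) (k + 1)
    rw [hpow k, one_pow, sub_self, norm_zero]
    exact one_pos
  have hexp : Real.exp (-pi0 p) < 1 := by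
    rw [Real.exp_lt_one_iff]; have := pi0_pos p; linarith
  refine ⟨hlt k, ?_⟩
  induction k with
  | zero =>
    rw [pow_zero, pow_one, zero_add, norm_zeta_sub_one hζp hζ1]
  | succ k ih =>
    have h1 := norm_pow_p_sub_one_le (hlt (k + 1)).le
    rw [hζs (k + 1)] at h1
    have h2 : ‖ζ (k + 1) - 1‖ ≤ ‖ζ (k + 1 + 1) - 1‖ ^ p := by
      rcases le_max_iff.1 h1 with h | h
      · exact h
      · exfalso
        -- the second alternative is impossible
        have h3 : Real.exp (-pi0 p) ≤ ‖ζ (k + 1) - 1‖ := by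
          refine ih.trans ?_
          calc ‖ζ (k + 1) - 1‖ ^ (p ^ k) ≤ ‖ζ (k + 1) - 1‖ ^ 1 :=
                pow_le_pow_of_le_one (norm_nonneg _) (hlt k).le
                  (Nat.one_le_iff_ne_zero.2 (pow_ne_zero _ hp.out.ne_zero))
            _ = _ := pow_one _
        have h4 : (p : ℝ)⁻¹ ≤ Real.exp (-pi0 p) := by
          rw [← norm_p p, norm_p_eq_exp, Real.exp_le_exp]
          have h5 := p_sub_one_mul_pi0 p
          have h6 := pi0_pos p
          have h7 := p_real_two p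
          nlinarith
        have h8 := hlt (k + 1)
        have h9 : 0 < (p : ℝ)⁻¹ := inv_pos.2 (by linarith)
        nlinarith
    calc Real.exp (-pi0 p) ≤ ‖ζ (k + 1) - 1‖ ^ (p ^ k) := ih
      _ ≤ (‖ζ (k + 1 + 1) - 1‖ ^ p) ^ (p ^ k) := by gcongr
      _ = ‖ζ (k + 1 + 1) - 1‖ ^ (p ^ (k + 1)) := by rw [← pow_mul, ← pow_succ']

/-- A finite extension contains no `ζ_{p^k}` for `k` large. -/
theorem zeta_not_mem {E : IntermediateField ℚ_[p] (PadicAlgCl p)} [FiniteDimensional ℚ_[p] E]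
    {ζ : ℕ → PadicAlgCl p} (hζ1 : ζ 1 ≠ 1) (hζp : ζ 1 ^ p = 1)
    (hζs : ∀ k, ζ (k + 1) ^ p = ζ k) :
    ∃ k0 : ℕ, ∀ k ≥ k0, ∀ c ∈ E, ‖c‖ ≠ ‖ζ (k + 1) - 1‖ := by
  obtain ⟨D, hD0, hD⟩ := exists_norm_discrete E
  refine ⟨D + 1, fun k hk c hc hcn => ?_⟩
  obtain ⟨h1, h2⟩ := zeta_norm_lower hζ1 hζp hζs k
  have hpos : 0 < ‖ζ (k + 1) - 1‖ := by
    by_contra hcon
    have : ‖ζ (k + 1) - 1‖ = 0 := le_antisymm (not_lt.1 hcon) (norm_nonneg _)
    rw [this, zero_pow (pow_ne_zero _ hp.out.ne_zero)] at h2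
    have := Real.exp_pos (-pi0 p)
    linarith
  have hc0 : c ≠ 0 := by rw [← norm_pos_iff, hcn]; exact hpos
  have h3 := hD c hc hc0
  rw [hcn] at h3
  have h4 := discrete_le h3 (pow_lt_one₀ (norm_nonneg _) h1 hD0.ne')
  have h5 : D < p ^ k := by
    calc D < k := by omega
      _ < p ^ k := Nat.lt_pow_self hp.out.one_lt
  have h6 : ‖ζ (k + 1) - 1‖ ^ (p ^ k) < ‖ζ (k + 1) - 1‖ ^ D :=
    pow_lt_pow_right_of_lt_one₀ hpos h1 h5
  have h7 : (p : ℝ)⁻¹ ≤ Real.exp (-pi0 p) := by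
    rw [← norm_p p, norm_p_eq_exp, Real.exp_le_exp]
    have h5 := p_sub_one_mul_pi0 p
    have h6 := pi0_pos p
    have h7 := p_real_two p
    nlinarith
  linarith

end MS
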