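import Pool.Agent.Lib_helper24.MS.Corner2

/-!
`z`-layers are non-degenerate: the cohomological argument.
-/

namespace MS

open Finset IntermediateField

variable {p : ℕ} [hp : Fact p.Prime]

theorem exists_prim (N : ℕ) (hN : 0 < N) : ∃ ω : PadicAlgCl p, IsPrimitiveRoot ω N := by
  have : NeZero ((N : ℕ) : PadicAlgCl p) := ⟨by exact_mod_cast hN.ne'⟩
  exact HasEnoughRootsOfUnity.exists_primitiveRoot (PadicAlgCl p) N

theorem root_mem_adj (E : IntermediateField ℚ_[p] (PadicAlgCl p)) {ω c : PadicAlgCl p} {N : ℕ}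
    (hN : 0 < N) (hω : IsPrimitiveRoot ω N) (hc : c ^ N = 1) : c ∈ adj E ω := by
  have : NeZero N := ⟨hN.ne'⟩
  obtain ⟨i, -, hi⟩ := hω.eq_pow_of_pow_eq_one hc
  rw [← hi]
  exact pow_mem (mem_adj_self _ _) _

theorem sah {E : IntermediateField ℚ_[p] (PadicAlgCl p)} {a : PadicAlgCl p} (ha : a ∈ E)
    (ha0 : a ≠ 0) {N : ℕ} (hN : 0 < N) {ω : PadicAlgCl p} (hω : IsPrimitiveRoot ω N)
    {x : PadicAlgCl p} {J : ℕ} (hx : x ∈ adj E ω) (hxa : x ^ (p ^ J) = a) {k1 : ℕ}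
    {ξ : PadicAlgCl p} (hξ : ξ ^ (p ^ (k1 + 1)) = 1) (hξE : ξ ∉ E)
    (hμ : ∀ η : PadicAlgCl p, η ^ (p ^ k1) = 1 → η ∈ E) (hJN : p ^ J ∣ N)
    (hkN : p ^ (k1 + 1) ∣ N) : ∃ y ∈ E, y ^ (p ^ J) = a ^ (p ^ k1) := by
  have hNne : NeZero N := ⟨hN.ne'⟩
  obtain ⟨g, hg, hgξ⟩ := exists_gal_ne hξE
  have hgω : ∃ u : ℕ, g ω = ω ^ u := by
    have h1 : (g ω) ^ N = 1 := by rw [← map_pow, hω.pow_eq_one, map_one]
    obtain ⟨u, -, hu⟩ := hω.eq_pow_of_pow_eq_one h1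
    exact ⟨u, hu.symm⟩
  obtain ⟨u, hu⟩ := hgω
  have hgc : ∀ c : PadicAlgCl p, c ^ N = 1 → g c = c ^ u := by
    intro c hc
    obtain ⟨i, -, hi⟩ := hω.eq_pow_of_pow_eq_one hc
    rw [← hi, map_pow, hu, ← pow_mul, ← pow_mul, mul_comm]
  have hξN : ξ ^ N = 1 := by
    obtain ⟨e, he⟩ := hkN
    rw [he, pow_mul, hξ, one_pow]
  have hξprim : IsPrimitiveRoot ξ (p ^ (k1 + 1)) := by
    have h1 : ξ ^ (p ^ k1) ≠ 1 := fun h => hξE (hμ ξ h)
    rw [← orderOf_eq_prime_pow h1 hξ]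
    exact IsPrimitiveRoot.orderOf _
  have hξ0 : ξ ≠ 0 := hξprim.ne_zero (pow_ne_zero _ hp.out.ne_zero)
  have hp0 : (p : ℤ) ≠ 0 := by exact_mod_cast hp.out.ne_zero
  set w : ℤ := (u : ℤ) - 1 with hw
  have hzw : ∀ c : PadicAlgCl p, c ≠ 0 → c ^ w = c ^ u / c := by
    intro c hc
    rw [hw, zpow_sub₀ hc, zpow_one, zpow_natCast]
  have hw1 : (p : ℤ) ^ k1 ∣ w := by
    have h1 : (ξ ^ p) ^ u = ξ ^ p := by
      have h2 : (ξ ^ p) ^ (p ^ k1) = 1 := by rw [← pow_mul, ← pow_succ']; exact hξ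
      have h3 : g (ξ ^ p) = ξ ^ p := hg _ (hμ _ h2)
      rw [map_pow, hgc ξ hξN, ← pow_mul, mul_comm, pow_mul] at h3
      exact h3
    have h2 : ξ ^ ((p : ℤ) * w) = 1 := by
      rw [zpow_mul, zpow_natCast, hzw _ (pow_ne_zero _ hξ0), h1, div_self (pow_ne_zero _ hξ0)]
    have h3 := (hξprim.zpow_eq_one_iff_dvd _).1 h2
    push_cast at h3
    rw [pow_succ', mul_dvd_mul_iff_left hp0] at h3
    exact h3
  have hw2 : ¬ (p : ℤ) ^ (k1 + 1) ∣ w := by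
    intro h
    apply hgξ
    rw [hgc ξ hξN]
    have h1 : ξ ^ w = 1 := by
      apply (hξprim.zpow_eq_one_iff_dvd _).2
      push_cast
      exact h
    rw [hzw ξ hξ0, div_eq_one_iff_eq hξ0] at h1
    exact h1
  obtain ⟨c', hc'⟩ := hw1
  have hpc' : ¬ (p : ℤ) ∣ c' := by
    rintro ⟨e, rfl⟩
    exact hw2 ⟨e, by rw [hc', pow_succ]; ring⟩
  have hx0 : x ≠ 0 := by
    rintro rfl
    rw [zero_pow (pow_ne_zero _ hp.out.ne_zero)] at hxa
    exact ha0 hxa.symm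
  have hgx0 : g x ≠ 0 := (map_ne_zero g).2 hx0
  set y0 := x ^ u / g x with hy0
  have hy0ne : y0 ≠ 0 := div_ne_zero (pow_ne_zero _ hx0) hgx0
  have hy0E : y0 ∈ E := by
    rw [mem_iff_fixed]
    intro h hh
    have hhω : ∃ v : ℕ, h ω = ω ^ v := by
      have h1 : (h ω) ^ N = 1 := by rw [← map_pow, hω.pow_eq_one, map_one]
      obtain ⟨v, -, hv⟩ := hω.eq_pow_of_pow_eq_one h1
      exact ⟨v, hv.symm⟩
    obtain ⟨v, hv⟩ := hhω
    have hcomm : ∀ t ∈ adj E ω, (g * h) t = (h * g) t := by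
      apply adj_agree
      · intro y hy
        rw [AlgEquiv.mul_apply, AlgEquiv.mul_apply, hh y hy, hg y hy, hh y hy]
      · rw [AlgEquiv.mul_apply, AlgEquiv.mul_apply, hv, hu, map_pow, map_pow, hv, hu, ← pow_mul,
          ← pow_mul, mul_comm]
    have hcx := hcomm x hx
    rw [AlgEquiv.mul_apply, AlgEquiv.mul_apply] at hcx
    set c := h x / x with hc
    have hcN : c ^ N = 1 := by
      have h1 : c ^ (p ^ J) = 1 := by
        rw [hc, div_pow, ← map_pow, hxa, hh a ha, div_self ha0]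
      obtain ⟨e, he⟩ := hJN
      rw [he, pow_mul, h1, one_pow]
    have hc0 : c ≠ 0 := div_ne_zero ((map_ne_zero h).2 hx0) hx0
    have hhx : h x = c * x := by rw [hc]; field_simp
    rw [hy0, map_div₀, map_pow, ← hcx, hhx, map_mul, hgc c hcN, mul_pow]
    field_simp
  have hy0p : y0 ^ (p ^ J) = a ^ w := by
    rw [hy0, div_pow, ← map_pow, hxa, ← pow_mul, mul_comm, pow_mul, hxa, hg a ha, hzw a ha0]
  set b := a ^ (p ^ k1) with hb
  have hb0 : b ≠ 0 := pow_ne_zero _ ha0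
  have hbE : b ∈ E := pow_mem ha _
  have hbc : b ^ c' = y0 ^ (p ^ J) := by
    rw [hy0p, hc', hb, zpow_mul]
    congr 1
    rw [← zpow_natCast]
    push_cast
    rfl
  have hcop : IsCoprime c' ((p : ℤ) ^ J) := by
    apply IsCoprime.pow_right
    rw [isCoprime_comm]
    exact (Nat.prime_iff_prime_int.1 hp.out).coprime_iff_not_dvd.2 hpc'
  obtain ⟨s, t, hst⟩ := hcop
  refine ⟨y0 ^ s * b ^ t, E.mul_mem (zpow_mem hy0E s) (zpow_mem hbE t), ?_⟩
  rw [mul_pow, ← zpow_natCast, ← zpow_natCast, ← zpow_mul, ← zpow_mul, mul_comm s, zpow_mul,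
    zpow_natCast, ← hbc, ← zpow_mul, ← zpow_add₀ hb0]
  have : c' * s + t * ((p ^ J : ℕ) : ℤ) = 1 := by
    push_cast
    linarith
  rw [this, zpow_one]

/-- `a` is not `p^J`-divisible in `E(μ_∞)` for `J` large. -/
theorem z_bounded {E : IntermediateField ℚ_[p] (PadicAlgCl p)} [FiniteDimensional ℚ_[p] E]
    {a : PadicAlgCl p} (ha : a ∈ E) (ha0 : a ≠ 0) (hator : ∀ n : ℕ, 0 < n → a ^ n ≠ 1) :
    ∃ J0 : ℕ, ∀ J ≥ J0, ∀ N : ℕ, 0 < N → ∀ ω : PadicAlgCl p, ω ^ N = 1 →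
      ∀ x : PadicAlgCl p, x ^ (p ^ J) = a → x ∉ adj E ω := by
  -- the roots of unity of `p`-power order in `E`
  have hex : ∃ k : ℕ, ∃ ξ : PadicAlgCl p, ξ ^ (p ^ k) = 1 ∧ ξ ∉ E := by
    have hprim : ∀ k : ℕ, ∃ ω : PadicAlgCl p, IsPrimitiveRoot ω (p ^ k) := fun k =>
      exists_prim _ (pow_pos hp.out.pos _)
    by_contra hcon
    push Not at hcon
    -- build a compatible system
    have hroot : ∀ x : PadicAlgCl p, ∃ y : PadicAlgCl p, y ^ p = x := fun x =>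
      IsAlgClosed.exists_pow_nat_eq x hp.out.pos
    choose r hr using hroot
    obtain ⟨ζ1, hζ1⟩ := hprim 1
    rw [pow_one] at hζ1
    set ζ : ℕ → PadicAlgCl p := fun k => Nat.rec 1 (fun i x => if i = 0 then ζ1 else r x) k with hζ
    have hζs : ∀ k, ζ (k + 1) ^ p = ζ k := by
      intro k
      rcases Nat.eq_zero_or_pos k with rfl | hk
      · simp only [hζ]
        simp [hζ1.pow_eq_one]
      · have : ζ (k + 1) = r (ζ k) := by
          simp only [hζ]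
          rw [if_neg hk.ne']
        rw [this, hr]
    have h1 : ζ 1 = ζ1 := by simp [hζ]
    obtain ⟨k0, hk0⟩ := zeta_not_mem (E := E) (ζ := ζ)
      (by rw [h1]; exact hζ1.ne_one hp.out.one_lt) (by rw [h1]; exact hζ1.pow_eq_one) hζs
    have hpow : ∀ k, ζ k ^ (p ^ k) = 1 := by
      intro k
      induction k with
      | zero => simp [hζ]
      | succ k ih => rw [pow_succ', pow_mul, hζs, ih]
    exact hk0 k0 le_rfl (ζ (k0 + 1) - 1)
      (E.sub_mem (hcon (k0 + 1) _ (hpow (k0 + 1))) E.one_mem) rfl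
  classical
  obtain ⟨ξ, hξ, hξE⟩ := Nat.find_spec hex
  have hmin := fun k hk => Nat.find_min hex (m := k) hk
  set k := Nat.find hex with hk
  have hk0 : k ≠ 0 := by
    intro h
    rw [h, pow_zero, pow_one] at hξ
    rw [hξ] at hξE
    exact hξE E.one_mem
  obtain ⟨k1, hk1⟩ := Nat.exists_eq_succ_of_ne_zero hk0
  have hμ : ∀ η : PadicAlgCl p, η ^ (p ^ k1) = 1 → η ∈ E := by
    intro η hη
    by_contra hηE
    exact hmin k1 (by omega) ⟨η, hη, hηE⟩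
  rw [hk1] at hξ
  obtain ⟨J0, hJ0⟩ := divisible_bounded (E := E) (b := a ^ (p ^ k1)) (pow_ne_zero _ ha0) (by
    intro n hn h
    rw [← pow_mul] at h
    exact hator _ (Nat.mul_pos (pow_pos hp.out.pos _) hn) h)
  refine ⟨J0, fun J hJ N hN ω hω x hx hxE => ?_⟩
  set N' := N * (p ^ J * p ^ (k1 + 1)) with hN'
  have hN'0 : 0 < N' := Nat.mul_pos hN (Nat.mul_pos (pow_pos hp.out.pos _) (pow_pos hp.out.pos _))
  obtain ⟨ω', hω'⟩ := exists_prim (p := p) N' hN'0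
  have hle : adj E ω ≤ adj E ω' := by
    apply adj_le (le_adj _ _)
    apply root_mem_adj E hN'0 hω'
    rw [hN', pow_mul, hω, one_pow]
  obtain ⟨y, hy, hyb⟩ := sah ha ha0 hN'0 hω' (hle hxE) hx hξ hξE hμ
    (Dvd.intro (N * p ^ (k1 + 1)) (by rw [hN']; ring) : p ^ J ∣ N')
    (Dvd.intro (N * p ^ J) (by rw [hN']; ring) : p ^ (k1 + 1) ∣ N')
  exact hJ0 J hJ y hy hyb

theorem z_layer_nondeg {E : IntermediateField ℚ_[p] (PadicAlgCl p)} 
    {a : PadicAlgCl p} (ha0 : a ≠ 0) {J : ℕ}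
    (hJ : ∀ N : ℕ, 0 < N → ∀ ω : PadicAlgCl p, ω ^ N = 1 →
      ∀ x : PadicAlgCl p, x ^ (p ^ (J + 1)) = a → x ∉ adj E ω) (haE : a ∈ E)
    {z0 z1 : PadicAlgCl p} (hz1 : z1 ^ p = z0) (hz0 : z0 ^ (p ^ J) = a) {N : ℕ} (hN : 0 < N)
    {ω : PadicAlgCl p} (hω : ω ^ N = 1) : z1 ∉ adj (adj E ω) z0 := by
  intro hmem
  set N' := N * p ^ (J + 1) with hN'
  have hN'0 : 0 < N' := Nat.mul_pos hN (pow_pos hp.out.pos _)
  obtain ⟨ω', hω'⟩ := exists_prim (p := p) N' hN'0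
  have hle : adj E ω ≤ adj E ω' := by
    apply adj_le (le_adj _ _)
    apply root_mem_adj E hN'0 hω'
    rw [hN', pow_mul, hω, one_pow]
  have hmem' : z1 ∈ adj (adj E ω') z0 :=
    adj_le (hle.trans (le_adj _ _)) (mem_adj_self _ _) hmem
  have hz1a : z1 ^ (p ^ (J + 1)) = a := by rw [pow_succ', pow_mul, hz1, hz0]
  have hz10 : z1 ≠ 0 := by
    rintro rfl
    rw [zero_pow (pow_ne_zero _ hp.out.ne_zero)] at hz1a
    exact ha0 hz1a.symm
  obtain ⟨g, hg, hgz⟩ := exists_gal_ne (hJ N' hN'0 ω' hω'.pow_eq_one z1 hz1a)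
  set ξ := g z1 / z1 with hξ
  have hgzξ : g z1 = ξ * z1 := by rw [hξ]; field_simp
  have hξp : ξ ^ (p ^ (J + 1)) = 1 := by
    rw [hξ, div_pow, ← map_pow, hz1a, hg a (le_adj _ _ haE), div_self ha0]
  have hξ1 : ξ ≠ 1 := by
    intro h
    rw [h, one_mul] at hgzξ
    exact hgz hgzξ
  have hgξ : g ξ = ξ := by
    apply hg
    apply root_mem_adj E hN'0 hω'
    rw [hN', mul_comm, pow_mul, hξp, one_pow]
  obtain ⟨s, hs, hord⟩ := (Nat.dvd_prime_pow hp.out).1 (orderOf_dvd_of_pow_eq_one hξp)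
  have hs0 : s ≠ 0 := by
    rintro rfl
    rw [pow_zero] at hord
    exact hξ1 (orderOf_eq_one_iff.1 hord)
  obtain ⟨s', rfl⟩ := Nat.exists_eq_succ_of_ne_zero hs0
  have hg' : ∀ y ∈ adj (adj E ω') z0, (g ^ (p ^ s')) y = y := by
    apply adj_fixed
    · intro y hy; exact pow_fix (hg y hy) _
    · rw [← hz1, map_pow, pow_apply_kummer hgzξ hgξ, mul_pow, ← pow_mul, ← pow_succ]
      have : ξ ^ (p ^ (s' + 1)) = 1 := by
        have := pow_orderOf_eq_one ξ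
        rwa [hord] at this
      rw [this, one_mul]
  have h1 := hg' z1 hmem'
  rw [pow_apply_kummer hgzξ hgξ] at h1
  have h2 : ξ ^ (p ^ s') = 1 := mul_right_cancel₀ hz10 (by rw [h1, one_mul])
  have h3 := orderOf_dvd_of_pow_eq_one h2
  rw [hord] at h3
  have h4 := (Nat.pow_dvd_pow_iff_le_right hp.out.one_lt).1 h3
  omega

end MS
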