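import Pool.Agent.Lib_helper24.MS.Corner3

/-!
The main local theorem.
-/

namespace MS

open Finset IntermediateField

variable {p : ℕ} [hp : Fact p.Prime]

/-- a compatible system of `p`-power roots of unity -/
structure ZSys (ζ : ℕ → PadicAlgCl p) : Prop where
  one : ζ 1 ≠ 1
  pow : ζ 1 ^ p = 1
  step : ∀ k, ζ (k + 1) ^ p = ζ k

namespace ZSys

variable {ζ : ℕ → PadicAlgCl p} (h : ZSys ζ)
include h

theorem prim (k : ℕ) : IsPrimitiveRoot (ζ k) (p ^ k) := by
  induction k with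
  | zero =>
    rw [pow_zero, IsPrimitiveRoot.one_right_iff, ← h.step 0, zero_add, h.pow]
  | succ k ih =>
    rcases Nat.eq_zero_or_pos k with rfl | hk
    · have h1 : ¬ ζ 1 ^ p ^ 0 = 1 := by rw [pow_zero, pow_one]; exact h.one
      have h2 := orderOf_eq_prime_pow h1 (by rw [zero_add, pow_one]; exact h.pow)
      rw [← h2]
      exact IsPrimitiveRoot.orderOf _
    · have h1 : ζ (k + 1) ^ p ^ k ≠ 1 := by
        intro h'
        have h2 : ζ k ^ p ^ (k - 1) = 1 := by
          rw [← h.step k, ← pow_mul, ← pow_succ', Nat.sub_add_cancel hk]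
          exact h'
        have h3 := ih.dvd_of_pow_eq_one _ h2
        have h4 := (Nat.pow_dvd_pow_iff_le_right hp.out.one_lt).1 h3
        omega
      have h2 : ζ (k + 1) ^ p ^ (k + 1) = 1 := by
        rw [pow_succ', pow_mul, h.step k, ih.pow_eq_one]
      have h3 := orderOf_eq_prime_pow h1 h2
      rw [← h3]
      exact IsPrimitiveRoot.orderOf _

theorem ne_zero (k : ℕ) : ζ k ≠ 0 := (h.prim k).ne_zero (pow_ne_zero _ hp.out.ne_zero)

theorem pow_iter (i m : ℕ) : ζ (i + m) ^ (p ^ m) = ζ i := by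
  induction m with
  | zero => simp
  | succ m ih => rw [← add_assoc, pow_succ', pow_mul, h.step, ih]

end ZSys

theorem adj_mono {F F' : IntermediateField ℚ_[p] (PadicAlgCl p)} (h : F ≤ F') (z : PadicAlgCl p) :
    adj F z ≤ adj F' z := adj_le (h.trans (le_adj _ _)) (mem_adj_self _ _)

theorem adj_comm (F : IntermediateField ℚ_[p] (PadicAlgCl p)) (u v : PadicAlgCl p) :
    adj (adj F u) v = adj (adj F v) u := by
  apply le_antisymm
  · exact adj_le (adj_mono (le_adj _ _) _) (le_adj _ _ (mem_adj_self _ _))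
  · exact adj_le (adj_mono (le_adj _ _) _) (le_adj _ _ (mem_adj_self _ _))

theorem adj_eq_self {F : IntermediateField ℚ_[p] (PadicAlgCl p)} {z : PadicAlgCl p} (h : z ∈ F) :
    adj F z = F := le_antisymm (adj_le le_rfl h) (le_adj _ _)

/-- non-degeneracy of the `ζ`-layers -/
def PP (Y : IntermediateField ℚ_[p] (PadicAlgCl p)) (ζ : ℕ → PadicAlgCl p) (K : ℕ) : Prop :=
  ∀ (n : ℕ) (ω : PadicAlgCl p), n.Coprime p → ω ^ n = 1 → ζ (K + 1) ∉ adj (adj Y (ζ K)) ω

theorem PP_succ {Y : IntermediateField ℚ_[p] (PadicAlgCl p)} {ζ : ℕ → PadicAlgCl p}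
    (hζ : ZSys ζ) {K : ℕ} (hK : 1 ≤ K) (hK2 : p = 2 → 2 ≤ K) (h : PP Y ζ K) :
    PP Y ζ (K + 1) := by
  intro n ω hn hω hmem
  obtain ⟨g, hg, hgζ⟩ := exists_gal_ne (h n ω hn hω)
  have hone : (g (ζ (K + 1 + 1))) ^ (p ^ (K + 1 + 1)) = 1 := by
    rw [← map_pow, (hζ.prim _).pow_eq_one, map_one]
  have : NeZero (p ^ (K + 1 + 1)) := ⟨pow_ne_zero _ hp.out.ne_zero⟩
  obtain ⟨u, -, hu⟩ := (hζ.prim (K + 1 + 1)).eq_pow_of_pow_eq_one hone
  have hgζ' : ∀ i ≤ K + 1 + 1, g (ζ i) = ζ i ^ u := by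
    intro i hi
    obtain ⟨m, hm⟩ := Nat.exists_eq_add_of_le hi
    rw [← hζ.pow_iter i m, map_pow, ← hm, ← hu, ← pow_mul, ← pow_mul, mul_comm]
  have hgm : ∀ i ≤ K + 1 + 1, ∀ m : ℕ, (g ^ m) (ζ i) = ζ i ^ (u ^ m) := by
    intro i hi m
    induction m with
    | zero => simp
    | succ m ih => rw [pow_succ', AlgEquiv.mul_apply, ih, map_pow, hgζ' i hi, ← pow_mul, pow_succ']
  have hiff : ∀ i (m : ℕ), ζ i ^ m = ζ i ↔ (p : ℤ) ^ i ∣ (m : ℤ) - 1 := by
    intro i m
    have h1 := (hζ.prim i).zpow_eq_one_iff_dvd ((m : ℤ) - 1)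
    rw [zpow_sub₀ (hζ.ne_zero i), zpow_one, zpow_natCast, div_eq_one_iff_eq (hζ.ne_zero i)] at h1
    rw [h1]
    push_cast
    rfl
  have hu1 : (p : ℤ) ^ K ∣ (u : ℤ) - 1 := by
    have h1 : ζ K ^ u = ζ K := by
      rw [← hgζ' K (by omega), hg _ (le_adj _ _ (mem_adj_self _ _))]
    exact (hiff K u).1 h1
  have hu2 : ¬ (p : ℤ) ^ (K + 1) ∣ (u : ℤ) - 1 := by
    intro h
    apply hgζ
    rw [hgζ' (K + 1) (by omega)]
    exact (hiff (K + 1) u).2 h
  obtain ⟨h3, h4⟩ := lte_step hp.out hK hK2 hu1 hu2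
  have hfix : ∀ y ∈ adj (adj Y (ζ (K + 1))) ω, (g ^ p) y = y := by
    apply adj_fixed
    · apply adj_fixed
      · intro y hy
        exact pow_fix (hg y (le_adj _ _ (le_adj _ _ hy))) p
      · rw [hgm _ (by omega), hiff]
        push_cast
        exact h3
    · exact pow_fix (hg ω (mem_adj_self _ _)) p
  have h5 := hfix _ hmem
  rw [hgm _ le_rfl, hiff] at h5
  push_cast at h5
  exact h4 h5

theorem PP_exists (Y : IntermediateField ℚ_[p] (PadicAlgCl p)) [FiniteDimensional ℚ_[p] Y]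
    {ζ : ℕ → PadicAlgCl p} (hζ : ZSys ζ) : ∃ K1 ≥ 2, ∀ K ≥ K1, PP Y ζ K := by
  have hex : ∃ K ≥ 2, PP Y ζ K := by
    by_contra hcon
    push Not at hcon
    have hind : ∀ i : ℕ, ∃ (n : ℕ) (ω : PadicAlgCl p), n.Coprime p ∧ 0 < n ∧ ω ^ n = 1 ∧
        ζ (2 + i) ∈ adj (adj Y (ζ 2)) ω := by
      intro i
      induction i with
      | zero => exact ⟨1, 1, Nat.coprime_one_left p, one_pos, one_pow _,
          le_adj _ _ (mem_adj_self _ _)⟩
      | succ i ih =>
        obtain ⟨n1, ω1, hn1, hn1p, hω1, hmem1⟩ := ih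
        have h1 := hcon (2 + i) (by omega)
        unfold PP at h1
        push Not at h1
        obtain ⟨n2, ω2, hn2, hω2, hmem2⟩ := h1
        have hn2p : 0 < n2 := by
          rcases Nat.eq_zero_or_pos n2 with h | h
          · rw [h, Nat.coprime_zero_left] at hn2
            exact absurd hn2 hp.out.one_lt.ne'
          · exact h
        obtain ⟨ω, hω⟩ := exists_prim (p := p) (n1 * n2) (Nat.mul_pos hn1p hn2p)
        refine ⟨n1 * n2, ω, Nat.Coprime.mul_left hn1 hn2, Nat.mul_pos hn1p hn2p, hω.pow_eq_one, ?_⟩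
        have e1 : adj (adj Y (ζ 2)) ω1 ≤ adj (adj Y (ζ 2)) ω := by
          apply adj_le (le_adj _ _)
          apply root_mem_adj _ (Nat.mul_pos hn1p hn2p) hω
          rw [pow_mul, hω1, one_pow]
        have e2 : adj (adj Y (ζ (2 + i))) ω2 ≤ adj (adj Y (ζ 2)) ω := by
          apply adj_le (adj_le ((le_adj _ _).trans (le_adj _ _)) (e1 hmem1))
          apply root_mem_adj _ (Nat.mul_pos hn1p hn2p) hω
          rw [mul_comm, pow_mul, hω2, one_pow]
        exact e2 hmem2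
    obtain ⟨k0, hk0⟩ := zeta_not_mem (E := adj Y (ζ 2)) hζ.one hζ.pow hζ.step
    obtain ⟨n, ω, hn, -, hω, hmem⟩ := hind k0
    have h1 : ζ (k0 + 1 + 1) - 1 ∈ adj (adj Y (ζ 2)) ω := by
      have : 2 + k0 = k0 + 1 + 1 := by ring
      rw [this] at hmem
      exact IntermediateField.sub_mem _ hmem (IntermediateField.one_mem _)
    obtain ⟨c, hc, hcn⟩ := norm_mem_of_unram hn hω h1
    exact hk0 (k0 + 1) (by omega) c hc hcn
  obtain ⟨K1, hK1, hP⟩ := hex
  refine ⟨K1, hK1, fun K hK => ?_⟩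
  induction hK with
  | refl => exact hP
  | step hle ih => exact PP_succ hζ (le_trans (by omega) hle) (fun _ => le_trans hK1 hle) ih

/-- tame extensions, in the sense of values -/
def Tame (F F' : IntermediateField ℚ_[p] (PadicAlgCl p)) : Prop :=
  F ≤ F' ∧ ∀ y ∈ F', y ≠ 0 → ∃ t : ℕ, t.Coprime p ∧ ∃ f ∈ F, ‖f‖ = ‖y‖ ^ t

theorem Tame.trans {F F' F'' : IntermediateField ℚ_[p] (PadicAlgCl p)} (h : Tame F F')
    (h' : Tame F' F'') : Tame F F'' := by
  refine ⟨h.1.trans h'.1, fun y hy hy0 => ?_⟩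
  obtain ⟨t, ht, f', hf', hft⟩ := h'.2 y hy hy0
  have hf0 : f' ≠ 0 := by
    rw [← norm_pos_iff, hft]
    have := norm_pos_iff.2 hy0
    positivity
  obtain ⟨t', ht', f, hf, hft'⟩ := h.2 f' hf' hf0
  exact ⟨t * t', Nat.Coprime.mul_left ht ht', f, hf, by rw [hft', hft, pow_mul]⟩

theorem Tame.refl (F : IntermediateField ℚ_[p] (PadicAlgCl p)) : Tame F F :=
  ⟨le_rfl, fun y hy _ => ⟨1, Nat.coprime_one_left p, y, hy, (pow_one _).symm⟩⟩

theorem tame_unram (F : IntermediateField ℚ_[p] (PadicAlgCl p)) {n : ℕ} (hn : n.Coprime p)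
    {ω : PadicAlgCl p} (hω : ω ^ n = 1) : Tame F (adj F ω) := by
  refine ⟨le_adj _ _, fun y hy _ => ?_⟩
  obtain ⟨c, hc, hcn⟩ := norm_mem_of_unram hn hω hy
  exact ⟨1, Nat.coprime_one_left p, c, hc, by rw [hcn, pow_one]⟩

theorem tame_kummer_prime {F : IntermediateField ℚ_[p] (PadicAlgCl p)} {l : ℕ} (hl : l.Prime)
    (hlp : l.Coprime p) (hμ : ∀ ξ : PadicAlgCl p, ξ ^ l = 1 → ξ ∈ F) {w : PadicAlgCl p}
    (hw : w ≠ 0) (hwl : w ^ l ∈ F) : Tame F (adj F w) := by
  by_cases hwF : w ∈ F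
  · rw [adj_eq_self hwF]; exact Tame.refl F
  obtain ⟨h, hh, hhw⟩ := exists_gal_ne hwF
  have hzeta : ∀ g : Gp p, (∀ y ∈ F, g y = y) → ∃ ξ : PadicAlgCl p, ξ ^ l = 1 ∧ g w = ξ * w := by
    intro g hg
    refine ⟨g w / w, ?_, by field_simp⟩
    rw [div_pow, ← map_pow, hg _ hwl, div_self (pow_ne_zero _ hw)]
  obtain ⟨ξ, hξ, hhwξ⟩ := hzeta h hh
  have hξ1 : ξ ≠ 1 := by
    rintro rfl
    rw [one_mul] at hhwξ
    exact hhw hhwξ
  have hprim : IsPrimitiveRoot ξ l := by
    have h1 : orderOf ξ ∣ l := orderOf_dvd_of_pow_eq_one hξ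
    have h2 : orderOf ξ = l := by
      rcases (Nat.dvd_prime hl).1 h1 with h | h
      · exact absurd (orderOf_eq_one_iff.1 h) hξ1
      · exact h
    have h3 := IsPrimitiveRoot.orderOf ξ
    rwa [h2] at h3
  have hhξ : h ξ = ξ := hh ξ (hμ ξ hξ)
  have hfixed : ∀ y ∈ adj F w, h y = y → y ∈ F := by
    intro y hy hhy
    rw [mem_iff_fixed]
    intro g hg
    obtain ⟨η, hη, hgw⟩ := hzeta g hg
    have : NeZero l := ⟨hl.ne_zero⟩
    obtain ⟨i, -, hi⟩ := hprim.eq_pow_of_pow_eq_one hη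
    have h1 : ∀ x ∈ adj F w, g x = (h ^ i) x := by
      apply adj_agree
      · intro x hx
        rw [hg x hx, pow_fix (hh x hx)]
      · rw [hgw, pow_apply_kummer hhwξ hhξ, hi]
    rw [h1 y hy, pow_fix hhy]
  have hstab : ∀ y ∈ adj F w, h y ∈ adj F w := by
    apply adj_stable
    · intro y hy; rw [hh y hy]; exact hy
    · rw [hhwξ]; exact IntermediateField.mul_mem _ (le_adj _ _ (hμ ξ hξ)) (mem_adj_self _ _)
  have hhl : ∀ y ∈ adj F w, (h ^ l) y = y := by
    apply adj_fixed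
    · intro y hy; exact pow_fix (hh y hy) l
    · rw [pow_apply_kummer hhwξ hhξ, hξ, one_mul]
  refine ⟨le_adj _ _, fun y hy hy0 => ?_⟩
  set N := ∏ i ∈ range l, (h ^ i) y with hN
  have hpow : ∀ i : ℕ, (h ^ i) y ∈ adj F w := by
    intro i
    induction i with
    | zero => simpa using hy
    | succ i ih => rw [pow_succ', AlgEquiv.mul_apply]; exact hstab _ ih
  refine ⟨l, hlp, N, ?_, ?_⟩
  · apply hfixed
    · exact prod_mem (fun i _ => hpow i)
    · rw [hN, map_prod]
      have h2 : ∏ i ∈ range l, h ((h ^ i) y) = ∏ i ∈ range l, (h ^ (i + 1)) y := by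
        apply Finset.prod_congr rfl
        intro i _
        rw [pow_succ']
        rfl
      rw [h2]
      have h3 : y * ∏ i ∈ range l, (h ^ (i + 1)) y = y * ∏ i ∈ range l, (h ^ i) y := by
        have e1 := Finset.prod_range_succ' (fun i => (h ^ i) y) l
        rw [Finset.prod_range_succ] at e1
        simp only [pow_zero, AlgEquiv.one_apply] at e1
        rw [hhl y hy] at e1
        rw [mul_comm y, ← e1, mul_comm]
      exact mul_left_cancel₀ hy0 h3
  · rw [hN, norm_prod, Finset.prod_congr rfl (fun i _ => norm_gal (h ^ i) y), Finset.prod_const,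
      Finset.card_range]

theorem tame_kummer (B : ℕ) : ∀ (F : IntermediateField ℚ_[p] (PadicAlgCl p)), B.Coprime p →
    (∀ ξ : PadicAlgCl p, ξ ^ B = 1 → ξ ∈ F) → ∀ w : PadicAlgCl p, w ≠ 0 → w ^ B ∈ F →
    Tame F (adj F w) := by
  induction B using Nat.recOnPrimeCoprime with
  | zero =>
    intro F h
    rw [Nat.coprime_zero_left] at h
    exact absurd h hp.out.one_lt.ne'
  | prime_pow l n hl =>
    induction n with
    | zero =>
      intro F _ _ w _ hwB
      rw [pow_zero, pow_one] at hwB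
      rw [adj_eq_self hwB]; exact Tame.refl F
    | succ n ih =>
      intro F hB hμ w hw hwB
      have hlp : l.Coprime p := Nat.Coprime.coprime_dvd_left (dvd_pow_self l (Nat.succ_ne_zero n)) hB
      have h1 : Tame F (adj F (w ^ (l ^ n))) := by
        apply tame_kummer_prime hl hlp _ (pow_ne_zero _ hw)
        · rw [← pow_mul, ← pow_succ]; exact hwB
        · intro ξ hξ
          apply hμ
          rw [pow_succ', pow_mul, hξ, one_pow]
      have h2 : Tame (adj F (w ^ (l ^ n))) (adj (adj F (w ^ (l ^ n))) w) := by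
        apply ih _ (Nat.Coprime.pow_left n hlp) _ w hw (mem_adj_self _ _)
        intro ξ hξ
        apply le_adj
        apply hμ
        rw [pow_succ, pow_mul, hξ, one_pow]
      have h3 : adj (adj F (w ^ (l ^ n))) w = adj F w := by
        apply le_antisymm
        · exact adj_le (adj_le (le_adj _ _) (pow_mem (mem_adj_self _ _) _)) (mem_adj_self _ _)
        · exact adj_mono (le_adj _ _) _
      rw [h3] at h2
      exact h1.trans h2
  | coprime a b ha hb hab iha ihb =>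
    intro F hB hμ w hw hwB
    have hap : a.Coprime p := Nat.Coprime.coprime_dvd_left (dvd_mul_right a b) hB
    have hbp : b.Coprime p := Nat.Coprime.coprime_dvd_left (dvd_mul_left b a) hB
    have h1 : Tame F (adj F (w ^ b)) := by
      apply iha F hap _ _ (pow_ne_zero _ hw)
      · rw [← pow_mul, mul_comm]; exact hwB
      · intro ξ hξ
        apply hμ
        rw [pow_mul, hξ, one_pow]
    have h2 : Tame (adj F (w ^ b)) (adj (adj F (w ^ b)) w) := by
      apply ihb _ hbp _ w hw (mem_adj_self _ _)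
      intro ξ hξ
      apply le_adj
      apply hμ
      rw [mul_comm, pow_mul, hξ, one_pow]
    have h3 : adj (adj F (w ^ b)) w = adj F w := by
      apply le_antisymm
      · exact adj_le (adj_le (le_adj _ _) (pow_mem (mem_adj_self _ _) _)) (mem_adj_self _ _)
      · exact adj_mono (le_adj _ _) _
    rw [h3] at h2
    exact h1.trans h2

end MS
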