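import Pool.Agent.Lib_helper24.MS.Basic

/-!
Depth of an automorphism on a subfield, trace and norm bounds.
-/

namespace MS

open Finset

variable {p : ℕ} [hp : Fact p.Prime]

/-- `g` has depth at least `d` on `F`. -/
def Depth (g : Gp p) (F : IntermediateField ℚ_[p] (PadicAlgCl p)) (d : ℝ) : Prop :=
  ∀ x ∈ F, ‖g x - x‖ ≤ Real.exp (-d) * ‖x‖

theorem Depth.mono {g : Gp p} {F F' : IntermediateField ℚ_[p] (PadicAlgCl p)} {d d' : ℝ}
    (h : Depth g F d) (hd : d' ≤ d) (hF : F' ≤ F) : Depth g F' d' := by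
  intro x hx
  refine (h x (hF hx)).trans ?_
  gcongr

/-- the trace for the powers of `g`. -/
noncomputable def tr (g : Gp p) (x : PadicAlgCl p) : PadicAlgCl p := ∑ i ∈ range p, (g ^ i) x

/-- the operator `g - 1`. -/
noncomputable def Dop (g : Gp p) : Module.End ℚ_[p] (PadicAlgCl p) := g.toLinearMap - 1

theorem Dop_apply (g : Gp p) (x : PadicAlgCl p) : Dop g x = g x - x := rfl

theorem Dop_pow_bound {g : Gp p} {F : IntermediateField ℚ_[p] (PadicAlgCl p)} {d : ℝ}
    (hF : ∀ x ∈ F, g x ∈ F) (hd : Depth g F d) {x : PadicAlgCl p} (hx : x ∈ F) (k : ℕ) :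
    (Dop g ^ k) x ∈ F ∧ ‖(Dop g ^ k) x‖ ≤ Real.exp (-(k * d)) * ‖x‖ := by
  induction k with
  | zero => simpa using hx
  | succ k ih =>
    obtain ⟨h1, h2⟩ := ih
    rw [pow_succ', Module.End.mul_apply, Dop_apply]
    refine ⟨F.sub_mem (hF _ h1) h1, ?_⟩
    refine (hd _ h1).trans ?_
    calc Real.exp (-d) * ‖(Dop g ^ k) x‖ ≤ Real.exp (-d) * (Real.exp (-(k * d)) * ‖x‖) := by gcongr
      _ = Real.exp (-((k + 1 : ℕ) * d)) * ‖x‖ := by
        rw [← mul_assoc, ← Real.exp_add]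
        congr 2
        push_cast
        ring

theorem tr_eq (g : Gp p) (x : PadicAlgCl p) :
    tr g x = ∑ k ∈ range p, (p.choose (k + 1) : PadicAlgCl p) * (Dop g ^ k) x := by
  have h := congrArg (Polynomial.aeval (Dop g))
    (Polynomial.geom_sum_X_comp_X_add_one_eq_sum (R := ℚ_[p]) p)
  rw [Polynomial.aeval_comp, map_sum, map_sum] at h
  have hG : ∀ i : ℕ, ∀ y, ((g.toLinearMap : Module.End ℚ_[p] (PadicAlgCl p)) ^ i) y = (g ^ i) y := by
    intro i
    induction i with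
    | zero => intro y; simp
    | succ i ih =>
      intro y
      rw [pow_succ, pow_succ, Module.End.mul_apply, AlgEquiv.mul_apply, ih]
      rfl
  have h2 := congrArg (fun f : Module.End ℚ_[p] (PadicAlgCl p) => f x) h
  simp only [map_pow, Polynomial.aeval_X, map_add, map_one, map_mul, map_natCast,
    LinearMap.sum_apply] at h2
  unfold tr
  have h3 : Dop g + 1 = g.toLinearMap := by simp [Dop]
  rw [h3] at h2
  rw [← Finset.sum_congr rfl (fun i _ => hG i x), h2]
  apply Finset.sum_congr rfl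
  intro k _
  rw [Module.End.mul_apply]
  simp [Module.End.natCast_apply]

theorem norm_tr_le {g : Gp p} {F : IntermediateField ℚ_[p] (PadicAlgCl p)} {d : ℝ}
    (hF : ∀ x ∈ F, g x ∈ F) (hd : Depth g F d) (hd0 : 0 ≤ d) (hd1 : d ≤ pi0 p)
    {x : PadicAlgCl p} (hx : x ∈ F) :
    ‖tr g x‖ ≤ Real.exp (-((p - 1) * d)) * ‖x‖ := by
  rw [tr_eq]
  apply norm_sum_le' _ _ (by positivity)
  intro k hk
  rw [Finset.mem_range] at hk
  obtain ⟨-, h2⟩ := Dop_pow_bound hF hd hx k
  rw [norm_mul]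
  by_cases hk1 : k + 1 = p
  · rw [hk1, Nat.choose_self, Nat.cast_one, norm_one, one_mul]
    refine h2.trans ?_
    have : (k : ℝ) = p - 1 := by
      rw [← hk1]; push_cast; ring
    rw [this]
  · obtain ⟨c, hc⟩ := hp.out.dvd_choose_self (Nat.succ_ne_zero k) (by omega)
    have h3 : ‖((p.choose (k + 1) : ℕ) : PadicAlgCl p)‖ ≤ Real.exp (-Real.log p) := by
      rw [hc, Nat.cast_mul, norm_mul, norm_p_eq_exp]
      have := norm_natCast_le_one (p := p) c
      nlinarith [Real.exp_pos (-Real.log p)]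
    calc ‖((p.choose (k + 1) : ℕ) : PadicAlgCl p)‖ * ‖(Dop g ^ k) x‖
        ≤ Real.exp (-Real.log p) * (Real.exp (-(k * d)) * ‖x‖) := by gcongr
      _ = Real.exp (-(Real.log p + k * d)) * ‖x‖ := by
        rw [← mul_assoc, ← Real.exp_add]; congr 2; ring
      _ ≤ Real.exp (-((p - 1) * d)) * ‖x‖ := by
        gcongr
        have h4 : ((p : ℝ) - 1) * d ≤ Real.log p := by
          rw [← p_sub_one_mul_pi0]
          have := p_sub_one_pos p
          gcongr
        have : (0 : ℝ) ≤ k * d := by positivity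
        linarith

/-- Newton's identities give a bound for the norm of `1 + w`. -/
theorem norm_prod_sub_le {g : Gp p} {F : IntermediateField ℚ_[p] (PadicAlgCl p)} {d : ℝ}
    (hF : ∀ x ∈ F, g x ∈ F) (hd : Depth g F d) (hd0 : 0 ≤ d) (hd1 : d ≤ pi0 p)
    {w : PadicAlgCl p} (hw : w ∈ F) (hw1 : ‖w‖ ≤ 1) :
    ‖∏ i ∈ range p, (1 + (g ^ i) w) - 1 - ∏ i ∈ range p, (g ^ i) w‖
      ≤ Real.exp (-((p - 1) * d)) * ‖w‖ := by
  classical
  set f : Fin p → PadicAlgCl p := fun i => (g ^ (i : ℕ)) w with hf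
  have hfn : ∀ i, ‖f i‖ = ‖w‖ := fun i => norm_gal _ _
  set E : ℕ → PadicAlgCl p := fun k => ∑ t ∈ powersetCard k (univ : Finset (Fin p)), ∏ i ∈ t, f i
    with hE
  have hEn : ∀ k, ‖E k‖ ≤ 1 := by
    intro k
    apply norm_sum_le' _ _ zero_le_one
    intro t _
    rw [norm_prod]
    apply Finset.prod_le_one
    · intro i _; exact norm_nonneg _
    · intro i _; rw [hfn]; exact hw1
  have hB : 0 ≤ Real.exp (-((p - 1) * d)) * ‖w‖ := by positivity
  have hP : ∀ j, j ≠ 0 → ‖∑ i, f i ^ j‖ ≤ Real.exp (-((p - 1) * d)) * ‖w‖ := by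
    intro j hj
    have h1 : ∑ i, f i ^ j = tr g (w ^ j) := by
      unfold tr
      rw [← Fin.sum_univ_eq_sum_range (fun i => (g ^ i) (w ^ j)) p]
      apply Finset.sum_congr rfl
      intro i _
      rw [map_pow]
    rw [h1]
    refine (norm_tr_le hF hd hd0 hd1 (pow_mem hw j)).trans ?_
    gcongr
    rw [norm_pow]
    calc ‖w‖ ^ j ≤ ‖w‖ ^ 1 := pow_le_pow_of_le_one (norm_nonneg _) hw1 (Nat.one_le_iff_ne_zero.2 hj)
      _ = ‖w‖ := pow_one _
  have hNewton : ∀ k : ℕ, (k : PadicAlgCl p) * E k = (-1) ^ (k + 1) *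
      ∑ a ∈ antidiagonal k with a.1 < k, (-1) ^ a.1 * E a.1 * ∑ i, f i ^ a.2 := by
    intro k
    have h := congrArg (MvPolynomial.aeval (R := ℤ) f) (MvPolynomial.mul_esymm_eq_sum (Fin p) ℤ k)
    simp only [map_mul, map_natCast, map_pow, map_neg, map_one, map_sum, MvPolynomial.esymm,
      MvPolynomial.psum, map_prod, MvPolynomial.aeval_X] at h
    exact h
  have hEk : ∀ k, k ≠ 0 → k < p → ‖E k‖ ≤ Real.exp (-((p - 1) * d)) * ‖w‖ := by
    intro k hk0 hkp
    have hkn : ‖(k : PadicAlgCl p)‖ = 1 := by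
      apply norm_natCast_eq_one
      exact (Nat.coprime_comm.1 ((hp.out.coprime_iff_not_dvd).2
        (fun h => absurd (Nat.le_of_dvd (Nat.pos_of_ne_zero hk0) h) (by omega))))
    have h1 : ‖E k‖ = ‖(k : PadicAlgCl p) * E k‖ := by rw [norm_mul, hkn, one_mul]
    rw [h1, hNewton k, norm_mul, norm_pow, norm_neg, norm_one, one_pow, one_mul]
    apply norm_sum_le' _ _ hB
    intro a ha
    rw [Finset.mem_filter, Finset.HasAntidiagonal.mem_antidiagonal] at ha
    rw [norm_mul, norm_mul, norm_pow, norm_neg, norm_one, one_pow, one_mul]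
    have h2 := hP a.2 (by omega)
    have h3 := hEn a.1
    calc ‖E a.1‖ * ‖∑ i, f i ^ a.2‖ ≤ 1 * (Real.exp (-((p - 1) * d)) * ‖w‖) := by gcongr
      _ = _ := one_mul _
  have hexp : ∏ i ∈ range p, (1 + (g ^ i) w) = ∑ k ∈ range (p + 1), E k := by
    rw [← Fin.prod_univ_eq_prod_range (fun i => 1 + (g ^ i) w) p, Finset.prod_one_add,
      Finset.sum_powerset]
    simp only [Finset.card_univ, Fintype.card_fin]
    rfl
  have hEp : E p = ∏ i ∈ range p, (g ^ i) w := by
    rw [← Fin.prod_univ_eq_prod_range (fun i => (g ^ i) w) p]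
    simp only [hE]
    have : powersetCard p (univ : Finset (Fin p)) = {univ} := by
      have h := Finset.powersetCard_self (univ : Finset (Fin p))
      rwa [Finset.card_univ, Fintype.card_fin] at h
    rw [this, Finset.sum_singleton]
  have hE0 : E 0 = 1 := by simp [hE]
  have hs : ∑ x ∈ range p, E x = ∑ k ∈ range (p - 1), E (k + 1) + E 0 := by
    rw [← Finset.sum_range_succ', Nat.sub_add_cancel hp.out.one_lt.le]
  rw [hexp, Finset.sum_range_succ, hEp, hs, hE0]
  have : ∑ k ∈ range (p - 1), E (k + 1) + 1 + ∏ i ∈ range p, (g ^ i) w - 1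
      - ∏ i ∈ range p, (g ^ i) w = ∑ k ∈ range (p - 1), E (k + 1) := by ring
  rw [this]
  apply norm_sum_le' _ _ hB
  intro k hk
  rw [Finset.mem_range] at hk
  exact hEk _ (Nat.succ_ne_zero k) (by omega)

theorem norm_prod_gal (g : Gp p) (w : PadicAlgCl p) : ‖∏ i ∈ range p, (g ^ i) w‖ = ‖w‖ ^ p := by
  rw [norm_prod, Finset.prod_congr rfl (fun i _ => norm_gal (g ^ i) w), Finset.prod_const,
    Finset.card_range]

end MS
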