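import Pool.Agent.Lib_helper24.MS.Tower

/-!
Uniform lower bound for the depth of the layers near the diagonal.
-/

namespace MS

open Finset

variable {p : ℕ} [hp : Fact p.Prime]

/-- truncated corner constant -/
noncomputable def mm (p : ℕ) (m : ℝ) : ℝ := min m (Real.log p / (p * (p - 1)))

/-- the uniform depth -/
noncomputable def dl (p : ℕ) (m : ℝ) : ℝ := (p - 1) / p * mm p m

theorem p_real_pos (p : ℕ) [hp : Fact p.Prime] : (0 : ℝ) < p := by exact_mod_cast hp.out.pos

theorem p_real_two (p : ℕ) [hp : Fact p.Prime] : (2 : ℝ) ≤ p := by exact_mod_cast hp.out.two_le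

theorem mm_pos {m : ℝ} (hm : 0 < m) : 0 < mm p m := by
  unfold mm
  apply lt_min hm
  have := log_p_pos p
  have := p_sub_one_pos p
  have := p_real_pos p
  positivity

theorem dl_pos {m : ℝ} (hm : 0 < m) : 0 < dl p m := by
  unfold dl
  have := mm_pos (p := p) hm
  have := p_sub_one_pos p
  have := p_real_pos p
  positivity

theorem mm_bound (m : ℝ) : ((p : ℝ) - 1) * mm p m ≤ Real.log p / p := by
  have h1 : mm p m ≤ Real.log p / (p * (p - 1)) := min_le_right _ _
  have h2 := p_sub_one_pos p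
  have h3 := p_real_pos p
  calc ((p : ℝ) - 1) * mm p m ≤ ((p : ℝ) - 1) * (Real.log p / (p * (p - 1))) := by gcongr
    _ = Real.log p / p := by field_simp

theorem dl_le_mm {m : ℝ} (hm : 0 < m) : dl p m ≤ mm p m := by
  unfold dl
  have h1 := mm_pos (p := p) hm
  have h2 := p_real_pos p
  have h3 : ((p : ℝ) - 1) / p ≤ 1 := by
    rw [div_le_one h2]; linarith
  nlinarith

theorem dl_bound {m : ℝ} (hm : 0 < m) : dl p m ≤ Real.log p / p := by
  have h1 := mm_bound (p := p) m
  have h2 := dl_le_mm (p := p) hm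
  have h3 := mm_pos (p := p) hm
  have h4 := p_real_two p
  nlinarith

/-- the elementary inequality behind the induction. -/
theorem sum_min_bound {κ : ℕ} {m β : ℝ} (hm : 0 < m) {a : ℕ → ℝ} (ha : ∀ i < κ, 0 < a i)
    (hs : mm p m ≤ ∑ i ∈ range κ, a i) (hβ : ((p : ℝ) - 1) * mm p m ≤ β) :
    mm p m / p ≤ ∑ i ∈ range κ, min β (a i / p) := by
  have h1 := mm_pos (p := p) hm
  have h2 := p_real_two p
  have h3 := p_real_pos p
  have hβ0 : 0 < β := by
    have := p_sub_one_pos p
    refine lt_of_lt_of_le ?_ hβ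
    positivity
  by_cases hall : ∀ i < κ, a i / p ≤ β
  · have : ∑ i ∈ range κ, min β (a i / p) = (∑ i ∈ range κ, a i) / p := by
      rw [Finset.sum_div]
      apply Finset.sum_congr rfl
      intro i hi
      exact min_eq_right (hall i (Finset.mem_range.1 hi))
    rw [this]
    gcongr
  · push Not at hall
    obtain ⟨i, hi, hlt⟩ := hall
    have h4 : min β (a i / p) ≤ ∑ i ∈ range κ, min β (a i / p) := by
      apply Finset.single_le_sum (f := fun i => min β (a i / p)) _ (Finset.mem_range.2 hi)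
      intro j hj
      have := ha j (Finset.mem_range.1 hj)
      have h5 : 0 < a j / p := by positivity
      exact (le_min hβ0.le h5.le)
    rw [min_eq_left hlt.le] at h4
    refine le_trans ?_ (hβ.trans h4)
    rw [div_le_iff₀ h3]
    have h5 : (1 : ℝ) ≤ (p - 1) * p := by nlinarith
    calc mm p m = mm p m * 1 := (mul_one _).symm
      _ ≤ mm p m * ((p - 1) * p) := by gcongr
      _ = (p - 1) * mm p m * p := by ring

namespace TowerData

variable (T : TowerData p)

theorem diag_step {κ : ℕ} (hκ : 1 ≤ κ) {m : ℝ} (hm : 0 < m) {a b : ℕ → ℝ}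
    (ha : ∀ i < κ, 0 < a i) (haN : ∀ i < κ, T.NK κ i (a i))
    (has : mm p m ≤ ∑ i ∈ range κ, a i)
    (hb : ∀ i < κ, 0 < b i) (hbN : ∀ i < κ, T.NC i κ (b i))
    (hbs : mm p m ≤ ∑ i ∈ range κ, b i) :
    ∃ a' b' : ℕ → ℝ, (∀ i < κ + 1, 0 < a' i) ∧ (∀ i < κ + 1, T.NK (κ + 1) i (a' i)) ∧
      mm p m ≤ ∑ i ∈ range (κ + 1), a' i ∧ (∀ i < κ + 1, 0 < b' i) ∧
      (∀ i < κ + 1, T.NC i (κ + 1) (b' i)) ∧ mm p m ≤ ∑ i ∈ range (κ + 1), b' i ∧
      T.NK (κ + 1) κ (dl p m) ∧ T.NC κ (κ + 1) (dl p m) := by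
  have hm1 := mm_pos (p := p) hm
  have hp1 := p_sub_one_pos p
  have hp0 := p_real_pos p
  have hbd := mm_bound (p := p) m
  have hdlb := dl_bound (p := p) hm
  have hdl : dl p m = ((p : ℝ) - 1) * (mm p m / p) := by unfold dl; ring
  have hlast : ∀ S : ℝ, mm p m / p ≤ S →
      dl p m ≤ min (Real.log p / p) ((p - 1) * S) := by
    intro S hS
    apply le_min hdlb
    rw [hdl]
    gcongr
  have hdlpos := dl_pos (p := p) hm
  have hsum : ∀ S : ℝ, mm p m / p ≤ S → ∀ l, dl p m ≤ l → mm p m ≤ S + l := by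
    intro S hS l hl
    have : mm p m = mm p m / p + dl p m := by rw [hdl]; field_simp; ring
    linarith
  -- the `ζ`-layer at `(κ, κ)`
  set β := min (Real.log p / p) ((p - 1) * ∑ i ∈ range κ, b i) with hβdef
  have hβN : T.NC κ κ β := T.R4 hκ hb hbN
  have hβ : ((p : ℝ) - 1) * mm p m ≤ β := le_min hbd (by gcongr)
  have hβ0 : 0 < β := lt_of_lt_of_le (by positivity) hβ
  set α := min (Real.log p / p) ((p - 1) * ∑ i ∈ range κ, a i) with hαdef
  have hαN : T.NK κ κ α := T.R3 hκ (by have := T.hK0; omega) ha haN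
  have hα : ((p : ℝ) - 1) * mm p m ≤ α := le_min hbd (by gcongr)
  have hα0 : 0 < α := lt_of_lt_of_le (by positivity) hα
  -- new row
  have ha'0 : ∀ i < κ, 0 < min β (a i / p) := fun i hi =>
    lt_min hβ0 (div_pos (ha i hi) hp0)
  have ha'N : ∀ i < κ, T.NK (κ + 1) i (min β (a i / p)) := fun i hi =>
    T.R1 (ha i hi) hβ0 (haN i hi) (T.NC_mono hi le_rfl hβN)
  have hSa := sum_min_bound (p := p) hm ha has hβ
  have haκN := T.R3 (k := κ + 1) hκ (by have := T.hK0; omega) ha'0 ha'N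
  have hb'0 : ∀ i < κ, 0 < min α (b i / p) := fun i hi =>
    lt_min hα0 (div_pos (hb i hi) hp0)
  have hb'N : ∀ i < κ, T.NC i (κ + 1) (min α (b i / p)) := fun i hi =>
    T.R2 (hb i hi) hα0 (hbN i hi) (T.NK_mono hi le_rfl hαN)
  have hSb := sum_min_bound (p := p) hm hb hbs hα
  have hbκN := T.R4 (j := κ + 1) hκ hb'0 hb'N
  refine ⟨fun i => if i < κ then min β (a i / p) else
      min (Real.log p / p) ((p - 1) * ∑ i ∈ range κ, min β (a i / p)),
    fun i => if i < κ then min α (b i / p) else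
      min (Real.log p / p) ((p - 1) * ∑ i ∈ range κ, min α (b i / p)), ?_, ?_, ?_, ?_, ?_, ?_, ?_, ?_⟩
  · intro i hi
    by_cases h : i < κ
    · simp only [h, if_true]; exact ha'0 i h
    · simp only [h, if_false]; exact lt_of_lt_of_le hdlpos (hlast _ hSa)
  · intro i hi
    by_cases h : i < κ
    · simp only [h, if_true]; exact ha'N i h
    · simp only [h, if_false]
      have : i = κ := by omega
      rw [this]; exact haκN
  · rw [Finset.sum_range_succ]
    simp only [lt_irrefl, if_false]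
    rw [Finset.sum_congr rfl (fun i hi => if_pos (Finset.mem_range.1 hi))]
    exact hsum _ hSa _ (hlast _ hSa)
  · intro i hi
    by_cases h : i < κ
    · simp only [h, if_true]; exact hb'0 i h
    · simp only [h, if_false]; exact lt_of_lt_of_le hdlpos (hlast _ hSb)
  · intro i hi
    by_cases h : i < κ
    · simp only [h, if_true]; exact hb'N i h
    · simp only [h, if_false]
      have : i = κ := by omega
      rw [this]; exact hbκN
  · rw [Finset.sum_range_succ]
    simp only [lt_irrefl, if_false]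
    rw [Finset.sum_congr rfl (fun i hi => if_pos (Finset.mem_range.1 hi))]
    exact hsum _ hSb _ (hlast _ hSb)
  · exact T.NK_mono le_rfl (hlast _ hSa) haκN
  · exact T.NC_mono le_rfl (hlast _ hSb) hbκN

theorem diag_aux {m : ℝ} (hm : 0 < m) (h1 : T.NK 1 0 m) (h2 : T.NC 0 1 m) (κ : ℕ) :
    ∃ a b : ℕ → ℝ, (∀ i < κ + 1, 0 < a i) ∧ (∀ i < κ + 1, T.NK (κ + 1) i (a i)) ∧
      mm p m ≤ ∑ i ∈ range (κ + 1), a i ∧ (∀ i < κ + 1, 0 < b i) ∧
      (∀ i < κ + 1, T.NC i (κ + 1) (b i)) ∧ mm p m ≤ ∑ i ∈ range (κ + 1), b i ∧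
      T.NK (κ + 1) κ (dl p m) ∧ T.NC κ (κ + 1) (dl p m) := by
  induction κ with
  | zero =>
    have hmm := mm_pos (p := p) hm
    have hle : mm p m ≤ m := min_le_left _ _
    refine ⟨fun _ => mm p m, fun _ => mm p m, fun _ _ => hmm, ?_, by simp, fun _ _ => hmm, ?_,
      by simp, T.NK_mono le_rfl ((dl_le_mm hm).trans hle) h1,
      T.NC_mono le_rfl ((dl_le_mm hm).trans hle) h2⟩
    · intro i hi
      have : i = 0 := by omega
      rw [this]; exact T.NK_mono le_rfl hle h1
    · intro i hi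
      have : i = 0 := by omega
      rw [this]; exact T.NC_mono le_rfl hle h2
  | succ κ ih =>
    obtain ⟨a, b, ha, haN, has, hb, hbN, hbs, -, -⟩ := ih
    exact T.diag_step (Nat.succ_le_succ (Nat.zero_le κ)) hm ha haN has hb hbN hbs

/-- The layers near the diagonal have uniformly positive depth. -/
theorem diag {m : ℝ} (hm : 0 < m) (h1 : T.NK 1 0 m) (h2 : T.NC 0 1 m) (κ : ℕ) :
    T.NK (κ + 1) κ (dl p m) ∧ T.NC κ (κ + 1) (dl p m) := by
  obtain ⟨a, b, -, -, -, -, -, -, h3, h4⟩ := T.diag_aux hm h1 h2 κ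
  exact ⟨h3, h4⟩

end TowerData

end MS
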