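import Pool.Agent.Lib_helper24.MS.Frob2

/-!
The final theorem: small points of `ℚ(μ_∞, α^{1/n} : n S-smooth)`.
-/

namespace MS

open Finset IntermediateField

universe u

variable {Ω : Type u} [Field Ω] [Algebra ℚ Ω]

/-- the field `ℚ(μ_∞, α^{1/n} : n S-smooth)` -/
noncomputable def MSF (α : Ω) (S : Set ℕ) : IntermediateField ℚ Ω :=
  adjoin ℚ ({x | ∃ n : ℕ, 0 < n ∧ x ^ n = 1} ∪ {x | ∃ n : ℕ, Smooth S n ∧ x ^ n = α})

theorem smooth_one (S : Set ℕ) : Smooth S 1 :=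
  ⟨one_pos, fun _ hq h => absurd (Nat.dvd_one.1 h) hq.one_lt.ne'⟩

theorem Smooth.mul {S : Set ℕ} {a b : ℕ} (ha : Smooth S a) (hb : Smooth S b) :
    Smooth S (a * b) :=
  ⟨Nat.mul_pos ha.1 hb.1, fun q hq h => by
    rcases (hq.dvd_mul).1 h with h | h
    · exact ha.2 q hq h
    · exact hb.2 q hq h⟩

variable [Algebra.IsAlgebraic ℚ Ω] [IsAlgClosed Ω]

omit [Algebra.IsAlgebraic ℚ Ω] in
theorem mem_MSF {α : Ω} {S : Set ℕ} {x : Ω} (hx : x ∈ MSF α S) :
    ∃ N s : ℕ, 0 < N ∧ Smooth S s ∧ x ∈ GF α N s := by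
  have h2 : ∀ x y : Ω, (∃ N s : ℕ, 0 < N ∧ Smooth S s ∧ x ∈ GF α N s) →
      (∃ N s : ℕ, 0 < N ∧ Smooth S s ∧ y ∈ GF α N s) →
      ∃ N s : ℕ, 0 < N ∧ Smooth S s ∧ x ∈ GF α N s ∧ y ∈ GF α N s := by
    rintro x y ⟨N, s, hN, hs, hx⟩ ⟨N', s', hN', hs', hy⟩
    refine ⟨N * N', s * s', Nat.mul_pos hN hN', hs.mul hs', ?_, ?_⟩
    · exact GF_mono (Dvd.intro _ rfl) (Dvd.intro _ rfl) (hs.mul hs').1 hx
    · exact GF_mono (Dvd.intro_left _ rfl) (Dvd.intro_left _ rfl) (hs.mul hs').1 hy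
  unfold MSF at hx
  induction hx using adjoin_induction with
  | mem x hx =>
    rcases hx with ⟨n, hn, h⟩ | ⟨n, hn, h⟩
    · exact ⟨n, 1, hn, smooth_one S, mem_GF_one h⟩
    · exact ⟨1, n, one_pos, hn, mem_GF_root h⟩
  | algebraMap q => exact ⟨1, 1, one_pos, smooth_one S, (GF α 1 1).algebraMap_mem q⟩
  | add x y _ _ hx hy =>
    obtain ⟨N, s, hN, hs, hx, hy⟩ := h2 x y hx hy
    exact ⟨N, s, hN, hs, add_mem hx hy⟩
  | inv x _ hx =>
    obtain ⟨N, s, hN, hs, hx⟩ := hx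
    exact ⟨N, s, hN, hs, inv_mem hx⟩
  | mul x y _ _ hx hy =>
    obtain ⟨N, s, hN, hs, hx, hy⟩ := h2 x y hx hy
    exact ⟨N, s, hN, hs, mul_mem hx hy⟩

omit [IsAlgClosed Ω] in
theorem GF_finite {α : Ω} {N M : ℕ} (hN : 0 < N) (hM : 0 < M) :
    FiniteDimensional ℚ (GF α N M) := by
  classical
  have h1 : {x : Ω | x ^ N = 1}.Finite := by
    apply (Polynomial.nthRoots N (1 : Ω)).toFinset.finite_toSet.subset
    intro x hx
    have hx : x ^ N = 1 := hx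
    simp only [Finset.mem_coe, Multiset.mem_toFinset, Polynomial.mem_nthRoots hN]
    exact hx
  have h2 : {x : Ω | x ^ M = α}.Finite := by
    apply (Polynomial.nthRoots M α).toFinset.finite_toSet.subset
    intro x hx
    have hx : x ^ M = α := hx
    simp only [Finset.mem_coe, Multiset.mem_toFinset, Polynomial.mem_nthRoots hM]
    exact hx
  have : Finite ({x : Ω | x ^ N = 1} ∪ {x : Ω | x ^ M = α} : Set Ω) := h1.union h2
  exact IntermediateField.finiteDimensional_adjoin (fun x _ => Algebra.IsIntegral.isIntegral x)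

omit [IsAlgClosed Ω] in
/-- Dirichlet's approximation theorem rounds the division group. -/
theorem dirichlet {α : Ω} (hα : α ≠ 0) {c1 : ℝ} (hc1 : 0 < c1) : ∃ c2 : ℝ, 0 < c2 ∧
    ∀ y : Ω, y ≠ 0 → (∀ (q : ℕ) (t : ℤ), 0 < q → c1 ≤ ht (y ^ q * α ^ t)) →
      ∀ γ ∈ DivG α, c2 ≤ ht (γ * y) := by
  obtain ⟨Q, hQ⟩ := exists_nat_gt (2 * ht α / c1)
  have hα0 := ht_nonneg α
  have hQpos : 0 < Q := by
    rcases Nat.eq_zero_or_pos Q with h | h
    · rw [h, Nat.cast_zero] at hQ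
      have : 0 ≤ 2 * ht α / c1 := by positivity
      linarith
    · exact h
  have hQr : (0 : ℝ) < Q := by exact_mod_cast hQpos
  refine ⟨c1 / (2 * Q), by positivity, ?_⟩
  intro y hy0 hy γ hγ
  obtain ⟨hγ0, n, hn, k, hk⟩ := hγ
  have hnr : (0 : ℝ) < n := by exact_mod_cast hn
  obtain ⟨t, q, hq, hqQ, hqt⟩ := Real.exists_int_int_abs_mul_sub_le ((k : ℝ) / n) hQpos
  obtain ⟨q, rfl⟩ := Int.eq_ofNat_of_zero_le hq.le
  have hq' : 0 < q := by exact_mod_cast hq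
  have hqQ' : (q : ℝ) ≤ Q := by exact_mod_cast hqQ
  set u := γ ^ q * α ^ (-t) with hu
  have hun : u ^ n = α ^ (k * q - t * n) := by
    rw [hu, mul_pow, ← pow_mul, mul_comm q n, pow_mul, hk, ← zpow_natCast (α ^ k) q, ← zpow_mul,
      ← zpow_natCast (α ^ (-t)) n, ← zpow_mul, zpow_sub₀ hα, div_eq_mul_inv, ← zpow_neg]
    congr 2
    ring
  have hhu : ht u ≤ ht α / (Q + 1) := by
    have h1 := ht_pow u n
    rw [hun, ht_zpow] at h1
    have h2 : |((k * q - t * n : ℤ) : ℝ)| = n * |(q : ℝ) * ((k : ℝ) / n) - t| := by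
      rw [← abs_of_pos hnr, ← abs_mul, abs_of_pos hnr]
      congr 1
      push_cast
      field_simp
    rw [h2, mul_assoc] at h1
    have h3 := mul_left_cancel₀ hnr.ne' h1
    rw [← h3]
    have h4 : |(q : ℝ) * ((k : ℝ) / n) - t| ≤ 1 / ((Q : ℝ) + 1) := by exact_mod_cast hqt
    calc |(q : ℝ) * ((k : ℝ) / n) - t| * ht α ≤ 1 / ((Q : ℝ) + 1) * ht α := by gcongr
      _ = _ := by ring
  have hw : y ^ q * α ^ t = (γ * y) ^ q * u⁻¹ := by
    rw [hu, mul_inv, mul_pow, zpow_neg, inv_inv]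
    field_simp
  have h1 := hy q t hq'
  rw [hw] at h1
  have h2 := ht_mul_le ((γ * y) ^ q) u⁻¹
  rw [ht_pow, ht_inv] at h2
  have h3 : ht α / (Q + 1) ≤ c1 / 2 := by
    rw [div_le_iff₀ (by positivity)]
    rw [div_lt_iff₀ hc1] at hQ
    nlinarith
  have h4 := ht_nonneg (γ * y)
  rw [div_le_iff₀ (by positivity)]
  have h5 : (q : ℝ) * ht (γ * y) ≤ Q * ht (γ * y) := by gcongr
  nlinarith

/-- **Main theorem**: the small points of `ℚ(μ_∞, α^{1/n} : n S-smooth)` lie in `⟨α⟩_div`. -/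
theorem small_points {α : Ω} (hα : α ≠ 0) (htor : ∀ n : ℕ, 0 < n → α ^ n ≠ 1) (S : Finset ℕ) :
    ∃ c : ℝ, 0 < c ∧ ∀ x ∈ MSF α (S : Set ℕ), x ≠ 0 → x ∉ DivG α → c ≤ ht x := by
  obtain ⟨k, R, hR, c, hc, hdesc⟩ := desc_final hα htor S
  set K1 := GF α (2 ^ k) R with hK1
  obtain ⟨c1, hc1, hbound⟩ := frob_bound 2 K1 (GF_finite (by positivity) hR)
  obtain ⟨c2, hc2, hdir⟩ := dirichlet hα hc1
  have hαK : α ∈ K1 := by
    obtain ⟨z, hz⟩ := IsAlgClosed.exists_pow_nat_eq α hR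
    rw [← hz]
    exact pow_mem (mem_GF_root hz) _
  refine ⟨min c c2, lt_min hc hc2, ?_⟩
  intro x hx hx0 hxD
  by_contra hcon
  rw [not_le] at hcon
  obtain ⟨N, s, hN, hs, hxG⟩ := mem_MSF hx
  have hsmall : Small α x c :=
    ⟨1, one_mem_DivG α, by rw [one_mul]; exact hcon.trans_le (min_le_left _ _)⟩
  obtain ⟨A, hA, y, hy, γ, hγ, hxy⟩ := hdesc N hN s hs x hxG hx0 hsmall
  have hA0 : 0 < A := coprime_pos Nat.prime_two hA
  have hy0 : y ≠ 0 := by
    rintro rfl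
    rw [mul_zero] at hxy
    exact hx0 hxy
  have hyD : y ∉ DivG α := by
    intro h
    apply hxD
    rw [hxy]
    exact mul_mem_DivG hα hγ h
  -- the root of unity
  have : CharZero Ω := algebraRat.charZero Ω
  have : NeZero ((A : ℕ) : Ω) := ⟨by exact_mod_cast hA0.ne'⟩
  obtain ⟨ω, hω⟩ := HasEnoughRootsOfUnity.exists_primitiveRoot Ω A
  have hyK : y ∈ adjG K1 ω := by
    have hle : GF α (2 ^ k * A) R ≤ adjG K1 ω := by
      have : NeZero A := ⟨hA0.ne'⟩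
      apply GF_le
      · intro t ht
        apply split_mem (a := 2 ^ k) (b := A) (Nat.Coprime.pow_left _ hA.symm)
        · have h1 : (t ^ (2 ^ k)) ^ A = 1 := by rw [← pow_mul]; exact ht
          obtain ⟨i, -, hi⟩ := hω.eq_pow_of_pow_eq_one h1
          rw [← hi]
          exact pow_mem (mem_adjG_self _ _) _
        · apply le_adjG
          apply mem_GF_one
          rw [← pow_mul, mul_comm]
          exact ht
      · intro t ht
        exact le_adjG _ _ (mem_GF_root ht)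
    exact hle hy
  have h1 := hdir y hy0 (fun q t hq => by
    apply hbound A hA ω hω.pow_eq_one
    · exact mul_mem (pow_mem hyK _) (zpow_mem (le_adjG _ _ hαK) _)
    · exact mul_ne_zero (pow_ne_zero _ hy0) (zpow_ne_zero _ hα)
    · intro n hn h
      apply hyD
      refine ⟨hy0, q * n, Nat.mul_pos hq hn, -(t * n), ?_⟩
      rw [mul_pow, ← pow_mul, ← zpow_natCast (α ^ t) n, ← zpow_mul] at h
      rw [zpow_neg]
      exact eq_inv_of_mul_eq_one_left h) γ hγ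
  rw [← hxy] at h1
  exact absurd (h1.trans_lt hcon) (not_lt.2 (min_le_right _ _))

end MS
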