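import Pool.Agent.Lib_helper24.MS.Global6

/-!
Local Frobenius congruences.
-/

namespace MS

open Finset IntermediateField

variable {p : ℕ} [hp : Fact p.Prime]

theorem pinv_pos : (0 : ℝ) < (p : ℝ)⁻¹ := by
  have : (0 : ℝ) < p := by exact_mod_cast hp.out.pos
  positivity

theorem pinv_lt_one : (p : ℝ)⁻¹ < 1 := inv_lt_one_of_one_lt₀ (by exact_mod_cast hp.out.one_lt)

theorem cong_trans {a b c : PadicAlgCl p} {r : ℝ} (h1 : ‖a - b‖ ≤ r) (h2 : ‖b - c‖ ≤ r) :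
    ‖a - c‖ ≤ r := by
  have : a - c = (a - b) + (b - c) := by ring
  rw [this]
  exact (norm_add_le_max' _ _).trans (max_le h1 h2)

theorem cong_pow {a b : PadicAlgCl p} (ha : ‖a‖ ≤ 1) (hb : ‖b‖ ≤ 1) (n : ℕ) :
    ‖a ^ n - b ^ n‖ ≤ ‖a - b‖ := by
  rw [← Commute.geom_sum₂_mul (Commute.all a b) n, norm_mul]
  have : ‖∑ i ∈ range n, a ^ i * b ^ (n - 1 - i)‖ ≤ 1 := by
    apply norm_sum_le' _ _ zero_le_one
    intro i _
    rw [norm_mul, norm_pow, norm_pow]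
    exact mul_le_one₀ (pow_le_one₀ (norm_nonneg _) ha) (by positivity)
      (pow_le_one₀ (norm_nonneg _) hb)
  nlinarith [norm_nonneg (a - b)]

theorem cong_pow_p {a b : PadicAlgCl p} (ha : ‖a‖ ≤ 1) (hb : ‖b‖ ≤ 1)
    (h : ‖a - b‖ ≤ (p : ℝ)⁻¹) : ‖a ^ p - b ^ p‖ ≤ ((p : ℝ) ^ 2)⁻¹ := by
  have hab : ‖a - b‖ ≤ 1 := (norm_sub_le_max' _ _).trans (max_le ha hb)
  have h1 := norm_add_pow_sub_le (x := a - b) (y := b) (M := 1) hab hb
  rw [sub_add_cancel, one_pow, mul_one] at h1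
  have h2 : a ^ p - b ^ p = (a ^ p - (a - b) ^ p - b ^ p) + (a - b) ^ p := by ring
  have hp1 := pinv_pos (p := p)
  have hp2 := pinv_lt_one (p := p)
  have h3 : ((p : ℝ) ^ 2)⁻¹ = (p : ℝ)⁻¹ * (p : ℝ)⁻¹ := by rw [sq, mul_inv]
  rw [h2, h3]
  refine (norm_add_le_max' _ _).trans (max_le (h1.trans (by gcongr)) ?_)
  rw [norm_pow]
  calc ‖a - b‖ ^ p ≤ ((p : ℝ)⁻¹) ^ p := by gcongr
    _ ≤ ((p : ℝ)⁻¹) ^ 2 := pow_le_pow_of_le_one hp1.le hp2.le hp.out.two_le
    _ = _ := sq _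

theorem sum_frob {ι : Type*} (s : Finset ι) (f : ι → PadicAlgCl p) (hf : ∀ i ∈ s, ‖f i‖ ≤ 1) :
    ‖(∑ i ∈ s, f i) ^ p - ∑ i ∈ s, f i ^ p‖ ≤ (p : ℝ)⁻¹ := by
  classical
  induction s using Finset.induction_on with
  | empty =>
    rw [Finset.sum_empty, Finset.sum_empty, zero_pow hp.out.ne_zero, sub_zero, norm_zero]
    exact pinv_pos.le
  | insert a s ha ih =>
    rw [Finset.sum_insert ha, Finset.sum_insert ha]
    have h1 : ‖f a‖ ≤ 1 := hf a (Finset.mem_insert_self _ _)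
    have h2 : ‖∑ i ∈ s, f i‖ ≤ 1 :=
      norm_sum_le' _ _ zero_le_one (fun i hi => hf i (Finset.mem_insert_of_mem hi))
    have h3 := norm_add_pow_sub_le (x := f a) (y := ∑ i ∈ s, f i) (M := 1) h1 h2
    rw [one_pow, mul_one] at h3
    have h4 : (f a + ∑ i ∈ s, f i) ^ p - (f a ^ p + ∑ i ∈ s, f i ^ p) =
        ((f a + ∑ i ∈ s, f i) ^ p - f a ^ p - (∑ i ∈ s, f i) ^ p) +
          ((∑ i ∈ s, f i) ^ p - ∑ i ∈ s, f i ^ p) := by ring
    rw [h4]
    refine (norm_add_le_max' _ _).trans (max_le (h3.trans ?_)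
      (ih (fun i hi => hf i (Finset.mem_insert_of_mem hi))))
    have hp1 := pinv_pos (p := p)
    nlinarith

theorem sum_frob_iter {ι : Type*} (s : Finset ι) (f : ι → PadicAlgCl p)
    (hf : ∀ i ∈ s, ‖f i‖ ≤ 1) (n : ℕ) :
    ‖(∑ i ∈ s, f i) ^ (p ^ n) - ∑ i ∈ s, f i ^ (p ^ n)‖ ≤ (p : ℝ)⁻¹ := by
  induction n with
  | zero => simp
  | succ n ih =>
    have hs : ‖∑ i ∈ s, f i‖ ≤ 1 := norm_sum_le' _ _ zero_le_one hf
    have hf' : ∀ i ∈ s, ‖f i ^ (p ^ n)‖ ≤ 1 := fun i hi => by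
      rw [norm_pow]; exact pow_le_one₀ (norm_nonneg _) (hf i hi)
    rw [pow_succ, pow_mul]
    have h1 : ‖((∑ i ∈ s, f i) ^ (p ^ n)) ^ p - (∑ i ∈ s, f i ^ (p ^ n)) ^ p‖ ≤ (p : ℝ)⁻¹ := by
      refine (cong_pow ?_ ?_ p).trans ih
      · rw [norm_pow]; exact pow_le_one₀ (norm_nonneg _) hs
      · exact norm_sum_le' _ _ zero_le_one hf'
    have h2 := sum_frob s (fun i => f i ^ (p ^ n)) hf'
    have h3 := cong_trans h1 h2
    simp only [← pow_mul] at h3
    simpa only [pow_mul] using h3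

/-- the `p`-power map is eventually periodic modulo `p`, uniformly. -/
theorem exists_frob_period (E : IntermediateField ℚ_[p] (PadicAlgCl p))
    [FiniteDimensional ℚ_[p] E] : ∃ m F : ℕ, 0 < F ∧ ∀ c ∈ E, ‖c‖ ≤ 1 →
      ‖c ^ (p ^ (m + F)) - c ^ (p ^ m)‖ ≤ (p : ℝ)⁻¹ := by
  classical
  set X := {x : PadicAlgCl p | x ∈ E ∧ ‖x‖ ≤ 1} with hX
  have hK : IsCompact X := isCompact_ball E 1
  obtain ⟨t, htX, ht⟩ := hK.elim_finite_subcover_image (b := X)
    (c := fun x : PadicAlgCl p => Metric.ball x (p : ℝ)⁻¹) (fun x _ => Metric.isOpen_ball)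
    (fun x hx => Set.mem_iUnion₂.2 ⟨x, hx, Metric.mem_ball_self pinv_pos⟩)
  obtain ⟨htf, ht⟩ := ht
  have hmem : ∀ c ∈ X, ∃ x : t, ‖c - x‖ ≤ (p : ℝ)⁻¹ := by
    intro c hc
    obtain ⟨x, hx, hxc⟩ := Set.mem_iUnion₂.1 (ht hc)
    rw [mem_ball_iff_norm] at hxc
    exact ⟨⟨x, hx⟩, hxc.le⟩
  have hpow : ∀ c ∈ X, ∀ n : ℕ, c ^ n ∈ X := fun c hc n => ⟨pow_mem hc.1 _, by
    rw [norm_pow]; exact pow_le_one₀ (norm_nonneg _) hc.2⟩
  have h1 : ∀ (i : ℕ) (c : t), ∃ x : t, ‖(c : PadicAlgCl p) ^ (p ^ i) - x‖ ≤ (p : ℝ)⁻¹ :=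
    fun i c => hmem _ (hpow _ (htX c.2) _)
  choose G hG using h1
  have : Finite t := htf
  obtain ⟨i, j, hij, hGij⟩ := Finite.exists_ne_map_eq_of_infinite G
  have key : ∀ i j, G i = G j → ∀ c ∈ E, ‖c‖ ≤ 1 → ‖c ^ (p ^ j) - c ^ (p ^ i)‖ ≤ (p : ℝ)⁻¹ := by
    intro i j hG' c hc hc1
    obtain ⟨r, hr⟩ := hmem c ⟨hc, hc1⟩
    have hr1 : ‖(r : PadicAlgCl p)‖ ≤ 1 := (htX r.2).2
    have a1 : ‖c ^ (p ^ j) - (r : PadicAlgCl p) ^ (p ^ j)‖ ≤ (p : ℝ)⁻¹ :=
      (cong_pow hc1 hr1 _).trans hr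
    have a2 : ‖c ^ (p ^ i) - (r : PadicAlgCl p) ^ (p ^ i)‖ ≤ (p : ℝ)⁻¹ :=
      (cong_pow hc1 hr1 _).trans hr
    have a3 := hG j r
    have a4 := hG i r
    rw [hG'] at a4
    have a5 := cong_trans a1 a3
    have a6 := cong_trans a2 a4
    rw [norm_sub_rev] at a6
    exact cong_trans a5 a6
  rcases lt_or_gt_of_ne hij with h | h
  · refine ⟨i, j - i, by omega, ?_⟩
    have : i + (j - i) = j := by omega
    rw [this]
    exact key i j hGij
  · refine ⟨j, i - j, by omega, ?_⟩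
    have : j + (i - j) = i := by omega
    rw [this]
    exact key j i hGij.symm

/-- bounded coefficients in an unramified extension generated by a root of unity -/
theorem unram_coeff {F : IntermediateField ℚ_[p] (PadicAlgCl p)} {n : ℕ} (hn : n.Coprime p)
    {ω : PadicAlgCl p} (hω : ω ^ n = 1) {y : PadicAlgCl p} (hy : y ∈ adj F ω) :
    ∃ P : Polynomial F, y = ∑ i ∈ range (P.natDegree + 1), (P.coeff i : PadicAlgCl p) * ω ^ i ∧
      ∀ i, ‖(P.coeff i : PadicAlgCl p)‖ ≤ ‖y‖ := by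
  classical
  obtain ⟨P, hPdeg, hPy⟩ := mem_adj_poly hy
  have hn0 : n ≠ 0 := by
    rintro rfl
    rw [Nat.coprime_zero_left] at hn
    exact hp.out.one_lt.ne' hn
  have hint : IsIntegral F ω := Algebra.IsIntegral.isIntegral ω
  set f := minpoly F ω with hf
  set R : Finset (PadicAlgCl p) := (f.aroots (PadicAlgCl p)).toFinset with hR
  have hsep : f.Separable := (minpoly.irreducible hint).separable
  have hRcard : R.card = f.natDegree := by
    rw [hR, Multiset.toFinset_card_of_nodup]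
    · rw [Polynomial.aroots_def, ← Polynomial.natDegree_map (algebraMap F (PadicAlgCl p))]
      exact (Polynomial.splits_iff_card_roots.1 (IsAlgClosed.splits _))
    · exact Polynomial.nodup_aroots_iff_of_splits (minpoly.ne_zero hint)
        (IsAlgClosed.splits _) |>.2 hsep
  have hroot : ∀ r ∈ R, Polynomial.aeval r f = 0 := by
    intro r hr
    rw [hR, Multiset.mem_toFinset, Polynomial.mem_aroots] at hr
    exact hr.2
  have hgal : ∀ r ∈ R, ∃ g : Gp p, (∀ z ∈ F, g z = z) ∧ g ω = r := by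
    intro r hr
    obtain ⟨σ, hσ⟩ := minpoly.exists_algEquiv_of_root' (K := F) (L := PadicAlgCl p)
      hint.isAlgebraic (hroot r hr)
    refine ⟨σ.restrictScalars ℚ_[p], ?_, hσ⟩
    intro z hz
    exact σ.commutes ⟨z, hz⟩
  have hrn : ∀ r ∈ R, r ^ n = 1 := by
    intro r hr
    obtain ⟨g, -, hgr⟩ := hgal r hr
    rw [← hgr, ← map_pow, hω, map_one]
  set Q := P.map (algebraMap F (PadicAlgCl p)) with hQ
  have hQdeg : Q.degree < R.card := by
    rw [hRcard]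
    refine lt_of_le_of_lt Polynomial.degree_map_le ?_
    exact lt_of_le_of_lt Polynomial.degree_le_natDegree (by exact_mod_cast hPdeg)
  have hQr : ∀ r ∈ R, ‖Q.eval r‖ = ‖y‖ := by
    intro r hr
    obtain ⟨g, hgF, hgr⟩ := hgal r hr
    have e1 : Q.eval r = g y := by
      rw [hQ, Polynomial.eval_map, ← hPy, Polynomial.aeval_def, ← hgr, Polynomial.eval₂_eq_sum,
        Polynomial.eval₂_eq_sum, Polynomial.sum, Polynomial.sum, map_sum]
      apply Finset.sum_congr rfl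
      intro i _
      rw [map_mul, map_pow]
      congr 1
      exact (hgF _ (P.coeff i).2).symm
    rw [e1, norm_gal]
  have hlag := Lagrange.eq_interpolate (s := R) (v := id) (f := Q) (Set.injOn_id _) hQdeg
  have hPB : PB Q ‖y‖ := by
    rw [hlag, Lagrange.interpolate_apply]
    apply PB.sum _ _ (norm_nonneg _)
    intro r hr
    have h1 : PB (Polynomial.C (Q.eval (id r))) ‖y‖ := by
      intro i
      rw [Polynomial.coeff_C]
      split_ifs
      · exact (hQr r hr).le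
      · rw [norm_zero]; exact norm_nonneg _
    have h2 : PB (Lagrange.basis R id r) 1 := by
      unfold Lagrange.basis
      apply PB.prod
      intro s hs
      rw [Finset.mem_erase] at hs
      unfold Lagrange.basisDivisor
      have h3 : ‖(id r - id s)⁻¹‖ = 1 := by
        rw [norm_inv, id, id, norm_unity_sub hn (hrn r hr) (hrn s hs.2) hs.1.symm, inv_one]
      intro i
      rw [Polynomial.coeff_C_mul, norm_mul, h3, one_mul, Polynomial.coeff_sub,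
        Polynomial.coeff_X, Polynomial.coeff_C]
      refine (norm_sub_le_max' _ _).trans (max_le ?_ ?_)
      · split_ifs <;> simp
      · split_ifs
        · rw [id, norm_root_of_unity hn0 (hrn s hs.2)]
        · simp
    have h4 := h1.mul h2
    rwa [mul_one] at h4
  refine ⟨P, ?_, ?_⟩
  · rw [← hPy, Polynomial.aeval_eq_sum_range]
    apply Finset.sum_congr rfl
    intro i _
    rw [Algebra.smul_def]
    rfl
  · intro i
    have := hPB i
    rwa [hQ, Polynomial.coeff_map] at this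

/-- the local Frobenius -/
theorem frob_local {E : IntermediateField ℚ_[p] (PadicAlgCl p)} {m F : ℕ}
    (hE : ∀ c ∈ E, ‖c‖ ≤ 1 → ‖c ^ (p ^ (m + F)) - c ^ (p ^ m)‖ ≤ (p : ℝ)⁻¹) {n : ℕ}
    (hn : n.Coprime p) {ω : PadicAlgCl p} (hω : ω ^ n = 1) :
    ∃ g : Gp p, (∀ z ∈ E, g z = z) ∧ g ω = ω ^ (p ^ F) := by
  classical
  have hn0 : n ≠ 0 := by
    rintro rfl
    rw [Nat.coprime_zero_left] at hn
    exact hp.out.one_lt.ne' hn
  have hint : IsIntegral E ω := Algebra.IsIntegral.isIntegral ω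
  set f := minpoly E ω with hf
  have hmon : f.Monic := minpoly.monic hint
  set R : Finset (PadicAlgCl p) := (f.aroots (PadicAlgCl p)).toFinset with hR
  have hsep : f.Separable := (minpoly.irreducible hint).separable
  have hnodup : (f.aroots (PadicAlgCl p)).Nodup :=
    Polynomial.nodup_aroots_iff_of_splits (minpoly.ne_zero hint)
      (IsAlgClosed.splits _) |>.2 hsep
  have hroot : ∀ r ∈ R, Polynomial.aeval r f = 0 := by
    intro r hr
    rw [hR, Multiset.mem_toFinset, Polynomial.mem_aroots] at hr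
    exact hr.2
  have hgal : ∀ r ∈ R, ∃ g : Gp p, (∀ z ∈ E, g z = z) ∧ g ω = r := by
    intro r hr
    obtain ⟨σ, hσ⟩ := minpoly.exists_algEquiv_of_root' (K := E) (L := PadicAlgCl p)
      hint.isAlgebraic (hroot r hr)
    refine ⟨σ.restrictScalars ℚ_[p], ?_, hσ⟩
    intro z hz
    exact σ.commutes ⟨z, hz⟩
  have hrn : ∀ r ∈ R, r ^ n = 1 := by
    intro r hr
    obtain ⟨g, -, hgr⟩ := hgal r hr
    rw [← hgr, ← map_pow, hω, map_one]
  by_contra hcon
  push Not at hcon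
  have hnotR : ω ^ (p ^ F) ∉ R := by
    intro h
    obtain ⟨g, hg, hgω⟩ := hgal _ h
    exact hcon g hg hgω
  have hωF : (ω ^ (p ^ F)) ^ n = 1 := by rw [← pow_mul, mul_comm, pow_mul, hω, one_pow]
  set G := f.map (algebraMap E (PadicAlgCl p)) with hG
  have hGprod : G = ∏ r ∈ R, (Polynomial.X - Polynomial.C r) := by
    have h1 := (IsAlgClosed.splits G).eq_prod_roots
    rw [(hmon.map _).leadingCoeff, Polynomial.C_1, one_mul] at h1
    rw [h1, Finset.prod_eq_multiset_prod, hR, Multiset.toFinset_val,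
      Multiset.dedup_eq_self.mpr hnodup]
  have hGn : ‖G.eval (ω ^ (p ^ F))‖ = 1 := by
    rw [hGprod, Polynomial.eval_prod, norm_prod]
    apply Finset.prod_eq_one
    intro r hr
    rw [Polynomial.eval_sub, Polynomial.eval_X, Polynomial.eval_C]
    exact norm_unity_sub hn hωF (hrn r hr) (fun h => hnotR (h ▸ hr))
  have hcoef : PB G 1 := by
    rw [hGprod]
    apply PB.prod
    intro r hr i
    rw [Polynomial.coeff_sub, Polynomial.coeff_X, Polynomial.coeff_C]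
    refine (norm_sub_le_max' _ _).trans (max_le ?_ ?_)
    · split_ifs <;> simp
    · split_ifs
      · rw [norm_root_of_unity hn0 (hrn r hr)]
      · simp
  have hωn : ‖ω‖ = 1 := norm_root_of_unity hn0 hω
  have hωi : ∀ i : ℕ, ‖ω ^ i‖ = 1 := fun i => by rw [norm_pow, hωn, one_pow]
  have h0 : G.eval ω = 0 := by
    rw [hG, Polynomial.eval_map]
    exact minpoly.aeval E ω
  rw [Polynomial.eval_eq_sum_range] at h0
  have h1 := sum_frob_iter (range (G.natDegree + 1)) (fun i => G.coeff i * ω ^ i) (fun i _ => by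
    rw [norm_mul, hωi, mul_one]; exact hcoef i) F
  rw [h0, zero_pow (pow_ne_zero _ hp.out.ne_zero), zero_sub, norm_neg] at h1
  have h2 : ‖∑ i ∈ range (G.natDegree + 1), ((G.coeff i * ω ^ i) ^ (p ^ F) -
      G.coeff i * (ω ^ (p ^ F)) ^ i)‖ < 1 := by
    obtain ⟨i, -, hle⟩ := IsUltrametricDist.exists_norm_finsetSum_le_of_nonempty
      (t := range (G.natDegree + 1)) ⟨0, by simp⟩
      (fun i => (G.coeff i * ω ^ i) ^ (p ^ F) - G.coeff i * (ω ^ (p ^ F)) ^ i)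
    refine hle.trans_lt ?_
    have e1 : (G.coeff i * ω ^ i) ^ (p ^ F) - G.coeff i * (ω ^ (p ^ F)) ^ i =
        ((G.coeff i) ^ (p ^ F) - G.coeff i) * (ω ^ (p ^ F)) ^ i := by
      rw [mul_pow, ← pow_mul, ← pow_mul, mul_comm i (p ^ F)]
      ring
    have e2 : ‖(ω ^ (p ^ F)) ^ i‖ = 1 := by rw [← pow_mul]; exact hωi _
    rw [e1, norm_mul, e2, mul_one]
    have hci : G.coeff i ∈ E := by
      rw [hG, Polynomial.coeff_map]
      exact (f.coeff i).2
    apply frob_cancel_iter _ (hcoef i) m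
    · have e3 := hE _ hci (hcoef i)
      rw [← pow_mul, ← pow_add, add_comm F m]
      exact e3.trans_lt pinv_lt_one
    · rw [norm_pow]; exact pow_le_one₀ (norm_nonneg _) (hcoef i)
  rw [Finset.sum_sub_distrib] at h2
  have h3 : G.eval (ω ^ (p ^ F)) = ∑ i ∈ range (G.natDegree + 1), G.coeff i * (ω ^ (p ^ F)) ^ i :=
    Polynomial.eval_eq_sum_range _
  rw [← h3] at h2
  have h4 : ‖G.eval (ω ^ (p ^ F))‖ < 1 := by
    have e4 : G.eval (ω ^ (p ^ F)) = ∑ i ∈ range (G.natDegree + 1), (G.coeff i * ω ^ i) ^ (p ^ F) -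
        (∑ i ∈ range (G.natDegree + 1), (G.coeff i * ω ^ i) ^ (p ^ F) - G.eval (ω ^ (p ^ F))) := by
      ring
    rw [e4]
    exact (norm_sub_le_max' _ _).trans_lt (max_lt (h1.trans_lt pinv_lt_one) h2)
  linarith

/-- the congruence of the local Frobenius -/
theorem frob_congr {E : IntermediateField ℚ_[p] (PadicAlgCl p)} {m F : ℕ}
    (hE : ∀ c ∈ E, ‖c‖ ≤ 1 → ‖c ^ (p ^ (m + F)) - c ^ (p ^ m)‖ ≤ (p : ℝ)⁻¹) {n : ℕ}
    (hn : n.Coprime p) {ω : PadicAlgCl p} (hω : ω ^ n = 1) {g : Gp p} (hg : ∀ z ∈ E, g z = z)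
    (hgω : g ω = ω ^ (p ^ F)) {x : PadicAlgCl p} (hx : x ∈ adj E ω) (hx1 : ‖x‖ ≤ 1) :
    ‖x ^ (p ^ (m + F + 1)) - (g x) ^ (p ^ (m + 1))‖ ≤ ((p : ℝ) ^ 2)⁻¹ := by
  have hn0 : n ≠ 0 := by
    rintro rfl
    rw [Nat.coprime_zero_left] at hn
    exact hp.out.one_lt.ne' hn
  have hωn : ‖ω‖ = 1 := norm_root_of_unity hn0 hω
  have hωi : ∀ i : ℕ, ‖ω ^ i‖ = 1 := fun i => by rw [norm_pow, hωn, one_pow]
  obtain ⟨P, hP, hPc⟩ := unram_coeff hn hω hx
  have hc : ∀ i, ‖(P.coeff i : PadicAlgCl p)‖ ≤ 1 := fun i => (hPc i).trans hx1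
  have hgx : g x = ∑ i ∈ range (P.natDegree + 1), (P.coeff i : PadicAlgCl p) *
      (ω ^ (p ^ F)) ^ i := by
    rw [hP, map_sum]
    apply Finset.sum_congr rfl
    intro i _
    rw [map_mul, map_pow, hg _ (P.coeff i).2, hgω]
  have h1 := sum_frob_iter (range (P.natDegree + 1))
    (fun i => (P.coeff i : PadicAlgCl p) * ω ^ i) (fun i _ => by
      rw [norm_mul, hωi, mul_one]; exact hc i) (m + F)
  rw [← hP] at h1
  have h2 := sum_frob_iter (range (P.natDegree + 1))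
    (fun i => (P.coeff i : PadicAlgCl p) * (ω ^ (p ^ F)) ^ i) (fun i _ => by
      rw [norm_mul, ← pow_mul, hωi, mul_one]; exact hc i) m
  rw [← hgx] at h2
  have h3 : ‖∑ i ∈ range (P.natDegree + 1), ((P.coeff i : PadicAlgCl p) * ω ^ i) ^ (p ^ (m + F)) -
      ∑ i ∈ range (P.natDegree + 1), ((P.coeff i : PadicAlgCl p) * (ω ^ (p ^ F)) ^ i) ^ (p ^ m)‖ ≤
      (p : ℝ)⁻¹ := by
    rw [← Finset.sum_sub_distrib]
    apply norm_sum_le' _ _ pinv_pos.le
    intro i _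
    have e1 : ((P.coeff i : PadicAlgCl p) * ω ^ i) ^ (p ^ (m + F)) -
        ((P.coeff i : PadicAlgCl p) * (ω ^ (p ^ F)) ^ i) ^ (p ^ m) =
        ((P.coeff i : PadicAlgCl p) ^ (p ^ (m + F)) - (P.coeff i : PadicAlgCl p) ^ (p ^ m)) *
          ω ^ (i * p ^ (m + F)) := by
      have e2 : ((ω ^ (p ^ F)) ^ i) ^ (p ^ m) = ω ^ (i * p ^ (m + F)) := by
        rw [← pow_mul, ← pow_mul]
        congr 1
        rw [pow_add]
        ring
      rw [mul_pow, mul_pow, e2, ← pow_mul]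
      ring
    rw [e1, norm_mul, hωi, mul_one]
    exact hE _ (P.coeff i).2 (hc i)
  rw [norm_sub_rev] at h2
  have h4 := cong_trans (cong_trans h1 h3) h2
  rw [pow_succ p (m + F), pow_succ p m, pow_mul, pow_mul]
  apply cong_pow_p _ _ h4
  · rw [norm_pow]; exact pow_le_one₀ (norm_nonneg _) hx1
  · rw [norm_pow, norm_gal]; exact pow_le_one₀ (norm_nonneg _) hx1

theorem frob_congr' {E : IntermediateField ℚ_[p] (PadicAlgCl p)} {m F : ℕ}
    (hE : ∀ c ∈ E, ‖c‖ ≤ 1 → ‖c ^ (p ^ (m + F)) - c ^ (p ^ m)‖ ≤ (p : ℝ)⁻¹) {n : ℕ}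
    (hn : n.Coprime p) {ω : PadicAlgCl p} (hω : ω ^ n = 1) {g : Gp p} (hg : ∀ z ∈ E, g z = z)
    (hgω : g ω = ω ^ (p ^ F)) {x : PadicAlgCl p} (hx : x ∈ adj E ω) :
    ‖x ^ (p ^ (m + F + 1)) - (g x) ^ (p ^ (m + 1))‖ ≤ ((p : ℝ) ^ 2)⁻¹ *
      (max 1 ‖x‖ ^ (p ^ (m + F + 1)) * max 1 ‖g x‖ ^ (p ^ (m + 1))) := by
  have hp2 : (0 : ℝ) < ((p : ℝ) ^ 2)⁻¹ := by
    have : (0 : ℝ) < p := by exact_mod_cast hp.out.pos
    positivity
  rcases le_total ‖x‖ 1 with h | h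
  · refine (frob_congr hE hn hω hg hgω hx h).trans ?_
    have h1 : (1 : ℝ) ≤ max 1 ‖x‖ ^ (p ^ (m + F + 1)) := one_le_pow₀ (le_max_left _ _)
    have h2 : (1 : ℝ) ≤ max 1 ‖g x‖ ^ (p ^ (m + 1)) := one_le_pow₀ (le_max_left _ _)
    have h3 : (1 : ℝ) ≤ max 1 ‖x‖ ^ (p ^ (m + F + 1)) * max 1 ‖g x‖ ^ (p ^ (m + 1)) := by nlinarith
    nlinarith
  · have hx0 : x ≠ 0 := by
      rintro rfl
      rw [norm_zero] at h
      linarith
    have hgx0 : g x ≠ 0 := (map_ne_zero g).2 hx0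
    have h1 := frob_congr hE hn hω hg hgω (x := x⁻¹) (inv_mem hx) (by
      rw [norm_inv]; exact inv_le_one_of_one_le₀ h)
    rw [norm_gal, max_eq_right h, map_inv₀] at *
    set P := p ^ (m + F + 1)
    set Q := p ^ (m + 1)
    have h2 : x ^ P - (g x) ^ Q = -((x⁻¹ ^ P - (g x)⁻¹ ^ Q) * (x ^ P * (g x) ^ Q)) := by
      rw [inv_pow, inv_pow]
      have := pow_ne_zero P hx0
      have := pow_ne_zero Q hgx0
      field_simp
      ring
    rw [h2, norm_neg, norm_mul, norm_mul, norm_pow, norm_pow, norm_gal]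
    gcongr

end MS
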