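import Pool.Agent.Lib_helper24.MS.Frob1

/-!
A lower bound for the height on `K(μ_A)`, `A` prime to `p`, for a number field `K`.
-/

namespace MS

open Finset IntermediateField

universe u

variable {Ω : Type u} [Field Ω] [Algebra ℚ Ω] [Algebra.IsAlgebraic ℚ Ω] [IsAlgClosed Ω]
variable {p : ℕ} [hp : Fact p.Prime]

omit [IsAlgClosed Ω] in
variable (p) in
theorem exists_E' {K : Type*} [Field K] [Algebra ℚ K] [FiniteDimensional ℚ K] (φ : K →+* Ω) :
    ∃ E : IntermediateField ℚ_[p] (PadicAlgCl p), FiniteDimensional ℚ_[p] E ∧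
      ∀ τ : Ω →+* PadicAlgCl p, ∀ x : K, τ (φ x) ∈ E := by
  set b := Module.finBasis ℚ K with hb
  set T : Set (PadicAlgCl p) := ⋃ i, {a | ∃ τ : Ω →+* PadicAlgCl p, τ (φ (b i)) = a} with hT
  have hfin : T.Finite := Set.finite_iUnion (fun i => finite_conj (φ (b i)))
  have : Finite T := hfin
  refine ⟨adjoin ℚ_[p] T, IntermediateField.finiteDimensional_adjoin
    (fun x _ => Algebra.IsIntegral.isIntegral x), ?_⟩
  intro τ x
  have h2 : τ (φ x) = ∑ i, ((b.repr x i : ℚ) : PadicAlgCl p) * τ (φ (b i)) := by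
    conv_lhs => rw [← b.sum_repr x]
    rw [map_sum, map_sum]
    refine Finset.sum_congr rfl fun i _ => ?_
    rw [Algebra.smul_def, map_mul, map_mul, eq_ratCast, map_ratCast, map_ratCast]
  rw [h2]
  apply sum_mem
  intro i _
  apply mul_mem
  · exact SubfieldClass.ratCast_mem (adjoin ℚ_[p] T) _
  · apply subset_adjoin
    rw [hT, Set.mem_iUnion]
    exact ⟨i, τ, rfl⟩

omit [IsAlgClosed Ω] in
variable (p) in
theorem exists_E (K1 : IntermediateField ℚ Ω) (h : FiniteDimensional ℚ K1) :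
    ∃ E : IntermediateField ℚ_[p] (PadicAlgCl p), FiniteDimensional ℚ_[p] E ∧
      ∀ τ : Ω →+* PadicAlgCl p, ∀ x ∈ K1, τ x ∈ E := by
  obtain ⟨E, hE, h1⟩ := @exists_E' Ω _ _ _ p _ K1 _ (IntermediateField.algebra' _) h
    (algebraMap K1 Ω)
  exact ⟨E, hE, fun τ x hx => h1 τ ⟨x, hx⟩⟩

omit [IsAlgClosed Ω] in
theorem exists_emb (L : Type*) [Field L] [IsAlgClosed L] [Algebra ℚ L] :
    Nonempty (Ω →+* L) := by
  obtain ⟨τ, -⟩ := exists_extend (Ω := Ω) (algebraMap ℚ Ω) (algebraMap ℚ L)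
  exact ⟨τ⟩

/-- the global Frobenius-like automorphism -/
theorem frob_exists {K1 : IntermediateField ℚ Ω}
    {E : IntermediateField ℚ_[p] (PadicAlgCl p)}
    (hE : ∀ τ : Ω →+* PadicAlgCl p, ∀ x ∈ K1, τ x ∈ E) {m F : ℕ}
    (hmF : ∀ c ∈ E, ‖c‖ ≤ 1 → ‖c ^ (p ^ (m + F)) - c ^ (p ^ m)‖ ≤ (p : ℝ)⁻¹) {A : ℕ}
    (hA : A.Coprime p) {ω : Ω} (hω : ω ^ A = 1) :
    ∃ Φ : Ω ≃ₐ[ℚ] Ω, (∀ x ∈ K1, Φ x = x) ∧ Φ ω = ω ^ (p ^ F) := by
  have hgal : IsGalois ℚ Ω := isGaloisG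
  have hnorm : Normal K1 Ω := Normal.tower_top_of_normal ℚ K1 Ω
  obtain ⟨τ⟩ := exists_emb (Ω := Ω) (PadicAlgCl p)
  obtain ⟨g, hg, hgω⟩ := frob_local hmF hA (ω := τ ω) (by rw [← map_pow, hω, map_one])
  have hint : IsAlgebraic K1 ω := Algebra.IsAlgebraic.isAlgebraic ω
  have hroot : Polynomial.aeval (ω ^ (p ^ F)) (minpoly K1 ω) = 0 := by
    apply τ.injective
    have h0 := congrArg (fun t => g (τ t)) (minpoly.aeval K1 ω)
    simp only [map_zero] at h0
    rw [map_zero, ← h0, Polynomial.aeval_eq_sum_range, Polynomial.aeval_eq_sum_range, map_sum,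
      map_sum, map_sum]
    apply Finset.sum_congr rfl
    intro i _
    rw [Algebra.smul_def, Algebra.smul_def, map_mul, map_mul, map_mul, map_pow, map_pow, map_pow,
      map_pow, hgω]
    congr 1
    exact (hg _ (hE τ _ ((minpoly K1 ω).coeff i).2)).symm
  obtain ⟨σ, hσ⟩ := minpoly.exists_algEquiv_of_root' (K := K1) (L := Ω) hint hroot
  refine ⟨σ.restrictScalars ℚ, ?_, hσ⟩
  intro z hz
  exact σ.commutes ⟨z, hz⟩

variable (p) in
/-- the lower bound -/
theorem frob_bound (K1 : IntermediateField ℚ Ω) (hK1 : FiniteDimensional ℚ K1) :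
    ∃ c : ℝ, 0 < c ∧ ∀ A : ℕ, A.Coprime p → ∀ ω : Ω, ω ^ A = 1 → ∀ y ∈ adjG K1 ω, y ≠ 0 →
      (∀ n : ℕ, 0 < n → y ^ n ≠ 1) → c ≤ ht y := by
  obtain ⟨E, hEfin, hE⟩ := exists_E p K1 hK1
  obtain ⟨m, F, hF, hmF⟩ := exists_frob_period E
  have hpp : (0 : ℝ) < p := by exact_mod_cast hp.out.pos
  set P := p ^ (m + F + 1) with hP
  set Q := p ^ (m + 1) with hQ
  have hPQ : (0 : ℝ) < (P : ℝ) + Q := by
    have h1 : (0 : ℝ) < P := by rw [hP]; push_cast; positivity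
    have h2 : (0 : ℝ) ≤ Q := Nat.cast_nonneg _
    linarith
  have hlog : 0 < 2 * Real.log p - Real.log 2 := by
    have h1 : Real.log 2 ≤ Real.log p := Real.log_le_log (by norm_num)
      (by exact_mod_cast hp.out.two_le)
    have h2 := log_p_pos p
    linarith
  refine ⟨(2 * Real.log p - Real.log 2) / (P + Q), div_pos hlog hPQ, ?_⟩
  intro A hA ω hω y hy hy0 htor
  obtain ⟨Φ, hΦ, hΦω⟩ := frob_exists hE hmF hA hω
  have hne : y ^ P ≠ (Φ y) ^ Q := by
    intro heq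
    have h1 := ht_pow y P
    have h2 := ht_pow (Φ y) Q
    have h3 : ht (Φ y) = ht y := ht_gal Φ y
    rw [heq, h2, h3] at h1
    have h4 : (Q : ℝ) < P := by
      have : Q < P := Nat.pow_lt_pow_right hp.out.one_lt (by omega)
      exact_mod_cast this
    have h5 : ht y = 0 := by
      by_contra h6
      have h7 := ht_nonneg y
      have h8 : 0 < ht y := lt_of_le_of_ne h7 (Ne.symm h6)
      nlinarith
    obtain ⟨n, hn, hn1⟩ := kronecker hy0 h5
    exact htor n hn hn1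
  have hmain := pow_sub_ineq (p := p) hne ?_
  · have h3 : ht (Φ y) = ht y := ht_gal Φ y
    rw [h3] at hmain
    rw [div_le_iff₀ hPQ]
    linarith
  · intro τ
    have hτω : (τ ω) ^ A = 1 := by rw [← map_pow, hω, map_one]
    obtain ⟨g, hg, hgω⟩ := frob_local hmF hA hτω
    have hagree : ∀ x ∈ adjG K1 ω, (τ.comp (Φ : Ω →+* Ω)) x =
        ((g : PadicAlgCl p →+* PadicAlgCl p).comp τ) x := by
      apply adjG_agree
      · intro x hx
        change τ (Φ x) = g (τ x)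
        rw [hΦ x hx, hg _ (hE τ x hx)]
      · change τ (Φ ω) = g (τ ω)
        rw [hΦω, map_pow, hgω]
    have h1 : τ (Φ y) = g (τ y) := hagree y hy
    have h2 : τ y ∈ adj E (τ ω) := by
      have h3 := adjG_subfield τ (F := K1) (v := ω) (H := (adj E (τ ω)).toSubfield)
        (fun x hx => le_adj E _ (hE τ x hx)) (mem_adj_self E _) y hy
      exact h3
    rw [h1]
    exact frob_congr' hmF hA hτω hg hgω h2

end MS
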