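import Pool.Agent.Lib_helper24.MS.Corner4

/-!
The main local theorem.
-/

namespace MS

open Finset IntermediateField

variable {p : ℕ} [hp : Fact p.Prime]

/-- the local fields of the tower -/
noncomputable def Fl (E : IntermediateField ℚ_[p] (PadicAlgCl p)) (ω w : PadicAlgCl p)
    (ζ z : ℕ → PadicAlgCl p) (K J : ℕ) : IntermediateField ℚ_[p] (PadicAlgCl p) :=
  adj (adj (adj (adj E ω) w) (ζ K)) (z J)

theorem Fl_le {E : IntermediateField ℚ_[p] (PadicAlgCl p)} {ω w : PadicAlgCl p}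
    {ζ z : ℕ → PadicAlgCl p} {K J : ℕ} {F : IntermediateField ℚ_[p] (PadicAlgCl p)}
    (h1 : E ≤ F) (h2 : ω ∈ F) (h3 : w ∈ F) (h4 : ζ K ∈ F) (h5 : z J ∈ F) : Fl E ω w ζ z K J ≤ F :=
  adj_le (adj_le (adj_le (adj_le h1 h2) h3) h4) h5

theorem local_main {E : IntermediateField ℚ_[p] (PadicAlgCl p)} [FiniteDimensional ℚ_[p] E]
    {ζ z : ℕ → PadicAlgCl p} (hζ : ZSys ζ) (hz0 : z 0 ≠ 0) (hzE : z 0 ∈ E)
    (hzs : ∀ j, z (j + 1) ^ p = z j) (htor : ∀ n : ℕ, 0 < n → z 0 ^ n ≠ 1) :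
    ∃ J0 : ℕ, ∀ J ≥ J0, ∃ K1 : ℕ, 2 ≤ K1 ∧ ∀ K ≥ K1, ∃ δ : ℝ, 0 < δ ∧
      ∀ (A B : ℕ) (ω w : PadicAlgCl p), A.Coprime p → B ∣ A → IsPrimitiveRoot ω A → w ^ B = z 0 →
        ∀ κ : ℕ, NonApprox (Fl E ω w ζ z (K + κ + 1) (J + κ)) (z (J + κ + 1)) δ ∧
          NonApprox (Fl E ω w ζ z (K + κ) (J + κ + 1)) (ζ (K + κ + 1)) δ := by
  have hzne : ∀ j, z j ≠ 0 := by
    intro j
    induction j with
    | zero => exact hz0
    | succ j ih =>
      intro h
      apply ih
      rw [← hzs j, h, zero_pow hp.out.ne_zero]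
  have hzpow : ∀ j, z j ^ (p ^ j) = z 0 := by
    intro j
    induction j with
    | zero => simp
    | succ j ih => rw [pow_succ', pow_mul, hzs, ih]
  obtain ⟨J0, hJ0⟩ := z_bounded hzE hz0 htor
  refine ⟨J0, fun J hJ => ?_⟩
  obtain ⟨K1, hK12, hK1⟩ := PP_exists (adj E (z (J + 1))) hζ
  refine ⟨K1, hK12, fun K hK => ?_⟩
  -- the two base fields
  set Fz := adj (adj E (ζ (K + 1))) (z J) with hFz
  set Fζ := adj (adj E (ζ K)) (z (J + 1)) with hFζ
  have hμz : ∀ ξ : PadicAlgCl p, ξ ^ p = 1 → ξ ∈ Fz := by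
    intro ξ hξ
    apply le_adj
    apply root_mem_adj E (pow_pos hp.out.pos _) (hζ.prim (K + 1))
    rw [pow_succ', pow_mul, hξ, one_pow]
  have hμζ : ∀ ξ : PadicAlgCl p, ξ ^ p = 1 → ξ ∈ Fζ := by
    intro ξ hξ
    apply le_adj
    apply root_mem_adj E (pow_pos hp.out.pos _) (hζ.prim K)
    have : K = (K - 1) + 1 := by omega
    rw [this, pow_succ', pow_mul, hξ, one_pow]
  obtain ⟨m1, hm1, hN1⟩ : ∃ m : ℝ, 0 < m ∧ NonApprox Fz (z (J + 1)) m := by
    apply nonApprox_pos hμz (hzne _)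
    · rw [hzs]; exact mem_adj_self _ _
    · intro n η hn hη hmem
      have hn0 : 0 < n := by
        rcases Nat.eq_zero_or_pos n with h | h
        · rw [h, Nat.coprime_zero_left] at hn
          exact absurd hn hp.out.one_lt.ne'
        · exact h
      have hN0 : 0 < p ^ (K + 1) * n := Nat.mul_pos (pow_pos hp.out.pos _) hn0
      obtain ⟨ω, hω⟩ := exists_prim (p := p) (p ^ (K + 1) * n) hN0
      apply z_layer_nondeg hz0 (hJ0 (J + 1) (by omega)) hzE (hzs J) (hzpow J) hN0 hω.pow_eq_one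
      refine adj_le ?_ ?_ hmem
      · apply adj_le (adj_le ((le_adj _ _).trans (le_adj _ _)) _) (mem_adj_self _ _)
        apply le_adj
        apply root_mem_adj E hN0 hω
        rw [pow_mul, (hζ.prim (K + 1)).pow_eq_one, one_pow]
      · apply le_adj
        apply root_mem_adj E hN0 hω
        rw [mul_comm, pow_mul, hη, one_pow]
  obtain ⟨m2, hm2, hN2⟩ : ∃ m : ℝ, 0 < m ∧ NonApprox Fζ (ζ (K + 1)) m := by
    apply nonApprox_pos hμζ (hζ.ne_zero _)
    · rw [hζ.step]; exact le_adj _ _ (mem_adj_self _ _)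
    · intro n η hn hη hmem
      apply hK1 K hK n η hn hη
      rw [adj_comm E (z (J + 1)) (ζ K)]
      exact hmem
  set m := min m1 m2 with hm
  have hm0 : 0 < m := lt_min hm1 hm2
  refine ⟨dl p m, dl_pos hm0, ?_⟩
  intro A B ω w hA hBA hω hw κ
  have hA0 : 0 < A := by
    rcases Nat.eq_zero_or_pos A with h | h
    · rw [h, Nat.coprime_zero_left] at hA
      exact absurd hA hp.out.one_lt.ne'
    · exact h
  have hB0 : B ≠ 0 := by
    rintro rfl
    exact hA0.ne' (Nat.eq_zero_of_zero_dvd hBA)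
  have hBp : B.Coprime p := Nat.Coprime.coprime_dvd_left hBA hA
  have hw0 : w ≠ 0 := by
    rintro rfl
    rw [zero_pow hB0] at hw
    exact hz0 hw.symm
  have hμA : ∀ F : IntermediateField ℚ_[p] (PadicAlgCl p), ∀ ξ : PadicAlgCl p, ξ ^ B = 1 →
      ξ ∈ adj F ω := by
    intro F ξ hξ
    apply root_mem_adj F hA0 hω
    obtain ⟨e, he⟩ := hBA
    rw [he, pow_mul, hξ, one_pow]
  have htame : ∀ F : IntermediateField ℚ_[p] (PadicAlgCl p), E ≤ F →
      Tame F (adj (adj F ω) w) := by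
    intro F hEF
    apply (tame_unram F hA hω.pow_eq_one).trans
    apply tame_kummer B _ hBp (hμA F) w hw0
    rw [hw]
    exact le_adj _ _ (hEF hzE)
  have hfin : FiniteDimensional ℚ_[p] (Fl E ω w ζ z K J) := by unfold Fl; infer_instance
  let T : TowerData p :=
    { E := Fl E ω w ζ z K J
      fin := hfin
      K0 := K
      hK0 := by omega
      hK02 := fun _ => by omega
      ζ := fun k => ζ (K + k)
      hζ0 := hζ.prim K
      hζE := le_adj _ _ (mem_adj_self _ _)
      hζs := fun k => hζ.step (K + k)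
      z := fun j => z (J + j)
      hz0 := hzne _
      hzE := mem_adj_self _ _
      hzs := fun j => hzs (J + j) }
  have hzmono : ∀ i j, i ≤ j → ∀ F : IntermediateField ℚ_[p] (PadicAlgCl p), z j ∈ F → z i ∈ F := by
    intro i j hij
    induction hij with
    | refl => intro F h; exact h
    | step _ ih =>
      intro F h
      apply ih F
      rw [← hzs]
      exact pow_mem h _
  have hζmono : ∀ i j, i ≤ j → ∀ F : IntermediateField ℚ_[p] (PadicAlgCl p), ζ j ∈ F → ζ i ∈ F := by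
    intro i j hij
    induction hij with
    | refl => intro F h; exact h
    | step _ ih =>
      intro F h
      apply ih F
      rw [← hζ.step]
      exact pow_mem h _
  have hTF : ∀ k j, Fl E ω w ζ z (K + k) (J + j) ≤ T.F k j := by
    intro k j
    have hE : Fl E ω w ζ z K J ≤ T.F k j := T.E_le k j
    apply Fl_le
    · exact (((le_adj _ _).trans (le_adj _ _)).trans ((le_adj _ _).trans (le_adj _ _))).trans hE
    · exact hE (le_adj _ _ (le_adj _ _ (le_adj _ _ (mem_adj_self _ _))))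
    · exact hE (le_adj _ _ (le_adj _ _ (mem_adj_self _ _)))
    · exact T.ζ_mem k j
    · exact T.z_mem k j
  have hTF' : ∀ k j, T.F k j ≤ adj (adj (adj (adj E (ζ (K + k))) (z (J + j))) ω) w := by
    intro k j
    have h1 : adj (adj E (ζ (K + k))) (z (J + j)) ≤
        adj (adj (adj (adj E (ζ (K + k))) (z (J + j))) ω) w := (le_adj _ _).trans (le_adj _ _)
    have h2 : E ≤ adj (adj (adj (adj E (ζ (K + k))) (z (J + j))) ω) w :=
      ((le_adj _ _).trans (le_adj _ _)).trans h1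
    have h3 : ζ (K + k) ∈ adj (adj (adj (adj E (ζ (K + k))) (z (J + j))) ω) w :=
      h1 (le_adj _ _ (mem_adj_self _ _))
    have h4 : z (J + j) ∈ adj (adj (adj (adj E (ζ (K + k))) (z (J + j))) ω) w :=
      h1 (mem_adj_self _ _)
    apply T.F_le _ h3 h4
    apply Fl_le h2
    · exact le_adj _ _ (mem_adj_self _ _)
    · exact mem_adj_self _ _
    · exact hζmono K (K + k) (by omega) _ h3
    · exact hzmono J (J + j) (by omega) _ h4
  have hc1 : T.NK 1 0 m := by
    have h1 := nonApprox_baseChange (F := Fz) (hzne _) (by rw [hzs]; exact mem_adj_self _ _)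
      hm1 hN1 (htame Fz ((le_adj _ _).trans (le_adj _ _))).1
      (htame Fz ((le_adj _ _).trans (le_adj _ _))).2
    exact NonApprox.mono h1 (min_le_left _ _) (hTF' 1 0)
  have hc2 : T.NC 0 1 m := by
    have h1 := nonApprox_baseChange (F := Fζ) (hζ.ne_zero _)
      (by rw [hζ.step]; exact le_adj _ _ (mem_adj_self _ _))
      hm2 hN2 (htame Fζ ((le_adj _ _).trans (le_adj _ _))).1
      (htame Fζ ((le_adj _ _).trans (le_adj _ _))).2
    exact NonApprox.mono h1 (min_le_right _ _) (hTF' 0 1)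
  obtain ⟨h1, h2⟩ := T.diag hm0 hc1 hc2 κ
  exact ⟨NonApprox.mono h1 le_rfl (hTF (κ + 1) κ), NonApprox.mono h2 le_rfl (hTF κ (κ + 1))⟩

end MS
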