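import Pool.Agent.Lib_helper24.MS.Heights3
import Pool.Agent.Lib_helper24.MS.Local

/-!
The product formula inequality over an algebraic closure of `ℚ`, and adjunction of elements.
-/

namespace MS

open IntermediateField

universe u v

variable {Ω : Type u} [Field Ω] [Algebra ℚ Ω]

/-- adjoining one element -/
noncomputable def adjG (F : IntermediateField ℚ Ω) (v : Ω) : IntermediateField ℚ Ω :=
  adjoin ℚ (insert v (F : Set Ω))

theorem le_adjG (F : IntermediateField ℚ Ω) (v : Ω) : F ≤ adjG F v :=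
  fun x hx => subset_adjoin ℚ _ (Set.mem_insert_of_mem v (show x ∈ (F : Set Ω) from hx))

theorem mem_adjG_self (F : IntermediateField ℚ Ω) (v : Ω) : v ∈ adjG F v :=
  subset_adjoin ℚ _ (Set.mem_insert _ _)

theorem adjG_le {F K : IntermediateField ℚ Ω} {v : Ω} (h : F ≤ K) (hv : v ∈ K) : adjG F v ≤ K :=
  adjoin_le_iff.2 (Set.insert_subset hv h)

theorem adjoin_subfield {K : Type v} [Field K] (τ : Ω →+* K) {S : Set Ω} {H : Subfield K}
    (h : ∀ x ∈ S, τ x ∈ H) : ∀ x ∈ adjoin ℚ S, τ x ∈ H := by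
  intro x hx
  induction hx using adjoin_induction with
  | mem x hx => exact h x hx
  | algebraMap q =>
    have h1 : τ (algebraMap ℚ Ω q) = (q : K) := by
      rw [eq_ratCast, map_ratCast]
    rw [h1]
    exact SubfieldClass.ratCast_mem H q
  | add x y _ _ hx hy => rw [map_add]; exact add_mem hx hy
  | inv x _ hx => rw [map_inv₀]; exact inv_mem hx
  | mul x y _ _ hx hy => rw [map_mul]; exact mul_mem hx hy

theorem adjoin_agree {K : Type v} [Field K] {f g : Ω →+* K} {S : Set Ω}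
    (h : ∀ x ∈ S, f x = g x) : ∀ x ∈ adjoin ℚ S, f x = g x := by
  intro x hx
  induction hx using adjoin_induction with
  | mem x hx => exact h x hx
  | algebraMap q =>
    have h1 : ∀ τ : Ω →+* K, τ (algebraMap ℚ Ω q) = (q : K) := by
      intro τ
      rw [eq_ratCast, map_ratCast]
    rw [h1, h1]
  | add x y _ _ hx hy => rw [map_add, map_add, hx, hy]
  | inv x _ hx => rw [map_inv₀, map_inv₀, hx]
  | mul x y _ _ hx hy => rw [map_mul, map_mul, hx, hy]

theorem adjG_subfield {K : Type v} [Field K] (τ : Ω →+* K) {F : IntermediateField ℚ Ω} {v : Ω}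
    {H : Subfield K} (h : ∀ x ∈ F, τ x ∈ H) (hv : τ v ∈ H) : ∀ x ∈ adjG F v, τ x ∈ H := by
  apply adjoin_subfield
  intro x hx
  rcases Set.mem_insert_iff.1 hx with rfl | hx
  · exact hv
  · exact h x hx

theorem adjG_agree {K : Type v} [Field K] {f g : Ω →+* K} {F : IntermediateField ℚ Ω} {v : Ω}
    (h : ∀ x ∈ F, f x = g x) (hv : f v = g v) : ∀ x ∈ adjG F v, f x = g x := by
  apply adjoin_agree
  intro x hx
  rcases Set.mem_insert_iff.1 hx with rfl | hx
  · exact hv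
  · exact h x hx

theorem adjG_mono {F F' : IntermediateField ℚ Ω} (h : F ≤ F') (v : Ω) : adjG F v ≤ adjG F' v :=
  adjG_le (h.trans (le_adjG _ _)) (mem_adjG_self _ _)

variable [Algebra.IsAlgebraic ℚ Ω]

/-- extension of embeddings -/
theorem exists_extend {F : Type*} [Field F] [Algebra ℚ F] (φ : F →+* Ω) {K : Type v} [Field K]
    [IsAlgClosed K] (τ : F →+* K) : ∃ τ' : Ω →+* K, ∀ x, τ' (φ x) = τ x := by
  let _ : Algebra F Ω := φ.toAlgebra
  let _ : Algebra F K := τ.toAlgebra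
  have : IsScalarTower ℚ F Ω := IsScalarTower.of_algebraMap_eq' (Subsingleton.elim _ _)
  have : Algebra.IsAlgebraic F Ω := Algebra.IsAlgebraic.tower_top (K := ℚ) F
  let ψ : Ω →ₐ[F] K := IsAlgClosed.lift
  exact ⟨ψ.toRingHom, fun x => ψ.commutes x⟩

theorem exists_field3 (x y z : Ω) : ∃ (M : Type u) (_ : Field M) (_ : Algebra ℚ M)
    (_ : FiniteDimensional ℚ M) (φ : M →+* Ω) (x' y' z' : M), φ x' = x ∧ φ y' = y ∧ φ z' = z := by
  have h : FiniteDimensional ℚ (adjoin ℚ {x, y, z}) := by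
    apply IntermediateField.finiteDimensional_adjoin
    intro z _
    exact Algebra.IsIntegral.isIntegral z
  exact ⟨adjoin ℚ {x, y, z}, inferInstance, IntermediateField.algebra' _, h,
    algebraMap (adjoin ℚ {x, y, z}) Ω, ⟨x, subset_adjoin _ _ (by simp)⟩,
    ⟨y, subset_adjoin _ _ (by simp)⟩, ⟨z, subset_adjoin _ _ (by simp)⟩, rfl, rfl, rfl⟩

/-- the main inequality over `Ω` -/
theorem main_ineq' {x1 x2 y : Ω} (hy : y ≠ 0) {P Q p D : ℕ} [hp : Fact p.Prime]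
    (hinf : ∀ τ : Ω →+* ℂ, ‖τ y‖ ≤ 2 * (max 1 ‖τ x1‖ ^ P * max 1 ‖τ x2‖ ^ Q))
    (hfin : ∀ (l : ℕ) [Fact l.Prime] (τ : Ω →+* PadicAlgCl l),
      ‖τ y‖ ≤ max 1 ‖τ x1‖ ^ P * max 1 ‖τ x2‖ ^ Q)
    (hpp : ∀ τ : Ω →+* PadicAlgCl p,
      ‖τ y‖ ≤ ((p : ℝ) ^ D)⁻¹ * (max 1 ‖τ x1‖ ^ P * max 1 ‖τ x2‖ ^ Q)) :
    D * Real.log p ≤ Real.log 2 + P * ht x1 + Q * ht x2 := by
  obtain ⟨M, _, _, _, φ, x1', x2', y', rfl, rfl, rfl⟩ := exists_field3 x1 x2 y
  rw [ht_ringHom, ht_ringHom]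
  apply main_ineq (y := y')
  · rintro rfl
    exact hy (map_zero φ)
  · intro τ
    obtain ⟨τ', h⟩ := exists_extend φ (τ : M →+* ℂ)
    have := hinf τ'
    rw [h, h, h] at this
    exact this
  · intro l hl τ
    obtain ⟨τ', h⟩ := exists_extend φ (τ : M →+* PadicAlgCl l)
    have := hfin l τ'
    rw [h, h, h] at this
    exact this
  · intro τ
    obtain ⟨τ', h⟩ := exists_extend φ (τ : M →+* PadicAlgCl p)
    have := hpp τ'
    rw [h, h, h] at this
    exact this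

/-- `x1 ^ P - x2 ^ Q` : the case used below -/
theorem pow_sub_ineq {x1 x2 : Ω} {P Q p : ℕ} [hp : Fact p.Prime]
    (hne : x1 ^ P ≠ x2 ^ Q)
    (hpp : ∀ τ : Ω →+* PadicAlgCl p,
      ‖τ x1 ^ P - τ x2 ^ Q‖ ≤ ((p : ℝ) ^ 2)⁻¹ * (max 1 ‖τ x1‖ ^ P * max 1 ‖τ x2‖ ^ Q)) :
    2 * Real.log p ≤ Real.log 2 + P * ht x1 + Q * ht x2 := by
  have key : ∀ a b : ℝ, 0 ≤ a → 0 ≤ b → a ^ P ≤ max 1 a ^ P * max 1 b ^ Q ∧
      b ^ Q ≤ max 1 a ^ P * max 1 b ^ Q := by
    intro a b ha hb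
    have h1 : (1 : ℝ) ≤ max 1 a ^ P := one_le_pow₀ (le_max_left _ _)
    have h2 : (1 : ℝ) ≤ max 1 b ^ Q := one_le_pow₀ (le_max_left _ _)
    have h3 : a ^ P ≤ max 1 a ^ P := pow_le_pow_left₀ ha (le_max_right _ _) _
    have h4 : b ^ Q ≤ max 1 b ^ Q := pow_le_pow_left₀ hb (le_max_right _ _) _
    constructor
    · nlinarith
    · nlinarith
  have h := main_ineq' (x1 := x1) (x2 := x2) (sub_ne_zero.2 hne) (P := P) (Q := Q) (p := p)
    (D := 2) ?_ ?_ ?_
  · exact_mod_cast h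
  · intro τ
    rw [map_sub, map_pow, map_pow]
    refine (norm_sub_le _ _).trans ?_
    rw [norm_pow, norm_pow]
    have := key ‖τ x1‖ ‖τ x2‖ (norm_nonneg _) (norm_nonneg _)
    linarith [this.1, this.2]
  · intro l hl τ
    rw [map_sub, map_pow, map_pow]
    refine (norm_sub_le_max' _ _).trans ?_
    rw [norm_pow, norm_pow]
    have := key ‖τ x1‖ ‖τ x2‖ (norm_nonneg _) (norm_nonneg _)
    exact max_le this.1 this.2
  · intro τ
    rw [map_sub, map_pow, map_pow]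
    exact hpp τ

end MS
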