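import Pool.Agent.Lib_helper24.MS.Global1

/-!
The global Kummer step.
-/

namespace MS

open IntermediateField

universe u v

variable {Ω : Type u} [Field Ω] [Algebra ℚ Ω] [Algebra.IsAlgebraic ℚ Ω] [IsAlgClosed Ω]

theorem isGaloisG : IsGalois ℚ Ω := by
  have : IsAlgClosure ℚ Ω := ⟨inferInstance, inferInstance⟩
  exact IsAlgClosure.isGalois ℚ Ω

theorem mem_iff_fixedG (F : IntermediateField ℚ Ω) (x : Ω) :
    x ∈ F ↔ ∀ g : Ω ≃ₐ[ℚ] Ω, (∀ y ∈ F, g y = y) → g x = x := by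
  have : IsGalois ℚ Ω := isGaloisG
  constructor
  · intro hx g hg
    exact hg x hx
  · intro h
    have := InfiniteGalois.fixedField_fixingSubgroup (k := ℚ) (K := Ω) F
    rw [← this, IntermediateField.mem_fixedField_iff]
    intro g hg
    exact h g (fun y hy => (IntermediateField.mem_fixingSubgroup_iff _ _).1 hg y hy)

theorem exists_gal_neG {F : IntermediateField ℚ Ω} {z : Ω}
    (hz : z ∉ F) : ∃ g : Ω ≃ₐ[ℚ] Ω, (∀ y ∈ F, g y = y) ∧ g z ≠ z := by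
  by_contra hcon
  push Not at hcon
  exact hz ((mem_iff_fixedG F z).2 hcon)

omit [Algebra.IsAlgebraic ℚ Ω] [IsAlgClosed Ω] in
theorem gal_zetaG {p : ℕ} {F : IntermediateField ℚ Ω} {z : Ω} (hz : z ≠ 0)
    (hzp : z ^ p ∈ F) {g : Ω ≃ₐ[ℚ] Ω} (hg : ∀ y ∈ F, g y = y) : ∃ ξ : Ω, ξ ^ p = 1 ∧
    g z = ξ * z := by
  refine ⟨g z / z, ?_, by field_simp⟩
  rw [div_pow, ← map_pow, hg _ hzp, div_self (pow_ne_zero _ hz)]

theorem prim_of_prime {K : Type*} [Field K] {p : ℕ} (hp : p.Prime) {ξ : K} (h : ξ ^ p = 1)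
    (h1 : ξ ≠ 1) : IsPrimitiveRoot ξ p := by
  have h2 : orderOf ξ ∣ p := orderOf_dvd_of_pow_eq_one h
  have h3 : orderOf ξ = p := by
    rcases (Nat.dvd_prime hp).1 h2 with h | h
    · exact absurd (orderOf_eq_one_iff.1 h) h1
    · exact h
  have h4 := IsPrimitiveRoot.orderOf ξ
  rwa [h3] at h4

variable {p : ℕ} [hp : Fact p.Prime]

/-- fixed points in a Kummer layer. -/
theorem fixed_in_adjG {F : IntermediateField ℚ Ω} {z : Ω} (hz : z ≠ 0)
    (hzp : z ^ p ∈ F) (hμ : ∀ ξ : Ω, ξ ^ p = 1 → ξ ∈ F) {h : Ω ≃ₐ[ℚ] Ω}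
    (hh : ∀ y ∈ F, h y = y) (hhz : h z ≠ z) {y : Ω} (hy : y ∈ adjG F z) (hhy : h y = y) :
    y ∈ F := by
  obtain ⟨ξ, hξ, hhz'⟩ := gal_zetaG hz hzp hh
  have hξ1 : ξ ≠ 1 := by
    rintro rfl
    rw [one_mul] at hhz'
    exact hhz hhz'
  have hprim : IsPrimitiveRoot ξ p := prim_of_prime hp.out hξ hξ1
  have : NeZero p := ⟨hp.out.ne_zero⟩
  rw [mem_iff_fixedG]
  intro g hg
  obtain ⟨η, hη, hgz⟩ := gal_zetaG hz hzp hg
  obtain ⟨i, -, hi⟩ := hprim.eq_pow_of_pow_eq_one hη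
  have hhi : ∀ m : ℕ, (h ^ m) z = ξ ^ m * z := by
    intro m
    induction m with
    | zero => simp
    | succ m ih =>
      rw [pow_succ', AlgEquiv.mul_apply, ih, map_mul, hh _ (pow_mem (hμ ξ hξ) _), hhz', pow_succ]
      ring
  have hfix : ∀ m : ℕ, ∀ x, h x = x → (h ^ m) x = x := by
    intro m x hx
    induction m with
    | zero => simp
    | succ m ih => rw [pow_succ', AlgEquiv.mul_apply, ih, hx]
  have h1 : ∀ x ∈ adjG F z, (g : Ω →+* Ω) x = ((h ^ i : Ω ≃ₐ[ℚ] Ω) : Ω →+* Ω) x := by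
    apply adjG_agree
    · intro x hx
      change g x = (h ^ i) x
      rw [hg x hx, hfix i x (hh x hx)]
    · change g z = (h ^ i) z
      rw [hgz, hhi i, hi]
  have h2 : g y = (h ^ i) y := h1 y hy
  rw [h2, hfix i y hhy]

omit [IsAlgClosed Ω] in
/-- small elements are moved only by roots of unity -/
theorem small_moved {σ : Ω ≃ₐ[ℚ] Ω} {x : Ω} (hx0 : x ≠ 0) {δ : ℝ} {m : ℕ}
    (hm : ∀ u : PadicAlgCl p, ‖u - 1‖ ≤ Real.exp (-δ) → ‖u ^ (p ^ m) - 1‖ ≤ ((p : ℝ) ^ 2)⁻¹)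
    (hdepth : ∀ τ : Ω →+* PadicAlgCl p, ‖τ (σ x) - τ x‖ ≤ Real.exp (-δ) * ‖τ x‖)
    (hht : 2 * (p : ℝ) ^ m * ht x < 2 * Real.log p - Real.log 2) :
    (σ x) ^ (p ^ m) = x ^ (p ^ m) := by
  by_contra hne
  have h1 := pow_sub_ineq (p := p) hne ?_
  · have h2 : ht (σ x) = ht x := ht_gal σ x
    rw [h2] at h1
    push_cast at h1
    linarith
  · intro τ
    have hτ0 : τ x ≠ 0 := (map_ne_zero τ).2 hx0
    have hτn : 0 < ‖τ x‖ := norm_pos_iff.2 hτ0
    have h2 : ‖τ (σ x) / τ x - 1‖ ≤ Real.exp (-δ) := by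
      have : τ (σ x) / τ x - 1 = (τ (σ x) - τ x) / τ x := by field_simp
      rw [this, norm_div, div_le_iff₀ hτn]
      exact hdepth τ
    have h3 := hm _ h2
    have h4 : τ (σ x) ^ (p ^ m) - τ x ^ (p ^ m) =
        ((τ (σ x) / τ x) ^ (p ^ m) - 1) * τ x ^ (p ^ m) := by
      rw [div_pow]
      field_simp
    rw [h4, norm_mul, norm_pow]
    have h5 : ‖τ x‖ ^ (p ^ m) ≤ max 1 ‖τ (σ x)‖ ^ (p ^ m) * max 1 ‖τ x‖ ^ (p ^ m) := by
      have e1 : (1 : ℝ) ≤ max 1 ‖τ (σ x)‖ ^ (p ^ m) := one_le_pow₀ (le_max_left _ _)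
      have e2 : ‖τ x‖ ^ (p ^ m) ≤ max 1 ‖τ x‖ ^ (p ^ m) :=
        pow_le_pow_left₀ (norm_nonneg _) (le_max_right _ _) _
      have e3 : 0 ≤ ‖τ x‖ ^ (p ^ m) := by positivity
      nlinarith
    exact mul_le_mul h3 h5 (by positivity) (by positivity)

/-- the Kummer step: small points descend, up to powers of `v`. -/
theorem kummer_step {F : IntermediateField ℚ Ω} {v : Ω} (hv0 : v ≠ 0) (hvF : v ∉ F)
    (hvp : v ^ p ∈ F) {δ : ℝ} {m N : ℕ} (hN : 2 ≤ N) (hN2 : p = 2 → 3 ≤ N)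
    (hm : ∀ u : PadicAlgCl p, ‖u - 1‖ ≤ Real.exp (-δ) → ‖u ^ (p ^ m) - 1‖ ≤ ((p : ℝ) ^ 2)⁻¹)
    (hdepth : ∀ σ : Ω ≃ₐ[ℚ] Ω, (∀ y ∈ F, σ y = y) → ∀ τ : Ω →+* PadicAlgCl p,
      ∀ y ∈ adjG F v, ‖τ (σ y) - τ y‖ ≤ Real.exp (-δ) * ‖τ y‖)
    (hμ1 : ∀ η ∈ adjG F v, ∀ k : ℕ, η ^ (p ^ k) = 1 → η ^ (p ^ N) = 1)
    (hμ2 : ∀ η : Ω, η ^ (p ^ (N - 1)) = 1 → η ∈ F)
    {x : Ω} (hx : x ∈ adjG F v) (hx0 : x ≠ 0)
    (hht : 2 * (p : ℝ) ^ m * ht x < 2 * Real.log p - Real.log 2) :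
    ∃ i : ℕ, ∃ y ∈ F, x = v ^ i * y := by
  have : NeZero p := ⟨hp.out.ne_zero⟩
  obtain ⟨σ, hσ, hσv⟩ := exists_gal_neG hvF
  obtain ⟨ξ, hξ, hσv'⟩ := gal_zetaG hv0 hvp hσ
  have hξ1 : ξ ≠ 1 := by
    rintro rfl
    rw [one_mul] at hσv'
    exact hσv hσv'
  have hprim : IsPrimitiveRoot ξ p := prim_of_prime hp.out hξ hξ1
  have hμp : ∀ ξ : Ω, ξ ^ p = 1 → ξ ∈ F := by
    intro ξ hξ
    apply hμ2
    have : N - 1 = (N - 2) + 1 := by omega
    rw [this, pow_succ', pow_mul, hξ, one_pow]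
  have hpow := small_moved hx0 hm (fun τ => hdepth σ hσ τ x hx) hht
  set η := σ x / x with hη
  have hσx : σ x = η * x := by rw [hη]; field_simp
  have hηm : η ^ (p ^ m) = 1 := by
    rw [hη, div_pow, hpow, div_self (pow_ne_zero _ hx0)]
  have hη0 : η ≠ 0 := by
    intro h
    rw [h, zero_pow (pow_ne_zero _ hp.out.ne_zero)] at hηm
    exact zero_ne_one hηm
  have hσmem : ∀ y ∈ adjG F v, σ y ∈ adjG F v := by
    intro y hy
    have h1 := adjG_subfield (σ : Ω →+* Ω) (F := F) (v := v) (H := (adjG F v).toSubfield)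
      (fun x hx => by
        change σ x ∈ adjG F v
        rw [hσ x hx]
        exact le_adjG _ _ hx)
      (by
        change σ v ∈ adjG F v
        rw [hσv']
        exact mul_mem (le_adjG _ _ (hμp ξ hξ)) (mem_adjG_self _ _)) y hy
    exact h1
  have hηF : η ∈ adjG F v := div_mem (hσmem x hx) hx
  have hηN := hμ1 η hηF m hηm
  have hηpF : η ^ p ∈ F := by
    apply hμ2
    rw [← pow_mul, ← pow_succ']
    have : N - 1 + 1 = N := by omega
    rw [this]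
    exact hηN
  set θ := σ η / η with hθ
  have hση : σ η = θ * η := by rw [hθ]; field_simp
  have hθp : θ ^ p = 1 := by
    rw [hθ, div_pow, ← map_pow, hσ _ hηpF, div_self (pow_ne_zero _ hη0)]
  have hσθ : σ θ = θ := hσ _ (hμp θ hθp)
  have hiter : ∀ i : ℕ, (σ ^ i) x = η ^ i * θ ^ (i.choose 2) * x := by
    intro i
    induction i with
    | zero => simp
    | succ i ih =>
      rw [pow_succ', AlgEquiv.mul_apply, ih, map_mul, map_mul, map_pow, map_pow, hσθ, hση, hσx,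
        Nat.choose_succ_succ' i 1, Nat.choose_one_right]
      ring
  have hiterv : ∀ i : ℕ, (σ ^ i) v = ξ ^ i * v := by
    intro i
    induction i with
    | zero => simp
    | succ m ih =>
      rw [pow_succ', AlgEquiv.mul_apply, ih, map_mul, hσ _ (pow_mem (hμp ξ hξ) _), hσv', pow_succ]
      ring
  have hfix : ∀ m : ℕ, ∀ x ∈ F, (σ ^ m) x = x := by
    intro m x hx
    induction m with
    | zero => simp
    | succ m ih => rw [pow_succ', AlgEquiv.mul_apply, ih, hσ x hx]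
  have hid : ∀ x ∈ adjG F v, ((σ ^ p : Ω ≃ₐ[ℚ] Ω) : Ω →+* Ω) x = RingHom.id Ω x := by
    apply adjG_agree
    · intro x hx
      change (σ ^ p) x = x
      exact hfix p x hx
    · change (σ ^ p) v = v
      rw [hiterv, hξ, one_mul]
  have h1 : η ^ p * θ ^ (p.choose 2) = 1 := by
    have h2 : (σ ^ p) x = x := hid x hx
    rw [hiter] at h2
    have h3 : η ^ p * θ ^ (p.choose 2) * x = 1 * x := by rw [h2, one_mul]
    exact mul_right_cancel₀ hx0 h3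
  have hηp : η ^ p = 1 := by
    by_cases h2 : p = 2
    · have h3 : η ^ (p ^ 2) = 1 := by
        have h4 : (η ^ p * θ ^ (p.choose 2)) ^ p = 1 := by rw [h1, one_pow]
        rw [mul_pow, ← pow_mul θ, mul_comm (p.choose 2) p, pow_mul θ, hθp, one_pow, mul_one,
          ← pow_mul, ← sq] at h4
        exact h4
      have h4 : η ∈ F := by
        apply hμ2
        have h5 : N - 1 = 2 + (N - 3) := by have := hN2 h2; omega
        rw [h5, pow_add, pow_mul, h3, one_pow]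
      have h5 : θ = 1 := by rw [hθ, hσ η h4, div_self hη0]
      rw [h5, one_pow, mul_one] at h1
      exact h1
    · have h3 : p ∣ p.choose 2 := hp.out.dvd_choose_self (by norm_num)
        (lt_of_le_of_ne hp.out.two_le (Ne.symm h2))
      obtain ⟨e, he⟩ := h3
      rw [he, pow_mul, hθp, one_pow, mul_one] at h1
      exact h1
  obtain ⟨i, -, hi⟩ := hprim.eq_pow_of_pow_eq_one hηp
  refine ⟨i, x / v ^ i, ?_, by field_simp⟩
  apply fixed_in_adjG hv0 hvp hμp hσ hσv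
  · exact div_mem hx (pow_mem (mem_adjG_self _ _) _)
  · have hξ0 : ξ ≠ 0 := hprim.ne_zero hp.out.ne_zero
    rw [map_div₀, map_pow, hσx, hσv', mul_pow, hi]
    field_simp

end MS
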