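import Pool.Agent.Lib_helper24.MS.Global2

/-!
The global fields, and the transfer of the local theory.
-/

namespace MS

open IntermediateField

universe u v

variable {Ω : Type u} [Field Ω] [Algebra ℚ Ω]

/-- `ℚ(μ_N, all x with x ^ M = α)` -/
noncomputable def GF (α : Ω) (N M : ℕ) : IntermediateField ℚ Ω :=
  adjoin ℚ ({x | x ^ N = 1} ∪ {x | x ^ M = α})

theorem mem_GF_one {α : Ω} {N M : ℕ} {x : Ω} (h : x ^ N = 1) : x ∈ GF α N M :=
  subset_adjoin ℚ _ (Or.inl h)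

theorem mem_GF_root {α : Ω} {N M : ℕ} {x : Ω} (h : x ^ M = α) : x ∈ GF α N M :=
  subset_adjoin ℚ _ (Or.inr h)

theorem GF_le {α : Ω} {N M : ℕ} {F : IntermediateField ℚ Ω} (h1 : ∀ x, x ^ N = 1 → x ∈ F)
    (h2 : ∀ x, x ^ M = α → x ∈ F) : GF α N M ≤ F := by
  apply adjoin_le_iff.2
  rintro x (hx | hx)
  · exact h1 x hx
  · exact h2 x hx

theorem mem_GF_one_of_dvd {α : Ω} {N M n : ℕ} {x : Ω} (h : x ^ n = 1) (hn : n ∣ N) :
    x ∈ GF α N M := by
  obtain ⟨e, rfl⟩ := hn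
  apply mem_GF_one
  rw [pow_mul, h, one_pow]

theorem mem_GF_root_of_dvd [IsAlgClosed Ω] {α : Ω} {N M m : ℕ} {x : Ω} (h : x ^ m = α)
    (hm : m ∣ M) (hM : 0 < M) : x ∈ GF α N M := by
  obtain ⟨e, rfl⟩ := hm
  have he : 0 < e := Nat.pos_of_mul_pos_left hM
  obtain ⟨y, hy⟩ := IsAlgClosed.exists_pow_nat_eq x he
  rw [← hy]
  apply pow_mem
  apply mem_GF_root
  rw [mul_comm, pow_mul, hy, h]

theorem GF_mono [IsAlgClosed Ω] {α : Ω} {N N' M M' : ℕ} (hN : N ∣ N') (hM : M ∣ M')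
    (hM' : 0 < M') : GF α N M ≤ GF α N' M' :=
  GF_le (fun _ hx => mem_GF_one_of_dvd hx hN) (fun _ hx => mem_GF_root_of_dvd hx hM hM')

theorem split_mem {k K : Type*} [Field k] [Field K] [Algebra k K] {F : IntermediateField k K}
    {x : K} {a b : ℕ} (h : a.Coprime b) (ha : x ^ a ∈ F) (hb : x ^ b ∈ F) : x ∈ F := by
  by_cases hx : x = 0
  · rw [hx]; exact F.zero_mem
  have hbez := Nat.gcd_eq_gcd_ab a b
  rw [h.gcd_eq_one] at hbez
  have h1 : x = (x ^ a) ^ (Nat.gcdA a b) * (x ^ b) ^ (Nat.gcdB a b) := by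
    rw [← zpow_natCast, ← zpow_natCast, ← zpow_mul, ← zpow_mul, ← zpow_add₀ hx, ← hbez]
    simp
  rw [h1]
  exact mul_mem (zpow_mem ha _) (zpow_mem hb _)

theorem coprime_pos {p : ℕ} (hp : p.Prime) {B : ℕ} (h : B.Coprime p) : 0 < B := by
  rcases Nat.eq_zero_or_pos B with h' | h'
  · rw [h', Nat.coprime_zero_left] at h
    exact absurd h hp.one_lt.ne'
  · exact h'

theorem GF_K [IsAlgClosed Ω] {p : ℕ} (hp : p.Prime) {α : Ω} (hα : α ≠ 0) {N j B : ℕ} {v : Ω}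
    (hv : v ^ (p ^ (j + 1)) = α) (hN : p ^ (j + 1) ∣ N) (hB : B.Coprime p) :
    GF α N (p ^ (j + 1) * B) ≤ adjG (GF α N (p ^ j * B)) v := by
  have hB0 := coprime_pos hp hB
  have hp0 : 0 < p := hp.pos
  have hv0 : v ≠ 0 := by
    rintro rfl
    rw [zero_pow (pow_ne_zero _ hp.ne_zero)] at hv
    exact hα hv.symm
  apply GF_le
  · intro x hx
    exact le_adjG _ _ (mem_GF_one hx)
  · intro x hx
    apply split_mem (a := p ^ (j + 1)) (b := B) (Nat.Coprime.pow_left _ hB.symm)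
    · apply le_adjG
      rw [pow_mul] at hx
      exact mem_GF_root_of_dvd hx (Dvd.intro_left _ rfl) (by positivity)
    · have h1 : (x ^ B) ^ (p ^ (j + 1)) = α := by rw [← pow_mul, mul_comm]; exact hx
      have h2 : (x ^ B / v) ^ (p ^ (j + 1)) = 1 := by rw [div_pow, h1, hv, div_self hα]
      have h3 : x ^ B = (x ^ B / v) * v := by field_simp
      rw [h3]
      exact mul_mem (le_adjG _ _ (mem_GF_one_of_dvd h2 hN)) (mem_adjG_self _ _)

theorem GF_C {p : ℕ} (hp : p.Prime) {α : Ω} {k A M : ℕ} {v : Ω}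
    (hv : IsPrimitiveRoot v (p ^ (k + 1))) (hA : A.Coprime p) :
    GF α (p ^ (k + 1) * A) M ≤ adjG (GF α (p ^ k * A) M) v := by
  have : NeZero (p ^ (k + 1)) := ⟨pow_ne_zero _ hp.ne_zero⟩
  apply GF_le
  · intro x hx
    apply split_mem (a := p ^ (k + 1)) (b := A) (Nat.Coprime.pow_left _ hA.symm)
    · apply le_adjG
      rw [pow_mul] at hx
      exact mem_GF_one_of_dvd hx (Dvd.intro_left _ rfl)
    · have h1 : (x ^ A) ^ (p ^ (k + 1)) = 1 := by rw [← pow_mul, mul_comm]; exact hx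
      obtain ⟨i, -, hi⟩ := hv.eq_pow_of_pow_eq_one h1
      rw [← hi]
      exact pow_mem (mem_adjG_self _ _) _
  · intro x hx
    exact le_adjG _ _ (mem_GF_root hx)

section transfer

variable {p : ℕ} [hp : Fact p.Prime]

/-- transfer of the local theory to `Ω`. -/
theorem transfer {H : IntermediateField ℚ_[p] (PadicAlgCl p)} [FiniteDimensional ℚ_[p] H]
    {z : PadicAlgCl p} (hz0 : z ≠ 0) (hzp : z ^ p ∈ H)
    (hμH : ∀ ξ : PadicAlgCl p, ξ ^ p = 1 → ξ ∈ H) {δ : ℝ} (hδ : 0 < δ) (hna : NonApprox H z δ)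
    {F : IntermediateField ℚ Ω} {τ : Ω →+* PadicAlgCl p} (hτ : ∀ x ∈ F, τ x ∈ H) {v : Ω}
    (hvp : v ^ p ∈ F) {u : PadicAlgCl p} (hu : u ∈ H) (hu0 : u ≠ 0) (hτv : τ v = u * z) :
    v ∉ F ∧ ∀ σ : Ω ≃ₐ[ℚ] Ω, (∀ y ∈ F, σ y = y) → ∀ y ∈ adjG F v,
      ‖τ (σ y) - τ y‖ ≤ Real.exp (-δ) * ‖τ y‖ := by
  have hzH : z ∉ H := not_mem_of_nonApprox hz0 hna
  have hv0 : v ≠ 0 := by
    rintro rfl
    rw [map_zero] at hτv
    exact (mul_ne_zero hu0 hz0) hτv.symm
  constructor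
  · intro hv
    apply hzH
    have h1 := hτ v hv
    rw [hτv] at h1
    have h2 : z = u⁻¹ * (u * z) := by field_simp
    rw [h2]
    exact mul_mem (inv_mem hu) h1
  intro σ hσ y hy
  obtain ⟨ξ, hξ, hσv⟩ := gal_zetaG hv0 hvp hσ
  obtain ⟨h, hh, hhz⟩ := exists_gal_ne hzH
  obtain ⟨ξ', hξ', hhz'⟩ := gal_zeta hz0 hzp hh
  have hξ1 : ξ' ≠ 1 := by
    rintro rfl
    rw [one_mul] at hhz'
    exact hhz hhz'
  have hprim : IsPrimitiveRoot ξ' p := prim_of_prime hp.out hξ' hξ1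
  have : NeZero p := ⟨hp.out.ne_zero⟩
  have hτξ : (τ ξ) ^ p = 1 := by rw [← map_pow, hξ, map_one]
  obtain ⟨i, -, hi⟩ := hprim.eq_pow_of_pow_eq_one hτξ
  have hhi : ∀ m : ℕ, (h ^ m) z = ξ' ^ m * z := by
    intro m
    induction m with
    | zero => simp
    | succ m ih =>
      rw [pow_succ', AlgEquiv.mul_apply, ih, map_mul, hh _ (pow_mem (hμH ξ' hξ') _), hhz', pow_succ]
      ring
  have hfix : ∀ m : ℕ, ∀ x ∈ H, (h ^ m) x = x := by
    intro m x hx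
    induction m with
    | zero => simp
    | succ m ih => rw [pow_succ', AlgEquiv.mul_apply, ih, hh x hx]
  have hagree : ∀ x ∈ adjG F v, (τ.comp (σ : Ω →+* Ω)) x =
      (((h ^ i : Gp p) : PadicAlgCl p →+* PadicAlgCl p).comp τ) x := by
    apply adjG_agree
    · intro x hx
      change τ (σ x) = (h ^ i) (τ x)
      rw [hσ x hx, hfix i _ (hτ x hx)]
    · change τ (σ v) = (h ^ i) (τ v)
      rw [hσv, map_mul, hτv, map_mul, hfix i u hu, hhi, hi]
      ring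
  have h1 : τ (σ y) = (h ^ i) (τ y) := hagree y hy
  have h2 : τ y ∈ adj H z := by
    have h3 := adjG_subfield τ (F := F) (v := v) (H := (adj H z).toSubfield)
      (fun x hx => le_adj H z (hτ x hx))
      (by
        change τ v ∈ adj H z
        rw [hτv]
        exact mul_mem (le_adj H z hu) (mem_adj_self H z)) y hy
    exact h3
  rw [h1]
  exact depth_of_nonApprox hz0 hzp hδ hna (fun y hy => hfix i y hy) (τ y) h2

/-- the image of a global field lies in the local field -/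
theorem GF_image {α : Ω} (hα : α ≠ 0) {τ : Ω →+* PadicAlgCl p}
    {E : IntermediateField ℚ_[p] (PadicAlgCl p)} {ζ z : ℕ → PadicAlgCl p} (hζ : ZSys ζ)
    {J K A B : ℕ} (hzJ : z J ^ (p ^ J) = τ α) (hJK : J ≤ K) (hA : A.Coprime p) (hBA : B ∣ A)
    {ω w : Ω} (hω : IsPrimitiveRoot ω A) (hw : w ^ B = α) :
    ∀ x ∈ GF α (p ^ K * A) (p ^ J * B), τ x ∈ Fl E (τ ω) (τ w) ζ z K J := by
  have hA0 := coprime_pos hp.out hA
  have hB : B.Coprime p := Nat.Coprime.coprime_dvd_left hBA hA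
  have hB0 := coprime_pos hp.out hB
  have hτα : τ α ≠ 0 := (map_ne_zero τ).2 hα
  have hω' : IsPrimitiveRoot (τ ω) A := hω.map_of_injective τ.injective
  have m1 : ∀ ξ : PadicAlgCl p, ξ ^ A = 1 → ξ ∈ Fl E (τ ω) (τ w) ζ z K J := by
    intro ξ hξ
    exact le_adj _ _ (le_adj _ _ (le_adj _ _ (root_mem_adj E hA0 hω' hξ)))
  have m2 : ∀ ξ : PadicAlgCl p, ξ ^ (p ^ K) = 1 → ξ ∈ Fl E (τ ω) (τ w) ζ z K J := by
    intro ξ hξ
    exact le_adj _ _ (root_mem_adj _ (pow_pos hp.out.pos _) (hζ.prim K) hξ)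
  have m3 : τ w ∈ Fl E (τ ω) (τ w) ζ z K J :=
    le_adj _ _ (le_adj _ _ (mem_adj_self _ _))
  have m4 : z J ∈ Fl E (τ ω) (τ w) ζ z K J := mem_adj_self _ _
  have hw0 : τ w ≠ 0 := by
    intro h
    apply hτα
    rw [← hw, map_pow, h, zero_pow hB0.ne']
  have hz0 : z J ≠ 0 := by
    intro h
    apply hτα
    rw [← hzJ, h, zero_pow (pow_ne_zero _ hp.out.ne_zero)]
  have key := adjoin_subfield τ (S := {x | x ^ (p ^ K * A) = 1} ∪ {x | x ^ (p ^ J * B) = α})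
    (H := (Fl E (τ ω) (τ w) ζ z K J).toSubfield) ?_
  · exact key
  rintro x (hx | hx)
  · have hx : x ^ (p ^ K * A) = 1 := hx
    change τ x ∈ Fl E (τ ω) (τ w) ζ z K J
    apply split_mem (a := p ^ K) (b := A) (Nat.Coprime.pow_left _ hA.symm)
    · apply m1
      rw [← pow_mul, ← map_pow, hx, map_one]
    · apply m2
      rw [← pow_mul, mul_comm, ← map_pow, hx, map_one]
  · have hx : x ^ (p ^ J * B) = α := hx
    change τ x ∈ Fl E (τ ω) (τ w) ζ z K J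
    apply split_mem (a := p ^ J) (b := B) (Nat.Coprime.pow_left _ hB.symm)
    · have h1 : ((τ x) ^ (p ^ J) / τ w) ^ A = 1 := by
        obtain ⟨e, he⟩ := hBA
        rw [he, pow_mul, div_pow, ← pow_mul, ← map_pow, ← map_pow, hx, hw, div_self hτα, one_pow]
      have h2 : (τ x) ^ (p ^ J) = ((τ x) ^ (p ^ J) / τ w) * τ w := by field_simp
      rw [h2]
      exact mul_mem (m1 _ h1) m3
    · have h1 : ((τ x) ^ B / z J) ^ (p ^ K) = 1 := by
        have h3 : ((τ x) ^ B / z J) ^ (p ^ J) = 1 := by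
          rw [div_pow, ← pow_mul, mul_comm, ← map_pow, hx, hzJ, div_self hτα]
        have h4 : K = J + (K - J) := by omega
        rw [h4, pow_add, pow_mul, h3, one_pow]
      have h2 : (τ x) ^ B = ((τ x) ^ B / z J) * z J := by field_simp
      rw [h2]
      exact mul_mem (m2 _ h1) m4

end transfer

end MS
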