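import Pool.Agent.Lib_helper24.MS.Global3

/-!
The local theory, uniformly over all embeddings.
-/

namespace MS

open IntermediateField

universe u v

variable {Ω : Type u} [Field Ω] [Algebra ℚ Ω]

/-- `σ` has depth `δ` at `τ` on `F` -/
def DepthAt {p : ℕ} [Fact p.Prime] (τ : Ω →+* PadicAlgCl p) (δ : ℝ) (F F' : IntermediateField ℚ Ω) :
    Prop :=
  ∀ σ : Ω ≃ₐ[ℚ] Ω, (∀ y ∈ F, σ y = y) → ∀ y ∈ F', ‖τ (σ y) - τ y‖ ≤ Real.exp (-δ) * ‖τ y‖

theorem DepthAt.mono {p : ℕ} [Fact p.Prime] {τ : Ω →+* PadicAlgCl p} {δ δ' : ℝ}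
    {F F' : IntermediateField ℚ Ω} (h : DepthAt τ δ F F') (hδ : δ' ≤ δ) : DepthAt τ δ' F F' := by
  intro σ hσ y hy
  refine (h σ hσ y hy).trans ?_
  gcongr

/-- the local input at one embedding -/
structure LOC {p : ℕ} [Fact p.Prime] (α : Ω) (J K : ℕ) (δ : ℝ) (τ : Ω →+* PadicAlgCl p) :
    Prop where
  kum : ∀ A B : ℕ, A.Coprime p → B ∣ A → ∀ κ : ℕ, ∀ v : Ω, v ^ (p ^ (J + κ + 1)) = α →
    v ∉ GF α (p ^ (K + κ + 1) * A) (p ^ (J + κ) * B) ∧
    DepthAt τ δ (GF α (p ^ (K + κ + 1) * A) (p ^ (J + κ) * B))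
      (adjG (GF α (p ^ (K + κ + 1) * A) (p ^ (J + κ) * B)) v)
  cyc : ∀ A B : ℕ, A.Coprime p → B ∣ A → ∀ κ : ℕ, ∀ v : Ω, IsPrimitiveRoot v (p ^ (K + κ + 1)) →
    ∀ j ≤ κ + 1, v ∉ GF α (p ^ (K + κ) * A) (p ^ (J + j) * B) ∧
    DepthAt τ δ (GF α (p ^ (K + κ) * A) (p ^ (J + j) * B))
      (adjG (GF α (p ^ (K + κ) * A) (p ^ (J + j) * B)) v)

theorem LOC.mono {p : ℕ} [Fact p.Prime] {α : Ω} {J K : ℕ} {δ δ' : ℝ} {τ : Ω →+* PadicAlgCl p}
    (h : LOC α J K δ τ) (hδ : δ' ≤ δ) : LOC α J K δ' τ :=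
  ⟨fun A B hA hB κ v hv => ⟨(h.kum A B hA hB κ v hv).1, (h.kum A B hA hB κ v hv).2.mono hδ⟩,
    fun A B hA hB κ v hv j hj => ⟨(h.cyc A B hA hB κ v hv j hj).1,
      (h.cyc A B hA hB κ v hv j hj).2.mono hδ⟩⟩

variable {p : ℕ} [hp : Fact p.Prime]

theorem exists_tower (a : PadicAlgCl p) : ∃ z : ℕ → PadicAlgCl p, z 0 = a ∧
    ∀ j, z (j + 1) ^ p = z j := by
  have h : ∀ x : PadicAlgCl p, ∃ y, y ^ p = x := fun x =>
    IsAlgClosed.exists_pow_nat_eq x hp.out.pos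
  choose f hf using h
  refine ⟨fun j => f^[j] a, rfl, fun j => ?_⟩
  change (f^[j + 1] a) ^ p = f^[j] a
  rw [Function.iterate_succ_apply', hf]

variable (p) in
theorem exists_ZSys : ∃ ζ : ℕ → PadicAlgCl p, ZSys ζ := by
  obtain ⟨ξ, hξ⟩ := exists_prim (p := p) p hp.out.pos
  obtain ⟨z, hz0, hz⟩ := exists_tower (p := p) ξ
  refine ⟨fun k => Nat.casesOn k 1 z, ?_, ?_, ?_⟩
  · change z 0 ≠ 1
    rw [hz0]
    exact hξ.ne_one hp.out.one_lt
  · change z 0 ^ p = 1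
    rw [hz0]
    exact hξ.pow_eq_one
  · intro k
    cases k with
    | zero =>
      change z 0 ^ p = 1
      rw [hz0]
      exact hξ.pow_eq_one
    | succ k => exact hz k

variable [Algebra.IsAlgebraic ℚ Ω] [IsAlgClosed Ω]

omit [Algebra.IsAlgebraic ℚ Ω] in
theorem local_at {α : Ω} (hα : α ≠ 0) (htor : ∀ n : ℕ, 0 < n → α ^ n ≠ 1) (a : PadicAlgCl p) :
    ∃ J0 : ℕ, ∀ J ≥ J0, ∃ K1 : ℕ, ∀ K ≥ K1, ∃ δ : ℝ, 0 < δ ∧
      ∀ τ : Ω →+* PadicAlgCl p, τ α = a → LOC α J K δ τ := by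
  by_cases hex : ∃ τ : Ω →+* PadicAlgCl p, τ α = a
  swap
  · refine ⟨0, fun J _ => ⟨0, fun K _ => ⟨1, one_pos, fun τ hτ => absurd ⟨τ, hτ⟩ hex⟩⟩⟩
  obtain ⟨τ0, hτ0⟩ := hex
  obtain ⟨ζ, hζ⟩ := exists_ZSys p
  obtain ⟨z, hz0, hzs⟩ := exists_tower a
  have ha0 : a ≠ 0 := by rw [← hτ0]; exact (map_ne_zero τ0).2 hα
  have hator : ∀ n : ℕ, 0 < n → z 0 ^ n ≠ 1 := by
    intro n hn h
    apply htor n hn
    apply τ0.injective
    rw [map_pow, hτ0, map_one, ← hz0]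
    exact h
  set E : IntermediateField ℚ_[p] (PadicAlgCl p) := adj ⊥ a with hE
  have hzE : z 0 ∈ E := by rw [hz0]; exact mem_adj_self _ _
  obtain ⟨J0, hJ0⟩ := local_main hζ (by rw [hz0]; exact ha0) hzE hzs hator
  have hzpow : ∀ j, z j ^ (p ^ j) = a := by
    intro j
    induction j with
    | zero => simpa using hz0
    | succ j ih => rw [pow_succ', pow_mul, hzs, ih]
  have hzne : ∀ j, z j ≠ 0 := by
    intro j h
    have := hzpow j
    rw [h, zero_pow (pow_ne_zero _ hp.out.ne_zero)] at this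
    exact ha0 this.symm
  refine ⟨J0, fun J hJ => ?_⟩
  obtain ⟨K1, hK12, hK1⟩ := hJ0 J hJ
  refine ⟨max K1 (J + 1), fun K hK => ?_⟩
  have hKJ : J + 1 ≤ K := (le_max_right _ _).trans hK
  obtain ⟨δ, hδ, hmain⟩ := hK1 K ((le_max_left _ _).trans hK)
  refine ⟨δ, hδ, fun τ hτ => ?_⟩
  -- the auxiliary roots
  have haux : ∀ A B : ℕ, A.Coprime p → B ∣ A → ∃ ω w : Ω, IsPrimitiveRoot ω A ∧ w ^ B = α := by
    intro A B hA hB
    have hA0 := coprime_pos hp.out hA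
    have hB0 : 0 < B := Nat.pos_of_dvd_of_pos hB hA0
    have : CharZero Ω := algebraRat.charZero Ω
    have : NeZero ((A : ℕ) : Ω) := ⟨by exact_mod_cast hA0.ne'⟩
    obtain ⟨ω, hω⟩ := HasEnoughRootsOfUnity.exists_primitiveRoot Ω A
    obtain ⟨w, hw⟩ := IsAlgClosed.exists_pow_nat_eq α hB0
    exact ⟨ω, w, hω, hw⟩
  have hzpow' : ∀ j, z j ^ (p ^ j) = τ α := by intro j; rw [hzpow, hτ]
  constructor
  · intro A B hA hB κ v hv
    obtain ⟨ω, w, hω, hw⟩ := haux A B hA hB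
    have hB0 : 0 < B := Nat.pos_of_dvd_of_pos hB (coprime_pos hp.out hA)
    have hloc := (hmain A B (τ ω) (τ w) hA hB (hω.map_of_injective τ.injective)
      (by rw [← map_pow, hw, hτ, hz0]) κ).1
    set H := Fl E (τ ω) (τ w) ζ z (K + κ + 1) (J + κ) with hH
    have hfin : FiniteDimensional ℚ_[p] H := by rw [hH]; unfold Fl; rw [hE]; infer_instance
    have hμ : ∀ ξ : PadicAlgCl p, ξ ^ (p ^ (K + κ + 1)) = 1 → ξ ∈ H := by
      intro ξ hξ
      exact le_adj _ _ (root_mem_adj _ (pow_pos hp.out.pos _) (hζ.prim _) hξ)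
    have hu : (τ v / z (J + κ + 1)) ^ (p ^ (J + κ + 1)) = 1 := by
      rw [div_pow, ← map_pow, hv, hzpow', div_self ((map_ne_zero τ).2 hα)]
    have hu0 : τ v / z (J + κ + 1) ≠ 0 := by
      intro h
      rw [h, zero_pow (pow_ne_zero _ hp.out.ne_zero)] at hu
      exact zero_ne_one hu
    apply transfer (H := H) (z := z (J + κ + 1)) (hzne _) (by
        rw [hzs]; exact mem_adj_self _ _) _ hδ hloc
      (GF_image hα hζ (hzpow' _) (by omega) hA hB hω hw) (u := τ v / z (J + κ + 1)) _ _ hu0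
      (by have := hzne (J + κ + 1); field_simp)
    · intro ξ hξ
      apply hμ
      rw [pow_succ', pow_mul, hξ, one_pow]
    · apply mem_GF_root_of_dvd (m := p ^ (J + κ))
      · rw [← pow_mul, ← pow_succ']; exact hv
      · exact Dvd.intro _ rfl
      · have := hp.out.pos; positivity
    · apply hμ
      have : K + κ + 1 = (J + κ + 1) + (K - J) := by omega
      rw [this, pow_add, pow_mul, hu, one_pow]
  · intro A B hA hB κ v hv j hj
    obtain ⟨ω, w, hω, hw⟩ := haux A B hA hB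
    have hB0 : 0 < B := Nat.pos_of_dvd_of_pos hB (coprime_pos hp.out hA)
    have hloc := (hmain A B (τ ω) (τ w) hA hB (hω.map_of_injective τ.injective)
      (by rw [← map_pow, hw, hτ, hz0]) κ).2
    set H := Fl E (τ ω) (τ w) ζ z (K + κ) (J + κ + 1) with hH
    have hfin : FiniteDimensional ℚ_[p] H := by rw [hH]; unfold Fl; rw [hE]; infer_instance
    have hμ : ∀ ξ : PadicAlgCl p, ξ ^ (p ^ (K + κ)) = 1 → ξ ∈ H := by
      intro ξ hξ
      exact le_adj _ _ (root_mem_adj _ (pow_pos hp.out.pos _) (hζ.prim _) hξ)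
    set F := GF α (p ^ (K + κ) * A) (p ^ (J + j) * B) with hF
    have hFH : ∀ x ∈ F, τ x ∈ H := by
      intro x hx
      apply GF_image hα hζ (hzpow' _) (by omega) hA hB hω hw
      apply GF_mono dvd_rfl _ _ hx
      · exact Nat.mul_dvd_mul (pow_dvd_pow _ (by omega)) dvd_rfl
      · have := hp.out.pos; positivity
    have hn : NeZero (p ^ (K + κ + 1)) := ⟨pow_ne_zero _ hp.out.ne_zero⟩
    have hτv : IsPrimitiveRoot (τ v) (p ^ (K + κ + 1)) := hv.map_of_injective τ.injective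
    obtain ⟨i', -, hi'⟩ := hτv.eq_pow_of_pow_eq_one (hζ.prim (K + κ + 1)).pow_eq_one
    obtain ⟨i, -, hi⟩ := (hζ.prim (K + κ + 1)).eq_pow_of_pow_eq_one hτv.pow_eq_one
    set v0 := v ^ i' with hv0
    have hτv0 : τ v0 = ζ (K + κ + 1) := by rw [hv0, map_pow, hi']
    have hvv0 : v = v0 ^ i := by
      apply τ.injective
      rw [map_pow, hτv0, hi]
    have hv0p : v0 ^ (p ^ (K + κ + 1)) = 1 := by
      rw [hv0, ← pow_mul, mul_comm, pow_mul, hv.pow_eq_one, one_pow]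
    have htr := transfer (H := H) (z := ζ (K + κ + 1)) (hζ.ne_zero _) (by
        rw [hζ.step]; exact le_adj _ _ (mem_adj_self _ _)) (fun ξ hξ => by
          apply hμ
          have h5 : K + κ = (K + κ - 1) + 1 := by omega
          rw [h5, pow_succ', pow_mul, hξ, one_pow]) hδ hloc
      hFH (v := v0) (u := 1) (by
        apply mem_GF_one_of_dvd (n := p ^ (K + κ))
        · rw [← pow_mul, ← pow_succ']; exact hv0p
        · exact Dvd.intro _ rfl) (one_mem _) one_ne_zero (by rw [one_mul, hτv0])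
    constructor
    · intro hvF
      exact htr.1 (pow_mem hvF _)
    · intro σ hσ y hy
      apply htr.2 σ hσ y
      apply adjG_le (le_adjG _ _) _ hy
      rw [hvv0]
      exact pow_mem (mem_adjG_self _ _) _

theorem exists_pos_le {ι : Type*} {T : Set ι} (hT : T.Finite) {f : ι → ℝ}
    (hf : ∀ a ∈ T, 0 < f a) : ∃ δ : ℝ, 0 < δ ∧ ∀ a ∈ T, δ ≤ f a := by
  classical
  by_cases hne : hT.toFinset.Nonempty
  · obtain ⟨b, hb, hmin⟩ := Finset.exists_min_image hT.toFinset f hne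
    rw [Set.Finite.mem_toFinset] at hb
    exact ⟨f b, hf b hb, fun a ha => hmin a ((Set.Finite.mem_toFinset _).2 ha)⟩
  · refine ⟨1, one_pos, fun a ha => ?_⟩
    exact absurd ⟨a, (Set.Finite.mem_toFinset _).2 ha⟩ hne

theorem exists_nat_ge {ι : Type*} {T : Set ι} (hT : T.Finite) (f : ι → ℕ) :
    ∃ N : ℕ, ∀ a ∈ T, f a ≤ N := by
  classical
  exact ⟨hT.toFinset.sup f, fun a ha => Finset.le_sup (f := f) ((Set.Finite.mem_toFinset _).2 ha)⟩

omit [IsAlgClosed Ω] in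
/-- there are only finitely many conjugates -/
theorem finite_conj {K : Type v} [Field K] [CharZero K] (α : Ω) :
    {a : K | ∃ τ : Ω →+* K, τ α = a}.Finite := by
  classical
  have hint : IsIntegral ℚ α := Algebra.IsIntegral.isIntegral α
  have h0 : minpoly ℚ α ≠ 0 := minpoly.ne_zero hint
  have hinj : Function.Injective (Rat.castHom K) := (Rat.castHom K).injective
  have h1 : ((minpoly ℚ α).map (Rat.castHom K)) ≠ 0 := by
    rwa [Ne, Polynomial.map_eq_zero_iff hinj]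
  apply ((minpoly ℚ α).map (Rat.castHom K)).roots.toFinset.finite_toSet.subset
  rintro a ⟨τ, rfl⟩
  simp only [Finset.mem_coe, Multiset.mem_toFinset, Polynomial.mem_roots h1, Polynomial.IsRoot.def,
    Polynomial.eval_map]
  have h2 : (Rat.castHom K) = τ.comp (algebraMap ℚ Ω) := Subsingleton.elim _ _
  rw [h2, ← Polynomial.hom_eval₂]
  have h3 : Polynomial.eval₂ (algebraMap ℚ Ω) α (minpoly ℚ α) = 0 := minpoly.aeval ℚ α
  rw [h3, map_zero]

/-- the local input, uniformly. -/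
theorem local_uniform {α : Ω} (hα : α ≠ 0) (htor : ∀ n : ℕ, 0 < n → α ^ n ≠ 1) :
    ∃ J K : ℕ, J + 1 ≤ K ∧ 3 ≤ K ∧ ∃ δ : ℝ, 0 < δ ∧ (∀ τ : Ω →+* PadicAlgCl p,
      LOC α J K δ τ) ∧ ∀ τ : Ω →+* PadicAlgCl p, ∃ δ', LOC α J (K + 1) δ' τ := by
  set T := {a : PadicAlgCl p | ∃ τ : Ω →+* PadicAlgCl p, τ α = a} with hT
  have hfin : T.Finite := finite_conj α
  choose J0 hJ0 using local_at (p := p) hα htor
  obtain ⟨J, hJ⟩ := exists_nat_ge hfin J0
  have h1 : ∀ a : PadicAlgCl p, ∃ K1 : ℕ, a ∈ T → ∀ K ≥ K1, ∃ δ : ℝ, 0 < δ ∧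
      ∀ τ : Ω →+* PadicAlgCl p, τ α = a → LOC α J K δ τ := by
    intro a
    by_cases ha : a ∈ T
    · obtain ⟨K1, h⟩ := hJ0 a J (hJ a ha)
      exact ⟨K1, fun _ => h⟩
    · exact ⟨0, fun h => absurd h ha⟩
  choose K1 hK1 using h1
  obtain ⟨K2, hK2⟩ := exists_nat_ge hfin K1
  set K := max K2 (max (J + 1) 3) with hK
  have hKK2 : K2 ≤ K := le_max_left _ _
  have h2 : ∀ a : PadicAlgCl p, ∃ δ : ℝ, a ∈ T → (0 < δ ∧
      ∀ τ : Ω →+* PadicAlgCl p, τ α = a → LOC α J K δ τ) := by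
    intro a
    by_cases ha : a ∈ T
    · obtain ⟨δ, h⟩ := hK1 a ha K ((hK2 a ha).trans hKK2)
      exact ⟨δ, fun _ => h⟩
    · exact ⟨0, fun h => absurd h ha⟩
  choose δ hδ using h2
  obtain ⟨δ0, hδ0, hle⟩ := exists_pos_le hfin (fun a ha => (hδ a ha).1)
  refine ⟨J, K, (le_max_left _ _).trans (le_max_right _ _), (le_max_right _ _).trans
    (le_max_right _ _), δ0, hδ0, ?_, ?_⟩
  · intro τ
    exact ((hδ (τ α) ⟨τ, rfl⟩).2 τ rfl).mono (hle _ ⟨τ, rfl⟩)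
  · intro τ
    obtain ⟨δ', -, h⟩ := hK1 (τ α) ⟨τ, rfl⟩ (K + 1)
      (((hK2 _ ⟨τ, rfl⟩).trans hKK2).trans (Nat.le_succ _))
    exact ⟨δ', h τ rfl⟩

end MS
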