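import Pool.Agent.Lib_helper24.MS.Global4

/-!
Descent of small points along the `p`-tower.
-/

namespace MS

open IntermediateField

universe u v

section divgroup

variable {Ω : Type u} [Field Ω]

/-- the division group `⟨α⟩_div` -/
def DivG (α : Ω) : Set Ω := {γ | γ ≠ 0 ∧ ∃ n : ℕ, 0 < n ∧ ∃ k : ℤ, γ ^ n = α ^ k}

theorem DivG.ne_zero {α γ : Ω} (h : γ ∈ DivG α) : γ ≠ 0 := h.1

theorem one_mem_DivG (α : Ω) : (1 : Ω) ∈ DivG α := ⟨one_ne_zero, 1, one_pos, 0, by simp⟩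

theorem mul_mem_DivG {α γ γ' : Ω} (hα : α ≠ 0) (h : γ ∈ DivG α) (h' : γ' ∈ DivG α) :
    γ * γ' ∈ DivG α := by
  obtain ⟨h0, n, hn, k, hk⟩ := h
  obtain ⟨h0', n', hn', k', hk'⟩ := h'
  refine ⟨mul_ne_zero h0 h0', n * n', Nat.mul_pos hn hn', k * n' + k' * n, ?_⟩
  rw [mul_pow, pow_mul, hk, mul_comm n n', pow_mul, hk', zpow_add₀ hα, zpow_mul, zpow_mul,
    zpow_natCast, zpow_natCast]

theorem inv_mem_DivG {α γ : Ω} (h : γ ∈ DivG α) : γ⁻¹ ∈ DivG α := by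
  obtain ⟨h0, n, hn, k, hk⟩ := h
  exact ⟨inv_ne_zero h0, n, hn, -k, by rw [inv_pow, hk, zpow_neg]⟩

theorem pow_mem_DivG {α γ : Ω} (h : γ ∈ DivG α) (i : ℕ) : γ ^ i ∈ DivG α := by
  obtain ⟨h0, n, hn, k, hk⟩ := h
  refine ⟨pow_ne_zero _ h0, n, hn, k * i, ?_⟩
  rw [← pow_mul, mul_comm, pow_mul, hk, zpow_mul, zpow_natCast]

theorem zpow_mem_DivG {α γ : Ω} (h : γ ∈ DivG α) (i : ℤ) : γ ^ i ∈ DivG α := by
  rcases Int.natAbs_eq i with h' | h'
  · rw [h', zpow_natCast]; exact pow_mem_DivG h _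
  · rw [h', zpow_neg, zpow_natCast]; exact inv_mem_DivG (pow_mem_DivG h _)

theorem root_mem_DivG {α z : Ω} (hα : α ≠ 0) {M : ℕ} (hM : 0 < M) (h : z ^ M = α) :
    z ∈ DivG α := by
  refine ⟨?_, M, hM, 1, by rw [h, zpow_one]⟩
  rintro rfl
  rw [zero_pow hM.ne'] at h
  exact hα h.symm

theorem unity_mem_DivG {α z : Ω} {M : ℕ} (hM : 0 < M) (h : z ^ M = 1) : z ∈ DivG α := by
  refine ⟨?_, M, hM, 0, by rw [h, zpow_zero]⟩
  rintro rfl
  rw [zero_pow hM.ne'] at h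
  exact zero_ne_one h

end divgroup

variable {Ω : Type u} [Field Ω] [Algebra ℚ Ω] [Algebra.IsAlgebraic ℚ Ω]

/-- `x` is small up to `⟨α⟩_div` -/
def Small (α x : Ω) (c : ℝ) : Prop := ∃ γ ∈ DivG α, ht (γ * x) < c

omit [Algebra.IsAlgebraic ℚ Ω] in
theorem Small.mono {α x : Ω} {c c' : ℝ} (h : Small α x c) (hc : c ≤ c') : Small α x c' := by
  obtain ⟨γ, hγ, h⟩ := h
  exact ⟨γ, hγ, h.trans_le hc⟩

omit [Algebra.IsAlgebraic ℚ Ω] in
theorem Small.of_mul {α x y γ : Ω} {c : ℝ} (hα : α ≠ 0) (hγ : γ ∈ DivG α) (h : Small α x c)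
    (hxy : x = γ * y) : Small α y c := by
  obtain ⟨γ', hγ', h⟩ := h
  refine ⟨γ' * γ, mul_mem_DivG hα hγ' hγ, ?_⟩
  rw [mul_assoc, ← hxy]
  exact h

/-- rounding an element of the division group -/
theorem ht_round {α : Ω} (hα : α ≠ 0) {γ : Ω} (hγ : γ ∈ DivG α) {M : ℕ} (hM : 0 < M) {z : Ω}
    (hz : z ^ M = α) : ∃ e : ℤ, ht (γ * z ^ (-e)) ≤ ht α / M := by
  obtain ⟨hγ0, n, hn, k, hk⟩ := hγ
  set e : ℤ := k * M / n with he
  refine ⟨e, ?_⟩
  have hz0 : z ≠ 0 := by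
    rintro rfl
    rw [zero_pow hM.ne'] at hz
    exact hα hz.symm
  have h1 : (γ * z ^ (-e)) ^ (n * M) = α ^ (k * M - e * n) := by
    rw [mul_pow, pow_mul, hk, ← zpow_natCast (α ^ k), ← zpow_mul, ← zpow_natCast (z ^ (-e)),
      ← zpow_mul, zpow_sub₀ hα, div_eq_mul_inv, ← zpow_neg]
    congr 1
    rw [← hz, ← zpow_natCast z M, ← zpow_mul]
    congr 1
    push_cast
    ring
  have h2 := ht_pow (γ * z ^ (-e)) (n * M)
  rw [h1, ht_zpow] at h2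
  have hn' : (0 : ℤ) < n := by exact_mod_cast hn
  have h3 : 0 ≤ k * M - e * n := by
    have := Int.ediv_mul_le (k * M) hn'.ne'
    linarith
  have h4 : k * M - e * n < n := by
    have := Int.lt_ediv_add_one_mul_self (k * M) hn'
    linarith
  have h5 : |((k * M - e * n : ℤ) : ℝ)| ≤ n := by
    rw [abs_of_nonneg (by exact_mod_cast h3)]
    exact_mod_cast h4.le
  have h6 := ht_nonneg α
  have hnr : (0 : ℝ) < n := by exact_mod_cast hn
  have hMr : (0 : ℝ) < M := by exact_mod_cast hM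
  rw [le_div_iff₀ hMr]
  have h7 : (n : ℝ) * (ht (γ * z ^ (-e)) * M) ≤ n * ht α := by
    calc (n : ℝ) * (ht (γ * z ^ (-e)) * M) = ((n * M : ℕ) : ℝ) * ht (γ * z ^ (-e)) := by
          push_cast; ring
      _ = |((k * M - e * n : ℤ) : ℝ)| * ht α := h2.symm
      _ ≤ n * ht α := by gcongr
  exact le_of_mul_le_mul_left h7 hnr

theorem Small.round {α : Ω} (hα : α ≠ 0) {x : Ω} {c : ℝ} (h : Small α x c) {M : ℕ} (hM : 0 < M)
    {z : Ω} (hz : z ^ M = α) (hc : ht α ≤ c * M) : ∃ e : ℤ, ht (z ^ e * x) < 2 * c := by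
  obtain ⟨γ, hγ, h⟩ := h
  obtain ⟨e, he⟩ := ht_round hα hγ hM hz
  refine ⟨e, ?_⟩
  have hz0 : z ≠ 0 := by
    rintro rfl
    rw [zero_pow hM.ne'] at hz
    exact hα hz.symm
  have h1 : z ^ e * x = (γ * z ^ (-e))⁻¹ * (γ * x) := by
    rw [mul_inv, zpow_neg, inv_inv]
    have := hγ.1
    field_simp
  have h2 := ht_mul_le (γ * z ^ (-e))⁻¹ (γ * x)
  rw [← h1, ht_inv] at h2
  have hMr : (0 : ℝ) < M := by exact_mod_cast hM
  have h3 : ht α / M ≤ c := by rwa [div_le_iff₀ hMr]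
  linarith

theorem exists_prim_pow {K : Type*} [Field K] {p : ℕ} (hp : p.Prime) {η : K} {k N : ℕ}
    (h1 : η ^ (p ^ k) = 1) (h2 : η ^ (p ^ N) ≠ 1) :
    ∃ j : ℕ, IsPrimitiveRoot (η ^ j) (p ^ (N + 1)) := by
  classical
  have : Fact p.Prime := ⟨hp⟩
  have hex : ∃ s, η ^ (p ^ s) = 1 := ⟨k, h1⟩
  set s := Nat.find hex with hs
  have hs1 : η ^ (p ^ s) = 1 := Nat.find_spec hex
  have hsN : N < s := by
    by_contra hcon
    rw [not_lt] at hcon
    apply h2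
    have : N = s + (N - s) := by omega
    rw [this, pow_add, pow_mul, hs1, one_pow]
  have hmin : η ^ (p ^ (s - 1)) ≠ 1 := Nat.find_min hex (by omega)
  refine ⟨p ^ (s - (N + 1)), ?_⟩
  have h3 : (η ^ (p ^ (s - (N + 1)))) ^ (p ^ (N + 1)) = 1 := by
    rw [← pow_mul, ← pow_add]
    have : s - (N + 1) + (N + 1) = s := by omega
    rw [this, hs1]
  have h4 : ¬ (η ^ (p ^ (s - (N + 1)))) ^ (p ^ N) = 1 := by
    rw [← pow_mul, ← pow_add]
    have : s - (N + 1) + N = s - 1 := by omega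
    rw [this]
    exact hmin
  have h5 := orderOf_eq_prime_pow h4 h3
  rw [← h5]
  exact IsPrimitiveRoot.orderOf _

variable [IsAlgClosed Ω] {p : ℕ} [hp : Fact p.Prime]

/-- going down one level of the tower -/
theorem step_down {α : Ω} (hα : α ≠ 0) {J K : ℕ} (hJK : J + 1 ≤ K) (hK3 : 3 ≤ K) {δ : ℝ}
    (hloc : ∀ τ : Ω →+* PadicAlgCl p, LOC α J K δ τ)
    (hloc' : ∀ τ : Ω →+* PadicAlgCl p, ∃ δ', LOC α J (K + 1) δ' τ) {m : ℕ}
    (hm : ∀ u : PadicAlgCl p, ‖u - 1‖ ≤ Real.exp (-δ) → ‖u ^ (p ^ m) - 1‖ ≤ ((p : ℝ) ^ 2)⁻¹)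
    {c : ℝ} (hc : 4 * (p : ℝ) ^ m * c = 2 * Real.log p - Real.log 2) {A B κ : ℕ}
    (hA : A.Coprime p) (hB : B ∣ A) (hM : ht α ≤ c * (p ^ (J + κ) : ℕ)) {x : Ω}
    (hx : x ∈ GF α (p ^ (K + κ + 1) * A) (p ^ (J + κ + 1) * B)) (hx0 : x ≠ 0)
    (hs : Small α x c) :
    ∃ y ∈ GF α (p ^ (K + κ) * A) (p ^ (J + κ) * B), ∃ γ ∈ DivG α, x = γ * y := by
  have hpp := hp.out.pos
  have hA0 := coprime_pos hp.out hA
  have hB0 : 0 < B := Nat.pos_of_dvd_of_pos hB hA0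
  have hBp : B.Coprime p := Nat.Coprime.coprime_dvd_left hB hA
  -- an embedding
  obtain ⟨τ0⟩ : Nonempty (Ω →+* PadicAlgCl p) := by
    obtain ⟨τ, -⟩ := exists_extend (Ω := Ω) (algebraMap ℚ Ω) (algebraMap ℚ (PadicAlgCl p))
    exact ⟨τ⟩
  have hcpos : 0 ≤ c := by
    by_contra hcon
    rw [not_le] at hcon
    have h1 := ht_nonneg α
    have h2 : (0 : ℝ) < (p ^ (J + κ) : ℕ) := by positivity
    nlinarith
  set F' := GF α (p ^ (K + κ + 1) * A) (p ^ (J + κ + 1) * B) with hF'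
  -- the roots of unity of `F'`
  have hμ1 : ∀ η ∈ F', ∀ k : ℕ, η ^ (p ^ k) = 1 → η ^ (p ^ (K + κ + 1)) = 1 := by
    intro η hη k hk
    by_contra hne
    obtain ⟨j, hj⟩ := exists_prim_pow hp.out hk hne
    obtain ⟨δ', hδ'⟩ := hloc' τ0
    have h1 : K + κ + 1 + 1 = K + 1 + κ + 1 := by ring
    rw [h1] at hj
    have h2 := (hδ'.cyc A B hA hB κ (η ^ j) hj (κ + 1) le_rfl).1
    apply h2
    have h3 : K + 1 + κ = K + κ + 1 := by ring
    have h4 : J + (κ + 1) = J + κ + 1 := by ring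
    rw [h3, h4]
    exact pow_mem hη j
  -- first step
  set F1 := GF α (p ^ (K + κ + 1) * A) (p ^ (J + κ) * B) with hF1
  obtain ⟨z, hz⟩ := IsAlgClosed.exists_pow_nat_eq α (n := p ^ (J + κ + 1)) (by positivity)
  have hzD : z ∈ DivG α := root_mem_DivG hα (by positivity) hz
  have hF'le : F' ≤ adjG F1 z := GF_K hp.out hα hz
    ((pow_dvd_pow _ (by omega)).trans (Dvd.intro _ rfl)) hBp
  have hle' : adjG F1 z ≤ F' := by
    apply adjG_le
    · apply GF_mono dvd_rfl _ (by positivity)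
      exact Nat.mul_dvd_mul (pow_dvd_pow _ (by omega)) dvd_rfl
    · exact mem_GF_root_of_dvd hz (Dvd.intro _ rfl) (by positivity)
  obtain ⟨e, he⟩ := hs.round hα (M := p ^ (J + κ + 1)) (by positivity) hz (hM.trans
    (mul_le_mul_of_nonneg_left (by
      exact_mod_cast Nat.pow_le_pow_right hpp (Nat.le_succ (J + κ))) hcpos))
  have hx1 : z ^ e * x ∈ adjG F1 z := mul_mem (zpow_mem (mem_adjG_self _ _) _) (hF'le hx)
  obtain ⟨i, y1, hy1, hxy1⟩ := kummer_step (p := p) (F := F1) (v := z) (N := K + κ + 1) (m := m)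
    (δ := δ) hzD.1 ((hloc τ0).kum A B hA hB κ z hz).1
    (mem_GF_root_of_dvd (m := p ^ (J + κ)) (by rw [← pow_mul, ← pow_succ']; exact hz)
      (Dvd.intro _ rfl) (by positivity)) (by omega) (fun _ => by omega) hm
    (fun σ hσ τ y hy => ((hloc τ).kum A B hA hB κ z hz).2 σ hσ y hy)
    (fun η hη k hk => hμ1 η (hle' hη) k hk)
    (fun η hη => mem_GF_one_of_dvd hη ((pow_dvd_pow _ (by omega)).trans (Dvd.intro _ rfl)))
    hx1 (mul_ne_zero (zpow_ne_zero _ hzD.1) hx0) (by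
      have h5 : 0 < (p : ℝ) ^ m := by positivity
      nlinarith)
  have hz0 := hzD.1
  have hxγ : x = ((z ^ e)⁻¹ * z ^ i) * y1 := by
    rw [mul_assoc, ← hxy1]
    field_simp
  have hγ1 : (z ^ e)⁻¹ * z ^ i ∈ DivG α :=
    mul_mem_DivG hα (inv_mem_DivG (zpow_mem_DivG hzD _)) (pow_mem_DivG hzD _)
  have hs1 : Small α y1 c := hs.of_mul hα hγ1 hxγ
  have hy10 : y1 ≠ 0 := by
    rintro rfl
    rw [mul_zero] at hxγ
    exact hx0 hxγ
  -- second step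
  set F2 := GF α (p ^ (K + κ) * A) (p ^ (J + κ) * B) with hF2
  have : CharZero Ω := algebraRat.charZero Ω
  have : NeZero ((p ^ (K + κ + 1) : ℕ) : Ω) := ⟨by
    have : p ^ (K + κ + 1) ≠ 0 := by positivity
    exact_mod_cast this⟩
  obtain ⟨v, hv⟩ := HasEnoughRootsOfUnity.exists_primitiveRoot Ω (p ^ (K + κ + 1))
  have hvD : v ∈ DivG α := unity_mem_DivG (by positivity) hv.pow_eq_one
  have hF1le : F1 ≤ adjG F2 v := GF_C hp.out hv hA
  have hle2 : adjG F2 v ≤ F' := by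
    apply adjG_le
    · apply GF_mono _ _ (by positivity)
      · exact Nat.mul_dvd_mul (pow_dvd_pow _ (by omega)) dvd_rfl
      · exact Nat.mul_dvd_mul (pow_dvd_pow _ (by omega)) dvd_rfl
    · exact mem_GF_one_of_dvd hv.pow_eq_one (Dvd.intro _ rfl)
  obtain ⟨z2, hz2⟩ := IsAlgClosed.exists_pow_nat_eq α (n := p ^ (J + κ)) (by positivity)
  have hz2D : z2 ∈ DivG α := root_mem_DivG hα (by positivity) hz2
  have hz2F : z2 ∈ F2 := mem_GF_root_of_dvd hz2 (Dvd.intro _ rfl) (by positivity)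
  obtain ⟨e2, he2⟩ := hs1.round hα (M := p ^ (J + κ)) (by positivity) hz2 hM
  have hx2 : z2 ^ e2 * y1 ∈ adjG F2 v :=
    mul_mem (zpow_mem (le_adjG _ _ hz2F) _) (hF1le hy1)
  obtain ⟨i2, y2, hy2, hxy2⟩ := kummer_step (p := p) (F := F2) (v := v) (N := K + κ + 1) (m := m)
    (δ := δ) hvD.1 ((hloc τ0).cyc A B hA hB κ v hv κ (by omega)).1
    (mem_GF_one_of_dvd (n := p ^ (K + κ)) (by rw [← pow_mul, ← pow_succ']; exact hv.pow_eq_one)
      (Dvd.intro _ rfl)) (by omega) (fun _ => by omega) hm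
    (fun σ hσ τ y hy => ((hloc τ).cyc A B hA hB κ v hv κ (by omega)).2 σ hσ y hy)
    (fun η hη k hk => hμ1 η (hle2 hη) k hk)
    (fun η hη => mem_GF_one_of_dvd (n := p ^ (K + κ)) hη (Dvd.intro _ rfl))
    hx2 (mul_ne_zero (zpow_ne_zero _ hz2D.1) hy10) (by
      have h5 : 0 < (p : ℝ) ^ m := by positivity
      nlinarith)
  have hz20 := hz2D.1
  refine ⟨y2, hy2, ((z ^ e)⁻¹ * z ^ i) * ((z2 ^ e2)⁻¹ * v ^ i2), mul_mem_DivG hα hγ1
    (mul_mem_DivG hα (inv_mem_DivG (zpow_mem_DivG hz2D _)) (pow_mem_DivG hvD _)), ?_⟩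
  rw [mul_assoc, mul_assoc (z2 ^ e2)⁻¹, ← hxy2, hxγ]
  field_simp

/-- descent of small points along the `p`-tower, uniformly in the tame part. -/
theorem desc_p (p : ℕ) [hp : Fact p.Prime] {α : Ω} (hα : α ≠ 0)
    (htor : ∀ n : ℕ, 0 < n → α ^ n ≠ 1) :
    ∃ J K : ℕ, ∃ c : ℝ, 0 < c ∧ ∀ A B : ℕ, A.Coprime p → B ∣ A → ∀ s : ℕ,
      ∀ x ∈ GF α (p ^ (K + s) * A) (p ^ (J + s) * B), x ≠ 0 → Small α x c →
        ∃ y ∈ GF α (p ^ K * A) (p ^ J * B), ∃ γ ∈ DivG α, x = γ * y := by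
  obtain ⟨J, K, hJK, hK3, δ, hδ, hloc, hloc'⟩ := local_uniform (p := p) hα htor
  -- the exponent `m`
  obtain ⟨m, hm⟩ : ∃ m : ℕ, ∀ u : PadicAlgCl p, ‖u - 1‖ ≤ Real.exp (-δ) →
      ‖u ^ (p ^ m) - 1‖ ≤ ((p : ℝ) ^ 2)⁻¹ := by
    set ρ := Real.exp (-δ) with hρ
    have hρ1 : ρ < 1 := by rw [hρ, Real.exp_lt_one_iff]; linarith
    have hp0 : (0 : ℝ) < ((p : ℝ) ^ 2)⁻¹ := by
      have : (0 : ℝ) < p := by exact_mod_cast hp.out.pos
      positivity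
    obtain ⟨m, hm⟩ := exists_pow_lt_of_lt_one hp0 (max_lt hρ1 (by norm_num : (1 / 2 : ℝ) < 1))
    refine ⟨m, fun u hu => ?_⟩
    refine (norm_pow_iter_sub_one_le hρ1.le hu m).trans ?_
    have h1 : 0 ≤ (max ρ (1 / 2)) ^ m := by positivity
    nlinarith [Real.exp_pos (-δ)]
  set c : ℝ := (2 * Real.log p - Real.log 2) / (4 * (p : ℝ) ^ m) with hc
  have hlog : 0 < 2 * Real.log p - Real.log 2 := by
    have h1 : Real.log 2 ≤ Real.log p := Real.log_le_log (by norm_num)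
      (by exact_mod_cast hp.out.two_le)
    have h2 := log_p_pos p
    linarith
  have hpm : (0 : ℝ) < (p : ℝ) ^ m := by
    have : (0 : ℝ) < p := by exact_mod_cast hp.out.pos
    positivity
  have hcpos : 0 < c := by positivity
  have hceq : 4 * (p : ℝ) ^ m * c = 2 * Real.log p - Real.log 2 := by
    rw [hc]; field_simp
  -- the base level
  obtain ⟨t, ht'⟩ : ∃ t : ℕ, ht α ≤ c * (p ^ t : ℕ) := by
    obtain ⟨t, h⟩ := pow_unbounded_of_one_lt (ht α / c)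
      (show (1 : ℝ) < p by exact_mod_cast hp.out.one_lt)
    refine ⟨t, ?_⟩
    rw [div_lt_iff₀ hcpos] at h
    push_cast
    linarith
  have hbase : ∀ κ, t ≤ κ → ht α ≤ c * (p ^ (J + κ) : ℕ) := by
    intro κ hκ
    refine ht'.trans ?_
    have : p ^ t ≤ p ^ (J + κ) := Nat.pow_le_pow_right hp.out.pos (by omega)
    gcongr
  refine ⟨J + t, K + t, c, hcpos, ?_⟩
  intro A B hA hB s
  induction s with
  | zero =>
    intro x hx hx0 hs
    exact ⟨x, hx, 1, one_mem_DivG α, (one_mul x).symm⟩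
  | succ s ih =>
    intro x hx hx0 hs
    have e1 : K + t + (s + 1) = K + (t + s) + 1 := by ring
    have e2 : J + t + (s + 1) = J + (t + s) + 1 := by ring
    rw [e1, e2] at hx
    obtain ⟨y, hy, γ, hγ, hxy⟩ := step_down hα hJK hK3 hloc hloc' hm hceq hA hB
      (hbase (t + s) (by omega)) hx hx0 hs
    have e3 : K + (t + s) = K + t + s := by ring
    have e4 : J + (t + s) = J + t + s := by ring
    rw [e3, e4] at hy
    have hy0 : y ≠ 0 := by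
      rintro rfl
      rw [mul_zero] at hxy
      exact hx0 hxy
    obtain ⟨y', hy', γ', hγ', hyy'⟩ := ih y hy hy0 (hs.of_mul hα hγ hxy)
    exact ⟨y', hy', γ * γ', mul_mem_DivG hα hγ hγ', by rw [hxy, hyy', mul_assoc]⟩

end MS
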