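import Pool.Agent.Lib_helper24.MS.Global5

/-!
Descent of small points for a finite set of primes.
-/

namespace MS

open IntermediateField

universe u v

variable {Ω : Type u} [Field Ω] [Algebra ℚ Ω] [Algebra.IsAlgebraic ℚ Ω] [IsAlgClosed Ω]

/-- `S`-smooth positive integers -/
def Smooth (S : Set ℕ) (s : ℕ) : Prop := 0 < s ∧ ∀ q : ℕ, q.Prime → q ∣ s → q ∈ S

theorem split_p {p : ℕ} (hp : p.Prime) {n : ℕ} (hn : 0 < n) :
    ∃ e m : ℕ, 0 < m ∧ m.Coprime p ∧ n = p ^ e * m := by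
  obtain ⟨e, m, hm, h⟩ := Nat.exists_eq_pow_mul_and_not_dvd hn.ne' p hp.one_lt.ne'
  refine ⟨e, m, ?_, ?_, h⟩
  · rcases Nat.eq_zero_or_pos m with h' | h'
    · rw [h', mul_zero] at h
      omega
    · exact h'
  · exact ((hp.coprime_iff_not_dvd).2 hm).symm

/-- enlarging to the shape used in the descent, and descending -/
theorem desc_one (p : ℕ) (hp : p.Prime) {α : Ω} (hα : α ≠ 0)
    (htor : ∀ n : ℕ, 0 < n → α ^ n ≠ 1) :
    ∃ J K : ℕ, ∃ c : ℝ, 0 < c ∧ ∀ N e B : ℕ, 0 < N → B.Coprime p →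
      ∀ x ∈ GF α N (p ^ e * B), x ≠ 0 → Small α x c →
        ∃ A : ℕ, A.Coprime p ∧
        ∃ y ∈ GF α (p ^ K * A) (p ^ J * B), ∃ γ ∈ DivG α, x = γ * y := by
  have : Fact p.Prime := ⟨hp⟩
  obtain ⟨J, K, c, hc, h⟩ := desc_p p hα htor
  refine ⟨J, K, c, hc, ?_⟩
  intro N e B hN hB x hx hx0 hs
  obtain ⟨n, N0, hN0, hN0p, hNeq⟩ := split_p hp hN
  have hB0 := coprime_pos hp hB
  refine ⟨N0 * B, Nat.Coprime.mul_left hN0p hB, ?_⟩
  apply h (N0 * B) B (Nat.Coprime.mul_left hN0p hB) (Dvd.intro_left _ rfl) (n + e) x _ hx0 hs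
  have hpp := hp.pos
  apply GF_mono _ _ (by positivity) hx
  · rw [hNeq]
    exact Nat.mul_dvd_mul (pow_dvd_pow _ (by omega)) (Dvd.intro _ rfl)
  · exact Nat.mul_dvd_mul (pow_dvd_pow _ (by omega)) dvd_rfl

theorem desc_S {α : Ω} (hα : α ≠ 0) (htor : ∀ n : ℕ, 0 < n → α ^ n ≠ 1) (S : Finset ℕ) :
    ∀ R : ℕ, 0 < R → ∃ R' : ℕ, 0 < R' ∧ ∃ c : ℝ, 0 < c ∧ ∀ N : ℕ, 0 < N → ∀ s : ℕ,
      Smooth S s → ∀ x ∈ GF α N (R * s), x ≠ 0 → Small α x c →
        ∃ N' : ℕ, 0 < N' ∧ ∃ y ∈ GF α N' R', ∃ γ ∈ DivG α, x = γ * y := by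
  classical
  induction S using Finset.induction_on with
  | empty =>
    intro R hR
    refine ⟨R, hR, 1, one_pos, ?_⟩
    intro N hN s hs x hx hx0 hsm
    have hs1 : s = 1 := by
      by_contra hne
      obtain ⟨q, hq, hqs⟩ := Nat.exists_prime_and_dvd hne
      simpa using hs.2 q hq hqs
    rw [hs1, mul_one] at hx
    exact ⟨N, hN, x, hx, 1, one_mem_DivG α, (one_mul x).symm⟩
  | insert p S hpS ih =>
    intro R hR
    by_cases hp : p.Prime
    · obtain ⟨r, R0, hR0, hR0p, hReq⟩ := split_p hp hR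
      obtain ⟨J, K, c1, hc1, h1⟩ := desc_one p hp hα htor
      have hpp := hp.pos
      obtain ⟨R', hR', c2, hc2, h2⟩ := ih (p ^ J * R0) (by positivity)
      refine ⟨R', hR', min c1 c2, lt_min hc1 hc2, ?_⟩
      intro N hN s hs x hx hx0 hsm
      obtain ⟨e, s', hs', hs'p, hseq⟩ := split_p hp hs.1
      have hs'S : Smooth S s' := by
        refine ⟨hs', fun q hq hqs => ?_⟩
        have h3 := hs.2 q hq (by rw [hseq]; exact Dvd.dvd.mul_left hqs _)
        rw [Finset.coe_insert, Set.mem_insert_iff] at h3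
        rcases h3 with h3 | h3
        · exfalso
          rw [h3] at hqs
          exact (hp.coprime_iff_not_dvd.1 hs'p.symm) hqs
        · exact h3
      have hRs : R * s = p ^ (r + e) * (R0 * s') := by
        rw [hReq, hseq, pow_add]; ring
      rw [hRs] at hx
      obtain ⟨A, hA, y, hy, γ, hγ, hxy⟩ := h1 N (r + e) (R0 * s') hN
        (Nat.Coprime.mul_left hR0p hs'p) x hx hx0 (hsm.mono (min_le_left _ _))
      have hy0 : y ≠ 0 := by
        rintro rfl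
        rw [mul_zero] at hxy
        exact hx0 hxy
      rw [← mul_assoc] at hy
      have hA0 := coprime_pos hp hA
      obtain ⟨N', hN', y', hy', γ', hγ', hyy'⟩ := h2 (p ^ K * A) (by positivity) s' hs'S y hy hy0
        ((hsm.mono (min_le_right _ _)).of_mul hα hγ hxy)
      exact ⟨N', hN', y', hy', γ * γ', mul_mem_DivG hα hγ hγ', by rw [hxy, hyy', mul_assoc]⟩
    · obtain ⟨R', hR', c, hc, h⟩ := ih R hR
      refine ⟨R', hR', c, hc, ?_⟩
      intro N hN s hs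
      apply h N hN s
      refine ⟨hs.1, fun q hq hqs => ?_⟩
      have h3 := hs.2 q hq hqs
      rw [Finset.coe_insert, Set.mem_insert_iff] at h3
      rcases h3 with h3 | h3
      · exact absurd (h3 ▸ hq) hp
      · exact h3

/-- the final descent: the exponents of the roots of `α` become bounded, as does the `2`-part of
the order of the roots of unity. -/
theorem desc_final {α : Ω} (hα : α ≠ 0) (htor : ∀ n : ℕ, 0 < n → α ^ n ≠ 1) (S : Finset ℕ) :
    ∃ k R : ℕ, 0 < R ∧ ∃ c : ℝ, 0 < c ∧ ∀ N : ℕ, 0 < N → ∀ s : ℕ,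
      Smooth S s → ∀ x ∈ GF α N s, x ≠ 0 → Small α x c →
        ∃ A : ℕ, A.Coprime 2 ∧ ∃ y ∈ GF α (2 ^ k * A) R, ∃ γ ∈ DivG α, x = γ * y := by
  obtain ⟨R1, hR1, c1, hc1, h1⟩ := desc_S hα htor S 1 one_pos
  obtain ⟨J, K, c2, hc2, h2⟩ := desc_one 2 Nat.prime_two hα htor
  obtain ⟨r, R0, hR0, hR0p, hReq⟩ := split_p Nat.prime_two hR1
  refine ⟨K, 2 ^ J * R0, by positivity, min c1 c2, lt_min hc1 hc2, ?_⟩
  intro N hN s hs x hx hx0 hsm
  obtain ⟨N', hN', y, hy, γ, hγ, hxy⟩ := h1 N hN s hs x (by rwa [one_mul]) hx0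
    (hsm.mono (min_le_left _ _))
  have hy0 : y ≠ 0 := by
    rintro rfl
    rw [mul_zero] at hxy
    exact hx0 hxy
  rw [hReq] at hy
  obtain ⟨A, hA, y', hy', γ', hγ', hyy'⟩ := h2 N' r R0 hN' hR0p y hy hy0
    ((hsm.mono (min_le_right _ _)).of_mul hα hγ hxy)
  exact ⟨A, hA, y', hy', γ * γ', mul_mem_DivG hα hγ hγ', by rw [hxy, hyy', mul_assoc]⟩

end MS
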