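import Pool.Agent.Lib_helper24.MS.Basic

/-!
The absolute logarithmic Weil height and its local decomposition.
-/

namespace MS

open Polynomial

/-- The primitive integral polynomial attached to a rational polynomial. -/
noncomputable def primZ (f : ℚ[X]) : ℤ[X] :=
  (IsLocalization.integerNormalization (nonZeroDivisors ℤ) f).primPart

/-- the minimal polynomial over `ℤ` of an algebraic number (up to sign) -/
noncomputable def minZ {K : Type*} [Field K] [Algebra ℚ K] (x : K) : ℤ[X] := primZ (minpoly ℚ x)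

/-- The absolute logarithmic Weil height of an algebraic number:
`(1 / [ℚ(x) : ℚ]) * log (|lc| * ∏ max (1, |σ x|))`. -/
noncomputable def ht {K : Type*} [Field K] [Algebra ℚ K] (x : K) : ℝ :=
  Real.log (|((minZ x).leadingCoeff : ℝ)| *
    ((((minZ x).map (Int.castRingHom ℂ)).roots).map (fun z => max 1 ‖z‖)).prod) /
      (minpoly ℚ x).natDegree

theorem primZ_spec {f : ℚ[X]} (hf : f ≠ 0) :
    ∃ u : ℚ, u ≠ 0 ∧ (primZ f).map (Int.castRingHom ℚ) = C u * f := by
  obtain ⟨b, hbm, hb⟩ := IsLocalization.integerNormalization_spec (nonZeroDivisors ℤ) f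
  set g := IsLocalization.integerNormalization (nonZeroDivisors ℤ) f with hg
  have hb0 : (b : ℤ) ≠ 0 := nonZeroDivisors.ne_zero hbm
  have hg0 : g ≠ 0 := by
    intro h
    rw [h, Polynomial.map_zero] at hb
    have h2 : (b : ℤ) • f = 0 := hb.symm
    rcases smul_eq_zero.1 h2 with h3 | h3
    · exact hb0 h3
    · exact hf h3
  have hc0 : g.content ≠ 0 := by
    rwa [Ne, content_eq_zero_iff]
  have h1 := g.eq_C_content_mul_primPart
  have h2 : g.map (Int.castRingHom ℚ) = C ((g.content : ℤ) : ℚ) *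
      (g.primPart).map (Int.castRingHom ℚ) := by
    conv_lhs => rw [h1]
    rw [Polynomial.map_mul, Polynomial.map_C]
    rfl
  have h3 : g.map (Int.castRingHom ℚ) = C ((b : ℤ) : ℚ) * f := by
    have h4 : g.map (Int.castRingHom ℚ) = (b : ℤ) • f := hb
    rw [h4, zsmul_eq_mul]
    congr 1
  have hcq : ((g.content : ℤ) : ℚ) ≠ 0 := by exact_mod_cast hc0
  refine ⟨((b : ℤ) : ℚ) / ((g.content : ℤ) : ℚ), ?_, ?_⟩
  · have : ((b : ℤ) : ℚ) ≠ 0 := by exact_mod_cast hb0
    exact div_ne_zero this hcq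
  · have h5 : C ((g.content : ℤ) : ℚ) * (g.primPart).map (Int.castRingHom ℚ) =
        C ((g.content : ℤ) : ℚ) * (C (((b : ℤ) : ℚ) / ((g.content : ℤ) : ℚ)) * f) := by
      rw [← h2, h3, ← mul_assoc, ← C_mul]
      congr 2
      field_simp
    exact mul_left_cancel₀ (C_ne_zero.2 hcq) h5

theorem primZ_primitive (f : ℚ[X]) : (primZ f).IsPrimitive := isPrimitive_primPart _

theorem primZ_ne_zero (f : ℚ[X]) : primZ f ≠ 0 := primPart_ne_zero _

theorem aroots_primZ {f : ℚ[X]} (hf : f ≠ 0) (E : Type*) [Field E] [CharZero E] [Algebra ℚ E] :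
    ((primZ f).map (Int.castRingHom E)).roots = f.aroots E := by
  obtain ⟨u, hu, h⟩ := primZ_spec hf
  have h1 : (primZ f).map (Int.castRingHom E) = C (algebraMap ℚ E u) * f.map (algebraMap ℚ E) := by
    have h2 : Int.castRingHom E = (algebraMap ℚ E).comp (Int.castRingHom ℚ) := RingHom.ext_int _ _
    rw [h2, ← Polynomial.map_map, h, Polynomial.map_mul, Polynomial.map_C]
  rw [aroots_def, h1, roots_C_mul]
  rwa [Ne, FaithfulSMul.algebraMap_eq_zero_iff]

section gauss

variable {l : ℕ} [hl : Fact l.Prime]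

/-- the norm of `PadicAlgCl l` as an absolute value -/
noncomputable def vl (l : ℕ) [Fact l.Prime] : AbsoluteValue (PadicAlgCl l) ℝ :=
  NormedField.toAbsoluteValue (PadicAlgCl l)

theorem vl_apply (x : PadicAlgCl l) : vl l x = ‖x‖ := rfl

theorem vl_nonarch : IsNonarchimedean (vl l) := fun x y => PadicAlgCl.isNonarchimedean l x y

theorem gaussNorm_X_sub_C (r : PadicAlgCl l) : (X - C r).gaussNorm (vl l) 1 = max 1 ‖r‖ := by
  apply le_antisymm
  · obtain ⟨i, hi⟩ := exists_eq_gaussNorm (vl l) 1 (X - C r)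
    rw [hi, one_pow, mul_one, coeff_sub, coeff_X, coeff_C]
    by_cases h1 : 1 = i
    · rw [← h1]; simp
    · by_cases h0 : i = 0
      · rw [h0]; simp [vl_apply]
      · simp [h1, h0]
  · apply max_le
    · have h1 := le_gaussNorm (vl l) (X - C r) (c := 1) zero_le_one 1
      simpa using h1
    · have h1 := le_gaussNorm (vl l) (X - C r) (c := 1) zero_le_one 0
      simpa [vl_apply] using h1

theorem gaussNorm_multiset (s : Multiset (PadicAlgCl l)) :
    ((s.map (fun r => X - C r)).prod).gaussNorm (vl l) 1 = (s.map (fun r => max 1 ‖r‖)).prod := by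
  induction s using Multiset.induction_on with
  | empty =>
    rw [Multiset.map_zero, Multiset.map_zero, Multiset.prod_zero, Multiset.prod_zero, ← C_1,
      gaussNorm_C]
    simp
  | cons a s ih =>
    rw [Multiset.map_cons, Multiset.map_cons, Multiset.prod_cons, Multiset.prod_cons,
      gaussNorm_mul vl_nonarch one_pos, gaussNorm_X_sub_C, ih]

/-- Gauss' lemma in terms of roots. -/
theorem gauss_roots {g : ℤ[X]} (hg : g.IsPrimitive) :
    ‖((g.leadingCoeff : ℤ) : PadicAlgCl l)‖ *
      ((g.map (Int.castRingHom (PadicAlgCl l))).roots.map (fun r => max 1 ‖r‖)).prod = 1 := by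
  set G := g.map (Int.castRingHom (PadicAlgCl l)) with hG
  have hinj : Function.Injective (Int.castRingHom (PadicAlgCl l)) := by
    intro a b h
    simpa using h
  have hsplit : G.Splits := IsAlgClosed.splits G
  have h1 := hsplit.eq_prod_roots
  have hlc : G.leadingCoeff = ((g.leadingCoeff : ℤ) : PadicAlgCl l) := by
    rw [hG, leadingCoeff_map_of_injective hinj]; rfl
  have h2 : G.gaussNorm (vl l) 1 = ‖((g.leadingCoeff : ℤ) : PadicAlgCl l)‖ *
      (G.roots.map (fun r => max 1 ‖r‖)).prod := by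
    conv_lhs => rw [h1, gaussNorm_mul vl_nonarch one_pos, gaussNorm_C, gaussNorm_multiset, hlc,
      vl_apply]
  rw [← h2]
  apply le_antisymm
  · obtain ⟨i, hi⟩ := exists_eq_gaussNorm (vl l) 1 G
    rw [hi, one_pow, mul_one, hG, coeff_map]
    exact norm_intCast_le_one _
  · -- some coefficient is prime to `l`
    have h3 : ∃ i, ¬ (l : ℤ) ∣ g.coeff i := by
      by_contra hcon
      push Not at hcon
      have h4 : C (l : ℤ) ∣ g := (C_dvd_iff_dvd_coeff _ _).2 hcon
      have h5 := hg _ h4
      rw [Int.isUnit_iff] at h5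
      have := hl.out.two_le
      omega
    obtain ⟨i, hi⟩ := h3
    have h4 : ‖((g.coeff i : ℤ) : PadicAlgCl l)‖ = 1 := by
      rw [← map_intCast (algebraMap ℚ_[l] (PadicAlgCl l)), norm_algebraMap']
      apply le_antisymm (Padic.norm_int_le_one _)
      rw [← not_lt]
      intro h
      exact hi (Padic.norm_intCast_lt_one_iff.1 h)
    have h5 := le_gaussNorm (vl l) G (c := 1) zero_le_one i
    rw [one_pow, mul_one, hG, coeff_map, vl_apply] at h5
    have h6 : ‖(Int.castRingHom (PadicAlgCl l)) (g.coeff i)‖ = 1 := h4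
    rwa [h6] at h5

end gauss

open IntermediateField in
/-- product over the embeddings -/
theorem prod_emb {K F E : Type*} [Field K] [Field F] [Algebra K F] [FiniteDimensional K F]
    [Algebra.IsSeparable K F] [Field E] [Algebra K E] [IsAlgClosed E] (x : F) (φ : E → ℝ) :
    ∃ e : ℕ, (minpoly K x).natDegree * e = Module.finrank K F ∧
    ∏ σ : F →ₐ[K] E, φ (σ x) = (((minpoly K x).aroots E).map φ).prod ^ e := by
  classical
  have hx : IsIntegral K x := Algebra.IsIntegral.isIntegral x
  set pb := adjoin.powerBasis hx with hpb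
  have : FiniteDimensional K⟮x⟯ F := FiniteDimensional.right K K⟮x⟯ F
  have : Algebra.IsSeparable K⟮x⟯ F := Algebra.isSeparable_tower_top_of_isSeparable K K⟮x⟯ F
  let : Fintype (K⟮x⟯ →ₐ[K] E) := PowerBasis.AlgHom.fintype pb
  have h1 : ∏ σ : F →ₐ[K] E, φ (σ x) = (∏ σ : K⟮x⟯ →ₐ[K] E, φ (σ pb.gen)) ^
      (Module.finrank K⟮x⟯ F) := by
    rw [Fintype.prod_equiv algHomEquivSigma (fun σ : F →ₐ[K] E => φ (σ x))
      (fun σ => φ (σ.1 pb.gen)), ← Finset.univ_sigma_univ, Finset.prod_sigma, ← Finset.prod_pow]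
    · refine Finset.prod_congr rfl fun σ _ => ?_
      let : Algebra K⟮x⟯ E := σ.toRingHom.toAlgebra
      simp_rw [Finset.prod_const]
      congr
      exact AlgHom.card K⟮x⟯ F E
    · intro σ
      congr 1
  refine ⟨Module.finrank K⟮x⟯ F, ?_, ?_⟩
  · rw [← adjoin.finrank hx]
    exact Module.finrank_mul_finrank K K⟮x⟯ F
  rw [h1]
  congr 1
  have hmin : minpoly K pb.gen = minpoly K x := by
    rw [hpb, adjoin.powerBasis_gen hx, minpoly_gen]
  rw [@Fintype.prod_equiv (K⟮x⟯ →ₐ[K] E) _ _ (PowerBasis.AlgHom.fintype pb) _ _ pb.liftEquiv'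
    (fun σ => φ (σ pb.gen)) (fun y => φ y) ?_]
  · rw [Finset.prod_mem_multiset _ _ φ, Finset.prod_eq_multiset_prod, Multiset.toFinset_val,
      Multiset.dedup_eq_self.mpr, hmin]
    · rw [hmin]
      exact nodup_roots (Polynomial.Separable.map (Algebra.IsSeparable.isSeparable K x))
    · intro x; rfl
  · intro σ; simp only [PowerBasis.liftEquiv'_apply_coe]

end MS
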