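import Pool.Agent.Lib_helper24.MS.Heights

/-!
Properties of the height and the main inequality.
-/

namespace MS

open Polynomial

theorem norm_ratCast (l : ℕ) [Fact l.Prime] (q : ℚ) : ‖(q : PadicAlgCl l)‖ = ‖(q : ℚ_[l])‖ := by
  rw [← map_ratCast (algebraMap ℚ_[l] (PadicAlgCl l)), norm_algebraMap']

theorem dvd_of_norm {C C' : ℕ} (h : ∀ (l : ℕ) [Fact l.Prime], ‖(C' : ℚ_[l])‖ ≤ ‖(C : ℚ_[l])‖) :
    C ∣ C' := by
  rw [Nat.dvd_iff_prime_pow_dvd_dvd]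
  intro l k hl hk
  have : Fact l.Prime := ⟨hl⟩
  have h1 : ‖((C : ℤ) : ℚ_[l])‖ ≤ (l : ℝ) ^ (-(k : ℤ)) := by
    rw [Padic.norm_int_le_pow_iff_dvd]
    exact_mod_cast hk
  have h2 : ‖((C' : ℤ) : ℚ_[l])‖ ≤ (l : ℝ) ^ (-(k : ℤ)) := by
    refine le_trans ?_ h1
    push_cast
    exact h l
  rw [Padic.norm_int_le_pow_iff_dvd] at h2
  exact_mod_cast h2

theorem eq_of_norm {C C' : ℕ} (h : ∀ (l : ℕ) [Fact l.Prime], ‖(C' : ℚ_[l])‖ = ‖(C : ℚ_[l])‖) :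
    C = C' :=
  Nat.dvd_antisymm (dvd_of_norm (fun l _ => (h l).le)) (dvd_of_norm (fun l _ => (h l).ge))

theorem rat_int {r : ℚ} (h : ∀ (l : ℕ) [Fact l.Prime], ‖(r : ℚ_[l])‖ ≤ 1) : ∃ n : ℤ, r = n := by
  have h1 : r.den ∣ r.num.natAbs := by
    apply dvd_of_norm
    intro l hl
    have h2 := h l
    have hden : (r.den : ℚ_[l]) ≠ 0 := by exact_mod_cast r.den_nz
    have h3 : (r : ℚ_[l]) = (r.num : ℚ_[l]) / (r.den : ℚ_[l]) := by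
      exact Rat.cast_def r
    rw [h3, norm_div, div_le_one (norm_pos_iff.2 hden)] at h2
    have h4 : ‖((r.num.natAbs : ℕ) : ℚ_[l])‖ = ‖(r.num : ℚ_[l])‖ := by
      rcases Int.natAbs_eq r.num with h5 | h5
      · conv_rhs => rw [h5]
        simp
      · conv_rhs => rw [h5]
        simp
    rw [h4]
    exact h2
  have h2 : r.den = 1 := by
    have := Nat.Coprime.eq_one_of_dvd (r.reduced.symm) h1
    exact this
  exact ⟨r.num, by conv_lhs => rw [← Rat.num_div_den r, h2]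
                   simp⟩

variable {F : Type*} [Field F] [Algebra ℚ F] [FiniteDimensional ℚ F]

theorem ht_key (x : F) : ∃ C : ℕ, 0 < C ∧
    Real.exp (Module.finrank ℚ F * ht x) = C * ∏ τ : F →ₐ[ℚ] ℂ, max 1 ‖τ x‖ ∧
    ∀ (l : ℕ) [Fact l.Prime],
      ‖(C : ℚ_[l])‖ * ∏ τ : F →ₐ[ℚ] PadicAlgCl l, max 1 ‖τ x‖ = 1 := by
  have hx : IsIntegral ℚ x := Algebra.IsIntegral.isIntegral x
  have hf0 : minpoly ℚ x ≠ 0 := minpoly.ne_zero hx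
  have hn : 0 < (minpoly ℚ x).natDegree := minpoly.natDegree_pos hx
  obtain ⟨e, he, hprod⟩ := prod_emb (K := ℚ) (E := ℂ) x (fun z => max 1 ‖z‖)
  have hg0 : minZ x ≠ 0 := primZ_ne_zero _
  set c := (minZ x).leadingCoeff with hc
  have hc0 : c ≠ 0 := leadingCoeff_ne_zero.2 hg0
  have hcabs : ((c.natAbs : ℕ) : ℝ) = |(c : ℝ)| := by
    rw [Nat.cast_natAbs, Int.cast_abs]
  refine ⟨c.natAbs ^ e, pow_pos (Int.natAbs_pos.2 hc0) _, ?_, ?_⟩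
  · rw [hprod]
    set M := |(c : ℝ)| *
      ((((minZ x).map (Int.castRingHom ℂ)).roots).map (fun z => max 1 ‖z‖)).prod with hM
    have hMpos : 0 < M := by
      apply mul_pos (abs_pos.2 (by exact_mod_cast hc0))
      apply Multiset.prod_pos
      intro a ha
      rw [Multiset.mem_map] at ha
      obtain ⟨z, -, rfl⟩ := ha
      exact lt_of_lt_of_le one_pos (le_max_left _ _)
    have hht : ht x = Real.log M / (minpoly ℚ x).natDegree := rfl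
    have h1 : (Module.finrank ℚ F : ℝ) * ht x = e * Real.log M := by
      rw [← he, hht]
      have : ((minpoly ℚ x).natDegree : ℝ) ≠ 0 := by exact_mod_cast hn.ne'
      push_cast
      field_simp
    rw [h1, Real.exp_nat_mul, Real.exp_log hMpos, hM, mul_pow, minZ, aroots_primZ hf0]
    push_cast
    rw [hcabs]
  · intro l hl
    obtain ⟨e', he', hprod'⟩ := prod_emb (K := ℚ) (E := PadicAlgCl l) x (fun z => max 1 ‖z‖)
    have hee : e' = e := by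
      have := he'.trans he.symm
      exact Nat.eq_of_mul_eq_mul_left hn this
    rw [hprod', hee]
    have h1 := gauss_roots (l := l) (primZ_primitive (minpoly ℚ x))
    rw [aroots_primZ hf0] at h1
    have h2 : ‖((c.natAbs ^ e : ℕ) : ℚ_[l])‖ = ‖((c : ℤ) : PadicAlgCl l)‖ ^ e := by
      push_cast
      rw [norm_pow]
      congr 1
      rw [← map_intCast (algebraMap ℚ_[l] (PadicAlgCl l)), norm_algebraMap']
      rcases Int.natAbs_eq c with h5 | h5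
      · conv_rhs => rw [h5]
        simp
      · conv_rhs => rw [h5]
        simp
    have h1' : ‖((c : ℤ) : PadicAlgCl l)‖ * (Multiset.map (fun r => max 1 ‖r‖)
      ((minpoly ℚ x).aroots (PadicAlgCl l))).prod = 1 := h1
    rw [h2, ← mul_pow, h1', one_pow]

theorem finrank_pos' : (0 : ℝ) < Module.finrank ℚ F := by
  exact_mod_cast Module.finrank_pos

theorem card_emb (E : Type*) [Field E] [Algebra ℚ E] [IsAlgClosed E] :
    Fintype.card (F →ₐ[ℚ] E) = Module.finrank ℚ F := AlgHom.card ℚ F E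

/-- the main inequality (product formula) -/
theorem main_ineq {x1 x2 y : F} (hy : y ≠ 0) {P Q p D : ℕ} [hp : Fact p.Prime]
    (hinf : ∀ τ : F →ₐ[ℚ] ℂ, ‖τ y‖ ≤ 2 * (max 1 ‖τ x1‖ ^ P * max 1 ‖τ x2‖ ^ Q))
    (hfin : ∀ (l : ℕ) [Fact l.Prime] (τ : F →ₐ[ℚ] PadicAlgCl l),
      ‖τ y‖ ≤ max 1 ‖τ x1‖ ^ P * max 1 ‖τ x2‖ ^ Q)
    (hpp : ∀ τ : F →ₐ[ℚ] PadicAlgCl p,
      ‖τ y‖ ≤ ((p : ℝ) ^ D)⁻¹ * (max 1 ‖τ x1‖ ^ P * max 1 ‖τ x2‖ ^ Q)) :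
    D * Real.log p ≤ Real.log 2 + P * ht x1 + Q * ht x2 := by
  obtain ⟨C1, hC1, h1inf, h1fin⟩ := ht_key x1
  obtain ⟨C2, hC2, h2inf, h2fin⟩ := ht_key x2
  set d := Module.finrank ℚ F with hd
  set r : ℚ := (C1 : ℚ) ^ P * (C2 : ℚ) ^ Q * Algebra.norm ℚ y with hr
  have hnorm0 : Algebra.norm ℚ y ≠ 0 := Algebra.norm_ne_zero_iff.2 hy
  have hr0 : r ≠ 0 := by
    have : (C1 : ℚ) ≠ 0 := by exact_mod_cast hC1.ne'
    have : (C2 : ℚ) ≠ 0 := by exact_mod_cast hC2.ne'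
    positivity
  -- the local absolute values of `r`
  have hloc : ∀ (l : ℕ) [Fact l.Prime], ‖(r : ℚ_[l])‖ * (∏ τ : F →ₐ[ℚ] PadicAlgCl l,
      (max 1 ‖τ x1‖ ^ P * max 1 ‖τ x2‖ ^ Q)) = ∏ τ : F →ₐ[ℚ] PadicAlgCl l, ‖τ y‖ := by
    intro l hl
    have h1 : ‖((Algebra.norm ℚ y : ℚ) : ℚ_[l])‖ = ∏ τ : F →ₐ[ℚ] PadicAlgCl l, ‖τ y‖ := by
      rw [← norm_ratCast, ← norm_prod, ← Algebra.norm_eq_prod_embeddings ℚ (PadicAlgCl l) y,
        eq_ratCast]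
    rw [hr]
    push_cast
    rw [norm_mul, norm_mul, norm_pow, norm_pow, h1, Finset.prod_mul_distrib, Finset.prod_pow,
      Finset.prod_pow]
    have e1 := h1fin l
    have e2 := h2fin l
    calc ‖(C1 : ℚ_[l])‖ ^ P * ‖(C2 : ℚ_[l])‖ ^ Q * (∏ τ : F →ₐ[ℚ] PadicAlgCl l, ‖τ y‖) *
          ((∏ τ : F →ₐ[ℚ] PadicAlgCl l, max 1 ‖τ x1‖) ^ P *
            (∏ τ : F →ₐ[ℚ] PadicAlgCl l, max 1 ‖τ x2‖) ^ Q)
        = (‖(C1 : ℚ_[l])‖ * ∏ τ : F →ₐ[ℚ] PadicAlgCl l, max 1 ‖τ x1‖) ^ P *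
          (‖(C2 : ℚ_[l])‖ * ∏ τ : F →ₐ[ℚ] PadicAlgCl l, max 1 ‖τ x2‖) ^ Q *
          (∏ τ : F →ₐ[ℚ] PadicAlgCl l, ‖τ y‖) := by ring
      _ = _ := by rw [e1, e2]; ring
  have hpos : ∀ (l : ℕ) [Fact l.Prime], 0 < ∏ τ : F →ₐ[ℚ] PadicAlgCl l,
      (max 1 ‖τ x1‖ ^ P * max 1 ‖τ x2‖ ^ Q) := by
    intro l hl
    apply Finset.prod_pos
    intro τ _
    have h1 : 0 < max 1 ‖τ x1‖ := lt_of_lt_of_le one_pos (le_max_left _ _)
    have h2 : 0 < max 1 ‖τ x2‖ := lt_of_lt_of_le one_pos (le_max_left _ _)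
    positivity
  have hint : ∃ n : ℤ, r = n := by
    apply rat_int
    intro l hl
    have h1 : ‖(r : ℚ_[l])‖ * (∏ τ : F →ₐ[ℚ] PadicAlgCl l,
        (max 1 ‖τ x1‖ ^ P * max 1 ‖τ x2‖ ^ Q)) ≤ 1 * (∏ τ : F →ₐ[ℚ] PadicAlgCl l,
        (max 1 ‖τ x1‖ ^ P * max 1 ‖τ x2‖ ^ Q)) := by
      rw [hloc l, one_mul]
      exact Finset.prod_le_prod (fun _ _ => norm_nonneg _) (fun τ _ => hfin l τ)
    exact le_of_mul_le_mul_right h1 (hpos l)
  obtain ⟨n, hn⟩ := hint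
  have hn0 : n ≠ 0 := by
    rintro rfl
    exact hr0 (by rw [hn]; simp)
  have hdvd : ((p ^ (D * d) : ℕ) : ℤ) ∣ n := by
    have h1 : ‖((n : ℤ) : ℚ_[p])‖ ≤ (p : ℝ) ^ (-((D * d : ℕ) : ℤ)) := by
      have h2 : ((n : ℤ) : ℚ_[p]) = (r : ℚ_[p]) := by rw [hn]; simp
      rw [h2]
      have h3 : ‖(r : ℚ_[p])‖ * (∏ τ : F →ₐ[ℚ] PadicAlgCl p,
          (max 1 ‖τ x1‖ ^ P * max 1 ‖τ x2‖ ^ Q)) ≤ (p : ℝ) ^ (-((D * d : ℕ) : ℤ)) *
          (∏ τ : F →ₐ[ℚ] PadicAlgCl p, (max 1 ‖τ x1‖ ^ P * max 1 ‖τ x2‖ ^ Q)) := by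
        rw [hloc p]
        have h4 : (p : ℝ) ^ (-((D * d : ℕ) : ℤ)) = ∏ _τ : F →ₐ[ℚ] PadicAlgCl p, ((p : ℝ) ^ D)⁻¹ := by
          rw [Finset.prod_const, Finset.card_univ, card_emb, ← hd, zpow_neg, zpow_natCast, pow_mul,
            inv_pow]
        rw [h4, ← Finset.prod_mul_distrib]
        exact Finset.prod_le_prod (fun _ _ => norm_nonneg _) (fun τ _ => hpp τ)
      exact le_of_mul_le_mul_right h3 (hpos p)
    have h2 := (Padic.norm_int_le_pow_iff_dvd _ _).1 h1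
    exact_mod_cast h2
  have hlow : (p : ℝ) ^ (D * d) ≤ |(n : ℝ)| := by
    have h1 := Int.le_of_dvd (abs_pos.2 hn0) ((dvd_abs _ _).2 hdvd)
    have h2 : (((p ^ (D * d) : ℕ) : ℤ) : ℝ) ≤ ((|n| : ℤ) : ℝ) := by exact_mod_cast h1
    push_cast at h2
    exact h2
  -- the archimedean absolute value
  have hup : |(n : ℝ)| ≤ 2 ^ d * (Real.exp (d * ht x1) ^ P * Real.exp (d * ht x2) ^ Q) := by
    have h1 : |(n : ℝ)| = ‖((r : ℚ) : ℂ)‖ := by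
      rw [hn]
      simp
    have h2 : ‖((Algebra.norm ℚ y : ℚ) : ℂ)‖ = ∏ τ : F →ₐ[ℚ] ℂ, ‖τ y‖ := by
      rw [← norm_prod, ← Algebra.norm_eq_prod_embeddings ℚ ℂ y, eq_ratCast]
    rw [h1, hr]
    push_cast
    rw [norm_mul, norm_mul, norm_pow, norm_pow, h2, h1inf, h2inf, RCLike.norm_natCast,
      RCLike.norm_natCast]
    have h3 : ∏ τ : F →ₐ[ℚ] ℂ, ‖τ y‖ ≤ ∏ τ : F →ₐ[ℚ] ℂ,
        (2 * (max 1 ‖τ x1‖ ^ P * max 1 ‖τ x2‖ ^ Q)) :=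
      Finset.prod_le_prod (fun _ _ => norm_nonneg _) (fun τ _ => hinf τ)
    rw [Finset.prod_mul_distrib, Finset.prod_const, Finset.card_univ, card_emb,
      Finset.prod_mul_distrib, Finset.prod_pow, Finset.prod_pow, ← hd] at h3
    calc (C1 : ℝ) ^ P * (C2 : ℝ) ^ Q * ∏ τ : F →ₐ[ℚ] ℂ, ‖τ y‖
        ≤ (C1 : ℝ) ^ P * (C2 : ℝ) ^ Q * (2 ^ d * ((∏ τ : F →ₐ[ℚ] ℂ, max 1 ‖τ x1‖) ^ P *
          (∏ τ : F →ₐ[ℚ] ℂ, max 1 ‖τ x2‖) ^ Q)) := by gcongr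
      _ = _ := by ring
  have hfinal := hlow.trans hup
  have hp0 : (0 : ℝ) < p := by exact_mod_cast hp.out.pos
  have hlog := Real.log_le_log (by positivity) hfinal
  rw [Real.log_pow, Real.log_mul (by positivity) (by positivity), Real.log_pow,
    Real.log_mul (by positivity) (by positivity), Real.log_pow, Real.log_pow, Real.log_exp,
    Real.log_exp] at hlog
  have hdpos : (0 : ℝ) < d := finrank_pos'
  push_cast at hlog
  have h5 : (d : ℝ) * (D * Real.log p) ≤ d * (Real.log 2 + P * ht x1 + Q * ht x2) := by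
    nlinarith
  exact le_of_mul_le_mul_left h5 hdpos

end MS
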