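import Pool.Agent.Lib_helper24.MS.Heights2

/-!
Properties of the height.
-/

namespace MS

open Polynomial

section field

variable {F : Type*} [Field F] [Algebra ℚ F]

theorem ht_ringHom {F K : Type*} [Field F] [Algebra ℚ F] [Field K] [Algebra ℚ K] (φ : F →+* K)
    (x : F) : ht (φ x) = ht x := by
  have h : minpoly ℚ (φ x) = minpoly ℚ x :=
    minpoly.algHom_eq (RingHom.toRatAlgHom φ) φ.injective x
  unfold ht minZ
  rw [h]

theorem ht_gal (g : F ≃ₐ[ℚ] F) (x : F) : ht (g x) = ht x := ht_ringHom (g : F →+* F) x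

variable [FiniteDimensional ℚ F]

theorem prod_max_ge_one {ι : Type*} [Fintype ι] (f : ι → ℝ) : 1 ≤ ∏ i, max 1 (f i) := by
  have h : (1 : ℝ) = ∏ _i : ι, 1 := by simp
  conv_lhs => rw [h]
  exact Finset.prod_le_prod (fun _ _ => zero_le_one) (fun _ _ => le_max_left _ _)

theorem ht_nonneg' (x : F) : 0 ≤ ht x := by
  obtain ⟨C, hC, h1, -⟩ := ht_key x
  have h2 : (1 : ℝ) ≤ Real.exp (Module.finrank ℚ F * ht x) := by
    rw [h1]
    have h3 : (1 : ℝ) ≤ C := by exact_mod_cast hC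
    have h4 := prod_max_ge_one (fun τ : F →ₐ[ℚ] ℂ => ‖τ x‖)
    nlinarith
  rw [Real.one_le_exp_iff] at h2
  have h3 : (0 : ℝ) < Module.finrank ℚ F := finrank_pos'
  by_contra hcon
  rw [not_le] at hcon
  nlinarith

theorem max_pow_eq (r : ℝ) (hr : 0 ≤ r) (n : ℕ) : max 1 (r ^ n) = max 1 r ^ n := by
  rcases le_total r 1 with h | h
  · rw [max_eq_left h, one_pow, max_eq_left (pow_le_one₀ hr h)]
  · rw [max_eq_right h, max_eq_right (one_le_pow₀ h)]

theorem ht_pow' (x : F) (n : ℕ) : ht (x ^ n) = n * ht x := by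
  obtain ⟨C, hC, h1, h2⟩ := ht_key x
  obtain ⟨C', hC', h1', h2'⟩ := ht_key (x ^ n)
  have hCC : C ^ n = C' := by
    apply eq_of_norm
    intro l hl
    have e1 := h2 l
    have e2 := h2' l
    have e3 : ∏ τ : F →ₐ[ℚ] PadicAlgCl l, max 1 ‖τ (x ^ n)‖ =
        (∏ τ : F →ₐ[ℚ] PadicAlgCl l, max 1 ‖τ x‖) ^ n := by
      rw [← Finset.prod_pow]
      apply Finset.prod_congr rfl
      intro τ _
      rw [map_pow, norm_pow, max_pow_eq _ (norm_nonneg _)]
    rw [e3] at e2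
    have hpos : 0 < (∏ τ : F →ₐ[ℚ] PadicAlgCl l, max 1 ‖τ x‖) ^ n := by
      have := prod_max_ge_one (fun τ : F →ₐ[ℚ] PadicAlgCl l => ‖τ x‖)
      positivity
    apply mul_right_cancel₀ hpos.ne'
    rw [e2, Nat.cast_pow, norm_pow, ← mul_pow, e1, one_pow]
  have h3 : Real.exp (Module.finrank ℚ F * ht (x ^ n)) =
      Real.exp (Module.finrank ℚ F * (n * ht x)) := by
    have e3 : ∏ τ : F →ₐ[ℚ] ℂ, max 1 ‖τ (x ^ n)‖ = (∏ τ : F →ₐ[ℚ] ℂ, max 1 ‖τ x‖) ^ n := by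
      rw [← Finset.prod_pow]
      apply Finset.prod_congr rfl
      intro τ _
      rw [map_pow, norm_pow, max_pow_eq _ (norm_nonneg _)]
    rw [h1', ← hCC, e3, Nat.cast_pow, ← mul_pow, ← h1, ← Real.exp_nat_mul]
    congr 1
    ring
  have h4 := Real.exp_injective h3
  have h5 : (0 : ℝ) < Module.finrank ℚ F := finrank_pos'
  exact mul_left_cancel₀ h5.ne' h4

theorem ht_mul_le' (x y : F) : ht (x * y) ≤ ht x + ht y := by
  obtain ⟨C, hC, h1, h2⟩ := ht_key x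
  obtain ⟨C', hC', h1', h2'⟩ := ht_key y
  obtain ⟨C'', hC'', h1'', h2''⟩ := ht_key (x * y)
  have hmax : ∀ a b : ℝ, 0 ≤ a → 0 ≤ b → max 1 (a * b) ≤ max 1 a * max 1 b := by
    intro a b ha hb
    have e1 : (1 : ℝ) ≤ max 1 a := le_max_left _ _
    have e2 : (1 : ℝ) ≤ max 1 b := le_max_left _ _
    apply max_le
    · nlinarith
    · exact mul_le_mul (le_max_right _ _) (le_max_right _ _) hb (by linarith)
  have hdvd : C'' ∣ C * C' := by
    apply dvd_of_norm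
    intro l hl
    have e1 := h2 l
    have e2 := h2' l
    have e3 := h2'' l
    have p1 := prod_max_ge_one (fun τ : F →ₐ[ℚ] PadicAlgCl l => ‖τ x‖)
    have p2 := prod_max_ge_one (fun τ : F →ₐ[ℚ] PadicAlgCl l => ‖τ y‖)
    have p3 := prod_max_ge_one (fun τ : F →ₐ[ℚ] PadicAlgCl l => ‖τ (x * y)‖)
    have e4 : ∏ τ : F →ₐ[ℚ] PadicAlgCl l, max 1 ‖τ (x * y)‖ ≤
        (∏ τ : F →ₐ[ℚ] PadicAlgCl l, max 1 ‖τ x‖) * ∏ τ : F →ₐ[ℚ] PadicAlgCl l, max 1 ‖τ y‖ := by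
      rw [← Finset.prod_mul_distrib]
      apply Finset.prod_le_prod
      · intro τ _; positivity
      · intro τ _
        rw [map_mul, norm_mul]
        exact hmax _ _ (norm_nonneg _) (norm_nonneg _)
    rw [Nat.cast_mul, norm_mul]
    set A := ∏ τ : F →ₐ[ℚ] PadicAlgCl l, max 1 ‖τ x‖
    set B := ∏ τ : F →ₐ[ℚ] PadicAlgCl l, max 1 ‖τ y‖
    set D := ∏ τ : F →ₐ[ℚ] PadicAlgCl l, max 1 ‖τ (x * y)‖
    have hD : 0 < D := by linarith
    have f1 : ‖(C : ℚ_[l])‖ * ‖(C' : ℚ_[l])‖ * D ≤ ‖(C : ℚ_[l])‖ * ‖(C' : ℚ_[l])‖ * (A * B) := by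
      gcongr
    have f2 : ‖(C : ℚ_[l])‖ * ‖(C' : ℚ_[l])‖ * (A * B) = 1 := by
      calc _ = (‖(C : ℚ_[l])‖ * A) * (‖(C' : ℚ_[l])‖ * B) := by ring
        _ = 1 := by rw [e1, e2, one_mul]
    rw [f2, ← e3] at f1
    exact le_of_mul_le_mul_right f1 hD
  have hle : (C'' : ℝ) ≤ C * C' := by
    exact_mod_cast Nat.le_of_dvd (Nat.mul_pos hC hC') hdvd
  have h3 : Real.exp (Module.finrank ℚ F * ht (x * y)) ≤
      Real.exp (Module.finrank ℚ F * (ht x + ht y)) := by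
    rw [mul_add, Real.exp_add, h1, h1', h1'']
    have e4 : ∏ τ : F →ₐ[ℚ] ℂ, max 1 ‖τ (x * y)‖ ≤
        (∏ τ : F →ₐ[ℚ] ℂ, max 1 ‖τ x‖) * ∏ τ : F →ₐ[ℚ] ℂ, max 1 ‖τ y‖ := by
      rw [← Finset.prod_mul_distrib]
      apply Finset.prod_le_prod
      · intro τ _; positivity
      · intro τ _
        rw [map_mul, norm_mul]
        exact hmax _ _ (norm_nonneg _) (norm_nonneg _)
    calc (C'' : ℝ) * ∏ τ : F →ₐ[ℚ] ℂ, max 1 ‖τ (x * y)‖
        ≤ (C * C') * ((∏ τ : F →ₐ[ℚ] ℂ, max 1 ‖τ x‖) * ∏ τ : F →ₐ[ℚ] ℂ, max 1 ‖τ y‖) := by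
          gcongr
      _ = _ := by ring
  rw [Real.exp_le_exp] at h3
  have h5 : (0 : ℝ) < Module.finrank ℚ F := finrank_pos'
  exact le_of_mul_le_mul_left h3 h5

theorem rat_pos_eq_of_norm {q : ℚ} (hq : 0 < q) {C C' : ℕ}
    (h : ∀ (l : ℕ) [Fact l.Prime], ‖(C' : ℚ_[l])‖ = ‖(q : ℚ_[l])‖ * ‖(C : ℚ_[l])‖) :
    (C' : ℚ) = q * C := by
  have hnum : (0 : ℤ) < q.num := Rat.num_pos.2 hq
  have h1 : C * q.num.natAbs = C' * q.den := by
    apply eq_of_norm
    intro l hl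
    have hden : (q.den : ℚ_[l]) ≠ 0 := by exact_mod_cast q.den_nz
    have h3 : (q : ℚ_[l]) = (q.num : ℚ_[l]) / (q.den : ℚ_[l]) := Rat.cast_def q
    have h4 : ((q.num.natAbs : ℕ) : ℚ_[l]) = (q.num : ℚ_[l]) := by
      have h5 : ((q.num.natAbs : ℕ) : ℤ) = q.num := Int.natAbs_of_nonneg hnum.le
      have h6 : (((q.num.natAbs : ℕ) : ℤ) : ℚ_[l]) = (q.num : ℚ_[l]) := by rw [h5]
      rw [← h6]
      exact (Int.cast_natCast _).symm
    rw [Nat.cast_mul, Nat.cast_mul, norm_mul, norm_mul, h l, h3, norm_div, h4]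
    have := norm_pos_iff.2 hden
    field_simp
  have h2 : (C : ℚ) * q.num = C' * q.den := by
    have h3 : ((q.num.natAbs : ℕ) : ℤ) = q.num := Int.natAbs_of_nonneg hnum.le
    have h4 : ((q.num.natAbs : ℕ) : ℚ) = (q.num : ℚ) := by
      have h6 : (((q.num.natAbs : ℕ) : ℤ) : ℚ) = (q.num : ℚ) := by rw [h3]
      rw [← h6]
      exact (Int.cast_natCast _).symm
    rw [← h4, ← Nat.cast_mul, ← Nat.cast_mul, h1]
  have hden : (q.den : ℚ) ≠ 0 := by exact_mod_cast q.den_nz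
  have h5 : q = q.num / q.den := (Rat.num_div_den q).symm
  rw [h5]
  field_simp
  linarith

theorem ht_inv' (x : F) : ht x⁻¹ = ht x := by
  by_cases hx : x = 0
  · rw [hx, inv_zero]
  obtain ⟨C, hC, h1, h2⟩ := ht_key x
  obtain ⟨C', hC', h1', h2'⟩ := ht_key x⁻¹
  have hN : Algebra.norm ℚ x ≠ 0 := Algebra.norm_ne_zero_iff.2 hx
  set q : ℚ := |Algebra.norm ℚ x| with hq
  have hq0 : 0 < q := abs_pos.2 hN
  have hmax : ∀ r : ℝ, 0 < r → max 1 r⁻¹ = max 1 r / r := by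
    intro r hr
    rcases le_total r 1 with h | h
    · rw [max_eq_left h, max_eq_right ((one_le_inv₀ hr).2 h), one_div]
    · rw [max_eq_right h, max_eq_left (inv_le_one_of_one_le₀ h), div_self hr.ne']
  have hCC : (C' : ℚ) = q * C := by
    apply rat_pos_eq_of_norm hq0
    intro l hl
    have e1 := h2 l
    have e2 := h2' l
    have e3 : ‖(q : ℚ_[l])‖ = ∏ τ : F →ₐ[ℚ] PadicAlgCl l, ‖τ x‖ := by
      have e4 : ‖((Algebra.norm ℚ x : ℚ) : ℚ_[l])‖ = ∏ τ : F →ₐ[ℚ] PadicAlgCl l, ‖τ x‖ := by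
        rw [← norm_ratCast, ← norm_prod, ← Algebra.norm_eq_prod_embeddings ℚ (PadicAlgCl l) x,
          eq_ratCast]
      rw [← e4, hq]
      rcases abs_choice (Algebra.norm ℚ x) with h | h
      · rw [h]
      · rw [h, Rat.cast_neg, norm_neg]
    have e5 : ∏ τ : F →ₐ[ℚ] PadicAlgCl l, max 1 ‖τ x⁻¹‖ =
        (∏ τ : F →ₐ[ℚ] PadicAlgCl l, max 1 ‖τ x‖) / ∏ τ : F →ₐ[ℚ] PadicAlgCl l, ‖τ x‖ := by
      rw [← Finset.prod_div_distrib]
      apply Finset.prod_congr rfl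
      intro τ _
      have : τ x ≠ 0 := (map_ne_zero τ).2 hx
      rw [map_inv₀, norm_inv, hmax _ (norm_pos_iff.2 this)]
    have p1 := prod_max_ge_one (fun τ : F →ₐ[ℚ] PadicAlgCl l => ‖τ x‖)
    have p2 : 0 < ∏ τ : F →ₐ[ℚ] PadicAlgCl l, ‖τ x‖ := by
      apply Finset.prod_pos
      intro τ _
      exact norm_pos_iff.2 ((map_ne_zero τ).2 hx)
    rw [e5] at e2
    rw [e3]
    set A := ∏ τ : F →ₐ[ℚ] PadicAlgCl l, max 1 ‖τ x‖
    set B := ∏ τ : F →ₐ[ℚ] PadicAlgCl l, ‖τ x‖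
    have hA : A ≠ 0 := by intro h; rw [h] at p1; linarith
    apply mul_right_cancel₀ hA
    have e6 : ‖(C' : ℚ_[l])‖ * A = B := by
      field_simp at e2
      linarith
    rw [e6, mul_assoc, e1, mul_one]
  have h3 : Real.exp (Module.finrank ℚ F * ht x⁻¹) = Real.exp (Module.finrank ℚ F * ht x) := by
    rw [h1, h1']
    have e3 : (q : ℝ) = ∏ τ : F →ₐ[ℚ] ℂ, ‖τ x‖ := by
      have e4 : ‖((Algebra.norm ℚ x : ℚ) : ℂ)‖ = ∏ τ : F →ₐ[ℚ] ℂ, ‖τ x‖ := by
        rw [← norm_prod, ← Algebra.norm_eq_prod_embeddings ℚ ℂ x, eq_ratCast]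
      rw [← e4, hq]
      push_cast
      have : ((Algebra.norm ℚ x : ℚ) : ℂ) = (((Algebra.norm ℚ x : ℚ) : ℝ) : ℂ) := by simp
      rw [this, Complex.norm_real, Real.norm_eq_abs]
    have e5 : ∏ τ : F →ₐ[ℚ] ℂ, max 1 ‖τ x⁻¹‖ =
        (∏ τ : F →ₐ[ℚ] ℂ, max 1 ‖τ x‖) / ∏ τ : F →ₐ[ℚ] ℂ, ‖τ x‖ := by
      rw [← Finset.prod_div_distrib]
      apply Finset.prod_congr rfl
      intro τ _
      have : τ x ≠ 0 := (map_ne_zero τ).2 hx
      rw [map_inv₀, norm_inv, hmax _ (norm_pos_iff.2 this)]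
    have hCr : (C' : ℝ) = q * C := by exact_mod_cast congrArg (fun z : ℚ => (z : ℝ)) hCC
    rw [e5, ← e3, hCr]
    have : (q : ℝ) ≠ 0 := by exact_mod_cast hq0.ne'
    field_simp
  have h4 := Real.exp_injective h3
  have h5 : (0 : ℝ) < Module.finrank ℚ F := finrank_pos'
  exact mul_left_cancel₀ h5.ne' h4

/-- Kronecker's theorem. -/
theorem kronecker' (x : F) (hx : x ≠ 0) (h : ht x = 0) : ∃ n : ℕ, 0 < n ∧ x ^ n = 1 := by
  have hint : IsIntegral ℚ x := Algebra.IsIntegral.isIntegral x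
  have hf0 : minpoly ℚ x ≠ 0 := minpoly.ne_zero hint
  have hn : 0 < (minpoly ℚ x).natDegree := minpoly.natDegree_pos hint
  have hg0 : minZ x ≠ 0 := primZ_ne_zero _
  -- an embedding
  obtain ⟨τ⟩ : Nonempty (F →ₐ[ℚ] ℂ) := ⟨IsAlgClosed.lift⟩
  have hroot : τ x ∈ (minZ x).aroots ℂ := by
    have h1 : (minZ x).aroots ℂ = ((minZ x).map (Int.castRingHom ℂ)).roots := rfl
    rw [h1, minZ, aroots_primZ hf0 ℂ, mem_aroots]
    exact ⟨hf0, by rw [aeval_algHom_apply, minpoly.aeval, map_zero]⟩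
  have hM : ((minZ x).map (Int.castRingHom ℂ)).mahlerMeasure = 1 := by
    rw [mahlerMeasure_eq_leadingCoeff_mul_prod_roots]
    have hlc : ‖((minZ x).map (Int.castRingHom ℂ)).leadingCoeff‖ =
        |((minZ x).leadingCoeff : ℝ)| := by
      rw [leadingCoeff_map_of_injective (RingHom.injective_int _)]
      simp
    rw [hlc]
    set M := |((minZ x).leadingCoeff : ℝ)| *
      ((((minZ x).map (Int.castRingHom ℂ)).roots).map (fun z => max 1 ‖z‖)).prod with hMdef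
    have hMpos : 0 < M := by
      apply mul_pos (abs_pos.2 (by exact_mod_cast leadingCoeff_ne_zero.2 hg0))
      apply Multiset.prod_pos
      intro a ha
      rw [Multiset.mem_map] at ha
      obtain ⟨z, -, rfl⟩ := ha
      exact lt_of_lt_of_le one_pos (le_max_left _ _)
    have hht : ht x = Real.log M / (minpoly ℚ x).natDegree := rfl
    rw [hht, div_eq_zero_iff] at h
    rcases h with h | h
    · rcases Real.log_eq_zero.1 h with h | h | h
      · linarith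
      · exact h
      · linarith
    · exfalso
      exact hn.ne' (by exact_mod_cast h)
  obtain ⟨n, hn, hn1⟩ := pow_eq_one_of_mahlerMeasure_eq_one hM ((map_ne_zero τ).2 hx) hroot
  refine ⟨n, hn, ?_⟩
  have hinj : Function.Injective τ := τ.toRingHom.injective
  apply hinj
  rw [map_pow, hn1, map_one]

end field

section closure

universe u

variable {Ω : Type u} [Field Ω] [Algebra ℚ Ω] [Algebra.IsAlgebraic ℚ Ω]

open IntermediateField

theorem exists_field (x y : Ω) : ∃ (M : Type u) (_ : Field M) (_ : Algebra ℚ M)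
    (_ : FiniteDimensional ℚ M) (φ : M →+* Ω) (x' y' : M), φ x' = x ∧ φ y' = y := by
  have h : FiniteDimensional ℚ (adjoin ℚ {x, y}) := by
    apply IntermediateField.finiteDimensional_adjoin
    intro z _
    exact Algebra.IsIntegral.isIntegral z
  exact ⟨adjoin ℚ {x, y}, inferInstance, IntermediateField.algebra' _, h,
    algebraMap (adjoin ℚ {x, y}) Ω, ⟨x, subset_adjoin _ _ (by simp)⟩,
    ⟨y, subset_adjoin _ _ (by simp)⟩, rfl, rfl⟩

theorem ht_nonneg (x : Ω) : 0 ≤ ht x := by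
  obtain ⟨M, _, _, _, φ, x', -, rfl, -⟩ := exists_field x x
  rw [ht_ringHom]
  exact ht_nonneg' x'

theorem ht_pow (x : Ω) (n : ℕ) : ht (x ^ n) = n * ht x := by
  obtain ⟨M, _, _, _, φ, x', -, rfl, -⟩ := exists_field x x
  rw [← map_pow, ht_ringHom, ht_ringHom]
  exact ht_pow' x' n

theorem ht_mul_le (x y : Ω) : ht (x * y) ≤ ht x + ht y := by
  obtain ⟨M, _, _, _, φ, x', y', rfl, rfl⟩ := exists_field x y
  rw [← map_mul, ht_ringHom, ht_ringHom, ht_ringHom]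
  exact ht_mul_le' x' y'

theorem ht_inv (x : Ω) : ht x⁻¹ = ht x := by
  obtain ⟨M, _, _, _, φ, x', -, rfl, -⟩ := exists_field x x
  rw [← map_inv₀, ht_ringHom, ht_ringHom]
  exact ht_inv' x'

theorem kronecker {x : Ω} (hx0 : x ≠ 0) (h : ht x = 0) : ∃ n : ℕ, 0 < n ∧ x ^ n = 1 := by
  obtain ⟨M, _, _, _, φ, x', -, rfl, -⟩ := exists_field x x
  rw [ht_ringHom] at h
  obtain ⟨n, hn, h2⟩ := kronecker' x' (by
    intro h3
    exact hx0 (by rw [h3, map_zero])) h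
  exact ⟨n, hn, by rw [← map_pow, h2, map_one]⟩

theorem ht_one : ht (1 : Ω) = 0 := by
  have h := ht_pow (1 : Ω) 2
  rw [one_pow] at h
  push_cast at h
  linarith

theorem ht_unity {η : Ω} {n : ℕ} (hn : 0 < n) (h : η ^ n = 1) : ht η = 0 := by
  have h1 := ht_pow η n
  rw [h, ht_one] at h1
  have h2 : (n : ℝ) ≠ 0 := by exact_mod_cast hn.ne'
  rcases mul_eq_zero.1 h1.symm with h3 | h3
  · exact absurd h3 h2
  · exact h3

theorem ht_zpow (x : Ω) (k : ℤ) : ht (x ^ k) = |(k : ℝ)| * ht x := by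
  have h2 : |(k : ℝ)| = (k.natAbs : ℝ) := by
    rw [Nat.cast_natAbs, Int.cast_abs]
  rcases Int.natAbs_eq k with h | h
  · rw [h2]
    conv_lhs => rw [h]
    rw [zpow_natCast, ht_pow]
  · rw [h2]
    conv_lhs => rw [h]
    rw [zpow_neg, zpow_natCast, ht_inv, ht_pow]

/-- multiplying by a root of unity does not change the height -/
theorem ht_mul_unity {η : Ω} {n : ℕ} (hn : 0 < n) (h : η ^ n = 1) (x : Ω) :
    ht (η * x) = ht x := by
  have h0 : η ≠ 0 := by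
    rintro rfl
    rw [zero_pow hn.ne'] at h
    exact zero_ne_one h
  apply le_antisymm
  · have := ht_mul_le η x
    rw [ht_unity hn h] at this
    linarith
  · have := ht_mul_le η⁻¹ (η * x)
    rw [ht_inv, ht_unity hn h, inv_mul_cancel_left₀ h0] at this
    linarith

end closure

end MS
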