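import Pool.Agent.Lib_helper24.MS.Chain

/-!
Kummer layers: non-approximability implies depth.
-/

namespace MS

open Finset IntermediateField

variable {p : ℕ} [hp : Fact p.Prime]

theorem norm_add_pow_sub_le {x y : PadicAlgCl p} {M : ℝ} (hx : ‖x‖ ≤ M) (hy : ‖y‖ ≤ M) :
    ‖(x + y) ^ p - x ^ p - y ^ p‖ ≤ (p : ℝ)⁻¹ * ‖x‖ * M ^ (p - 1) := by
  have hM : 0 ≤ M := (norm_nonneg _).trans hx
  have h := add_pow_prime_eq hp.out x y
  have h1 : (x + y) ^ p - x ^ p - y ^ p = p * x * y *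
      ∑ k ∈ Ioo 0 p, x ^ (k - 1) * y ^ (p - k - 1) * ↑(p.choose k / p) := by
    rw [h]; ring
  rw [h1, norm_mul, norm_mul, norm_mul, norm_p]
  have h2 : ‖∑ k ∈ Ioo 0 p, x ^ (k - 1) * y ^ (p - k - 1) * ↑(p.choose k / p)‖ ≤ M ^ (p - 2) := by
    apply norm_sum_le' _ _ (by positivity)
    intro k hk
    rw [Finset.mem_Ioo] at hk
    rw [norm_mul, norm_mul, norm_pow, norm_pow]
    have h3 := norm_natCast_le_one (p := p) (p.choose k / p)
    calc ‖x‖ ^ (k - 1) * ‖y‖ ^ (p - k - 1) * ‖((p.choose k / p : ℕ) : PadicAlgCl p)‖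
        ≤ M ^ (k - 1) * M ^ (p - k - 1) * 1 := by gcongr
      _ = M ^ (p - 2) := by
        rw [mul_one, ← pow_add]; congr 1; omega
  have hp2 : p - 1 = (p - 2) + 1 := by have := hp.out.two_le; omega
  rw [hp2, pow_succ, mul_comm (M ^ (p - 2)) M, ← mul_assoc]
  gcongr

theorem frob_cancel {a b : PadicAlgCl p} (ha : ‖a‖ ≤ 1) (hb : ‖b‖ ≤ 1) (h : ‖a ^ p - b ^ p‖ < 1) :
    ‖a - b‖ < 1 := by
  have h1 := norm_add_pow_sub_le (x := a - b) (y := b) (M := 1)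
    ((norm_sub_le_max' _ _).trans (max_le ha hb)) hb
  rw [sub_add_cancel, one_pow, mul_one] at h1
  have hab : ‖a - b‖ ≤ 1 := (norm_sub_le_max' _ _).trans (max_le ha hb)
  have hpinv : (p : ℝ)⁻¹ < 1 := inv_lt_one_of_one_lt₀ (by exact_mod_cast hp.out.one_lt)
  have h2 : ‖a ^ p - (a - b) ^ p - b ^ p‖ < 1 := by
    refine h1.trans_lt ?_
    have : 0 < (p : ℝ)⁻¹ := inv_pos.2 (by exact_mod_cast hp.out.pos)
    nlinarith [norm_nonneg (a - b)]
  have h3 : (a - b) ^ p = (a ^ p - b ^ p) - (a ^ p - (a - b) ^ p - b ^ p) := by ring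
  have h4 : ‖(a - b) ^ p‖ < 1 := by
    rw [h3]
    exact (norm_sub_le_max' _ _).trans_lt (max_lt h h2)
  rw [norm_pow] at h4
  exact (pow_lt_one_iff_of_nonneg (norm_nonneg _) hp.out.ne_zero).1 h4

theorem isCompact_ball (F : IntermediateField ℚ_[p] (PadicAlgCl p)) [FiniteDimensional ℚ_[p] F]
    (R : ℝ) : IsCompact {x : PadicAlgCl p | x ∈ F ∧ ‖x‖ ≤ R} := by
  let S : Submodule ℚ_[p] (PadicAlgCl p) := Subalgebra.toSubmodule F.toSubalgebra
  have : FiniteDimensional ℚ_[p] S := inferInstanceAs (FiniteDimensional ℚ_[p] F)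
  have : ProperSpace S := FiniteDimensional.proper ℚ_[p] S
  have h1 : IsCompact (Metric.closedBall (0 : S) R) := isCompact_closedBall _ _
  have h2 := h1.image (continuous_subtype_val)
  convert h2 using 1
  ext x
  constructor
  · rintro ⟨hx, hx2⟩
    refine ⟨⟨x, hx⟩, ?_, rfl⟩
    rw [mem_closedBall_zero_iff]
    exact hx2
  · rintro ⟨y, hy, rfl⟩
    rw [mem_closedBall_zero_iff] at hy
    exact ⟨y.2, hy⟩

/-- Among the `p^i`-th powers of an integral element of a finite extension two are close. -/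
theorem exists_pow_close (F : IntermediateField ℚ_[p] (PadicAlgCl p)) [FiniteDimensional ℚ_[p] F]
    {u : PadicAlgCl p} (hu : u ∈ F) (hu1 : ‖u‖ ≤ 1) : ∃ f : ℕ, f ≠ 0 ∧ ‖u ^ (p ^ f) - u‖ < 1 := by
  have hK := isCompact_ball F 1
  obtain ⟨t, -, ht⟩ := hK.elim_finite_subcover_image (b := Set.univ)
    (c := fun x : PadicAlgCl p => Metric.ball x 1) (fun x _ => Metric.isOpen_ball)
    (fun x _ => Set.mem_iUnion₂.2 ⟨x, Set.mem_univ x, Metric.mem_ball_self one_pos⟩)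
  obtain ⟨htf, ht⟩ := ht
  have hmem : ∀ i : ℕ, ∃ x : t, u ^ (p ^ i) ∈ Metric.ball (x : PadicAlgCl p) 1 := by
    intro i
    have h1 : u ^ (p ^ i) ∈ {x : PadicAlgCl p | x ∈ F ∧ ‖x‖ ≤ 1} := by
      refine ⟨pow_mem hu _, ?_⟩
      rw [norm_pow]
      exact pow_le_one₀ (norm_nonneg _) hu1
    have h2 := ht h1
    rw [Set.mem_iUnion₂] at h2
    obtain ⟨x, hx, hx2⟩ := h2
    exact ⟨⟨x, hx⟩, hx2⟩
  choose φ hφ using hmem
  have : Finite t := htf
  obtain ⟨i, j, hij, heq⟩ := Finite.exists_ne_map_eq_of_infinite φ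
  wlog hlt : i < j generalizing i j
  · exact this j i hij.symm heq.symm (lt_of_le_of_ne (not_lt.1 hlt) hij.symm)
  have h3 : ‖u ^ (p ^ j) - u ^ (p ^ i)‖ < 1 := by
    have e1 := hφ i
    have e2 := hφ j
    rw [heq, Metric.mem_ball, dist_eq_norm] at e1
    rw [Metric.mem_ball, dist_eq_norm] at e2
    have : u ^ (p ^ j) - u ^ (p ^ i) = (u ^ (p ^ j) - (φ j : PadicAlgCl p))
      - (u ^ (p ^ i) - (φ j : PadicAlgCl p)) := by ring
    rw [this]
    exact (norm_sub_le_max' _ _).trans_lt (max_lt e2 e1)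
  refine ⟨j - i, by omega, ?_⟩
  have h4 : ∀ m : ℕ, ∀ a b : PadicAlgCl p, ‖a‖ ≤ 1 → ‖b‖ ≤ 1 → ‖a ^ (p ^ m) - b ^ (p ^ m)‖ < 1 →
      ‖a - b‖ < 1 := by
    intro m
    induction m with
    | zero => intro a b _ _ h; simpa using h
    | succ m ih =>
      intro a b ha hb h
      rw [pow_succ, pow_mul, pow_mul] at h
      have := frob_cancel (a := a ^ (p ^ m)) (b := b ^ (p ^ m))
        (by rw [norm_pow]; exact pow_le_one₀ (norm_nonneg _) ha)
        (by rw [norm_pow]; exact pow_le_one₀ (norm_nonneg _) hb) h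
      exact ih a b ha hb this
  apply h4 i
  · rw [norm_pow]; exact pow_le_one₀ (norm_nonneg _) hu1
  · exact hu1
  · rw [← pow_mul, ← pow_add, Nat.sub_add_cancel hlt.le]
    exact h3

/-- the residue field is perfect -/
theorem exists_pth_root_close (F : IntermediateField ℚ_[p] (PadicAlgCl p))
    [FiniteDimensional ℚ_[p] F] {u : PadicAlgCl p} (hu : u ∈ F) (hu1 : ‖u‖ ≤ 1) :
    ∃ t ∈ F, ‖t‖ ≤ 1 ∧ ‖t ^ p - u‖ < 1 := by
  obtain ⟨f, hf, h⟩ := exists_pow_close F hu hu1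
  refine ⟨u ^ (p ^ (f - 1)), pow_mem hu _, ?_, ?_⟩
  · rw [norm_pow]; exact pow_le_one₀ (norm_nonneg _) hu1
  · rw [← pow_mul, ← pow_succ, Nat.sub_add_cancel (Nat.one_le_iff_ne_zero.2 hf)]
    exact h

/-- nearest point in a finite extension. -/
theorem exists_nearest (F : IntermediateField ℚ_[p] (PadicAlgCl p)) [FiniteDimensional ℚ_[p] F]
    (z : PadicAlgCl p) : ∃ c ∈ F, ∀ f ∈ F, ‖z - c‖ ≤ ‖z - f‖ := by
  have hK := isCompact_ball F ‖z‖
  obtain ⟨c, ⟨hc, hc1⟩, hmin⟩ := hK.exists_isMinOn ⟨0, F.zero_mem, by simp⟩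
    (f := fun x => ‖z - x‖) (by fun_prop)
  refine ⟨c, hc, fun f hf => ?_⟩
  by_cases hfn : ‖f‖ ≤ ‖z‖
  · exact hmin ⟨hf, hfn⟩
  · rw [not_le] at hfn
    have h0 : ‖z - c‖ ≤ ‖z - 0‖ := hmin ⟨F.zero_mem, by simp⟩
    rw [sub_zero] at h0
    have h1 : ‖z + -f‖ = max ‖z‖ ‖-f‖ :=
      IsUltrametricDist.norm_add_eq_max_of_norm_ne_norm (by rw [norm_neg]; exact hfn.ne)
    rw [norm_neg, max_eq_right hfn.le, ← sub_eq_add_neg] at h1
    rw [h1]
    exact h0.trans hfn.le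

/-- Structure of a Kummer layer: the nearest point. -/
theorem kummer_structure {F : IntermediateField ℚ_[p] (PadicAlgCl p)} [FiniteDimensional ℚ_[p] F]
    {z : PadicAlgCl p} (hz : z ≠ 0) (hzp : z ^ p ∈ F) {d : ℝ} (hd : 0 < d)
    (hna : NonApprox F z d) :
    ∃ c ∈ F, (∀ f ∈ F, ‖z - c‖ ≤ ‖z - f‖) ∧ (∀ f ∈ F, ‖f‖ ≠ ‖z - c‖) ∧
      (∃ f ∈ F, ‖f‖ = ‖z - c‖ ^ p) ∧ Real.exp (-(pi0 p - d)) * ‖z‖ ≤ ‖z - c‖ ∧ 0 < ‖z - c‖ := by
  obtain ⟨c, hc, hmin⟩ := exists_nearest F z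
  have hlow := hna c hc
  have hzn : 0 < ‖z‖ := norm_pos_iff.2 hz
  have hwpos : 0 < ‖z - c‖ := lt_of_lt_of_le (by positivity) hlow
  set w := z - c with hw
  have hwz : ‖w‖ ≤ ‖z‖ := by
    have := hmin 0 F.zero_mem
    rwa [sub_zero] at this
  have hcz : ‖c‖ ≤ ‖z‖ := by
    have : c = z - w := by rw [hw]; ring
    rw [this]
    exact (norm_sub_le_max' _ _).trans (max_le le_rfl hwz)
  set g0 := z ^ p - c ^ p with hg0
  have hg0F : g0 ∈ F := F.sub_mem hzp (pow_mem hc _)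
  have hclose : ‖g0 - w ^ p‖ < ‖w‖ ^ p := by
    have h1 := norm_add_pow_sub_le (x := w) (y := c) hwz hcz
    have h2 : g0 - w ^ p = (w + c) ^ p - w ^ p - c ^ p := by
      rw [hg0, hw, sub_add_cancel]; ring
    rw [h2]
    refine h1.trans_lt ?_
    have hp1 : p - 1 ≠ 0 := by have := hp.out.two_le; omega
    have h3 : (p : ℝ)⁻¹ * ‖z‖ ^ (p - 1) < ‖w‖ ^ (p - 1) := by
      have h4 : (Real.exp (-(pi0 p - d)) * ‖z‖) ^ (p - 1) ≤ ‖w‖ ^ (p - 1) := by gcongr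
      refine lt_of_lt_of_le ?_ h4
      rw [mul_pow]
      have h5 : (p : ℝ)⁻¹ < Real.exp (-(pi0 p - d)) ^ (p - 1) := by
        rw [← Real.exp_nat_mul, ← norm_p p, norm_p_eq_exp, Real.exp_lt_exp,
          Nat.cast_sub hp.out.one_lt.le, Nat.cast_one]
        have := p_sub_one_mul_pi0 p
        have h6 := p_sub_one_pos p
        nlinarith
      gcongr
    have h7 : ‖w‖ ^ p = ‖w‖ * ‖w‖ ^ (p - 1) := by
      rw [← pow_succ', Nat.sub_add_cancel hp.out.one_lt.le]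
    rw [h7]
    calc (p : ℝ)⁻¹ * ‖w‖ * ‖z‖ ^ (p - 1) = ‖w‖ * ((p : ℝ)⁻¹ * ‖z‖ ^ (p - 1)) := by ring
      _ < ‖w‖ * ‖w‖ ^ (p - 1) := by gcongr
  have hg0n : ‖g0‖ = ‖w‖ ^ p := by
    have h1 : ‖w ^ p + (g0 - w ^ p)‖ = max ‖w ^ p‖ ‖g0 - w ^ p‖ :=
      IsUltrametricDist.norm_add_eq_max_of_norm_ne_norm (by rw [norm_pow]; exact hclose.ne')
    rw [add_sub_cancel, norm_pow, max_eq_left hclose.le] at h1
    exact h1
  refine ⟨c, hc, hmin, ?_, ⟨g0, hg0F, hg0n⟩, hlow, hwpos⟩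
  intro f hf hfw
  have hf0 : f ≠ 0 := by rw [← norm_pos_iff, hfw]; exact hwpos
  have hfn : 0 < ‖f‖ := norm_pos_iff.2 hf0
  set g1 := g0 / f ^ p with hg1
  have hg1F : g1 ∈ F := F.div_mem hg0F (pow_mem hf _)
  have hg1n : ‖g1‖ = 1 := by
    rw [hg1, norm_div, norm_pow, hg0n, hfw, div_self (by positivity)]
  obtain ⟨t, ht, ht1, htp⟩ := exists_pth_root_close F hg1F hg1n.le
  set u := w / f with hu
  have hun : ‖u‖ = 1 := by rw [hu, norm_div, ← hfw, div_self hfn.ne']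
  have h1 : ‖u ^ p - g1‖ < 1 := by
    have : u ^ p - g1 = -(g0 - w ^ p) / f ^ p := by
      rw [hu, hg1, div_pow]; ring
    rw [this, norm_div, norm_neg, norm_pow, hfw, div_lt_one (by positivity)]
    exact hclose
  have h2 : ‖u ^ p - t ^ p‖ < 1 := by
    have : u ^ p - t ^ p = (u ^ p - g1) - (t ^ p - g1) := by ring
    rw [this]
    exact (norm_sub_le_max' _ _).trans_lt (max_lt h1 htp)
  have h3 := frob_cancel hun.le ht1 h2
  have h4 : ‖w - f * t‖ < ‖w‖ := by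
    have : w - f * t = f * (u - t) := by rw [hu]; field_simp
    rw [this, norm_mul, ← hfw]
    nlinarith
  have h5 := hmin (c + f * t) (F.add_mem hc (F.mul_mem hf ht))
  have h6 : z - (c + f * t) = w - f * t := by rw [hw]; ring
  rw [h6] at h5
  linarith

end MS
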