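import Pool.Agent.Lib_helper24.MS.Kummer

/-!
Kummer layers: depth, fixed points, base change.
-/

namespace MS

open Finset IntermediateField

variable {p : ℕ} [hp : Fact p.Prime]

/-- a real number which is a value of the norm on `F`, to the powers prime to `p`. -/
theorem norm_pow_ne {F : IntermediateField ℚ_[p] (PadicAlgCl p)} {r : ℝ} (hr : 0 < r)
    (h1 : ∀ f ∈ F, ‖f‖ ≠ r) (h2 : ∃ f ∈ F, ‖f‖ = r ^ p) {i : ℕ} (hi : i.Coprime p) :
    ∀ f ∈ F, ‖f‖ ≠ r ^ i := by
  intro f hf hfi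
  obtain ⟨g, hg, hgr⟩ := h2
  have hbez := Nat.gcd_eq_gcd_ab i p
  rw [hi.gcd_eq_one] at hbez
  set a := Nat.gcdA i p
  set b := Nat.gcdB i p
  apply h1 (f ^ a * g ^ b) (F.mul_mem (zpow_mem hf a) (zpow_mem hg b))
  rw [norm_mul, norm_zpow, norm_zpow, hfi, hgr, ← zpow_natCast, ← zpow_natCast, ← zpow_mul,
    ← zpow_mul, ← zpow_add₀ hr.ne', ← hbez]
  simp

/-- orthogonality of `1, w, ..., w^(p-1)`. -/
theorem orth {F : IntermediateField ℚ_[p] (PadicAlgCl p)} {w : PadicAlgCl p} (hw : 0 < ‖w‖)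
    (h1 : ∀ f ∈ F, ‖f‖ ≠ ‖w‖) (h2 : ∃ f ∈ F, ‖f‖ = ‖w‖ ^ p) (q : ℕ → PadicAlgCl p)
    (hq : ∀ i, q i ∈ F) {j : ℕ} (hj : j < p) :
    ‖q j * w ^ j‖ ≤ ‖∑ i ∈ range p, q i * w ^ i‖ := by
  classical
  have hne : ∀ i ∈ range p, ∀ k ∈ range p, i ≠ k → q i ≠ 0 → q k ≠ 0 →
      ‖q i * w ^ i‖ ≠ ‖q k * w ^ k‖ := by
    have key : ∀ i k, i < k → k < p → q i ≠ 0 → q k ≠ 0 → ‖q i * w ^ i‖ ≠ ‖q k * w ^ k‖ := by
      intro i k hik hkp hi0 hk0 heq
      have hcop : (k - i).Coprime p :=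
        Nat.coprime_comm.1 ((hp.out.coprime_iff_not_dvd).2
          (fun h => absurd (Nat.le_of_dvd (by omega) h) (by omega)))
      apply norm_pow_ne hw h1 h2 hcop (q i / q k) (F.div_mem (hq i) (hq k))
      rw [norm_mul, norm_mul, norm_pow, norm_pow] at heq
      have hqk : ‖q k‖ ≠ 0 := norm_ne_zero_iff.2 hk0
      rw [norm_div, div_eq_iff hqk]
      have hwi : ‖w‖ ^ i ≠ 0 := by positivity
      apply mul_right_cancel₀ hwi
      rw [heq]
      have : ‖w‖ ^ k = ‖w‖ ^ (k - i) * ‖w‖ ^ i := by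
        rw [← pow_add]; congr 1; omega
      rw [this]
      ring
    intro i hi k hk hik hi0 hk0
    rw [Finset.mem_range] at hi hk
    rcases lt_or_gt_of_ne hik with h | h
    · exact key i k h hk hi0 hk0
    · exact (key k i h hi hk0 hi0).symm
  -- the index of the largest term
  obtain ⟨m, hm, hmax⟩ := Finset.exists_max_image (range p) (fun i => ‖q i * w ^ i‖)
    ⟨0, Finset.mem_range.2 hp.out.pos⟩
  refine (hmax j (Finset.mem_range.2 hj)).trans ?_
  by_cases hqm : q m = 0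
  · rw [hqm, zero_mul, norm_zero]; exact norm_nonneg _
  have hrest : ‖∑ i ∈ (range p).erase m, q i * w ^ i‖ < ‖q m * w ^ m‖ := by
    have hpos : 0 < ‖q m * w ^ m‖ := by
      rw [norm_mul, norm_pow]
      have := norm_pos_iff.2 hqm
      positivity
    by_cases hne' : ((range p).erase m).Nonempty
    · obtain ⟨i, hi, hle⟩ := IsUltrametricDist.exists_norm_finsetSum_le_of_nonempty hne'
        (fun i => q i * w ^ i)
      refine hle.trans_lt ?_
      rw [Finset.mem_erase] at hi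
      by_cases hqi : q i = 0
      · rw [hqi, zero_mul, norm_zero]; exact hpos
      · exact lt_of_le_of_ne (hmax i hi.2) (hne i hi.2 m hm hi.1 hqi hqm)
    · rw [Finset.not_nonempty_iff_eq_empty.1 hne', Finset.sum_empty, norm_zero]
      exact hpos
  rw [← Finset.add_sum_erase _ _ hm]
  have h3 : ‖q m * w ^ m + ∑ i ∈ (range p).erase m, q i * w ^ i‖ = max ‖q m * w ^ m‖
      ‖∑ i ∈ (range p).erase m, q i * w ^ i‖ :=
    IsUltrametricDist.norm_add_eq_max_of_norm_ne_norm hrest.ne'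
  rw [h3]
  exact le_max_left _ _

/-- `F(z)` as an extension of `ℚ_p`. -/
noncomputable def adj (F : IntermediateField ℚ_[p] (PadicAlgCl p)) (z : PadicAlgCl p) :
    IntermediateField ℚ_[p] (PadicAlgCl p) := F ⊔ ℚ_[p]⟮z⟯

theorem le_adj (F : IntermediateField ℚ_[p] (PadicAlgCl p)) (z : PadicAlgCl p) : F ≤ adj F z :=
  le_sup_left

theorem mem_adj_self (F : IntermediateField ℚ_[p] (PadicAlgCl p)) (z : PadicAlgCl p) :
    z ∈ adj F z :=
  (le_sup_right : ℚ_[p]⟮z⟯ ≤ adj F z) (mem_adjoin_simple_self _ z)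

theorem adj_le {F K : IntermediateField ℚ_[p] (PadicAlgCl p)} {z : PadicAlgCl p} (h : F ≤ K)
    (hz : z ∈ K) : adj F z ≤ K :=
  sup_le h (adjoin_simple_le_iff.2 hz)

instance (F : IntermediateField ℚ_[p] (PadicAlgCl p)) [FiniteDimensional ℚ_[p] F]
    (z : PadicAlgCl p) : FiniteDimensional ℚ_[p] (adj F z) := by
  have : FiniteDimensional ℚ_[p] ℚ_[p]⟮z⟯ :=
    adjoin.finiteDimensional (Algebra.IsIntegral.isIntegral z)
  unfold adj
  infer_instance

/-- the fixed field of a single automorphism -/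
noncomputable def fixF (g : Gp p) : IntermediateField ℚ_[p] (PadicAlgCl p) :=
  IntermediateField.fixedField (Subgroup.zpowers g)

theorem mem_fixF (g : Gp p) (x : PadicAlgCl p) : x ∈ fixF g ↔ g x = x := by
  unfold fixF
  rw [IntermediateField.mem_fixedField_iff]
  constructor
  · intro h
    exact h g (Subgroup.mem_zpowers g)
  · intro h f hf
    obtain ⟨k, rfl⟩ := Subgroup.mem_zpowers_iff.1 hf
    have h2 : g ∈ MulAction.stabilizer (Gp p) x := by
      rw [MulAction.mem_stabilizer_iff]; exact h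
    have h3 := Subgroup.zpow_mem _ h2 k
    rw [MulAction.mem_stabilizer_iff] at h3
    exact h3

theorem adj_fixed {F : IntermediateField ℚ_[p] (PadicAlgCl p)} {z : PadicAlgCl p} {g : Gp p}
    (h1 : ∀ y ∈ F, g y = y) (h2 : g z = z) : ∀ y ∈ adj F z, g y = y := by
  intro y hy
  rw [← mem_fixF]
  exact adj_le (fun y hy => (mem_fixF g y).2 (h1 y hy)) ((mem_fixF g z).2 h2) hy

/-- two automorphisms which agree on generators agree. -/
theorem adj_agree {F : IntermediateField ℚ_[p] (PadicAlgCl p)} {z : PadicAlgCl p} {g h : Gp p}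
    (h1 : ∀ y ∈ F, g y = h y) (h2 : g z = h z) : ∀ y ∈ adj F z, g y = h y := by
  intro y hy
  have h3 : ∀ y ∈ adj F z, (h⁻¹ * g) y = y := by
    apply adj_fixed
    · intro y hy
      rw [AlgEquiv.mul_apply, h1 y hy]
      exact h.symm_apply_apply y
    · rw [AlgEquiv.mul_apply, h2]
      exact h.symm_apply_apply z
  have h4 := congrArg h (h3 y hy)
  rw [AlgEquiv.mul_apply] at h4
  rw [← h4]
  exact (h.apply_symm_apply (g y)).symm

theorem mem_adj_iff_poly {F : IntermediateField ℚ_[p] (PadicAlgCl p)} {z c : PadicAlgCl p}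
    (hc : c ∈ F) (hzp : z ^ p ∈ F) {x : PadicAlgCl p} (hx : x ∈ adj F z) :
    ∃ q : ℕ → PadicAlgCl p, (∀ i, q i ∈ F) ∧ x = ∑ i ∈ range p, q i * (z - c) ^ i := by
  have h1 : adj F z ≤ (IntermediateField.adjoin F {z}).restrictScalars ℚ_[p] := by
    apply adj_le
    · intro y hy
      rw [IntermediateField.mem_restrictScalars]
      exact (IntermediateField.adjoin F {z}).algebraMap_mem ⟨y, hy⟩
    · rw [IntermediateField.mem_restrictScalars]
      exact mem_adjoin_simple_self _ z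
  have h2 := h1 hx
  rw [IntermediateField.mem_restrictScalars] at h2
  have hzint : IsAlgebraic F z := Algebra.IsAlgebraic.isAlgebraic z
  have h3 : x ∈ (IntermediateField.adjoin F {z}).toSubalgebra := h2
  rw [IntermediateField.adjoin_simple_toSubalgebra_of_isAlgebraic hzint,
    Algebra.adjoin_singleton_eq_range_aeval] at h3
  obtain ⟨P, hP⟩ := h3
  set c' : F := ⟨c, hc⟩ with hc'
  set b : F := ⟨z ^ p, hzp⟩ with hb
  set w := z - c with hw
  set M : Polynomial F := (Polynomial.X + Polynomial.C c') ^ p - Polynomial.C b with hM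
  have hMmonic : M.Monic := by
    apply Polynomial.Monic.sub_of_left
    · exact (Polynomial.monic_X_add_C c').pow p
    · rw [Polynomial.degree_pow, Polynomial.degree_X_add_C]
      refine lt_of_le_of_lt Polynomial.degree_C_le ?_
      have := hp.out.pos
      simpa using this
  have hMdeg : M.natDegree = p := by
    rw [hM, Polynomial.natDegree_sub_C, Polynomial.natDegree_pow, Polynomial.natDegree_X_add_C,
      mul_one]
  have hMw : Polynomial.aeval w M = 0 := by
    rw [hM, map_sub, map_pow, map_add, Polynomial.aeval_X, Polynomial.aeval_C, Polynomial.aeval_C]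
    change (w + c) ^ p - z ^ p = 0
    rw [hw, sub_add_cancel, sub_self]
  set Q := (P.comp (Polynomial.X + Polynomial.C c')) %ₘ M with hQ
  have hQw : Polynomial.aeval w Q = x := by
    have h4 := Polynomial.modByMonic_add_div (P.comp (Polynomial.X + Polynomial.C c')) M
    have h5 := congrArg (Polynomial.aeval w) h4
    rw [map_add, map_mul, hMw, zero_mul, add_zero, Polynomial.aeval_comp] at h5
    rw [hQ, h5, ← hP]
    simp only [map_add, Polynomial.aeval_X, Polynomial.aeval_C]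
    have : w + algebraMap F (PadicAlgCl p) c' = z := by
      change (z - c) + c = z
      ring
    rw [this]
    rfl
  have hQdeg : Q.natDegree < p := by
    have h4 := Polynomial.natDegree_modByMonic_lt (P.comp (Polynomial.X + Polynomial.C c')) hMmonic
      (by
        intro h
        rw [h, Polynomial.natDegree_one] at hMdeg
        exact hp.out.ne_zero hMdeg.symm)
    rwa [hMdeg] at h4
  refine ⟨fun i => (Q.coeff i : PadicAlgCl p), fun i => (Q.coeff i).2, ?_⟩
  rw [← hQw, Polynomial.aeval_eq_sum_range' hQdeg]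
  apply Finset.sum_congr rfl
  intro i _
  rw [Algebra.smul_def]
  rfl

theorem gal_zeta {F : IntermediateField ℚ_[p] (PadicAlgCl p)} {z : PadicAlgCl p} (hz : z ≠ 0)
    (hzp : z ^ p ∈ F) {g : Gp p} (hg : ∀ y ∈ F, g y = y) : ∃ ξ : PadicAlgCl p, ξ ^ p = 1 ∧
    g z = ξ * z := by
  refine ⟨g z / z, ?_, by field_simp⟩
  rw [div_pow, ← map_pow, hg _ hzp, div_self (pow_ne_zero _ hz)]

/-- Non-approximability implies depth. -/
theorem depth_of_nonApprox {F : IntermediateField ℚ_[p] (PadicAlgCl p)}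
    [FiniteDimensional ℚ_[p] F] {z : PadicAlgCl p} (hz : z ≠ 0) (hzp : z ^ p ∈ F) {d : ℝ}
    (hd : 0 < d) (hna : NonApprox F z d) {g : Gp p} (hg : ∀ y ∈ F, g y = y) :
    Depth g (adj F z) d := by
  obtain ⟨c, hc, -, h1, h2, h3, hw⟩ := kummer_structure hz hzp hd hna
  set w := z - c with hwdef
  intro x hx
  obtain ⟨q, hq, hxq⟩ := mem_adj_iff_poly hc hzp hx
  rw [← hwdef] at hxq
  obtain ⟨ξ, hξ, hgz⟩ := gal_zeta hz hzp hg
  have hzn : 0 < ‖z‖ := norm_pos_iff.2 hz
  have hgw : ‖g w - w‖ ≤ Real.exp (-d) * ‖w‖ := by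
    have e1 : g w - w = (ξ - 1) * z := by
      rw [hwdef, map_sub, hgz, hg c hc]; ring
    rw [e1, norm_mul]
    have e2 : ‖ξ - 1‖ ≤ Real.exp (-pi0 p) := by
      by_cases hξ1 : ξ = 1
      · rw [hξ1, sub_self, norm_zero]; positivity
      · exact (norm_zeta_sub_one hξ hξ1).le
    calc ‖ξ - 1‖ * ‖z‖ ≤ Real.exp (-pi0 p) * ‖z‖ := by gcongr
      _ = Real.exp (-d) * (Real.exp (-(pi0 p - d)) * ‖z‖) := by
        rw [← mul_assoc, ← Real.exp_add]; congr 2; ring
      _ ≤ Real.exp (-d) * ‖w‖ := by gcongr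
  have hgwi : ∀ i : ℕ, ‖g (w ^ i) - w ^ i‖ ≤ Real.exp (-d) * ‖w‖ ^ i := by
    intro i
    rw [map_pow]
    rcases Nat.eq_zero_or_pos i with rfl | hi
    · simp; positivity
    · rw [← Commute.geom_sum₂_mul (Commute.all (g w) w) i, norm_mul]
      have e3 : ‖∑ k ∈ range i, (g w) ^ k * w ^ (i - 1 - k)‖ ≤ ‖w‖ ^ (i - 1) := by
        apply norm_sum_le' _ _ (by positivity)
        intro k hk
        rw [Finset.mem_range] at hk
        rw [norm_mul, norm_pow, norm_pow, norm_gal, ← pow_add]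
        apply le_of_eq
        congr 1
        omega
      calc _ ≤ ‖w‖ ^ (i - 1) * (Real.exp (-d) * ‖w‖) := by gcongr
        _ = Real.exp (-d) * ‖w‖ ^ i := by
          have : i = (i - 1) + 1 := by omega
          conv_rhs => rw [this, pow_succ]
          ring
  have e4 : g x - x = ∑ i ∈ range p, q i * (g (w ^ i) - w ^ i) := by
    rw [hxq, map_sum, ← Finset.sum_sub_distrib]
    apply Finset.sum_congr rfl
    intro i _
    rw [map_mul, hg _ (hq i)]
    ring
  rw [e4]
  apply norm_sum_le' _ _ (by positivity)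
  intro i hi
  rw [Finset.mem_range] at hi
  have e5 := orth hw h1 h2 q hq hi
  rw [← hxq, norm_mul, norm_pow] at e5
  rw [norm_mul]
  calc ‖q i‖ * ‖g (w ^ i) - w ^ i‖ ≤ ‖q i‖ * (Real.exp (-d) * ‖w‖ ^ i) := by
        gcongr; exact hgwi i
    _ = Real.exp (-d) * (‖q i‖ * ‖w‖ ^ i) := by ring
    _ ≤ Real.exp (-d) * ‖x‖ := by gcongr

/-- the depth gives back non-approximability. -/
theorem nonApprox_of_depth {F : IntermediateField ℚ_[p] (PadicAlgCl p)}
    {z : PadicAlgCl p} (hz : z ≠ 0) (hzp : z ^ p ∈ F) {d : ℝ} {g : Gp p}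
    (hg : ∀ y ∈ F, g y = y) (hgz : g z ≠ z) (hdep : Depth g (adj F z) d) : NonApprox F z d := by
  intro c hc
  obtain ⟨ξ, hξ, hgz'⟩ := gal_zeta hz hzp hg
  have hξ1 : ξ ≠ 1 := by
    rintro rfl
    rw [one_mul] at hgz'
    exact hgz hgz'
  have h1 := hdep (z - c) ((adj F z).sub_mem (mem_adj_self F z) (le_adj F z hc))
  have e1 : g (z - c) - (z - c) = (ξ - 1) * z := by
    rw [map_sub, hgz', hg c hc]; ring
  rw [e1, norm_mul, norm_zeta_sub_one hξ hξ1] at h1
  have h2 : Real.exp d * (Real.exp (-pi0 p) * ‖z‖) ≤ Real.exp d * (Real.exp (-d) * ‖z - c‖) := by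
    gcongr
  rw [← mul_assoc, ← mul_assoc, ← Real.exp_add, ← Real.exp_add] at h2
  have e2 : d + -d = 0 := by ring
  rw [e2, Real.exp_zero, one_mul] at h2
  have e3 : d + -pi0 p = -(pi0 p - d) := by ring
  rw [e3] at h2
  exact h2

theorem not_mem_of_nonApprox {F : IntermediateField ℚ_[p] (PadicAlgCl p)} {z : PadicAlgCl p}
    (hz : z ≠ 0) {d : ℝ} (hna : NonApprox F z d) : z ∉ F := by
  intro h
  have h1 := hna z h
  rw [sub_self, norm_zero] at h1
  have : 0 < Real.exp (-(pi0 p - d)) * ‖z‖ := by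
    have := norm_pos_iff.2 hz
    positivity
  linarith

/-- an automorphism over `F` moving `z`. -/
theorem exists_gal_ne {F : IntermediateField ℚ_[p] (PadicAlgCl p)} {z : PadicAlgCl p}
    (hz : z ∉ F) : ∃ g : Gp p, (∀ y ∈ F, g y = y) ∧ g z ≠ z := by
  by_contra hcon
  push Not at hcon
  exact hz ((mem_iff_fixed F z).2 hcon)

/-- fixed points in a Kummer layer. -/
theorem fixed_in_adj {F : IntermediateField ℚ_[p] (PadicAlgCl p)} {z : PadicAlgCl p} (hz : z ≠ 0)
    (hzp : z ^ p ∈ F) (hμ : ∀ ξ : PadicAlgCl p, ξ ^ p = 1 → ξ ∈ F) {h : Gp p}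
    (hh : ∀ y ∈ F, h y = y) (hhz : h z ≠ z) {y : PadicAlgCl p} (hy : y ∈ adj F z) (hhy : h y = y) :
    y ∈ F := by
  obtain ⟨ξ, hξ, hhz'⟩ := gal_zeta hz hzp hh
  have hξ1 : ξ ≠ 1 := by
    rintro rfl
    rw [one_mul] at hhz'
    exact hhz hhz'
  have hprim : IsPrimitiveRoot ξ p := by
    have h1 : orderOf ξ ∣ p := orderOf_dvd_of_pow_eq_one hξ
    have h2 : orderOf ξ = p := by
      rcases (Nat.dvd_prime hp.out).1 h1 with h | h
      · exact absurd (orderOf_eq_one_iff.1 h) hξ1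
      · exact h
    have h3 := IsPrimitiveRoot.orderOf ξ
    rwa [h2] at h3
  rw [mem_iff_fixed]
  intro g hg
  obtain ⟨η, hη, hgz⟩ := gal_zeta hz hzp hg
  obtain ⟨i, -, hi⟩ := hprim.eq_pow_of_pow_eq_one hη
  have hhi : ∀ m : ℕ, (h ^ m) z = ξ ^ m * z := by
    intro m
    induction m with
    | zero => simp
    | succ m ih =>
      rw [pow_succ', AlgEquiv.mul_apply, ih, map_mul, hh _ (pow_mem (hμ ξ hξ) _), hhz', pow_succ]
      ring
  have hfix : ∀ m : ℕ, ∀ x, h x = x → (h ^ m) x = x := by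
    intro m x hx
    induction m with
    | zero => simp
    | succ m ih => rw [pow_succ', AlgEquiv.mul_apply, ih, hx]
  have h1 : ∀ x ∈ adj F z, g x = (h ^ i) x := by
    apply adj_agree
    · intro x hx
      rw [hg x hx, hfix i x (hh x hx)]
    · rw [hgz, hhi i, hi]
  rw [h1 y hy, hfix i y hhy]

/-- base change: `F'/F` with prime-to-`p` ramification. -/
theorem nonApprox_baseChange {F F' : IntermediateField ℚ_[p] (PadicAlgCl p)}
    [FiniteDimensional ℚ_[p] F] {z : PadicAlgCl p} (hz : z ≠ 0) (hzp : z ^ p ∈ F) {d : ℝ}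
    (hd : 0 < d) (hna : NonApprox F z d) (hFF : F ≤ F')
    (htame : ∀ y ∈ F', y ≠ 0 → ∃ t : ℕ, t.Coprime p ∧ ∃ f ∈ F, ‖f‖ = ‖y‖ ^ t) :
    NonApprox F' z d := by
  obtain ⟨c, hc, -, h1, h2, h3, hw⟩ := kummer_structure hz hzp hd hna
  set w := z - c with hwdef
  intro c' hc'
  refine h3.trans ?_
  by_contra hcon
  rw [not_le] at hcon
  have hcc : ‖c' - c‖ = ‖w‖ := by
    have e1 : c' - c = w + -(z - c') := by rw [hwdef]; ring
    have e2 : ‖w + -(z - c')‖ = max ‖w‖ ‖-(z - c')‖ :=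
      IsUltrametricDist.norm_add_eq_max_of_norm_ne_norm (by rw [norm_neg]; exact hcon.ne')
    rw [norm_neg, max_eq_left hcon.le] at e2
    rw [e1, e2]
  have hne : c' - c ≠ 0 := by
    rw [← norm_pos_iff, hcc]; exact hw
  obtain ⟨t, ht, f, hf, hft⟩ := htame (c' - c) (F'.sub_mem hc' (hFF hc)) hne
  rw [hcc] at hft
  exact norm_pow_ne hw h1 h2 ht f hf hft

end MS
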