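import Mathlib

/-!
Elementary lifting of exponents.
-/

namespace MS

theorem one_add_pow_expand (x : ℤ) (n : ℕ) :
    ∃ r : ℤ, (1 + x) ^ n = 1 + n * x + (n.choose 2 : ℕ) * x ^ 2 + x ^ 3 * r := by
  induction n with
  | zero => exact ⟨0, by simp⟩
  | succ n ih =>
    obtain ⟨r, hr⟩ := ih
    refine ⟨(n.choose 2 : ℕ) + r + x * r, ?_⟩
    rw [pow_succ, hr, Nat.choose_succ_succ' n 1]
    push_cast [Nat.choose_one_right]
    ring

theorem lte_step {p : ℕ} (hp : p.Prime) {K : ℕ} (hK : 1 ≤ K) (hK2 : p = 2 → 2 ≤ K) {u : ℤ}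
    (h1 : (p : ℤ) ^ K ∣ u - 1) (h2 : ¬ (p : ℤ) ^ (K + 1) ∣ u - 1) :
    (p : ℤ) ^ (K + 1) ∣ u ^ p - 1 ∧ ¬ (p : ℤ) ^ (K + 1 + 1) ∣ u ^ p - 1 := by
  obtain ⟨c, hc⟩ := h1
  have hp0 : (p : ℤ) ≠ 0 := by exact_mod_cast hp.ne_zero
  have hpc : ¬ (p : ℤ) ∣ c := by
    rintro ⟨e, rfl⟩
    exact h2 ⟨e, by rw [hc, pow_succ]; ring⟩
  obtain ⟨r, hr⟩ := one_add_pow_expand ((p : ℤ) ^ K * c) p
  have hu : u = 1 + (p : ℤ) ^ K * c := by linarith
  rw [hu, hr]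
  -- the error term
  have herr : (p : ℤ) ^ (K + 1 + 1) ∣
      (p.choose 2 : ℕ) * ((p : ℤ) ^ K * c) ^ 2 + ((p : ℤ) ^ K * c) ^ 3 * r := by
    apply dvd_add
    · by_cases h : p = 2
      · have h3 := hK2 h
        have : (p : ℤ) ^ (K + 1 + 1) ∣ ((p : ℤ) ^ K * c) ^ 2 := by
          rw [mul_pow, ← pow_mul]
          exact dvd_mul_of_dvd_left (pow_dvd_pow _ (by omega)) _
        exact this.mul_left _
      · have h3 : p ∣ p.choose 2 := hp.dvd_choose_self (by norm_num)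
          (by have := hp.two_le; omega)
        obtain ⟨e, he⟩ := h3
        rw [he]
        push_cast
        rw [mul_pow, ← pow_mul]
        have : (p : ℤ) * e * ((p : ℤ) ^ (K * 2) * c ^ 2) = (p : ℤ) ^ (K * 2 + 1) * (e * c ^ 2) := by
          rw [pow_succ]; ring
        rw [this]
        exact dvd_mul_of_dvd_left (pow_dvd_pow _ (by omega)) _
    · rw [mul_pow, ← pow_mul, mul_assoc]
      exact dvd_mul_of_dvd_left (pow_dvd_pow _ (by omega)) _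
  obtain ⟨e, he⟩ := herr
  have hexp : 1 + (p : ℤ) * ((p : ℤ) ^ K * c) + (p.choose 2 : ℕ) * ((p : ℤ) ^ K * c) ^ 2 +
      ((p : ℤ) ^ K * c) ^ 3 * r - 1 = (p : ℤ) ^ (K + 1) * c + (p : ℤ) ^ (K + 1 + 1) * e := by
    rw [← he, pow_succ]; ring
  rw [hexp]
  constructor
  · apply dvd_add (dvd_mul_right _ _)
    exact dvd_mul_of_dvd_left (pow_dvd_pow _ (by omega)) _
  · intro h
    have h3 : (p : ℤ) ^ (K + 1 + 1) ∣ (p : ℤ) ^ (K + 1) * c := by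
      have := (Int.dvd_add_left (dvd_mul_right ((p : ℤ) ^ (K + 1 + 1)) e)).1 h
      exact this
    rw [pow_succ, mul_dvd_mul_iff_left (pow_ne_zero _ hp0)] at h3
    exact hpc h3

theorem lte_iter {p : ℕ} (hp : p.Prime) {K : ℕ} (hK : 1 ≤ K) (hK2 : p = 2 → 2 ≤ K) {u : ℤ}
    (h1 : (p : ℤ) ^ K ∣ u - 1) (h2 : ¬ (p : ℤ) ^ (K + 1) ∣ u - 1) (i : ℕ) :
    (p : ℤ) ^ (K + i) ∣ u ^ (p ^ i) - 1 ∧ ¬ (p : ℤ) ^ (K + i + 1) ∣ u ^ (p ^ i) - 1 := by
  induction i with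
  | zero => simpa using ⟨h1, h2⟩
  | succ i ih =>
    have := lte_step hp (K := K + i) (by omega) (fun h => by have := hK2 h; omega) ih.1 ih.2
    rw [← pow_mul, ← pow_succ] at this
    exact this

end MS
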