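import Pool.Agent.Lib_helper24.MS.Kummer2

/-!
The square lemma: comparison of the depths in an extension of type `(p, p)`.
-/

namespace MS

open Finset IntermediateField

variable {p : ℕ} [hp : Fact p.Prime]

theorem pow_fix {g : Gp p} {x : PadicAlgCl p} (h : g x = x) (m : ℕ) : (g ^ m) x = x := by
  induction m with
  | zero => simp
  | succ m ih => rw [pow_succ', AlgEquiv.mul_apply, ih, h]

theorem pow_apply_kummer {g : Gp p} {x ξ : PadicAlgCl p} (h : g x = ξ * x) (hξ : g ξ = ξ) (m : ℕ) :
    (g ^ m) x = ξ ^ m * x := by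
  induction m with
  | zero => simp
  | succ m ih =>
    rw [pow_succ', AlgEquiv.mul_apply, ih, map_mul, map_pow, hξ, h, pow_succ]
    ring

theorem adj_stable {F : IntermediateField ℚ_[p] (PadicAlgCl p)} {z : PadicAlgCl p} {g : Gp p}
    (h1 : ∀ y ∈ F, g y ∈ F) (h2 : g z ∈ adj F z) : ∀ y ∈ adj F z, g y ∈ adj F z := by
  intro y hy
  have h3 : adj F z ≤ (adj F z).comap (g : PadicAlgCl p →ₐ[ℚ_[p]] PadicAlgCl p) := by
    apply adj_le
    · intro y hy
      exact le_adj F z (h1 y hy)
    · exact h2
  exact h3 hy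

/-- The square lemma. -/
theorem square {F : IntermediateField ℚ_[p] (PadicAlgCl p)} [FiniteDimensional ℚ_[p] F]
    (hμ : ∀ ξ : PadicAlgCl p, ξ ^ p = 1 → ξ ∈ F) {u v : PadicAlgCl p} (hu : u ≠ 0) (hv : v ≠ 0)
    (hup : u ^ p ∈ F) (hvp : v ^ p ∈ F) {a b : ℝ} (ha : 0 < a) (hb : 0 < b)
    (h1 : NonApprox F v a) (h2 : NonApprox (adj F v) u b) (hbpi : b ≤ pi0 p) :
    NonApprox (adj F u) v (min b (a / p)) := by
  have hvF := not_mem_of_nonApprox hv h1
  have huF := not_mem_of_nonApprox hu h2
  obtain ⟨g, hg, hgu⟩ := exists_gal_ne huF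
  have hgF : ∀ y ∈ F, g y = y := fun y hy => hg y (le_adj F v hy)
  have hgv : g v = v := hg v (mem_adj_self F v)
  obtain ⟨ξ, hξ, hguξ⟩ := gal_zeta hu hup hgF
  -- non degeneracy
  have hvFu : v ∉ adj F u := by
    intro h
    exact hvF (fixed_in_adj hu hup hμ hgF hgu h hgv)
  obtain ⟨σ, hσ, hσv⟩ := exists_gal_ne hvFu
  have hσF : ∀ y ∈ F, σ y = y := fun y hy => hσ y (le_adj F u hy)
  have hσu : σ u = u := hσ u (mem_adj_self F u)
  obtain ⟨η, hη, hσvη⟩ := gal_zeta hv hvp hσF
  have hdg : Depth g (adj (adj F v) u) b :=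
    depth_of_nonApprox hu (le_adj F v hup) hb h2 hg
  have hdσ : Depth σ (adj F v) a := depth_of_nonApprox hv hvp ha h1 hσF
  have hcomm : adj (adj F u) v = adj (adj F v) u := by
    apply le_antisymm
    · apply adj_le
      · exact adj_le ((le_adj F v).trans (le_adj _ u)) (mem_adj_self _ u)
      · exact le_adj _ u (mem_adj_self F v)
    · apply adj_le
      · exact adj_le ((le_adj F u).trans (le_adj _ v)) (mem_adj_self _ v)
      · exact le_adj _ v (mem_adj_self F u)
  -- stability under g
  have hgstabFu : ∀ y ∈ adj F u, g y ∈ adj F u := by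
    apply adj_stable
    · intro y hy; rw [hgF y hy]; exact hy
    · rw [hguξ]; exact (adj F u).mul_mem (le_adj F u (hμ ξ hξ)) (mem_adj_self F u)
  have hgstab : ∀ y ∈ adj (adj F v) u, g y ∈ adj (adj F v) u := by
    apply adj_stable
    · intro y hy; rw [hg y hy]; exact hy
    · rw [hguξ]
      exact IntermediateField.mul_mem _ (le_adj _ u (le_adj F v (hμ ξ hξ))) (mem_adj_self _ u)
  have hσstab : ∀ y ∈ adj (adj F v) u, σ y ∈ adj (adj F v) u := by
    rw [← hcomm]
    apply adj_stable
    · intro y hy; rw [hσ y hy]; exact hy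
    · rw [hσvη]
      exact IntermediateField.mul_mem _ (le_adj _ v (le_adj F u (hμ η hη))) (mem_adj_self _ v)
  -- commutation
  have hcommgσ : ∀ y ∈ adj (adj F v) u, (g * σ) y = (σ * g) y := by
    rw [← hcomm]
    apply adj_agree
    · intro y hy
      rw [AlgEquiv.mul_apply, AlgEquiv.mul_apply, hσ y hy, hσ _ (hgstabFu y hy)]
    · rw [AlgEquiv.mul_apply, AlgEquiv.mul_apply, hgv, hσvη, map_mul, hgv, hgF η (hμ η hη)]
  have hgp : ∀ y ∈ adj (adj F v) u, (g ^ p) y = y := by
    apply adj_fixed
    · intro y hy; exact pow_fix (hg y hy) p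
    · rw [pow_apply_kummer hguξ (hgF ξ (hμ ξ hξ)), hξ, one_mul]
  have hgpow : ∀ i : ℕ, ∀ y ∈ adj (adj F v) u, (g ^ i) y ∈ adj (adj F v) u := by
    intro i y hy
    induction i with
    | zero => simpa using hy
    | succ i ih => rw [pow_succ', AlgEquiv.mul_apply]; exact hgstab _ ih
  have hcommpow : ∀ i : ℕ, ∀ y ∈ adj (adj F v) u, (g ^ i) (σ y) = σ ((g ^ i) y) := by
    intro i y hy
    induction i with
    | zero => simp
    | succ i ih =>
      rw [pow_succ', AlgEquiv.mul_apply, AlgEquiv.mul_apply, ih]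
      exact hcommgσ _ (hgpow i y hy)
  -- the depth of σ
  have hdepth : Depth σ (adj (adj F u) v) (min b (a / p)) := by
    rw [hcomm]
    intro x hx
    by_cases hx0 : x = 0
    · rw [hx0]; simp
    have hxn : 0 < ‖x‖ := norm_pos_iff.2 hx0
    set c := σ x / x with hc
    have hcF : c ∈ adj (adj F v) u := IntermediateField.div_mem _ (hσstab x hx) hx
    set w := c - 1 with hw
    have hwF : w ∈ adj (adj F v) u := IntermediateField.sub_mem _ hcF (IntermediateField.one_mem _)
    have hcn : ‖c‖ = 1 := by rw [hc, norm_div, norm_gal, div_self hxn.ne']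
    have hw1 : ‖w‖ ≤ 1 := by
      rw [hw]
      refine (norm_sub_le_max' _ _).trans ?_
      rw [hcn, norm_one, max_self]
    have hgoal : ‖w‖ ≤ Real.exp (-(min b (a / p))) := by
      by_contra hcon
      rw [not_le] at hcon
      have hwb : Real.exp (-b) < ‖w‖ := by
        refine lt_of_le_of_lt ?_ hcon
        rw [Real.exp_le_exp]
        have := min_le_left b (a / p)
        linarith
      have hwpos : 0 < ‖w‖ := lt_trans (Real.exp_pos _) hwb
      have hbound := norm_prod_sub_le hgstab hdg hb.le hbpi hwF hw1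
      have hlt : Real.exp (-((p - 1) * b)) * ‖w‖ < ‖w‖ ^ p := by
        have h3 : Real.exp (-((p - 1) * b)) < ‖w‖ ^ (p - 1) := by
          have h4 : Real.exp (-((p - 1) * b)) = Real.exp (-b) ^ (p - 1) := by
            rw [← Real.exp_nat_mul, Nat.cast_sub hp.out.one_lt.le, Nat.cast_one]
            congr 1; ring
          rw [h4]
          have hp1 : p - 1 ≠ 0 := by have := hp.out.two_le; omega
          gcongr
        have h5 : ‖w‖ ^ p = ‖w‖ ^ (p - 1) * ‖w‖ := by
          rw [← pow_succ, Nat.sub_add_cancel hp.out.one_lt.le]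
        rw [h5]
        gcongr
      have hNw := norm_prod_gal g w
      -- the norm of `x`
      set y := ∏ i ∈ range p, (g ^ i) x with hy
      have hyF : y ∈ adj (adj F v) u := prod_mem (fun i _ => hgpow i x hx)
      have hy0 : y ≠ 0 := by
        rw [hy, Finset.prod_ne_zero_iff]
        intro i _
        exact (map_ne_zero (g ^ i)).2 hx0
      have hgy : g y = y := by
        rw [hy, map_prod]
        have h2 : ∏ l ∈ range p, g ((g ^ l) x) = ∏ l ∈ range p, (g ^ (l + 1)) x := by
          apply Finset.prod_congr rfl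
          intro l _
          rw [pow_succ']
          rfl
        rw [h2]
        have h3 : x * ∏ l ∈ range p, (g ^ (l + 1)) x = x * ∏ l ∈ range p, (g ^ l) x := by
          have e1 := Finset.prod_range_succ' (fun l => (g ^ l) x) p
          rw [Finset.prod_range_succ] at e1
          simp only [pow_zero, AlgEquiv.one_apply] at e1
          rw [hgp x hx] at e1
          rw [mul_comm x, ← e1, mul_comm]
        exact mul_left_cancel₀ hx0 h3
      have hyFv : y ∈ adj F v :=
        fixed_in_adj hu (le_adj F v hup) (fun ξ hξ => le_adj F v (hμ ξ hξ)) hg hgu hyF hgy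
      have hσy := hdσ y hyFv
      have hratio : σ y / y = ∏ i ∈ range p, (1 + (g ^ i) w) := by
        rw [hy, map_prod, ← Finset.prod_div_distrib]
        apply Finset.prod_congr rfl
        intro i _
        have e1 : 1 + (g ^ i) w = (g ^ i) c := by
          rw [hw, map_sub, map_one]; ring
        rw [e1, hc, map_div₀, hcommpow i x hx]
      have hyn : 0 < ‖y‖ := norm_pos_iff.2 hy0
      have hratio2 : ‖σ y / y - 1‖ ≤ Real.exp (-a) := by
        have : σ y / y - 1 = (σ y - y) / y := by field_simp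
        rw [this, norm_div, div_le_iff₀ hyn]
        exact hσy
      have hNeq : ‖∏ i ∈ range p, (1 + (g ^ i) w) - 1‖ = ‖w‖ ^ p := by
        have e1 : ∏ i ∈ range p, (1 + (g ^ i) w) - 1 = ∏ i ∈ range p, (g ^ i) w +
            (∏ i ∈ range p, (1 + (g ^ i) w) - 1 - ∏ i ∈ range p, (g ^ i) w) := by ring
        have hlt2 := hbound.trans_lt hlt
        have e2 : ‖∏ i ∈ range p, (g ^ i) w +
            (∏ i ∈ range p, (1 + (g ^ i) w) - 1 - ∏ i ∈ range p, (g ^ i) w)‖ =
            max ‖∏ i ∈ range p, (g ^ i) w‖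
              ‖∏ i ∈ range p, (1 + (g ^ i) w) - 1 - ∏ i ∈ range p, (g ^ i) w‖ :=
          IsUltrametricDist.norm_add_eq_max_of_norm_ne_norm (by rw [hNw]; exact hlt2.ne')
        rw [e1, e2, hNw, max_eq_left hlt2.le]
      rw [hratio, hNeq] at hratio2
      have hfin : ‖w‖ ≤ Real.exp (-(a / p)) := by
        by_contra hc2
        rw [not_le] at hc2
        have h6 : Real.exp (-(a / p)) ^ p < ‖w‖ ^ p :=
          pow_lt_pow_left₀ hc2 (Real.exp_pos _).le hp.out.ne_zero
        rw [← Real.exp_nat_mul] at h6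
        have h7 : (p : ℝ) * -(a / p) = -a := by
          have : (p : ℝ) ≠ 0 := by exact_mod_cast hp.out.ne_zero
          field_simp
        rw [h7] at h6
        linarith
      have h8 : Real.exp (-(a / p)) ≤ Real.exp (-(min b (a / p))) := by
        rw [Real.exp_le_exp]
        have := min_le_right b (a / p)
        linarith
      linarith
    have e3 : σ x - x = w * x := by
      rw [hw, hc]; field_simp
    rw [e3, norm_mul]
    gcongr
  exact nonApprox_of_depth hv (le_adj F u hvp) hσ hσv hdepth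

end MS
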