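import Pool.Agent.Lib_helper24.MS.Square
import Pool.Agent.Lib_helper24.MS.Lte

/-!
The double tower `E(ζ_k, z_j)` and the relations between the depths of its layers.
-/

namespace MS

open Finset IntermediateField

/-- The data of a double Kummer tower over a finite extension of `ℚ_p`. -/
structure TowerData (p : ℕ) [Fact p.Prime] where
  E : IntermediateField ℚ_[p] (PadicAlgCl p)
  fin : FiniteDimensional ℚ_[p] E
  K0 : ℕ
  hK0 : 1 ≤ K0
  hK02 : p = 2 → 2 ≤ K0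
  ζ : ℕ → PadicAlgCl p
  hζ0 : IsPrimitiveRoot (ζ 0) (p ^ K0)
  hζE : ζ 0 ∈ E
  hζs : ∀ k, ζ (k + 1) ^ p = ζ k
  z : ℕ → PadicAlgCl p
  hz0 : z 0 ≠ 0
  hzE : z 0 ∈ E
  hzs : ∀ j, z (j + 1) ^ p = z j

variable {p : ℕ} [hp : Fact p.Prime]

theorem NonApprox.le_pi0 {F : IntermediateField ℚ_[p] (PadicAlgCl p)} {z : PadicAlgCl p} {d : ℝ}
    (hz : z ≠ 0) (h : NonApprox F z d) : d ≤ pi0 p := by
  have h1 := h 0 F.zero_mem
  rw [sub_zero] at h1
  have hzn : 0 < ‖z‖ := norm_pos_iff.2 hz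
  have h2 : Real.exp (-(pi0 p - d)) ≤ 1 := by
    by_contra hcon
    rw [not_le] at hcon
    nlinarith
  rw [Real.exp_le_one_iff] at h2
  linarith

namespace TowerData

variable (T : TowerData p)

/-- the fields of the tower -/
noncomputable def F (k j : ℕ) : IntermediateField ℚ_[p] (PadicAlgCl p) :=
  adj (adj T.E (T.ζ k)) (T.z j)

instance (k j : ℕ) : FiniteDimensional ℚ_[p] (T.F k j) := by
  have := T.fin
  unfold F
  infer_instance

theorem z_ne_zero (j : ℕ) : T.z j ≠ 0 := by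
  induction j with
  | zero => exact T.hz0
  | succ j ih =>
    intro h
    apply ih
    rw [← T.hzs j, h, zero_pow hp.out.ne_zero]

theorem ζ_prim (k : ℕ) : IsPrimitiveRoot (T.ζ k) (p ^ (T.K0 + k)) := by
  induction k with
  | zero => exact T.hζ0
  | succ k ih =>
    have h1 : T.ζ (k + 1) ^ p ^ (T.K0 + k) ≠ 1 := by
      intro h
      have h2 : T.ζ k ^ p ^ (T.K0 + k - 1) = 1 := by
        rw [← T.hζs k, ← pow_mul, ← pow_succ', Nat.sub_add_cancel (by have := T.hK0; omega)]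
        exact h
      have h3 := ih.dvd_of_pow_eq_one _ h2
      have h4 := (Nat.pow_dvd_pow_iff_le_right hp.out.one_lt).1 h3
      have := T.hK0
      omega
    have h2 : T.ζ (k + 1) ^ p ^ (T.K0 + k + 1) = 1 := by
      rw [pow_succ', pow_mul, T.hζs k, ih.pow_eq_one]
    have h3 := orderOf_eq_prime_pow h1 h2
    rw [← add_assoc, ← h3]
    exact IsPrimitiveRoot.orderOf _

theorem ζ_ne_zero (k : ℕ) : T.ζ k ≠ 0 := (T.ζ_prim k).ne_zero (pow_ne_zero _ hp.out.ne_zero)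

theorem E_le (k j : ℕ) : T.E ≤ T.F k j := (le_adj _ _).trans (le_adj _ _)

theorem ζ_mem (k j : ℕ) : T.ζ k ∈ T.F k j := le_adj _ _ (mem_adj_self _ _)

theorem z_mem (k j : ℕ) : T.z j ∈ T.F k j := mem_adj_self _ _

theorem F_le {k j : ℕ} {K : IntermediateField ℚ_[p] (PadicAlgCl p)} (h1 : T.E ≤ K)
    (h2 : T.ζ k ∈ K) (h3 : T.z j ∈ K) : T.F k j ≤ K := adj_le (adj_le h1 h2) h3

theorem F_mono_left (k j : ℕ) : T.F k j ≤ T.F (k + 1) j := by
  apply T.F_le (T.E_le _ _) _ (T.z_mem _ _)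
  rw [← T.hζs k]
  exact pow_mem (T.ζ_mem _ _) _

theorem F_mono_right (k j : ℕ) : T.F k j ≤ T.F k (j + 1) := by
  apply T.F_le (T.E_le _ _) (T.ζ_mem _ _)
  rw [← T.hzs j]
  exact pow_mem (T.z_mem _ _) _

theorem F_mono {k k' j j' : ℕ} (hk : k ≤ k') (hj : j ≤ j') : T.F k j ≤ T.F k' j' := by
  have h1 : T.F k j ≤ T.F k' j := by
    induction hk with
    | refl => exact le_rfl
    | step _ ih => exact ih.trans (T.F_mono_left _ _)
  have h2 : T.F k' j ≤ T.F k' j' := by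
    induction hj with
    | refl => exact le_rfl
    | step _ ih => exact ih.trans (T.F_mono_right _ _)
  exact h1.trans h2

theorem F_succ_left (k j : ℕ) : T.F (k + 1) j = adj (T.F k j) (T.ζ (k + 1)) := by
  apply le_antisymm
  · exact T.F_le ((T.E_le k j).trans (le_adj _ _)) (mem_adj_self _ _) (le_adj _ _ (T.z_mem _ _))
  · exact adj_le (T.F_mono_left k j) (T.ζ_mem _ _)

theorem F_succ_right (k j : ℕ) : T.F k (j + 1) = adj (T.F k j) (T.z (j + 1)) := by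
  apply le_antisymm
  · exact T.F_le ((T.E_le k j).trans (le_adj _ _)) (le_adj _ _ (T.ζ_mem _ _)) (mem_adj_self _ _)
  · exact adj_le (T.F_mono_right k j) (T.z_mem _ _)

theorem mu_mem {k j m : ℕ} (hm : m ≤ T.K0 + k) {ξ : PadicAlgCl p} (hξ : ξ ^ (p ^ m) = 1) :
    ξ ∈ T.F k j := by
  have h1 : ξ ^ (p ^ (T.K0 + k)) = 1 := by
    have : p ^ (T.K0 + k) = p ^ m * p ^ (T.K0 + k - m) := by
      rw [← pow_add]; congr 1; omega
    rw [this, pow_mul, hξ, one_pow]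
  have : NeZero (p ^ (T.K0 + k)) := ⟨pow_ne_zero _ hp.out.ne_zero⟩
  obtain ⟨i, -, hi⟩ := (T.ζ_prim k).eq_pow_of_pow_eq_one h1
  rw [← hi]
  exact pow_mem (T.ζ_mem _ _) _

theorem mu_p_mem {k j : ℕ} (ξ : PadicAlgCl p) (hξ : ξ ^ p = 1) : ξ ∈ T.F k j :=
  T.mu_mem (m := 1) (by have := T.hK0; omega) (by rwa [pow_one])

/-- `z`-layers -/
def NK (k j : ℕ) (d : ℝ) : Prop := NonApprox (T.F k j) (T.z (j + 1)) d

/-- `ζ`-layers -/
def NC (k j : ℕ) (d : ℝ) : Prop := NonApprox (T.F k j) (T.ζ (k + 1)) d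

theorem NK_mono {k k' j : ℕ} {d d' : ℝ} (hk : k ≤ k') (hd : d ≤ d') (h : T.NK k' j d') :
    T.NK k j d := NonApprox.mono h hd (T.F_mono hk le_rfl)

theorem NC_mono {k j j' : ℕ} {d d' : ℝ} (hj : j ≤ j') (hd : d ≤ d') (h : T.NC k j' d') :
    T.NC k j d := NonApprox.mono h hd (T.F_mono le_rfl hj)

theorem R1 {k j : ℕ} {a b : ℝ} (ha : 0 < a) (hb : 0 < b) (h1 : T.NK k j a)
    (h2 : T.NC k (j + 1) b) : T.NK (k + 1) j (min b (a / p)) := by
  unfold NK NC at *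
  rw [T.F_succ_left]
  apply square T.mu_p_mem (T.ζ_ne_zero _) (T.z_ne_zero _) _ _ ha hb h1
  · rw [← T.F_succ_right]; exact h2
  · exact h2.le_pi0 (T.ζ_ne_zero _)
  · rw [T.hζs]; exact T.ζ_mem _ _
  · rw [T.hzs]; exact T.z_mem _ _

theorem R2 {k j : ℕ} {a b : ℝ} (ha : 0 < a) (hb : 0 < b) (h1 : T.NC k j a)
    (h2 : T.NK (k + 1) j b) : T.NC k (j + 1) (min b (a / p)) := by
  unfold NK NC at *
  rw [T.F_succ_right]
  apply square T.mu_p_mem (T.z_ne_zero _) (T.ζ_ne_zero _) _ _ ha hb h1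
  · rw [← T.F_succ_left]; exact h2
  · exact h2.le_pi0 (T.z_ne_zero _)
  · rw [T.hzs]; exact T.z_mem _ _
  · rw [T.hζs]; exact T.ζ_mem _ _

theorem R3 {k n : ℕ} (hn1 : 1 ≤ n) (hn : n + 1 ≤ T.K0 + k) {a : ℕ → ℝ}
    (ha : ∀ i < n, 0 < a i) (haN : ∀ i < n, T.NK k i (a i)) :
    T.NK k n (min (Real.log p / p) ((p - 1) * ∑ i ∈ range n, a i)) := by
  have hz1 : T.z 1 ∉ T.F k 0 := not_mem_of_nonApprox (T.z_ne_zero _) (haN 0 (by omega))
  obtain ⟨g, hg, hgz1⟩ := exists_gal_ne hz1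
  set ξ : ℕ → PadicAlgCl p := fun i => g (T.z i) / T.z i with hξdef
  have hgz : ∀ i, g (T.z i) = ξ i * T.z i := by
    intro i
    rw [hξdef]
    have := T.z_ne_zero i
    field_simp
  have hξs : ∀ i, ξ (i + 1) ^ p = ξ i := by
    intro i
    simp only [hξdef]
    rw [div_pow, ← map_pow, T.hzs]
  have hξ0 : ξ 0 = 1 := by
    simp only [hξdef]
    rw [hg _ (T.z_mem k 0), div_self (T.z_ne_zero 0)]
  have hξ1 : ξ 1 ≠ 1 := by
    intro h
    apply hgz1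
    rw [hgz, h, one_mul]
  have hξpow : ∀ i m, ξ (i + m) ^ (p ^ m) = ξ i := by
    intro i m
    induction m with
    | zero => simp
    | succ m ih => rw [← add_assoc, pow_succ', pow_mul, hξs, ih]
  have hξone : ∀ i, ξ i ^ (p ^ i) = 1 := by
    intro i
    have := hξpow 0 i
    rwa [zero_add, hξ0] at this
  have hξmem : ∀ i ≤ n + 1, ∀ j, ξ i ∈ T.F k j := fun i hi j =>
    T.mu_mem (hi.trans hn) (hξone i)
  have hgξ : ∀ i ≤ n + 1, g (ξ i) = ξ i := fun i hi => hg _ (hξmem i hi 0)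
  have hgm : ∀ i ≤ n + 1, ∀ m, (g ^ m) (T.z i) = ξ i ^ m * T.z i := fun i hi m =>
    pow_apply_kummer (hgz i) (hgξ i hi) m
  have hgE : ∀ m : ℕ, ∀ y ∈ adj T.E (T.ζ k), (g ^ m) y = y := fun m y hy =>
    pow_fix (hg y (le_adj _ _ hy)) m
  have hstab : ∀ i ≤ n, ∀ x ∈ T.F k i, g x ∈ T.F k i := by
    intro i hi
    apply adj_stable
    · intro y hy; rw [hg y (le_adj _ _ hy)]; exact hy
    · rw [hgz]; exact IntermediateField.mul_mem _ (hξmem i (by omega) i) (T.z_mem _ _)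
  have hfix : ∀ i ≤ n, ∀ x ∈ T.F k i, (g ^ (p ^ i)) x = x := by
    intro i hi
    apply adj_fixed (hgE _)
    rw [hgm i (by omega), hξone, one_mul]
  have hmove : ∀ i ≤ n, (g ^ (p ^ i)) (T.z (i + 1)) = ξ 1 * T.z (i + 1) := by
    intro i hi
    rw [hgm _ (by omega), add_comm i 1, hξpow]
  refine nonApprox_of_tower (g := g) (G := fun i => T.F k i) (d := a) n (ξ := ξ 1)
    ?_ ?_ ?_ ?_ ?_ ?_ ?_ ?_ ?_ ?_ ?_ ?_ ?_
  · intro i hi; exact hstab (i + 1) (by omega)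
  · intro i hi; exact hfix (i + 1) (by omega)
  · intro i hi x hx hgx
    rw [T.F_succ_right] at hx
    apply fixed_in_adj (T.z_ne_zero _) _ T.mu_p_mem (hfix i (by omega)) _ hx hgx
    · rw [T.hzs]; exact T.z_mem _ _
    · rw [hmove i (by omega)]
      intro h
      apply hξ1
      exact mul_right_cancel₀ (T.z_ne_zero (i + 1)) (by rw [h, one_mul])
  · intro i hi
    rw [T.F_succ_right]
    apply depth_of_nonApprox (T.z_ne_zero _) _ (ha i hi) (haN i hi) (hfix i (by omega))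
    rw [T.hzs]; exact T.z_mem _ _
  · intro i hi; exact (ha i hi).le
  · intro i hi; exact (haN i hi).le_pi0 (T.z_ne_zero _)
  · exact hstab n le_rfl
  · exact hfix n le_rfl
  · exact T.z_ne_zero _
  · rw [hgz, mul_div_cancel_right₀ _ (T.z_ne_zero _)]
    exact hξmem _ le_rfl _
  · exact hmove n le_rfl
  · have := hξs 0
    rw [zero_add, hξ0] at this
    exact this
  · exact hξ1

theorem R4 {n j : ℕ} (hn1 : 1 ≤ n) {b : ℕ → ℝ}
    (hb : ∀ i < n, 0 < b i) (hbN : ∀ i < n, T.NC i j (b i)) :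
    T.NC n j (min (Real.log p / p) ((p - 1) * ∑ i ∈ range n, b i)) := by
  have hζ1 : T.ζ 1 ∉ T.F 0 j := not_mem_of_nonApprox (T.ζ_ne_zero _) (hbN 0 (by omega))
  obtain ⟨g, hg, hgζ1⟩ := exists_gal_ne hζ1
  -- the exponent
  have hone : g (T.ζ (n + 1)) ^ (p ^ (T.K0 + (n + 1))) = 1 := by
    rw [← map_pow, (T.ζ_prim (n + 1)).pow_eq_one, map_one]
  have : NeZero (p ^ (T.K0 + (n + 1))) := ⟨pow_ne_zero _ hp.out.ne_zero⟩
  obtain ⟨u, -, hu⟩ := (T.ζ_prim (n + 1)).eq_pow_of_pow_eq_one hone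
  have hζpow : ∀ i m, T.ζ (i + m) ^ (p ^ m) = T.ζ i := by
    intro i m
    induction m with
    | zero => simp
    | succ m ih => rw [← add_assoc, pow_succ', pow_mul, T.hζs, ih]
  have hgζ : ∀ i ≤ n + 1, g (T.ζ i) = T.ζ i ^ u := by
    intro i hi
    obtain ⟨m, hm⟩ := Nat.exists_eq_add_of_le hi
    rw [← hζpow i m, map_pow, ← hm, ← hu, ← pow_mul, ← pow_mul, mul_comm]
  have hgm : ∀ i ≤ n + 1, ∀ m : ℕ, (g ^ m) (T.ζ i) = T.ζ i ^ (u ^ m) := by
    intro i hi m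
    induction m with
    | zero => simp
    | succ m ih => rw [pow_succ', AlgEquiv.mul_apply, ih, map_pow, hgζ i hi, ← pow_mul, pow_succ']
  have hiff : ∀ i (m : ℕ), T.ζ i ^ m = T.ζ i ↔ (p : ℤ) ^ (T.K0 + i) ∣ (m : ℤ) - 1 := by
    intro i m
    have h1 := (T.ζ_prim i).zpow_eq_one_iff_dvd ((m : ℤ) - 1)
    rw [zpow_sub₀ (T.ζ_ne_zero i), zpow_one, zpow_natCast, div_eq_one_iff_eq (T.ζ_ne_zero i)] at h1
    rw [h1]
    push_cast
    rfl
  have hu1 : (p : ℤ) ^ T.K0 ∣ (u : ℤ) - 1 := by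
    have h1 : T.ζ 0 ^ u = T.ζ 0 := by rw [← hgζ 0 (by omega), hg _ (T.ζ_mem 0 j)]
    exact (hiff 0 u).1 h1
  have hu2 : ¬ (p : ℤ) ^ (T.K0 + 1) ∣ (u : ℤ) - 1 := by
    intro h
    apply hgζ1
    rw [hgζ 1 (by omega)]
    exact (hiff 1 u).2 h
  have hlte := lte_iter hp.out T.hK0 T.hK02 hu1 hu2
  have hgE : ∀ m : ℕ, ∀ y ∈ T.E, (g ^ m) y = y := fun m y hy =>
    pow_fix (hg y (T.E_le _ _ hy)) m
  have hgz : g (T.z j) = T.z j := hg _ (T.z_mem _ _)
  have hstab : ∀ i ≤ n, ∀ x ∈ T.F i j, g x ∈ T.F i j := by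
    intro i hi
    apply adj_stable
    · refine adj_stable ?_ ?_
      · intro y hy; rw [hg y (T.E_le _ _ hy)]; exact hy
      · rw [hgζ i (by omega)]; exact pow_mem (mem_adj_self _ _) _
    · rw [hgz]; exact mem_adj_self _ _
  have hfix : ∀ i ≤ n, ∀ x ∈ T.F i j, (g ^ (p ^ i)) x = x := by
    intro i hi
    apply adj_fixed
    · apply adj_fixed (hgE _)
      rw [hgm i (by omega), hiff]
      have := (hlte i).1
      push_cast
      exact this
    · exact pow_fix hgz _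
  have hmove : ∀ i ≤ n, (g ^ (p ^ i)) (T.ζ (i + 1)) ≠ T.ζ (i + 1) := by
    intro i hi
    rw [hgm _ (by omega), Ne, hiff]
    have := (hlte i).2
    push_cast
    exact this
  set ξ := T.ζ (n + 1) ^ ((u : ℤ) ^ (p ^ n) - 1) with hξdef
  have hgn : (g ^ (p ^ n)) (T.ζ (n + 1)) = ξ * T.ζ (n + 1) := by
    rw [hgm _ le_rfl, hξdef, zpow_sub₀ (T.ζ_ne_zero _), zpow_one,
      div_mul_cancel₀ _ (T.ζ_ne_zero _), ← zpow_natCast]
    push_cast
    rfl
  refine nonApprox_of_tower (g := g) (G := fun i => T.F i j) (d := b) n (ξ := ξ)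
    ?_ ?_ ?_ ?_ ?_ ?_ ?_ ?_ ?_ ?_ ?_ ?_ ?_
  · intro i hi; exact hstab (i + 1) (by omega)
  · intro i hi; exact hfix (i + 1) (by omega)
  · intro i hi x hx hgx
    rw [T.F_succ_left] at hx
    apply fixed_in_adj (T.ζ_ne_zero _) _ T.mu_p_mem (hfix i (by omega)) (hmove i (by omega)) hx hgx
    rw [T.hζs]; exact T.ζ_mem _ _
  · intro i hi
    rw [T.F_succ_left]
    apply depth_of_nonApprox (T.ζ_ne_zero _) _ (hb i hi) (hbN i hi) (hfix i (by omega))
    rw [T.hζs]; exact T.ζ_mem _ _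
  · intro i hi; exact (hb i hi).le
  · intro i hi; exact (hbN i hi).le_pi0 (T.ζ_ne_zero _)
  · exact hstab n le_rfl
  · exact hfix n le_rfl
  · exact T.ζ_ne_zero _
  · apply T.mu_mem (m := n + 1) (by have := T.hK0; omega)
    rw [hgζ _ le_rfl, div_pow, div_eq_one_iff_eq (pow_ne_zero _ (T.ζ_ne_zero _)), ← pow_mul,
      mul_comm, pow_mul, add_comm n 1, add_comm 1 n]
    have h3 : T.ζ (n + 1) ^ (p ^ (n + 1)) = T.ζ 0 := by
      have := hζpow 0 (n + 1)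
      rwa [zero_add] at this
    rw [h3, ← hgζ 0 (by omega), hg _ (T.ζ_mem 0 j)]
  · exact hgn
  · rw [hξdef, ← zpow_natCast, ← zpow_mul, (T.ζ_prim (n + 1)).zpow_eq_one_iff_dvd]
    have h4 := (hlte n).1
    push_cast
    rw [← add_assoc, pow_succ]
    exact mul_dvd_mul h4 dvd_rfl
  · rw [hξdef, Ne, (T.ζ_prim (n + 1)).zpow_eq_one_iff_dvd]
    have h4 := (hlte n).2
    push_cast
    exact h4

end TowerData

end MS
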