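import Pool.Agent.Lib_helper24.MS.Diag

/-!
Adjoining roots of unity of order prime to `p` does not change the values of the norm.
-/

namespace MS

open Finset IntermediateField

variable {p : ℕ} [hp : Fact p.Prime]

theorem norm_unity_sub_one {n : ℕ} (hn : n.Coprime p) {η : PadicAlgCl p} (hη : η ^ n = 1)
    (h1 : η ≠ 1) : ‖η - 1‖ = 1 := by
  have hn0 : n ≠ 0 := by
    rintro rfl
    rw [Nat.coprime_zero_left] at hn
    exact hp.out.one_lt.ne' hn
  have hηn : ‖η‖ = 1 := norm_root_of_unity hn0 hη
  apply le_antisymm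
  · refine (norm_sub_le_max' _ _).trans ?_
    rw [hηn, norm_one, max_self]
  · by_contra hcon
    rw [not_le] at hcon
    have hsum : ∑ i ∈ range n, η ^ i = 0 := by
      have h2 := mul_geom_sum η n
      rw [hη, sub_self] at h2
      exact (mul_eq_zero.1 h2).resolve_left (sub_ne_zero.2 h1)
    have h3 : ‖∑ i ∈ range n, (η ^ i - 1)‖ ≤ ‖η - 1‖ :=
      norm_sum_le' _ _ (norm_nonneg _) (fun i _ => norm_pow_sub_one_le hηn.le i)
    rw [Finset.sum_sub_distrib, hsum, Finset.sum_const, Finset.card_range, nsmul_eq_mul, mul_one,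
      zero_sub, norm_neg, norm_natCast_eq_one hn] at h3
    linarith

theorem norm_unity_sub {n : ℕ} (hn : n.Coprime p) {r s : PadicAlgCl p} (hr : r ^ n = 1)
    (hs : s ^ n = 1) (h : r ≠ s) : ‖r - s‖ = 1 := by
  have hn0 : n ≠ 0 := by
    rintro rfl
    rw [Nat.coprime_zero_left] at hn
    exact hp.out.one_lt.ne' hn
  have hs0 : s ≠ 0 := by
    rintro rfl
    rw [zero_pow hn0] at hs
    exact zero_ne_one hs
  have h1 : r - s = (r / s - 1) * s := by field_simp
  rw [h1, norm_mul, norm_root_of_unity hn0 hs, mul_one]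
  apply norm_unity_sub_one hn
  · rw [div_pow, hr, hs, div_one]
  · intro h2
    rw [div_eq_one_iff_eq hs0] at h2
    exact h h2

/-- all the coefficients are bounded by `C` -/
def PB (Q : Polynomial (PadicAlgCl p)) (C : ℝ) : Prop := ∀ i, ‖Q.coeff i‖ ≤ C

theorem PB.mul {Q Q' : Polynomial (PadicAlgCl p)} {C C' : ℝ} (h : PB Q C) (h' : PB Q' C') :
    PB (Q * Q') (C * C') := by
  have hC : 0 ≤ C := (norm_nonneg _).trans (h 0)
  have hC' : 0 ≤ C' := (norm_nonneg _).trans (h' 0)
  intro i
  rw [Polynomial.coeff_mul]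
  apply norm_sum_le' _ _ (by positivity)
  intro x _
  rw [norm_mul]
  gcongr
  · exact h _
  · exact h' _

theorem PB.prod {ι : Type*} (s : Finset ι) (f : ι → Polynomial (PadicAlgCl p))
    (h : ∀ i ∈ s, PB (f i) 1) : PB (∏ i ∈ s, f i) 1 := by
  classical
  induction s using Finset.induction_on with
  | empty =>
    intro i
    rw [Finset.prod_empty, Polynomial.coeff_one]
    split_ifs <;> simp
  | insert a s ha ih =>
    rw [Finset.prod_insert ha]
    have h1 := (h a (Finset.mem_insert_self _ _)).mul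
      (ih (fun i hi => h i (Finset.mem_insert_of_mem hi)))
    rwa [one_mul] at h1

theorem PB.sum {ι : Type*} (s : Finset ι) (f : ι → Polynomial (PadicAlgCl p)) {C : ℝ} (hC : 0 ≤ C)
    (h : ∀ i ∈ s, PB (f i) C) : PB (∑ i ∈ s, f i) C := by
  intro k
  rw [Polynomial.finsetSum_coeff]
  exact norm_sum_le' _ _ hC (fun i hi => h i hi k)

theorem mem_adj_poly {F : IntermediateField ℚ_[p] (PadicAlgCl p)} {ω x : PadicAlgCl p}
    (hx : x ∈ adj F ω) : ∃ P : Polynomial F, P.natDegree < (minpoly F ω).natDegree ∧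
      Polynomial.aeval ω P = x := by
  have h1 : adj F ω ≤ (IntermediateField.adjoin F {ω}).restrictScalars ℚ_[p] := by
    apply adj_le
    · intro y hy
      rw [IntermediateField.mem_restrictScalars]
      exact (IntermediateField.adjoin F {ω}).algebraMap_mem ⟨y, hy⟩
    · rw [IntermediateField.mem_restrictScalars]
      exact mem_adjoin_simple_self _ ω
  have h2 := h1 hx
  rw [IntermediateField.mem_restrictScalars] at h2
  have hint : IsAlgebraic F ω := Algebra.IsAlgebraic.isAlgebraic ω
  have h3 : x ∈ (IntermediateField.adjoin F {ω}).toSubalgebra := h2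
  rw [IntermediateField.adjoin_simple_toSubalgebra_of_isAlgebraic hint,
    Algebra.adjoin_singleton_eq_range_aeval] at h3
  obtain ⟨P, hP⟩ := h3
  have hmon := minpoly.monic hint.isIntegral
  refine ⟨P %ₘ (minpoly F ω), ?_, ?_⟩
  · apply Polynomial.natDegree_modByMonic_lt _ hmon
    exact minpoly.ne_one F ω
  · have h4 := congrArg (Polynomial.aeval ω) (Polynomial.modByMonic_add_div P (minpoly F ω))
    rw [map_add, map_mul, minpoly.aeval, zero_mul, add_zero] at h4
    rw [h4]
    exact hP

/-- `F(ω)/F` is unramified in the sense of values, for a root of unity `ω` of order prime to `p`. -/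
theorem norm_mem_of_unram {F : IntermediateField ℚ_[p] (PadicAlgCl p)} {n : ℕ} (hn : n.Coprime p)
    {ω : PadicAlgCl p} (hω : ω ^ n = 1) {y : PadicAlgCl p} (hy : y ∈ adj F ω) :
    ∃ c ∈ F, ‖c‖ = ‖y‖ := by
  classical
  obtain ⟨P, hPdeg, hPy⟩ := mem_adj_poly hy
  have hn0 : n ≠ 0 := by
    rintro rfl
    rw [Nat.coprime_zero_left] at hn
    exact hp.out.one_lt.ne' hn
  have hint : IsIntegral F ω := Algebra.IsIntegral.isIntegral ω
  set f := minpoly F ω with hf
  set R : Finset (PadicAlgCl p) := (f.aroots (PadicAlgCl p)).toFinset with hR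
  have hsep : f.Separable := (minpoly.irreducible hint).separable
  have hRcard : R.card = f.natDegree := by
    rw [hR, Multiset.toFinset_card_of_nodup]
    · rw [Polynomial.aroots_def, ← Polynomial.natDegree_map (algebraMap F (PadicAlgCl p))]
      exact (Polynomial.splits_iff_card_roots.1 (IsAlgClosed.splits _))
    · exact Polynomial.nodup_aroots_iff_of_splits (minpoly.ne_zero hint)
        (IsAlgClosed.splits _) |>.2 hsep
  have hroot : ∀ r ∈ R, Polynomial.aeval r f = 0 := by
    intro r hr
    rw [hR, Multiset.mem_toFinset, Polynomial.mem_aroots] at hr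
    exact hr.2
  have hgal : ∀ r ∈ R, ∃ g : Gp p, (∀ z ∈ F, g z = z) ∧ g ω = r := by
    intro r hr
    obtain ⟨σ, hσ⟩ := minpoly.exists_algEquiv_of_root' (K := F) (L := PadicAlgCl p)
      hint.isAlgebraic (hroot r hr)
    refine ⟨σ.restrictScalars ℚ_[p], ?_, hσ⟩
    intro z hz
    exact σ.commutes ⟨z, hz⟩
  have hrn : ∀ r ∈ R, r ^ n = 1 := by
    intro r hr
    obtain ⟨g, -, hgr⟩ := hgal r hr
    rw [← hgr, ← map_pow, hω, map_one]
  set Q := P.map (algebraMap F (PadicAlgCl p)) with hQ
  have hQdeg : Q.degree < R.card := by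
    rw [hRcard]
    refine lt_of_le_of_lt Polynomial.degree_map_le ?_
    exact lt_of_le_of_lt Polynomial.degree_le_natDegree (by exact_mod_cast hPdeg)
  have hQr : ∀ r ∈ R, ‖Q.eval r‖ = ‖y‖ := by
    intro r hr
    obtain ⟨g, hgF, hgr⟩ := hgal r hr
    have e1 : Q.eval r = g y := by
      rw [hQ, Polynomial.eval_map, ← hPy, Polynomial.aeval_def, ← hgr, Polynomial.eval₂_eq_sum,
        Polynomial.eval₂_eq_sum, Polynomial.sum, Polynomial.sum, map_sum]
      apply Finset.sum_congr rfl
      intro i _
      rw [map_mul, map_pow]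
      congr 1
      exact (hgF _ (P.coeff i).2).symm
    rw [e1, norm_gal]
  have hlag := Lagrange.eq_interpolate (s := R) (v := id) (f := Q) (Set.injOn_id _) hQdeg
  have hPB : PB Q ‖y‖ := by
    rw [hlag, Lagrange.interpolate_apply]
    apply PB.sum _ _ (norm_nonneg _)
    intro r hr
    have h1 : PB (Polynomial.C (Q.eval (id r))) ‖y‖ := by
      intro i
      rw [Polynomial.coeff_C]
      split_ifs
      · exact (hQr r hr).le
      · rw [norm_zero]; exact norm_nonneg _
    have h2 : PB (Lagrange.basis R id r) 1 := by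
      unfold Lagrange.basis
      apply PB.prod
      intro s hs
      rw [Finset.mem_erase] at hs
      unfold Lagrange.basisDivisor
      have h3 : ‖(id r - id s)⁻¹‖ = 1 := by
        rw [norm_inv, id, id, norm_unity_sub hn (hrn r hr) (hrn s hs.2) hs.1.symm, inv_one]
      intro i
      rw [Polynomial.coeff_C_mul, norm_mul, h3, one_mul, Polynomial.coeff_sub,
        Polynomial.coeff_X, Polynomial.coeff_C]
      refine (norm_sub_le_max' _ _).trans (max_le ?_ ?_)
      · split_ifs <;> simp
      · split_ifs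
        · rw [id, norm_root_of_unity hn0 (hrn s hs.2)]
        · simp
    have h4 := h1.mul h2
    rwa [mul_one] at h4
  by_cases hy0 : y = 0
  · exact ⟨0, F.zero_mem, by rw [hy0]⟩
  -- the sum
  have hsum : y = ∑ i ∈ range (P.natDegree + 1), (P.coeff i : PadicAlgCl p) * ω ^ i := by
    rw [← hPy, Polynomial.aeval_eq_sum_range]
    apply Finset.sum_congr rfl
    intro i _
    rw [Algebra.smul_def]
    rfl
  obtain ⟨i, -, hle⟩ := IsUltrametricDist.exists_norm_finsetSum_le_of_nonempty
    (t := range (P.natDegree + 1)) ⟨0, by simp⟩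
    (fun i => (P.coeff i : PadicAlgCl p) * ω ^ i)
  rw [← hsum, norm_mul, norm_pow, norm_root_of_unity hn0 hω, one_pow, mul_one] at hle
  refine ⟨P.coeff i, (P.coeff i).2, le_antisymm ?_ hle⟩
  have := hPB i
  rwa [hQ, Polynomial.coeff_map] at this

end MS
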